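import Pool.Agent.Lib.PRC.Api

namespace Pool.Agent.Lib.PRC

open Matrix Pool.Agent.Lib.MP_3a0263_al Pool.Agent.Lib.MP_3a0263_al.R Pool.Agent.Lib.MP_3a0263_al.Q

attribute [local instance 100] LieRing.ofAssociativeRing

universe u

namespace BR

variable {Φ : Type u} [Fintype Φ] (C : Comb Φ)

theorem abs_le_three {a x : Φ} (h1 : x ≠ a) (h2 : x ≠ C.neg a) : |C.m a x| ≤ 3 := by
  have h := C1.mm_le C h1 h2
  rw [abs_le]
  rcases lt_trichotomy (C.m a x) 0 with h0 | h0 | h0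
  · have := C1.m_neg_symm C h0
    constructor <;> nlinarith
  · omega
  · have := C1.m_pos_symm C h0
    constructor <;> nlinarith

theorem no_three (hg : GoodAll C 3) (a x : Φ) : |C.m a x| ≠ 3 := by
  intro h
  obtain ⟨i, hi, e⟩ := C1.exists_simple C (fun b => ∃ y, |C.m b y| = 3) (fun i _ b => propext
    ⟨fun ⟨y, hy⟩ => ⟨C.s i y, by rwa [← C1.m_s_left]⟩,
      fun ⟨y, hy⟩ => ⟨C.s i y, by rwa [C1.m_s_s]⟩⟩) a
  obtain ⟨y, hy⟩ : ∃ y, C.m i y = -3 := by
    obtain ⟨y, hy⟩ := e ▸ (⟨x, h⟩ : ∃ y, |C.m a y| = 3)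
    rcases (abs_eq (by norm_num)).1 hy with hy | hy
    · exact ⟨C.neg y, by rw [C1.m_neg, hy]⟩
    · exact ⟨y, hy⟩
  have hn : C.m i (C.neg i) = -2 := by rw [C1.m_neg, C.two]
  have h1 : y ≠ C.neg i := fun e => by rw [e] at hy; omega
  obtain ⟨y1, e1⟩ := C1.add_root C (by omega) h1
  have m1 : C.m i y1 = -1 := by
    rw [C1.m_comb C i 1 1 (a := y) (b := i) fun j hj => by rw [e1 j hj]; ring, hy, C.two]
    rfl
  obtain ⟨y2, e2⟩ := C1.add_root C (a := i) (b := y1) (by omega) fun e => by rw [e] at m1; omega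
  have c1 := e1 i hi
  have c2 := e2 i hi
  have c3 := C.refl i y i hi
  rw [C.self i hi] at c1 c2 c3
  rw [hy] at c3
  have g0 := hg y i hi
  have g1 := hg y1 i hi
  have g2 := hg y2 i hi
  have g3 := hg (C.s i y) i hi
  have h2 : 0 < C.co (C.neg y) i := by rw [C.co_neg y i hi]; omega
  have h3 := C1.pos_s C hi (C1.pos_of_co C hi h2)
    (fun e => h1 (by rw [← e, C1.neg_neg])) i hi
  rw [C1.s_neg, C.co_neg _ i hi] at h3
  rw [C.co_neg y i hi] at h2
  omega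

theorem small {p : ℕ} (hp : p.Prime) (h2 : p ≠ 2) (hg : GoodAll C p) {a x : Φ} (h1 : x ≠ a)
    (h3 : x ≠ C.neg a) : C.m a x < p := by
  have h4 := abs_le_three C h1 h3
  have h5 := le_abs_self (C.m a x)
  have := hp.two_le
  by_cases h : p = 3
  · subst h
    have := no_three C hg a x
    omega
  · omega

theorem ne_of_str {a b x : Φ} (h1 : b ≠ a) (h2 : b ≠ C.neg a) {j : ℤ}
    (h : ∀ i ∈ C.Δ, C.co x i = C.co b i + j * C.co a i) : x ≠ a ∧ x ≠ C.neg a := by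
  constructor
  · rintro rfl
    exact (C.red x b 1 (1 - j) one_ne_zero fun i hi => by linarith [h i hi]).elim h1 h2
  · rintro rfl
    exact (C.red a b 1 (-1 - j) one_ne_zero fun i hi => by
      linarith [h i hi, C.co_neg a i hi]).elim h1 h2

theorem ne_of_sum {a b c : Φ} (h : L0.IsSum C a b c) : b ≠ a ∧ b ≠ C.neg a := by
  refine ⟨?_, fun e => L0.not_isSum_neg C a c (e ▸ h)⟩
  rintro rfl
  obtain ⟨i, hi, h0⟩ := C1.co_ne C b
  have h1 := h i hi
  have h2 := C.co_neg b i hi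
  rcases C.red b c 1 2 one_ne_zero fun j hj => by linarith [h j hj] with rfl | rfl <;> omega

theorem cast_ne (k : Type u) [Field k] (p : ℕ) [CharP k p] {z : ℤ} (h1 : 0 < z) (h2 : z < p) :
    (z : k) ≠ 0 := fun h =>
  absurd (Int.le_of_dvd h1 ((CharP.intCast_eq_zero_iff k p z).1 h)) (not_le.2 h2)

end BR

theorem st_br (k : Type u) [Field k] [IsAlgClosed k] (p : ℕ) [Fact p.Prime] [CharP k p]
    (hp : p ≠ 2) : S_br k p := by
  intro n _ _ L Φ _ R a b c habc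
  obtain ⟨hb1, hb2⟩ := BR.ne_of_sum _ habc
  have hm : ∀ (j : ℤ) x, (∀ i ∈ R.Δ, R.co x i = R.co b i + j * R.co a i) →
      R.m a x = R.m a b + 2 * j ∧ R.m a x < p := fun j x h =>
    ⟨by rw [C1.m_comb R.toComb a 1 j (a := b) (b := a) fun i hi => by rw [h i hi]; ring, R.two]
        ring,
      BR.small _ Fact.out hp R.good (BR.ne_of_str _ hb1 hb2 h).1 (BR.ne_of_str _ hb1 hb2 h).2⟩
  obtain ⟨r, ⟨top, ht⟩, hmax⟩ := Int.exists_greatest_of_bdd
    (P := fun j => ∃ x, ∀ i ∈ R.Δ, R.co x i = R.co b i + j * R.co a i)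
    ⟨p - R.m a b + p, fun j ⟨x, hx⟩ => by have := hm j x hx; have := hm 0 b (by simp); omega⟩
    ⟨0, b, by simp⟩
  have hr1 : 1 ≤ r := hmax 1 ⟨c, fun i hi => by rw [habc i hi]; ring⟩
  have hr2 : -R.m a b ≤ r := hmax _ ⟨R.s a b, fun i hi => by rw [R.refl a b i hi]; ring⟩
  obtain ⟨hM1, hM2⟩ := hm r top ht
  have t : IsSl2Triple (diagonal (R.h a).1) (R.e a) (R.e (R.neg a)) :=
    ⟨fun h => R.h_ne (two_ne k p hp) a (by rw [← R.tp_t (R.h a), h, map_zero]), R.br_h a,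
      by rw [R.lie_e, R.wt_self, two_smul, two_smul],
      by rw [R.lie_e, L0.wt_neg R.toCRoot, R.wt_self, neg_smul, two_smul, two_smul]⟩
  have P : t.HasPrimitiveVectorWith (R.e top) (R.m a top : k) :=
    ⟨L0.e_ne R.toCRoot top, by rw [R.lie_e, R.wt_hh], L0.br_zero R.toCRoot
      (BR.ne_of_str _ hb1 hb2 ht).2 fun δ hδ => by
        have := hmax (r + 1) ⟨δ, fun i hi => by rw [hδ i hi, ht i hi]; ring⟩
        omega⟩
  set f := LieModule.toEnd k (Matrix n n k) (Matrix n n k) (R.e (R.neg a)) with hf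
  have h1 : ∀ j : ℕ, (j : ℤ) + 1 ≤ r → (f ^ j) (R.e top) ≠ 0 →
      ⁅R.e a, (f ^ (j + 1)) (R.e top)⁆ ≠ 0 := by
    intro j hj h0
    rw [hf, P.lie_e_pow_succ_toEnd_f j]
    refine smul_ne_zero (mul_ne_zero ?_ ?_) h0
    · simpa using BR.cast_ne k p (z := j + 1) (by omega) (by omega)
    · simpa using BR.cast_ne k p (z := R.m a top - j) (by omega) (by omega)
  have h2 : ∀ j : ℕ, (j : ℤ) ≤ r → (f ^ j) (R.e top) ≠ 0 ∧ ∃ (x : Φ) (κ : k),
      (∀ i ∈ R.Δ, R.co x i = R.co b i + (r - j) * R.co a i) ∧ (f ^ j) (R.e top) = κ • R.e x := by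
    intro j
    induction j with
    | zero => exact fun _ => ⟨P.ne_zero, top, 1, by simpa using ht, by simp⟩
    | succ j ih =>
      intro hj
      push_cast at hj
      obtain ⟨h0, x, κ, hx, e⟩ := ih (by omega)
      have h3 : (f ^ (j + 1)) (R.e top) ≠ 0 := fun h => h1 j hj h0 (by rw [h, lie_zero])
      have h4 : (f ^ (j + 1)) (R.e top) = κ • ⁅R.e (R.neg a), R.e x⁆ := by
        rw [pow_succ', Module.End.mul_apply, e, map_smul]
        rfl
      refine ⟨h3, ?_⟩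
      by_cases h5 : ∃ δ, L0.IsSum R.toComb (R.neg a) x δ
      · obtain ⟨δ, hδ⟩ := h5
        refine ⟨δ, κ * _, fun i hi => ?_, by rw [h4, L0.br_sum R.toCRoot hδ, smul_smul]⟩
        rw [hδ i hi, hx i hi, R.co_neg a i hi]
        push_cast
        ring
      · refine absurd ?_ h3
        rw [h4, L0.br_zero R.toCRoot _ (not_exists.1 h5), smul_zero]
        rw [C1.neg_neg]
        exact (BR.ne_of_str _ hb1 hb2 hx).1
  obtain ⟨j, rfl⟩ : ∃ j : ℕ, r = j + 1 := ⟨(r - 1).toNat, by omega⟩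
  obtain ⟨-, x, κ, hx, e⟩ := h2 (j + 1) (by push_cast; rfl)
  obtain rfl : x = b := R.inj _ _ fun i hi => by rw [hx i hi]; push_cast; ring
  have h3 := h1 j le_rfl (h2 j (by omega)).1
  rw [e, lie_smul] at h3
  exact right_ne_zero_of_smul h3

theorem st_gen (k : Type u) [Field k] [IsAlgClosed k] (p : ℕ) [Fact p.Prime] [CharP k p]
    (_hp : p ≠ 2) (hbr : S_br k p) : S_gen k p := by
  intro n _ _ L Φ _ R D M hM
  suffices H : ∀ (N : ℕ) β, C1.ht R.toComb β ≤ N → C1.Pos R.toComb β →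
      (∀ j ∈ R.Δ, j ∉ D → R.co β j = 0) → R.e β ∈ M from
    fun β => H (C1.ht R.toComb β).toNat β (by omega)
  intro N
  induction N with
  | zero => exact fun β h hβ => absurd (C1.ht_pos _ hβ) (by omega)
  | succ N ih =>
    intro β h hβ hD
    obtain ⟨i, hi, h1, h2⟩ := C1.exists_m_pos _ hβ
    have hiD : i ∈ D := by_contra fun hn => h1.ne' (hD i hi hn)
    by_cases e : β = i
    · exact e ▸ hM i hi hiD
    obtain ⟨γ, hγ⟩ := C1.sub_root _ h2 e
    obtain ⟨j, hj, hji, h3⟩ := C1.exists_co_pos _ hi hβ e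
    have hs : L0.IsSum R.toComb i γ β := fun l hl => by rw [hγ l hl]; ring
    have h4 := C1.ht_comb R.toComb 1 1 (a := i) (b := γ) (c := β) fun l hl => by rw [hγ l hl]; ring
    rw [C1.ht_simple _ hi] at h4
    have h5 := ih γ (by push_cast at h; omega)
      (C1.pos_of_co _ hj (by rw [hγ j hj, R.ne i hi j hj hji.symm]; omega)) fun l hl hn => by
        rw [hγ l hl, hD l hl hn, R.ne i hi l hl fun e => hn (e ▸ hiD), sub_zero]
    have h6 := L0.br_sum R.toCRoot hs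
    have h7 : R.cf β ⁅R.e i, R.e γ⁆ ≠ 0 := fun h0 =>
      hbr n L Φ R i γ β hs (by rw [h6, h0, zero_smul])
    have h8 := M.smul_mem (R.cf β ⁅R.e i, R.e γ⁆)⁻¹ (M.lie_mem (hM i hi hiD) h5)
    rwa [h6, map_smul, R.cf_self, smul_eq_mul, mul_one, smul_smul, inv_mul_cancel₀ h7,
      one_smul] at h8

end Pool.Agent.Lib.PRC
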