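import Pool.Agent.Lib.PRC.Api
import Pool.Agent.Lib.MP_3a0263_al.Proj

namespace Pool.Agent.Lib.PRC

open Pool.Agent.Lib.MP_3a0263_al

attribute [local instance 100] LieRing.ofAssociativeRing

universe u

namespace CAS

variable {k : Type u} [Field k] {L : Type u} [LieRing L] [LieAlgebra k L]
  {κ : L →ₗ[k] L →ₗ[k] k} {ι : Type} [Fintype ι] {x y : ι → L}

theorem sym1 (H : IF L κ 1) (u w : L) : κ u w = κ w u := by rw [H.sym, one_mul]

theorem exists_db [FiniteDimensional k L] (H : IF L κ 1) :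
    ∃ (m : ℕ) (x y : Fin m → L), DB κ x y := by
  let b := Module.finBasis k L
  have nd : LinearMap.BilinForm.Nondegenerate κ :=
    ⟨H.nd, fun w h => H.nd w fun u => by rw [sym1 H, h]⟩
  have hx : ∀ v, ∑ a, κ v (b a) • LinearMap.BilinForm.dualBasis κ nd b a = v := fun v => by
    simpa only [LinearMap.BilinForm.dualBasis_repr_apply] using
      (LinearMap.BilinForm.dualBasis κ nd b).sum_repr v
  refine ⟨_, LinearMap.BilinForm.dualBasis κ nd b, b, hx, fun v => ?_⟩
  refine sub_eq_zero.1 (H.nd _ fun w => ?_)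
  rw [map_sub, LinearMap.sub_apply, sub_eq_zero]
  conv_rhs => rw [← hx w]
  simp only [map_sum, map_smul, LinearMap.sum_apply, LinearMap.smul_apply, smul_eq_mul]
  exact Finset.sum_congr rfl fun a _ => by rw [mul_comm, sym1 H (b a)]

theorem inv_sum [IsAlgClosed k] [FiniteDimensional k L] (H : IF L κ 1) (D : DB κ x y)
    (hs : LieAlgebra.IsSimple k L) (h0 : (Module.finrank k L : k) = 0) (B : L →ₗ[k] L →ₗ[k] k)
    (hB : ∀ z a a' : L, B ⁅z, a⁆ a' = - B a ⁅z, a'⁆) : ∑ c, B (x c) (y c) = 0 := by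
  let T : Module.End k L := ∑ c, (B.flip (y c)).smulRight (x c)
  have hT : ∀ a a', κ (T a) a' = B a a' := fun a a' => by
    conv_rhs => rw [← D.hy a']
    simp only [T, map_sum, map_smul, LinearMap.sum_apply, LinearMap.smul_apply, smul_eq_mul,
      LinearMap.smulRight_apply, LinearMap.flip_apply]
    exact Finset.sum_congr rfl fun c _ => by rw [mul_comm, sym1 H (x c)]
  obtain ⟨c, hc⟩ := schur (g := L) inferInstance T fun z => LinearMap.ext fun a => by
    refine sub_eq_zero.1 (H.nd _ fun w => ?_)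
    simp only [Module.End.mul_apply, LieModule.toEnd_apply_apply, map_sub, LinearMap.sub_apply,
      H.inv, hT, hB, sub_self]
  simp only [← hT]
  rw [← D.trace T, hc, map_smul, LinearMap.trace_one, h0, smul_zero]

variable (W : Type u) [AddCommGroup W] [Module k W] [LieRingModule L W] [LieModule k L W]

variable (k L) in
/-- the product of two elements acting on `W` -/
noncomputable def pr : L →ₗ[k] L →ₗ[k] Module.End k W :=
  (LinearMap.mul k (Module.End k W)).compl₁₂ (LieModule.toEnd k L W : L →ₗ[k] Module.End k W)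
    (LieModule.toEnd k L W : L →ₗ[k] Module.End k W)

theorem pr_apply (a b : L) :
    pr k L W a b = LieModule.toEnd k L W a * LieModule.toEnd k L W b := rfl

theorem comm (H : IF L κ 1) (D : DB κ x y) (z : L) :
    Commute (cas k W x y) (LieModule.toEnd k L W z) := by
  have h := D.transfer (sym1 H) (pr k L W) (LieModule.toEnd k L L z) (-LieModule.toEnd k L L z)
    fun u w => by
      rw [LinearMap.neg_apply, map_neg]; exact H.inv z u w
  rw [← sub_eq_zero, ← Finset.sum_sub_distrib] at h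
  rw [Commute, SemiconjBy, eq_comm, ← sub_eq_zero, ← h, cas, Finset.mul_sum, Finset.sum_mul,
    ← Finset.sum_sub_distrib]
  refine Finset.sum_congr rfl fun c _ => ?_
  simp only [pr_apply, LinearMap.neg_apply, LieModule.toEnd_apply_apply, map_neg, LieHom.map_lie,
    Ring.lie_def]
  noncomm_ring

theorem adj (H : IF L κ 1) (D : DB κ x y) (β : W →ₗ[k] W →ₗ[k] k) (Hβ : IF L β 1) (u w : W) :
    β (cas k W x y u) w = β u (cas k W x y w) := by
  have h : cas k W x y = cas k W y x := D.swap (sym1 H) (pr k L W)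
  conv_rhs => rw [h]
  simp only [cas, map_sum, LinearMap.sum_apply, Module.End.mul_apply, LieModule.toEnd_apply_apply,
    Hβ.inv, neg_neg]

theorem deg (H : IF L κ 1) (D : DB κ x y) (Q : Gr k L) (G : Gr k W) (hQ : Q.Pair κ)
    (h : ∀ j z, G.Deg (LieModule.toEnd k L W (Q.P j z)) j) : G.Deg (cas k W x y) 0 := by
  have e : cas k W x y = ∑ j ∈ Finset.Icc (-(Q.N : ℤ)) Q.N, ∑ c,
      pr k L W (Q.P j (x c)) (Q.P (-j) (y c)) := by
    have e1 : ∀ j, ∑ c, pr k L W (Q.P j (x c)) (Q.P (-j) (y c)) =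
        ∑ c, pr k L W (Q.P j (x c)) (y c) := fun j => by
      have := D.transfer (sym1 H) (pr k L W ∘ₗ Q.P j) (Q.P j) (Q.P (-j)) (hQ j)
      simp only [LinearMap.comp_apply, Q.idem] at this
      exact this.symm
    simp only [e1]
    rw [Finset.sum_comm]
    refine Finset.sum_congr rfl fun c _ => ?_
    rw [← LinearMap.sum_apply, ← map_sum, Q.sum, pr_apply]
  intro a w
  simp only [e, LinearMap.sum_apply, map_sum, pr_apply, Module.End.mul_apply, add_zero]
  refine Finset.sum_congr rfl fun j _ => Finset.sum_congr rfl fun c _ => ?_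
  rw [← h (-j) (y c) a w, ← h j (x c), neg_add_cancel_right]

end CAS

theorem st_cas (k : Type u) [Field k] [IsAlgClosed k] (p : ℕ) [Fact p.Prime] [CharP k p]
    (_hp : p ≠ 2) : S_cas k :=
  fun _ _ _ _ _ H => ⟨CAS.exists_db H, fun _ _ _ _ D => ⟨CAS.inv_sum H D, fun W _ _ _ _ =>
    ⟨CAS.comm W H D, CAS.adj W H D, CAS.deg W H D⟩⟩⟩

end Pool.Agent.Lib.PRC
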