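import Pool.Agent.Lib.PRC.Api
import Pool.Agent.Lib.MP_3a0263_al.Proj

namespace Pool.Agent.Lib.PRC

open LinearMap

attribute [local instance 100] LieRing.ofAssociativeRing

universe u

namespace FIT

variable {k : Type u} [Field k] {L : Type u} [LieRing L] [LieAlgebra k L] {W : Type u}
  [AddCommGroup W] [Module k W] [LieRingModule L W] [LieModule k L W]
  {ι : Type} [Fintype ι] {x y : ι → L}

theorem tr_split [FiniteDimensional k W] {U U' : Submodule k W} (h : IsCompl U U')
    (T : Module.End k W) (T1 : Module.End k U) (T2 : Module.End k U')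
    (h1 : ∀ u, (T1 u : W) = T u) (h2 : ∀ u, (T2 u : W) = T u) :
    trace k W T = trace k U T1 + trace k U' T2 := by
  have : T = (U.subtype ∘ₗ T1) ∘ₗ U.projectionOnto U' h +
      (U'.subtype ∘ₗ T2) ∘ₗ U'.projectionOnto U h.symm := by
    ext w
    simp only [LinearMap.add_apply, comp_apply, Submodule.subtype_apply, h1, h2, ← map_add,
      Submodule.coe_projectionOnto_apply, Submodule.projection_add_projection_eq_self]
  rw [this, map_add, trace_comp_comm', trace_comp_comm' (U'.projectionOnto U h.symm)]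
  congr 2
  · ext u; simp
  · ext u; simp

theorem cas_coe (U : LieSubmodule k L W) (u : U) : (cas k U x y u : W) = cas k W x y u := by
  simp only [cas, LinearMap.sum_apply, Module.End.mul_apply, LieModule.toEnd_apply_apply]
  exact (map_sum U.incl _ _).trans rfl

theorem cas_pow_coe (U : LieSubmodule k L W) (j : ℕ) (u : U) :
    ((cas k U x y ^ j) u : W) = (cas k W x y ^ j) u := by
  induction j with
  | zero => rfl
  | succ j ih => rw [pow_succ', pow_succ', Module.End.mul_apply, cas_coe, ih, Module.End.mul_apply]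

theorem op_coe (U : LieSubmodule k L W) (j : ℕ) (a a' : L) (u : U) :
    (op k U x y j a a' u : W) = op k W x y j a a' u := by
  rw [op, op, Module.End.mul_apply, cas_pow_coe]; rfl

theorem comm_sub (hc : ∀ z : L, Commute (cas k W x y) (LieModule.toEnd k L W z))
    (U : LieSubmodule k L W) (z : L) : Commute (cas k U x y) (LieModule.toEnd k L U z) := by
  ext u
  exact (cas_coe U _).trans ((LinearMap.congr_fun (hc z).eq u).trans
    (congrArg (fun w => ⁅z, w⁆) (cas_coe U u).symm))

/-- an invertible Casimir operator forces the dimension to vanish -/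
theorem dim_zero [FiniteDimensional k W]
    (hc : ∀ z : L, Commute (cas k W x y) (LieModule.toEnd k L W z))
    (hB : ∀ B : L →ₗ[k] L →ₗ[k] k, (∀ z a a' : L, B ⁅z, a⁆ a' = - B a ⁅z, a'⁆) →
      ∑ c, B (x c) (y c) = 0) (hi : Function.Injective (cas k W x y)) :
    (Module.finrank k W : k) = 0 := by
  obtain ⟨D, hD⟩ := ((LinearMap.isUnit_iff_ker_eq_bot _).2 (ker_eq_bot.2 hi))
  have hD' : ∀ z : L, Commute (↑D⁻¹ : Module.End k W) (LieModule.toEnd k L W z) := fun z =>
    Commute.units_inv_left (by rw [hD]; exact hc z)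
  have := hB (((LinearMap.mul k _).compl₁₂ (LieModule.toEnd k L W : L →ₗ[k] Module.End k W)
    (LieModule.toEnd k L W : L →ₗ[k] Module.End k W)).compr₂ (trace k W ∘ₗ mulLeft k ↑D⁻¹))
    fun z a a' => by
      change trace k W (↑D⁻¹ * (LieModule.toEnd k L W ⁅z, a⁆ * LieModule.toEnd k L W a')) =
        - trace k W (↑D⁻¹ * (LieModule.toEnd k L W a * LieModule.toEnd k L W ⁅z, a'⁆))
      rw [eq_neg_iff_add_eq_zero, ← map_add, LieHom.map_lie, LieHom.map_lie, Ring.lie_def,
        Ring.lie_def]
      have e := trace_mul_comm k (LieModule.toEnd k L W z)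
        (↑D⁻¹ * (LieModule.toEnd k L W a * LieModule.toEnd k L W a'))
      rw [← mul_assoc, ← (hD' z).eq, ← sub_eq_zero, ← map_sub] at e
      rw [← e]
      congr 1
      noncomm_ring
  change ∑ c, trace k W (↑D⁻¹ * (LieModule.toEnd k L W (x c) * LieModule.toEnd k L W (y c))) = 0
    at this
  rw [← map_sum, ← Finset.mul_sum] at this
  change trace k W (↑D⁻¹ * cas k W x y) = 0 at this
  rwa [← hD, Units.inv_mul, trace_one] at this

theorem le_one [FiniteDimensional k W] {A B F : Submodule k W} (h : Disjoint A B)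
    (hF : Module.finrank k F ≤ 2) (hA : A ⊓ F ≠ ⊥) : Module.finrank k (B ⊓ F :) ≤ 1 := by
  have h1 := Submodule.finrank_sup_add_finrank_inf_eq (A ⊓ F) (B ⊓ F)
  have h2 : Module.finrank k ((A ⊓ F) ⊔ (B ⊓ F) :) ≤ Module.finrank k F :=
    Submodule.finrank_mono (sup_le inf_le_right inf_le_right)
  have h3 : (A ⊓ F) ⊓ (B ⊓ F) = ⊥ := (h.mono inf_le_left inf_le_left).eq_bot
  have h4 : Module.finrank k (A ⊓ F :) ≠ 0 := fun e => hA (Submodule.finrank_eq_zero.1 e)
  rw [h3, finrank_bot] at h1
  omega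

end FIT

open FIT in
theorem st_fit (k : Type u) [Field k] [IsAlgClosed k] (p : ℕ) [Fact p.Prime] [CharP k p]
    (hp : p ≠ 2) (hsimple : S_simple k) : S_fit k := by
  intro L _ _ W _ _ _ _ _ β H G hG l e f he hf he2 hf2 ι _ x y hc hs hd hB hdim h2 h15 a t ht
    t0 t1 t2
  obtain ⟨s1, s2⟩ := hsimple L W β H G hG l e f (fun _ => 1) (fun _ => one_pos) he hf
  obtain ⟨n, hn, hn1⟩ := ((cas k W x y).eventually_isCompl_ker_pow_range_pow.and
    (Filter.eventually_ge_atTop 1)).exists
  set C := cas k W x y with hC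
  have hcn : ∀ (z : L) w, (C ^ n) ⁅z, w⁆ = ⁅z, (C ^ n) w⁆ := fun z w =>
    LinearMap.congr_fun ((hc z).pow_left n).eq w
  have hP : ∀ b w, (C ^ n) (G.P b w) = G.P b ((C ^ n) w) := fun b w =>
    LinearMap.congr_fun (Commute.pow_left (a := C) (b := G.P b) (by
      ext w; have := hd b w; rw [add_zero] at this; exact this.symm) n).eq w
  have hsn : ∀ m u w, β ((C ^ m) u) w = β u ((C ^ m) w) := fun m => by
    induction m with
    | zero => exact fun _ _ => rfl
    | succ m ih =>
      intro u w
      conv_lhs => rw [pow_succ', Module.End.mul_apply, hs, ih]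
      rw [pow_succ, Module.End.mul_apply]
  let M0 : LieSubmodule k L W :=
    { ker (C ^ n) with
      lie_mem := fun {z w} hw => by
        change (C ^ n) ⁅z, w⁆ = 0
        rw [hcn, show (C ^ n) w = 0 from hw, lie_zero] }
  let M1 : LieSubmodule k L W :=
    { range (C ^ n) with
      lie_mem := fun {z w} ⟨u, hu⟩ => ⟨⁅z, u⁆, by rw [hcn, hu]⟩ }
  have hM : IsCompl M0.toSubmodule M1.toSubmodule := hn
  have orth : ∀ u ∈ M0, ∀ w ∈ M1, β u w = 0 := fun u hu w ⟨w', hw⟩ => by
    rw [← hw, ← hsn, show (C ^ n) u = 0 from hu, map_zero, LinearMap.zero_apply]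
  have dec : ∀ w : W, ∃ u ∈ M0, ∃ u' ∈ M1, u + u' = w := fun w =>
    Submodule.mem_sup.1 (by rw [hn.sup_eq_top]; trivial)
  have nil : ∀ j, trace k M0 (op k M0 x y (j + 1) a a) = 0 := fun j => by
    refine (isNilpotent_trace_of_isNilpotent ?_).eq_zero
    have c1 : Commute (cas k M0 x y) (LieModule.toEnd k L M0 a * LieModule.toEnd k L M0 a) :=
      (comm_sub hc M0 a).mul_right (comm_sub hc M0 a)
    refine (c1.pow_left _).isNilpotent_mul_right (IsNilpotent.pow_succ _ ⟨n, ?_⟩)
    ext u
    exact (cas_pow_coe M0 n u).trans u.2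
  have inj : Function.Injective (cas k M1 x y) := by
    rw [← ker_eq_bot, eq_bot_iff]
    intro u hu
    have h0 : C u = 0 := (cas_coe M1 u).symm.trans (congrArg Subtype.val hu)
    have h1 : (u : W) ∈ M0.toSubmodule := by
      change (C ^ n) u = 0
      obtain ⟨m, rfl⟩ := Nat.exists_eq_add_of_le' hn1
      rw [pow_succ, Module.End.mul_apply, h0, map_zero]
    exact Subtype.ext (Submodule.disjoint_def.1 hM.disjoint _ h1 u.2)
  have d1 : (Module.finrank k M1 : k) = 0 := dim_zero (comm_sub hc M1) hB inj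
  have d0 : (Module.finrank k M0 : k) ≠ 0 := by
    have := Submodule.finrank_add_eq_of_isCompl hM
    rw [← this, Nat.cast_add] at hdim
    intro h0
    exact h2 (by linear_combination hdim - h0 - d1)
  have spl : ∀ j, trace k W (op k W x y j a a) =
      trace k M0 (op k M0 x y j a a) + trace k M1 (op k M1 x y j a a) := fun j =>
    tr_split hM _ _ _ (op_coe M0 j a a) (op_coe M1 j a a)
  rw [spl] at t0 t1 t2
  rw [nil, zero_add] at t1 t2
  have h3 : (3 : k) ≠ 0 := fun h => h15 (by linear_combination 5 * h)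
  have n0 : M0 ≠ ⊥ := fun h => d0 (by
    have : Module.finrank k M0.toSubmodule = 0 := by rw [h]; exact finrank_bot k W
    exact_mod_cast congrArg (Nat.cast : ℕ → k) this)
  have n1 : M1 ≠ ⊥ := fun h => by
    have : op k M1 x y 1 a a = 0 := by
      ext u
      exact (LieSubmodule.eq_bot_iff M1).1 h _ (op k M1 x y 1 a a u).2
    rw [this, map_zero] at t1
    exact mul_ne_zero (mul_ne_zero h3 h3) ht (by linear_combination - t1)
  have i0 : LieModule.IsIrreducible k L M0 :=
    s2 M0 n0 (fun b u hu => by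
        change (C ^ n) _ = 0
        rw [hP, show (C ^ n) u = 0 from hu, map_zero])
      (fun u hu h => H.nd u fun w => by
        obtain ⟨w0, h0, w1, h1, rfl⟩ := dec w
        rw [map_add, h w0 h0, orth u hu w1 h1, add_zero])
      (le_one hM.disjoint.symm he2 (s1 M1 n1).1) (le_one hM.disjoint.symm hf2 (s1 M1 n1).2)
  have i1 : LieModule.IsIrreducible k L M1 :=
    s2 M1 n1 (fun b u ⟨w, hw⟩ => ⟨G.P b w, by rw [hP, hw]⟩)
      (fun u hu h => H.nd u fun w => by
        obtain ⟨w0, h0, w1, h1, rfl⟩ := dec w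
        rw [map_add, h w1 h1, H.sym, orth w0 h0 u hu, mul_zero, add_zero])
      (le_one hM.disjoint he2 (s1 M0 n0).1) (le_one hM.disjoint hf2 (s1 M0 n0).2)
  obtain ⟨c, hcc⟩ := MP_3a0263_al.schur i1 (cas k M1 x y) fun z => (comm_sub hc M1 z).eq.symm
  have sc : ∀ j, trace k M1 (op k M1 x y j a a) = c ^ j * trace k M1 (op k M1 x y 0 a a) :=
    fun j => by
      rw [op, op, hcc, smul_pow, one_pow, smul_mul_assoc, map_smul, pow_zero, smul_eq_mul]
  rw [sc] at t1 t2
  refine ⟨M0, inferInstance, inferInstance, inferInstance, inferInstance, inferInstance, i0, d0,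
    a, a, fun h => ?_⟩
  have h' : trace k M0 (op k M0 x y 0 a a) = 0 := by rw [op, pow_zero, one_mul]; exact h
  rw [h', zero_add] at t0
  rw [t0] at t1 t2
  have e1 : 2 * c = 9 := mul_right_cancel₀ ht (by linear_combination t1)
  have e2 : 2 * c ^ 2 = 33 := mul_right_cancel₀ ht (by linear_combination t2)
  exact h15 (by linear_combination 2 * e2 - (2 * c + 9) * e1)

end Pool.Agent.Lib.PRC
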