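import Pool.Agent.Lib.PRC.Api

namespace Pool.Agent.Lib.PRC

open LinearMap

attribute [local instance 100] LieRing.ofAssociativeRing

universe u

namespace FR1

section lin

variable {k : Type u} [Field k] {V : Type u} [AddCommGroup V] [Module k V] [FiniteDimensional k V]

theorem trV {ι : Type} [Fintype ι] (x : Module.Basis ι k V) (A : V →ₗ[k] V) :
    trace k V A = ∑ i, x.coord i (A (x i)) := by
  have : A = ∑ i, (x.coord i ∘ₗ A).smulRight (x i) := by
    ext v
    simp only [LinearMap.sum_apply, smulRight_apply, comp_apply, Module.Basis.coord_apply]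
    exact (x.sum_repr _).symm
  conv_lhs => rw [this]
  rw [map_sum]
  exact Finset.sum_congr rfl fun a _ => by rw [trace_smulRight]; rfl

theorem trE {ι : Type} [Fintype ι] (x : Module.Basis ι k V) (T : Module.End k (V →ₗ[k] V)) :
    trace k _ T = ∑ i, ∑ j, x.coord i (T ((x.coord j).smulRight (x i)) (x j)) := by
  have : T = ∑ i, ∑ j, (x.coord i ∘ₗ applyₗ (x j) ∘ₗ T).smulRight
      ((x.coord j).smulRight (x i)) := by
    ext φ v
    simp only [LinearMap.sum_apply, smulRight_apply, comp_apply, Module.Basis.coord_apply,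
      applyₗ_apply_apply, LinearMap.smul_apply]
    conv_lhs => rw [← x.sum_repr v, map_sum]
    rw [Finset.sum_comm]
    refine Finset.sum_congr rfl fun j _ => ?_
    rw [map_smul]
    conv_lhs => rw [← x.sum_repr (T φ (x j)), Finset.smul_sum]
    exact Finset.sum_congr rfl fun i _ => smul_comm _ _ _
  conv_lhs => rw [this]
  simp only [map_sum, trace_smulRight]
  rfl

theorem tr_lr (A B : V →ₗ[k] V) :
    trace k _ (mulLeftRight k (A, B)) = trace k V A * trace k V B := by
  let x := Module.finBasis k V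
  rw [trE x, trV x A, trV x B, Finset.sum_mul_sum]
  refine Finset.sum_congr rfl fun i _ => Finset.sum_congr rfl fun j _ => ?_
  simp only [mulLeftRight_apply, Module.End.mul_apply, smulRight_apply, map_smul, smul_eq_mul]
  ring

variable {b : V →ₗ[k] V →ₗ[k] k} {ε : k}

theorem exists_adj (hnd : ∀ w, (∀ u, b u w = 0) → w = 0) :
    (∀ f : V →ₗ[k] k, ∃ y, ∀ u, b u y = f u) ∧ ∃ τ : Module.End k (V →ₗ[k] V),
      (∀ φ u w, b (φ u) w = b u (τ φ w)) ∧ ∀ φ, trace k V (τ φ) = trace k V φ := by
  have hi : Function.Injective b.flip := (injective_iff_map_eq_zero _).2 fun w h =>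
    hnd w fun u => LinearMap.congr_fun h u
  let D : V ≃ₗ[k] Module.Dual k V := linearEquivOfInjective b.flip hi Subspace.dual_finrank_eq.symm
  have hD : ∀ f u, b u (D.symm f) = f u := fun f u =>
    LinearMap.congr_fun (D.apply_symm_apply f) u
  refine ⟨fun f => ⟨D.symm f, hD f⟩, D.symm.conj.toLinearMap ∘ₗ Module.Dual.transpose,
    fun φ u w => (hD (Module.Dual.transpose (R := k) φ (D w)) u).symm, fun φ => ?_⟩
  exact (trace_conj' _ _).trans (trace_transpose' φ)

theorem tr_adj (hs : ∀ u w, b u w = ε * b w u) (he : ε * ε = 1)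
    (hy : ∀ f : V →ₗ[k] k, ∃ y, ∀ u, b u y = f u) {τ : Module.End k (V →ₗ[k] V)}
    (hτ : ∀ φ u w, b (φ u) w = b u (τ φ w)) (A B B' : V →ₗ[k] V)
    (h : ∀ u w, b (B u) w = b u (B' w)) :
    trace k _ (τ * mulLeftRight k (A, B)) = ε * trace k V (A * B') := by
  let x := Module.finBasis k V
  choose y hy using fun i => hy (x.coord i)
  rw [trE x, trace_mul_comm, trV x (B' * A), Finset.mul_sum]
  refine Finset.sum_congr rfl fun i _ => ?_
  have e1 : ∀ j, x.coord i ((τ * mulLeftRight k (A, B)) ((x.coord j).smulRight (x i)) (x j)) =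
      ε * b (A (x i)) (x.repr (B (y i)) j • x j) := fun j => by
    rw [← hy, hs, Module.End.mul_apply, ← hτ]
    simp only [mulLeftRight_apply, Module.End.mul_apply, smulRight_apply, map_smul, smul_eq_mul,
      LinearMap.smul_apply, Module.Basis.coord_apply]
  simp only [e1]
  rw [← Finset.mul_sum, ← map_sum, x.sum_repr, hs (A _), h, hs (y i), hy, ← mul_assoc ε ε (_ : k), he,
    one_mul]
  rfl

theorem tr_quot {N : Type u} [AddCommGroup N] [Module k N] [FiniteDimensional k N]
    (S : Submodule k N) (T : Module.End k N) (T' : Module.End k (N ⧸ S))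
    (h0 : ∀ w ∈ S, T w = 0) (h : ∀ w, S.mkQ (T w) = T' (S.mkQ w)) :
    trace k N T = trace k _ T' := by
  rw [← S.liftQ_mkQ T h0, trace_comp_comm']
  congr 1
  exact S.linearMap_qext (LinearMap.ext h)

theorem tr_sub {E : Type u} [AddCommGroup E] [Module k E] [FiniteDimensional k E]
    (N : Submodule k E) (T : Module.End k E) (T' : Module.End k N)
    (h0 : ∀ w, T w ∈ N) (h : ∀ w : N, T w = T' w) : trace k E T = trace k N T' := by
  rw [← subtype_comp_codRestrict T N h0, trace_comp_comm']
  congr 1
  ext w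
  exact congrArg (fun z : E => z) (h w)

end lin

section nat

variable {k : Type u} [Field k] {L : Type u} [LieRing L] [LieAlgebra k L] {W W' : Type u}
  [AddCommGroup W] [Module k W] [LieRingModule L W] [LieModule k L W]
  [AddCommGroup W'] [Module k W'] [LieRingModule L W'] [LieModule k L W']
  {ι : Type} [Fintype ι] (x y : ι → L)

theorem pow_nat (f : W →ₗ⁅k,L⁆ W') (j : ℕ) (w : W) :
    f ((cas k W x y ^ j) w) = (cas k W' x y ^ j) (f w) := by
  induction j with
  | zero => rfl
  | succ j ih =>
    rw [pow_succ', pow_succ', Module.End.mul_apply, Module.End.mul_apply, ← ih]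
    simp only [cas, LinearMap.sum_apply, Module.End.mul_apply, LieModule.toEnd_apply_apply,
      map_sum, LieModuleHom.map_lie]

theorem op_apply (j : ℕ) (a a' : L) (w : W) :
    op k W x y j a a' w = (cas k W x y ^ j) ⁅a, ⁅a', w⁆⁆ := rfl

theorem op_nat (f : W →ₗ⁅k,L⁆ W') (j : ℕ) (a a' : L) (w : W) :
    f (op k W x y j a a' w) = op k W' x y j a a' (f w) := by
  rw [op_apply, op_apply, pow_nat, f.map_lie, f.map_lie]

end nat

end FR1

open FR1 in
theorem st_fr1 (k : Type u) [Field k] [IsAlgClosed k] (p : ℕ) [Fact p.Prime] [CharP k p]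
    (hp : p ≠ 2) : S_fr1 k := by
  intro L _ _ V _ _ _ _ _ _ b ε H hd
  have h2 := two_ne k p hp
  have he : ε * ε = 1 := by rcases H.eps with h | h <;> simp [h]
  have hnd : ∀ w, (∀ u, b u w = 0) → w = 0 := fun w h =>
    H.nd w fun u => by rw [H.sym, h, mul_zero]
  obtain ⟨hy, τ, hτ, htr⟩ := exists_adj hnd
  have uniq : ∀ φ ψ : V →ₗ[k] V, (∀ u w, b (φ u) w = b u (ψ w)) → τ φ = ψ := fun φ ψ h => by
    ext w
    exact sub_eq_zero.1 (hnd _ fun u => by rw [map_sub, ← hτ, h, sub_self])
  have ττ : ∀ φ, τ (τ φ) = φ := fun φ => uniq _ _ fun u w => by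
    rw [H.sym, ← hτ, H.sym u]
  have symm : ∀ φ u w, b ((φ + τ φ) u) w = b u ((φ + τ φ) w) := fun φ u w => by
    rw [hτ, map_add, ττ, add_comm]
  let Λ : Module.End k (V →ₗ[k] V) →ₗ[k] k := trace k _ + trace k _ ∘ₗ mulLeft k τ
  have hΛ : LamA b ε Λ := fun A B B' h => by
    rw [← tr_lr, ← tr_adj H.sym he hy hτ A B B' h]; rfl
  have Λe : ∀ T, Λ T = trace k _ (T * (1 + τ)) := fun T => by
    rw [mul_add, mul_one, map_add, trace_mul_comm]; rfl
  have fin : FiniteDimensional k (MM H) :=
    inferInstanceAs (FiniteDimensional k (symN H ⧸ (scal H).toSubmodule))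
  have lie_e : ∀ (a : L) (φ : V →ₗ[k] V),
      ⁅a, φ⁆ = LieModule.toEnd k L V a * φ - φ * LieModule.toEnd k L V a := fun a φ => by
    ext u; simp
  have key : ∀ (ι : Type) [Fintype ι] (x y : ι → L) (j : ℕ) (a a' : L),
      Λ (op k (V →ₗ[k] V) x y j a a') = 2 * trace k (MM H) (op k (MM H) x y j a a') := by
    intro ι _ x y j a a'
    have nat : ∀ w : symN H, (op k (symN H) x y j a a' w : V →ₗ[k] V) =
        op k (V →ₗ[k] V) x y j a a' w := fun w => op_nat x y (symN H).incl j a a' w
    rw [Λe, tr_sub (symN H).toSubmodule _ ((2 : k) • op k (symN H) x y j a a') (fun φ => ?_)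
      (fun w => ?_), map_smul, smul_eq_mul]
    · congr 1
      refine tr_quot (scal H).toSubmodule _ _ (fun w hw => ?_)
        fun w => op_nat x y (LieSubmodule.Quotient.mk' (scal H)) j a a' w
      obtain ⟨c, hc⟩ := (mem_scal H).1 hw
      have : ⁅a', w⁆ = 0 := Subtype.ext (by
        rw [LieSubmodule.coe_bracket, hc]
        ext u; simp)
      rw [op_apply, this, lie_zero, map_zero]
    · have hm : ⁅a', φ + τ φ⁆ ∈ symN H := ⟨fun u w => by
        simp only [LieHom.lie_apply, map_sub, LinearMap.sub_apply, H.inv, symm]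
        ring, by rw [lie_e, map_sub, trace_mul_comm, sub_self]⟩
      have := pow_nat x y (symN H).incl j ⁅a, (⟨_, hm⟩ : symN H)⁆
      rw [LieModuleHom.map_lie] at this
      exact (show _ = (op k (V →ₗ[k] V) x y j a a' * (1 + τ)) φ from this) ▸ Subtype.prop _
    · rw [Module.End.mul_apply, LinearMap.add_apply, Module.End.one_apply, uniq _ _ w.2.1,
        ← two_smul k, map_smul, ← nat]
      rfl
  refine ⟨?_, fun a a' => ?_, Λ, hΛ, key⟩
  · let S : Submodule k (V →ₗ[k] V) := LinearMap.eqLocus τ LinearMap.id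
    have hS : ∀ φ, φ + τ φ ∈ S := fun φ => uniq _ _ (symm φ)
    have pr : IsProj S ((2 : k)⁻¹ • (1 + τ)) :=
      ⟨fun φ => S.smul_mem _ (hS φ), fun φ hφ => by
        rw [LinearMap.smul_apply, LinearMap.add_apply, Module.End.one_apply, show τ φ = φ from hφ,
          ← two_smul k, smul_smul, inv_mul_cancel₀ h2, one_smul]⟩
    have d1 : (Module.finrank k S : k) = 0 := by
      have e := hΛ 1 1 1 fun _ _ => rfl
      rw [Λe, mul_one, trace_one, hd, show mulLeftRight k ((1 : V →ₗ[k] V), (1 : V →ₗ[k] V)) = 1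
        from LinearMap.ext fun φ => rfl, one_mul] at e
      rw [← pr.trace, map_smul, e]
      simp
    have d2 : Module.finrank k S = 1 + Module.finrank k (symN H) := by
      obtain ⟨u, hu⟩ := exists_ne (0 : V)
      obtain ⟨w, hw⟩ := not_forall.1 (mt (H.nd u) hu)
      have hr : range (trace k V ∘ₗ S.subtype) = ⊤ := by
        refine range_eq_top.2 fun c => ⟨(c / (2 * b u w)) • ⟨_, hS ((b.flip w).smulRight u)⟩, ?_⟩
        rw [map_smul, comp_apply, Submodule.subtype_apply, map_add, htr, trace_smulRight,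
          flip_apply, smul_eq_mul, ← two_mul, div_mul_cancel₀ _ (mul_ne_zero h2 hw)]
      have hk : (ker (trace k V ∘ₗ S.subtype)).map S.subtype = (symN H).toSubmodule := by
        ext φ
        constructor
        · rintro ⟨ψ, h1, rfl⟩
          exact ⟨fun u w => (hτ _ u w).trans (by
            rw [show τ (S.subtype ψ) = S.subtype ψ from ψ.2]), h1⟩
        · intro h
          exact ⟨⟨φ, uniq _ _ h.1⟩, h.2, rfl⟩
      rw [← finrank_range_add_finrank_ker (trace k V ∘ₗ S.subtype), hr, finrank_top,
        Module.finrank_self, ← Submodule.finrank_map_subtype_eq, hk]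
      rfl
    have hid : (LinearMap.id : V →ₗ[k] V) ∈ symN H := ⟨fun _ _ => rfl, by rw [trace_id, hd]⟩
    have d3 : Module.finrank k (scal H).toSubmodule = 1 := by
      have : (scal H).toSubmodule = k ∙ (⟨_, hid⟩ : symN H) := by
        ext φ
        rw [Submodule.mem_span_singleton]
        exact ⟨fun ⟨c, h⟩ => ⟨c, Subtype.ext h.symm⟩,
          fun ⟨c, h⟩ => ⟨c, (congrArg Subtype.val h).symm⟩⟩
      rw [this]
      exact finrank_span_singleton fun h => one_ne_zero (α := V →ₗ[k] V) (congrArg Subtype.val h)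
    have d4 : Module.finrank k (MM H) + Module.finrank k (scal H).toSubmodule =
        Module.finrank k (symN H) := Submodule.finrank_quotient_add_finrank _
    rw [d2, ← d4, d3] at d1
    push_cast at d1
    linear_combination d1
  · have sk : ∀ (c : L) u w, b (LieModule.toEnd k L V c u) w = b u ((-LieModule.toEnd k L V c) w) :=
      fun c u w => by simp [H.inv]
    have t0 : ∀ c : L, trace k V (LieModule.toEnd k L V c) = 0 := fun c => by
      have := htr (LieModule.toEnd k L V c)
      rw [uniq _ _ (sk c), map_neg] at this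
      exact (mul_eq_zero.1 (by linear_combination -this)).resolve_left h2
    have e := key Empty Empty.elim Empty.elim 0 a a'
    have e1 : op k (V →ₗ[k] V) (Empty.elim : Empty → L) Empty.elim 0 a a' =
        mulLeftRight k (LieModule.toEnd k L V a * LieModule.toEnd k L V a', 1) -
        mulLeftRight k (LieModule.toEnd k L V a, LieModule.toEnd k L V a') -
        mulLeftRight k (LieModule.toEnd k L V a', LieModule.toEnd k L V a) +
        mulLeftRight k (1, LieModule.toEnd k L V a' * LieModule.toEnd k L V a) := by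
      refine LinearMap.ext fun φ => ?_
      rw [op_apply, pow_zero, Module.End.one_apply, lie_e, lie_e]
      simp only [LinearMap.add_apply, LinearMap.sub_apply, mulLeftRight_apply]
      noncomm_ring
    rw [e1, map_add, map_sub, map_sub, hΛ _ 1 1 fun _ _ => rfl, hΛ _ _ _ (sk a'), hΛ _ _ _ (sk a),
      hΛ 1 _ (LieModule.toEnd k L V a * LieModule.toEnd k L V a') fun u w => by simp [H.inv],
      trace_one, hd, t0, t0, mul_one, one_mul, mul_neg, mul_neg, map_neg, map_neg,
      trace_mul_comm k (LieModule.toEnd k L V a'), op, pow_zero, one_mul] at e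
    rw [LieModule.traceForm_apply_apply, LieModule.traceForm_apply_apply]
    apply mul_left_cancel₀ h2
    exact e.symm.trans (by rw [← Module.End.mul_eq_comp]; ring)

end Pool.Agent.Lib.PRC
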