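import Pool.Agent.Lib.PRC.Api
import Pool.Agent.Lib.MP_3a0263_al.AnyModule

namespace Pool.Agent.Lib.PRC

open Pool.Agent.Lib.MP_3a0263_al LinearMap

attribute [local instance 100] LieRing.ofAssociativeRing

universe u

namespace FR2

variable {k : Type u} [Field k] {V : Type u} [AddCommGroup V] [Module k V]

theorem PP_eq (G : Gr k V) (a : ℤ) : G.P a * G.P a = G.P a := LinearMap.ext fun w => G.idem a w

theorem PP_ne (G : Gr k V) {a c : ℤ} (h : a ≠ c) : G.P a * G.P c = 0 :=
  LinearMap.ext fun w => G.orth a c h w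

theorem P_out (G : Gr k V) {a : ℤ} (h : a ∉ Finset.Icc (-(G.N : ℤ)) G.N) : G.P a = 0 :=
  LinearMap.ext fun w => G.out h w

theorem P_sum (G : Gr k V) : ∑ a ∈ Finset.Icc (-(G.N : ℤ)) G.N, G.P a = 1 :=
  LinearMap.ext fun w => by rw [LinearMap.sum_apply]; exact G.sum w

theorem ext_right (G : Gr k V) {T T' : Module.End k V} (h : ∀ c, T * G.P c = T' * G.P c) :
    T = T' := by
  rw [← mul_one T, ← mul_one T', ← P_sum G, Finset.mul_sum, Finset.mul_sum]
  exact Finset.sum_congr rfl fun c _ => h c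

/-- the degree `a` component of an operator -/
noncomputable def EP (G : Gr k V) (a : ℤ) : Module.End k V →ₗ[k] Module.End k V :=
  ∑ c ∈ Finset.Icc (-(G.N : ℤ)) G.N, LinearMap.mulLeftRight k (G.P (a + c), G.P c)

theorem EP_apply (G : Gr k V) (a : ℤ) (φ : Module.End k V) :
    EP G a φ = ∑ c ∈ Finset.Icc (-(G.N : ℤ)) G.N, G.P (a + c) * φ * G.P c := by
  rw [EP, LinearMap.sum_apply]
  exact Finset.sum_congr rfl fun c _ => LinearMap.mulLeftRight_apply _ _ _

theorem EP_right (G : Gr k V) (a c : ℤ) (φ : Module.End k V) :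
    EP G a φ * G.P c = G.P (a + c) * φ * G.P c := by
  rw [EP_apply, Finset.sum_mul, Finset.sum_eq_single c]
  · rw [mul_assoc, PP_eq]
  · intro d _ hd
    rw [mul_assoc, PP_ne G hd, mul_zero]
  · intro hc
    rw [P_out G hc, mul_zero]

theorem EP_left (G : Gr k V) (a d : ℤ) (φ : Module.End k V) :
    G.P d * EP G a φ = G.P d * φ * G.P (d - a) := by
  refine ext_right G fun c => ?_
  rw [mul_assoc, EP_right, ← mul_assoc, ← mul_assoc, mul_assoc (G.P d * φ)]
  by_cases h : d = a + c
  · rw [← h, PP_eq, show d - a = c by omega, PP_eq]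
  · rw [PP_ne G h, PP_ne G (show d - a ≠ c by omega), zero_mul, zero_mul, mul_zero]

theorem EP_sum (G : Gr k V) (φ : Module.End k V) :
    ∑ a ∈ Finset.Icc (-((2 * G.N : ℕ) : ℤ)) ((2 * G.N : ℕ) : ℤ), EP G a φ = φ := by
  refine ext_right G fun c => ?_
  rw [Finset.sum_mul]
  simp only [EP_right]
  by_cases hc : c ∈ Finset.Icc (-(G.N : ℤ)) G.N
  · rw [← Finset.sum_mul, ← Finset.sum_mul]
    have h1 : ∑ a ∈ Finset.Icc (-((2 * G.N : ℕ) : ℤ)) ((2 * G.N : ℕ) : ℤ), G.P (a + c) = 1 := by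
      rw [← mul_one (∑ a ∈ _, G.P (a + c)), ← P_sum G, Finset.mul_sum]
      refine Finset.sum_congr rfl fun d hd => ?_
      rw [Finset.sum_mul, Finset.sum_eq_single (d - c)]
      · rw [sub_add_cancel, PP_eq]
      · intro a _ ha
        exact PP_ne G (by omega)
      · intro hn
        exfalso
        apply hn
        rw [Finset.mem_Icc] at hc hd ⊢
        push_cast
        omega
    rw [h1, one_mul]
  · rw [P_out G hc]
    simp

theorem EP_idem (G : Gr k V) (a : ℤ) (φ : Module.End k V) : EP G a (EP G a φ) = EP G a φ := by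
  refine ext_right G fun c => ?_
  rw [EP_right, mul_assoc, EP_right, ← mul_assoc, ← mul_assoc, PP_eq]

theorem EP_orth (G : Gr k V) {a a' : ℤ} (h : a ≠ a') (φ : Module.End k V) :
    EP G a (EP G a' φ) = 0 := by
  refine ext_right G fun c => ?_
  rw [EP_right, mul_assoc, EP_right, ← mul_assoc, ← mul_assoc, PP_ne G (by omega), zero_mul,
    zero_mul]

theorem EP_one (G : Gr k V) (a : ℤ) : EP G a 1 = if a = 0 then 1 else 0 := by
  refine ext_right G fun c => ?_
  rw [EP_right, mul_one]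
  split_ifs with h
  · rw [h, zero_add, PP_eq, one_mul]
  · rw [PP_ne G (by omega), zero_mul]

theorem tr_sum (G : Gr k V) (T : Module.End k V) :
    trace k V T = ∑ c ∈ Finset.Icc (-(G.N : ℤ)) G.N, trace k V (T * G.P c) := by
  rw [← map_sum, ← Finset.mul_sum, P_sum, mul_one]

theorem EP_pair (G : Gr k V) (a : ℤ) (φ ψ : Module.End k V) :
    trace k V (EP G a φ * ψ) = trace k V (φ * EP G (-a) ψ) := by
  rw [trace_mul_comm, trace_mul_comm k φ, tr_sum G, tr_sum G (_ * φ)]
  refine Finset.sum_congr rfl fun c _ => ?_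
  rw [mul_assoc, EP_right, trace_mul_comm k (_ * φ), ← mul_assoc (G.P c), EP_left, ← mul_assoc,
    trace_mul_comm, show c - -a = a + c by ring]
  simp only [mul_assoc]

theorem EP_trace (G : Gr k V) (a : ℤ) {φ : Module.End k V} (h : trace k V φ = 0) :
    trace k V (EP G a φ) = 0 := by
  rw [← mul_one (EP G a φ), EP_pair, EP_one]
  split_ifs
  · rw [mul_one, h]
  · rw [mul_zero, map_zero]

theorem EP_deg (G : Gr k V) {X : Module.End k V} {j : ℤ} (h : G.Deg X j) (a : ℤ)
    (φ : Module.End k V) : EP G (a + j) (X * φ - φ * X) = X * EP G a φ - EP G a φ * X := by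
  have hX : ∀ c, G.P (c + j) * X = X * G.P c := fun c => LinearMap.ext fun w => h c w
  refine ext_right G fun c => ?_
  rw [EP_right, sub_mul, mul_assoc X, EP_right, mul_assoc _ X, ← hX c, ← mul_assoc _ _ X, EP_right,
    mul_sub, sub_mul, ← mul_assoc, show a + j + c = a + c + j by ring, hX, mul_assoc _ (φ * X),
    mul_assoc φ, ← hX c, show a + (c + j) = a + c + j by ring]
  simp only [mul_assoc]

theorem EP_sa (G : Gr k V) {b : V →ₗ[k] V →ₗ[k] k} (hG : G.Pair b) (a : ℤ) {φ : Module.End k V}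
    (h : ∀ u w, b (φ u) w = b u (φ w)) (u w : V) : b (EP G a φ u) w = b u (EP G a φ w) := by
  rw [← G.sum u, map_sum, map_sum, map_sum, LinearMap.sum_apply, LinearMap.sum_apply]
  refine Finset.sum_congr rfl fun c _ => ?_
  have e1 : EP G a φ (G.P c u) = G.P (a + c) (φ (G.P c u)) :=
    LinearMap.congr_fun (EP_right G a c φ) u
  have e2 : G.P (-c) (EP G a φ w) = G.P (-c) (φ (G.P (-c - a) w)) :=
    LinearMap.congr_fun (EP_left G a (-c) φ) w
  rw [e1, hG, h, hG, hG, e2, show -(a + c) = -c - a by ring]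

section adj

variable [FiniteDimensional k V] {L : Type u} [LieRing L] [LieAlgebra k L] [LieRingModule L V]
  [LieModule k L V] {b : V →ₗ[k] V →ₗ[k] k} {ε : k}

omit [FiniteDimensional k V] [LieAlgebra k L] [LieModule k L V] in
theorem eps_sq (H : IF L b ε) : ε * ε = 1 := by
  rcases H.eps with h | h <;> rw [h] <;> ring

omit [LieAlgebra k L] [LieModule k L V] in
theorem exists_adj (H : IF L b ε) (A : Module.End k V) : ∃ A' : Module.End k V,
    (∀ u w, b (A' u) w = b u (A w)) ∧ (∀ u w, b (A u) w = b u (A' w)) ∧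
      trace k V A' = trace k V A := by
  have hB : LinearMap.BilinForm.Nondegenerate b :=
    ⟨fun u hu => H.nd u hu, fun u hu => H.nd u fun w => by rw [H.sym, hu, mul_zero]⟩
  have h1 : ∀ u w, b ((LinearMap.BilinForm.toDual b hB).symm.conj
      (Module.Dual.transpose (R := k) A) u) w = b u (A w) := fun u w => by
    rw [LinearEquiv.conj_apply_apply, LinearMap.BilinForm.apply_toDual_symm_apply]
    rfl
  refine ⟨_, h1, fun u w => ?_, by rw [trace_conj', trace_transpose']⟩
  rw [H.sym u, h1, H.sym w, ← mul_assoc, eps_sq H, one_mul]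

omit [LieAlgebra k L] [LieModule k L V] in
theorem tr_adj (H : IF L b ε) {A A' : Module.End k V} (h : ∀ u w, b (A' u) w = b u (A w)) :
    trace k V A' = trace k V A := by
  obtain ⟨B, h1, -, h3⟩ := exists_adj H A
  have : A' = B := LinearMap.ext fun u => sub_eq_zero.1 (H.nd _ fun w => by
    rw [map_sub, LinearMap.sub_apply, h, h1, sub_self])
  rw [this, h3]

theorem scalar_of_perp [Nontrivial V] (h2 : (2 : k) ≠ 0) (H : IF L b ε) {φ : Module.End k V}
    (hφ : ∀ u w, b (φ u) w = b u (φ w))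
    (h : ∀ ψ : Module.End k V, ψ ∈ symN H → trace k V (φ * ψ) = 0) :
    ∃ c : k, φ = c • LinearMap.id := by
  have h0 : ∀ A : Module.End k V, trace k V A = 0 → trace k V (φ * A) = 0 := fun A hA => by
    obtain ⟨A', h1, h3, h4⟩ := exists_adj H A
    have e1 : trace k V (A' * φ) = trace k V (φ * A) := tr_adj H fun u w => by
      rw [Module.End.mul_apply, Module.End.mul_apply, h1, hφ]
    have e2 := h (A + A') ((mem_symN H).2 ⟨fun u w => by
      simp only [LinearMap.add_apply, map_add, h1, h3]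
      ring, by rw [map_add, h4, hA, add_zero]⟩)
    rw [mul_add, map_add, trace_mul_comm k φ A', e1, ← two_mul] at e2
    exact (mul_eq_zero.1 e2).resolve_left h2
  obtain ⟨A0, hA0⟩ : ∃ A0 : Module.End k V, trace k V A0 ≠ 0 := by
    by_contra hn
    refine one_ne_zero (eq_zero_of_trace_mul (1 : Module.End k V) fun A => ?_)
    by_contra hA
    exact hn ⟨_, hA⟩
  refine ⟨trace k V (φ * A0) / trace k V A0, sub_eq_zero.1 (eq_zero_of_trace_mul _ fun A => ?_)⟩
  have e := h0 (A - (trace k V A / trace k V A0) • A0) (by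
    rw [map_sub, map_smul, smul_eq_mul, div_mul_cancel₀ _ hA0, sub_self])
  rw [mul_sub, map_sub, mul_smul_comm, map_smul, smul_eq_mul] at e
  rw [sub_mul, map_sub, smul_mul_assoc, map_smul, smul_eq_mul, ← Module.End.one_eq_id, one_mul,
    ← e]
  ring

/-- the components on the self-adjoint traceless operators -/
noncomputable def SP (H : IF L b ε) (G : Gr k V) (hG : G.Pair b) (a : ℤ) :
    symN H →ₗ[k] symN H where
  toFun φ := ⟨EP G a φ.1, (mem_symN H).2 ⟨EP_sa G hG a ((mem_symN H).1 φ.2).1,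
    EP_trace G a ((mem_symN H).1 φ.2).2⟩⟩
  map_add' φ ψ := Subtype.ext (map_add (EP G a) φ.1 ψ.1)
  map_smul' c φ := Subtype.ext (map_smul (EP G a) c φ.1)

omit [FiniteDimensional k V] in
theorem SP_val (H : IF L b ε) (G : Gr k V) (hG : G.Pair b) (a : ℤ) (φ : symN H) :
    (SP H G hG a φ).1 = EP G a φ.1 := rfl

omit [FiniteDimensional k V] in
theorem SP_scal (H : IF L b ε) (G : Gr k V) (hG : G.Pair b) (a : ℤ) :
    (scal H).toSubmodule ≤ (scal H).toSubmodule.comap (SP H G hG a) := by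
  intro φ hφ
  obtain ⟨c, hc⟩ := (mem_scal H).1 hφ
  refine (mem_scal H).2 ⟨if a = 0 then c else 0, ?_⟩
  rw [SP_val, hc, map_smul, ← Module.End.one_eq_id, EP_one]
  split_ifs <;> simp

/-- the components on the quotient -/
noncomputable def QP (H : IF L b ε) (G : Gr k V) (hG : G.Pair b) (a : ℤ) : Module.End k (MM H) :=
  Submodule.mapQ (scal H).toSubmodule (scal H).toSubmodule (SP H G hG a) (SP_scal H G hG a)

omit [FiniteDimensional k V] in
theorem QP_mk (H : IF L b ε) (G : Gr k V) (hG : G.Pair b) (a : ℤ) (φ : symN H) :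
    QP H G hG a (LieSubmodule.Quotient.mk' (scal H) φ) =
      LieSubmodule.Quotient.mk' (scal H) (SP H G hG a φ) := rfl

/-- the grading of the quotient -/
noncomputable def QG (H : IF L b ε) (G : Gr k V) (hG : G.Pair b) : Gr k (MM H) where
  P := QP H G hG
  N := 2 * G.N
  sum w := by
    obtain ⟨φ, rfl⟩ := LieSubmodule.Quotient.surjective_mk' (scal H) w
    simp only [QP_mk]
    rw [← map_sum]
    refine congrArg _ (Subtype.ext ?_)
    rw [AddSubmonoidClass.coe_finsetSum]
    exact EP_sum G φ.1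
  idem a w := by
    obtain ⟨φ, rfl⟩ := LieSubmodule.Quotient.surjective_mk' (scal H) w
    rw [QP_mk, QP_mk]
    exact congrArg _ (Subtype.ext (EP_idem G a φ.1))
  orth a a' h w := by
    obtain ⟨φ, rfl⟩ := LieSubmodule.Quotient.surjective_mk' (scal H) w
    rw [QP_mk, QP_mk, ← map_zero (LieSubmodule.Quotient.mk' (scal H))]
    exact congrArg _ (Subtype.ext (EP_orth G h φ.1))

/-- the trace form on the self-adjoint traceless operators -/
noncomputable def SB (H : IF L b ε) : symN H →ₗ[k] symN H →ₗ[k] k :=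
  LinearMap.mk₂ k (fun φ ψ => trace k V ((φ.1 : Module.End k V) * (ψ.1 : Module.End k V)))
    (fun φ φ' ψ => by rw [LieSubmodule.coe_add, add_mul, map_add])
    (fun c φ ψ => by rw [LieSubmodule.coe_smul, smul_mul_assoc, map_smul])
    (fun φ ψ ψ' => by rw [LieSubmodule.coe_add, mul_add, map_add])
    (fun c φ ψ => by rw [LieSubmodule.coe_smul, mul_smul_comm, map_smul])

omit [FiniteDimensional k V] in
theorem SB_apply (H : IF L b ε) (φ ψ : symN H) :
    SB H φ ψ = trace k V ((φ.1 : Module.End k V) * (ψ.1 : Module.End k V)) := rfl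

omit [FiniteDimensional k V] in
theorem SB_scal (H : IF L b ε) {φ : symN H} (hφ : φ ∈ scal H) (ψ : symN H) : SB H φ ψ = 0 := by
  obtain ⟨c, hc⟩ := (mem_scal H).1 hφ
  rw [SB_apply, hc, ← Module.End.one_eq_id, smul_mul_assoc, one_mul, map_smul,
    ((mem_symN H).1 ψ.2).2, smul_zero]

omit [FiniteDimensional k V] in
theorem SB_comm (H : IF L b ε) (φ ψ : symN H) : SB H φ ψ = SB H ψ φ := trace_mul_comm k _ _

/-- the trace form on the quotient -/
noncomputable def QB (H : IF L b ε) : MM H →ₗ[k] MM H →ₗ[k] k :=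
  LinearMap.liftQ₂ (scal H).toSubmodule (scal H).toSubmodule (SB H)
    (fun _ hφ => LinearMap.ext fun ψ => SB_scal H hφ ψ)
    (fun φ hφ => LinearMap.ext fun ψ => (SB_comm H ψ φ).trans (SB_scal H hφ ψ))

omit [FiniteDimensional k V] in
theorem QB_mk (H : IF L b ε) (φ ψ : symN H) :
    QB H (LieSubmodule.Quotient.mk' (scal H) φ) (LieSubmodule.Quotient.mk' (scal H) ψ) =
      trace k V ((φ.1 : Module.End k V) * (ψ.1 : Module.End k V)) := rfl

omit [FiniteDimensional k V] in
theorem lie_val (H : IF L b ε) (x : L) (φ : symN H) : (⁅x, φ⁆ : symN H).1 =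
    LieModule.toEnd k L V x * (φ.1 : Module.End k V) - φ.1 * LieModule.toEnd k L V x := by
  rw [LieSubmodule.coe_bracket]
  ext u
  simp

theorem QB_IF [Nontrivial V] (h2 : (2 : k) ≠ 0) (H : IF L b ε) : IF L (QB H) 1 where
  nd u hu := by
    obtain ⟨φ, rfl⟩ := LieSubmodule.Quotient.surjective_mk' (scal H) u
    rw [LieSubmodule.Quotient.mk_eq_zero, mem_scal]
    exact scalar_of_perp h2 H ((mem_symN H).1 φ.2).1 fun ψ hψ =>
      hu (LieSubmodule.Quotient.mk' (scal H) ⟨ψ, hψ⟩)
  sym u w := by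
    obtain ⟨φ, rfl⟩ := LieSubmodule.Quotient.surjective_mk' (scal H) u
    obtain ⟨ψ, rfl⟩ := LieSubmodule.Quotient.surjective_mk' (scal H) w
    rw [QB_mk, QB_mk, one_mul, trace_mul_comm]
  inv x u w := by
    obtain ⟨φ, rfl⟩ := LieSubmodule.Quotient.surjective_mk' (scal H) u
    obtain ⟨ψ, rfl⟩ := LieSubmodule.Quotient.surjective_mk' (scal H) w
    rw [← LieModuleHom.map_lie, ← LieModuleHom.map_lie, QB_mk, QB_mk, lie_val, lie_val, sub_mul,
      mul_sub, map_sub, map_sub, mul_assoc, trace_mul_comm]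
    simp only [mul_assoc]
    ring
  eps := Or.inl rfl

end adj

end FR2

theorem st_fr2 (k : Type u) [Field k] [IsAlgClosed k] (p : ℕ) [Fact p.Prime] [CharP k p]
    (hp : p ≠ 2) : S_fr2 k := by
  intro L _ _ V _ _ _ _ _ _ b ε H _ G hG
  refine ⟨FR2.QG H G hG, FR2.QB H, FR2.QB_IF (two_ne k p hp) H, fun a u w => ?_,
    fun x j h a w => ?_⟩
  · obtain ⟨φ, rfl⟩ := LieSubmodule.Quotient.surjective_mk' (scal H) u
    obtain ⟨ψ, rfl⟩ := LieSubmodule.Quotient.surjective_mk' (scal H) w
    exact FR2.EP_pair G a φ.1 ψ.1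
  · obtain ⟨φ, rfl⟩ := LieSubmodule.Quotient.surjective_mk' (scal H) w
    change FR2.QP H G hG (a + j) ⁅x, _⁆ = ⁅x, FR2.QP H G hG a _⁆
    rw [FR2.QP_mk, ← LieModuleHom.map_lie, ← LieModuleHom.map_lie, FR2.QP_mk]
    refine congrArg _ (Subtype.ext ?_)
    rw [FR2.SP_val, FR2.lie_val, FR2.lie_val, FR2.SP_val]
    exact FR2.EP_deg G h a φ.1

end Pool.Agent.Lib.PRC
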