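import Pool.Agent.Lib.PRC.Api

namespace Pool.Agent.Lib.PRC

attribute [local instance 100] LieRing.ofAssociativeRing

universe u

namespace FR3S

variable {k : Type u} [Field k]

theorem pow_comm_eq {A : Type u} [Ring A] [Algebra k A] {E φ : A} {c : k}
    (h : E * φ - φ * E = c • (1 : A)) (j : ℕ) :
    E ^ (j + 1) * φ - φ * E ^ (j + 1) = (((j + 1 : ℕ) : k) * c) • E ^ j := by
  induction j with
  | zero => simpa using h
  | succ j ih =>
    have e : E ^ (j + 1 + 1) * φ - φ * E ^ (j + 1 + 1) =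
        E * (E ^ (j + 1) * φ - φ * E ^ (j + 1)) + (E * φ - φ * E) * E ^ (j + 1) := by
      rw [pow_succ' E (j + 1)]; noncomm_ring
    rw [e, ih, h, mul_smul_comm, smul_mul_assoc, one_mul, ← pow_succ', ← add_smul]
    congr 1
    push_cast
    ring

theorem scalar_zero {A : Type u} [Ring A] [Algebra k A] [Nontrivial A] (p : ℕ) [CharP k p]
    {E φ : A} {c : k} (h : E * φ - φ * E = c • (1 : A)) {m : ℕ} (hm : m < p) (h0 : E ^ m = 0) :
    c = 0 := by
  by_contra hc
  induction m with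
  | zero => exact one_ne_zero (by simpa using h0 : (1 : A) = 0)
  | succ j ih =>
    refine ih (by omega) ?_
    have e := pow_comm_eq h j
    rw [h0, zero_mul, mul_zero, sub_zero] at e
    have hj : ((j + 1 : ℕ) : k) ≠ 0 := fun h1 =>
      absurd (Nat.le_of_dvd (by omega) ((CharP.cast_eq_zero_iff k p _).1 h1)) (by omega)
    have := congrArg (fun x => (((j + 1 : ℕ) : k) * c)⁻¹ • x) e
    simp only [smul_zero, smul_smul, inv_mul_cancel₀ (mul_ne_zero hj hc), one_smul] at this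
    exact this.symm

variable {W : Type u} [AddCommGroup W] [Module k W]

/-- the grading with the degrees reversed -/
def rev (G : Gr k W) : Gr k W where
  P a := G.P (-a)
  N := G.N
  sum w := by
    conv_rhs => rw [← G.sum w]
    refine Finset.sum_bij (fun a _ => -a) ?_ ?_ ?_ ?_
    · intro a ha; simp only [Finset.mem_Icc] at ha ⊢; omega
    · intro a _ b _ h; omega
    · intro b hb; exact ⟨-b, by simp only [Finset.mem_Icc] at hb ⊢; omega, neg_neg b⟩
    · intro a _; rfl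
  idem a w := G.idem _ w
  orth a a' h w := G.orth _ _ (fun e => h (by omega)) w

theorem rev_deg (G : Gr k W) {T : Module.End k W} {j : ℤ} (h : G.Deg T (-j)) :
    (rev G).Deg T j := fun a w => by
  have := h (-a) w
  rwa [← neg_add] at this

variable {L : Type u} [LieRing L] [LieAlgebra k L] [LieRingModule L W] [LieModule k L W]

theorem fix_ne (G : Gr k W) {l : ℕ} (e : Fin l → L) (d : Fin l → ℤ) (hd : ∀ i, 0 < d i)
    (he : ∀ i, G.Deg (LieModule.toEnd k L W (e i)) (d i)) (U : LieSubmodule k L W) (hU : U ≠ ⊥) :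
    ∃ u ∈ U, u ≠ 0 ∧ u ∈ Fix k e W := by
  have key : ∀ n : ℕ, ∀ u ∈ U, u ≠ 0 → (∀ c : ℤ, c + n ≤ G.N → G.P c u = 0) →
      ∃ u ∈ U, u ≠ 0 ∧ u ∈ Fix k e W := by
    intro n
    induction n with
    | zero =>
      intro u _ h0 h
      refine absurd (G.eq_zero fun a => ?_) h0
      by_cases ha : a ≤ G.N
      · exact h a (by simpa using ha)
      · exact G.out (by simp only [Finset.mem_Icc]; omega) u
    | succ n ih =>
      intro u hu h0 h
      by_cases hf : ∀ i, ⁅e i, u⁆ = 0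
      · exact ⟨u, hu, h0, mem_Fix.2 hf⟩
      obtain ⟨i, hi⟩ := not_forall.1 hf
      refine ih _ (U.lie_mem hu) hi fun c hc => ?_
      have h1 := he i (c - d i) u
      have h2 := hd i
      rw [sub_add_cancel, h (c - d i) (by push_cast; omega), map_zero] at h1
      exact h1
  obtain ⟨u, hu, h0⟩ := (LieSubmodule.eq_bot_iff U).not.1 hU |> fun h => by
    push Not at h; exact h
  exact key (2 * G.N + 1) u hu h0 fun c hc =>
    G.out (by simp only [Finset.mem_Icc]; push_cast at hc; omega) u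

theorem mem_of_le_one {S : Submodule k W} [FiniteDimensional k W] (h : Module.finrank k S ≤ 1)
    {Y : Submodule k W} {y v : W} (hy : y ∈ Y) (h0 : y ≠ 0) (hS : y ∈ S) (hv : v ∈ S) : v ∈ Y := by
  have e : k ∙ y = S := Submodule.eq_of_le_of_finrank_le
    ((Submodule.span_singleton_le_iff_mem _ _).2 hS) (by rwa [finrank_span_singleton h0])
  rw [← e] at hv
  exact (Submodule.span_singleton_le_iff_mem _ _).2 hy hv

/-- a top vector and a bottom vector that pair nontrivially -/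
theorem top_bot {β : W →ₗ[k] W →ₗ[k] k} (H : IF L β 1) (G : Gr k W) (hG : G.Pair β) {l : ℕ}
    (e f : Fin l → L) (d : Fin l → ℤ) (hd : ∀ i, 0 < d i)
    (he : ∀ i, G.Deg (LieModule.toEnd k L W (e i)) (d i))
    (hf : ∀ i, G.Deg (LieModule.toEnd k L W (f i)) (- d i)) (U : LieSubmodule k L W) (hU : U ≠ ⊥)
    (hP : ∀ a, ∀ u ∈ U, G.P a u ∈ U) (nd : ∀ u ∈ U, (∀ u' ∈ U, β u u' = 0) → u = 0) :
    ∃ v ∈ U, ∃ w ∈ U, v ∈ Fix k e W ∧ w ∈ Fix k f W ∧ β v w ≠ 0 := by
  obtain ⟨a, ⟨u, hu, h0⟩, hmax⟩ := Int.exists_greatest_of_bdd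
    (P := fun a => ∃ u ∈ U, G.P a u ≠ 0)
    ⟨G.N, fun a ⟨u, _, h⟩ => by
      by_contra hc
      exact h (G.out (by simp only [Finset.mem_Icc]; omega) u)⟩
    (by
      by_contra hc
      push Not at hc
      exact hU ((LieSubmodule.eq_bot_iff U).2 fun u hu => G.eq_zero fun a => hc a u hu))
  have top : ∀ c, a < c → ∀ w ∈ U, G.P c w = 0 := fun c hc w hw => by
    by_contra h
    exact absurd (hmax c ⟨w, hw, h⟩) (by omega)
  have bot : ∀ c, c < -a → ∀ w ∈ U, G.P c w = 0 := fun c hc w hw =>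
    nd _ (hP c w hw) fun u' hu' => by rw [hG, top (-c) (by omega) u' hu', map_zero]
  obtain ⟨u', hu', h1⟩ : ∃ u' ∈ U, β (G.P a u) u' ≠ 0 := by
    by_contra hc
    push Not at hc
    exact h0 (nd _ (hP a u hu) hc)
  refine ⟨G.P a u, hP a u hu, G.P (-a) u', hP _ u' hu', mem_Fix.2 fun i => ?_,
    mem_Fix.2 fun i => ?_, ?_⟩
  · have h2 := hd i
    exact (he i a u).symm.trans (top _ (by omega) _ (U.lie_mem hu))
  · have h2 := hd i
    exact (hf i (-a) u').symm.trans (bot _ (by omega) _ (U.lie_mem hu'))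
  · rwa [← hG, G.idem]

/-- the orthogonal of `Y` inside `U` -/
def perp {β : W →ₗ[k] W →ₗ[k] k} (H : IF L β 1) (U Y : LieSubmodule k L W) :
    LieSubmodule k L W where
  carrier := {u | u ∈ U ∧ ∀ y ∈ Y, β u y = 0}
  zero_mem' := ⟨U.zero_mem, fun y _ => by simp⟩
  add_mem' := fun {a b} h1 h2 => ⟨U.add_mem h1.1 h2.1, fun y hy => by
    simp [h1.2 y hy, h2.2 y hy]⟩
  smul_mem' := fun c a h1 => ⟨U.smul_mem c h1.1, fun y hy => by simp [h1.2 y hy]⟩
  lie_mem := fun {x a} h1 => ⟨U.lie_mem h1.1, fun y hy => by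
    rw [H.inv, h1.2 _ (Y.lie_mem hy), neg_zero]⟩

end FR3S

open FR3S

theorem st_simple (k : Type u) [Field k] [IsAlgClosed k] (p : ℕ) [Fact p.Prime] [CharP k p]
    (hp : p ≠ 2) : S_simple k := by
  intro L _ _ W _ _ _ _ _ β H G hG l e f d hd he hf
  have fe := fix_ne G e d hd he
  have ff := fix_ne (rev G) f d hd fun i => rev_deg G (hf i)
  refine ⟨fun U hU => ⟨?_, ?_⟩, fun U hU hP nd h1 h2 => ?_⟩
  · obtain ⟨u, hu, h0, h⟩ := fe U hU
    exact (Submodule.ne_bot_iff _).2 ⟨u, ⟨hu, h⟩, h0⟩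
  · obtain ⟨u, hu, h0, h⟩ := ff U hU
    exact (Submodule.ne_bot_iff _).2 ⟨u, ⟨hu, h⟩, h0⟩
  obtain ⟨v, hv, w, hw, hve, hwf, hβ⟩ := top_bot H G hG e f d hd he hf U hU hP nd
  have key : ∀ Y : LieSubmodule k L W, Y ≤ U → Y ≠ ⊥ → U ≤ Y := by
    intro Y hY hY0
    have hwY : w ∈ Y := by
      obtain ⟨y, hy, h0, h⟩ := ff Y hY0
      exact mem_of_le_one h2 (Y := Y.toSubmodule) hy h0 ⟨hY hy, h⟩ ⟨hw, hwf⟩
    have hp0 : perp H U Y = ⊥ := by
      by_contra hc
      obtain ⟨y, hy, h0, h⟩ := fe _ hc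
      have : v ∈ perp H U Y :=
        mem_of_le_one h1 (Y := (perp H U Y).toSubmodule) hy h0 ⟨hy.1, h⟩ ⟨hv, hve⟩
      exact hβ (this.2 w hwY)
    have inj : Function.Injective (β.domRestrict₁₂ U.toSubmodule Y.toSubmodule) := by
      rw [injective_iff_map_eq_zero]
      intro u hu
      refine Subtype.ext ((LieSubmodule.eq_bot_iff _).1 hp0 u.1 ⟨u.2, fun y hy => ?_⟩)
      exact LinearMap.congr_fun hu ⟨y, hy⟩
    have le := LinearMap.finrank_le_finrank_of_injective inj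
    rw [Subspace.dual_finrank_eq] at le
    exact (Submodule.eq_of_le_of_finrank_le (S₁ := Y.toSubmodule) (S₂ := U.toSubmodule) hY le).ge
  haveI : Nontrivial U := (LieSubmodule.nontrivial_iff_ne_bot k L W).2 hU
  refine LieModule.IsIrreducible.mk fun N hN => ?_
  have h3 := key (N.map U.incl) (fun x hx => by
    obtain ⟨y, _, rfl⟩ := (LieSubmodule.mem_map _).1 hx
    exact y.2) (fun hc => hN ((LieSubmodule.eq_bot_iff N).2 fun x hx =>
      Subtype.ext ((LieSubmodule.eq_bot_iff _).1 hc _ (LieSubmodule.mem_map_of_mem hx))))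
  refine eq_top_iff.2 fun x _ => ?_
  obtain ⟨y, hy, h⟩ := (LieSubmodule.mem_map _).1 (h3 x.2)
  rwa [← show y = x from Subtype.ext h]

theorem st_fr3 (k : Type u) [Field k] [IsAlgClosed k] (p : ℕ) [Fact p.Prime] [CharP k p]
    (hp : p ≠ 2) : S_fr3 k p := by
  intro L _ _ V _ _ _ _ _ _ b ε H hV l e he
  let π := LieSubmodule.Quotient.mk' (scal H)
  let q : Fix k e (symN H) →ₗ[k] MM H := π.toLinearMap ∘ₗ (Fix k e (symN H)).subtype
  have hr : Fix k e (MM H) ≤ LinearMap.range q := by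
    intro x hx
    obtain ⟨φ, rfl⟩ := LieSubmodule.Quotient.surjective_mk' (scal H) x
    refine ⟨⟨φ, mem_Fix.2 fun i => ?_⟩, rfl⟩
    have h1 := mem_Fix.1 hx i
    rw [← LieModuleHom.map_lie, LieSubmodule.Quotient.mk_eq_zero] at h1
    obtain ⟨c, hc⟩ := (mem_scal H).1 h1
    obtain ⟨m, hm, h0⟩ := he i
    have e1 : LieModule.toEnd k L V (e i) * φ.1 - φ.1 * LieModule.toEnd k L V (e i) =
        c • (1 : Module.End k V) := by
      rw [LieSubmodule.coe_bracket] at hc
      ext u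
      simpa using LinearMap.congr_fun hc u
    rw [scalar_zero p e1 hm h0, zero_smul] at hc
    exact Subtype.ext hc
  have hk : LinearMap.ker q ≠ ⊥ := by
    have hid : (LinearMap.id : V →ₗ[k] V) ∈ symN H :=
      (mem_symN H).2 ⟨fun u w => rfl, by rw [LinearMap.trace_id, hV]⟩
    refine (Submodule.ne_bot_iff _).2 ⟨⟨⟨_, hid⟩, mem_Fix.2 fun i => Subtype.ext ?_⟩, ?_, ?_⟩
    · rw [LieSubmodule.coe_bracket]
      ext u; simp
    · exact (LieSubmodule.Quotient.mk_eq_zero (N := scal H)).2 ⟨1, (one_smul _ _).symm⟩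
    · intro h
      have h1 : (LinearMap.id : V →ₗ[k] V) = 0 := congrArg (fun x => x.1.1) h
      obtain ⟨u, hu⟩ := exists_ne (0 : V)
      exact hu (LinearMap.congr_fun h1 u)
  have h1 := LinearMap.finrank_range_add_finrank_ker q
  have h2 := Submodule.finrank_mono hr
  have h3 : Module.finrank k (LinearMap.ker q) ≠ 0 := fun h =>
    hk (Submodule.finrank_eq_zero.1 h)
  omega

end Pool.Agent.Lib.PRC
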