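import Pool.Agent.Lib.PRC.Api

namespace Pool.Agent.Lib.PRC

open Matrix

attribute [local instance 100] LieRing.ofAssociativeRing

universe u

namespace GLG

variable {k : Type u} [Field k] {n : Type} [Fintype n] [DecidableEq n]

theorem br1 {i l : n} (j : n) (h : i ≠ l) :
    ⁅(single i j (1 : k) : Matrix n n k), (single j l (1 : k) : Matrix n n k)⁆ = single i l 1 := by
  rw [Ring.lie_def, single_mul_single_same, single_mul_single_of_ne _ _ _ _ h.symm, mul_one,
    sub_zero]

theorem br2 (i j : n) :
    ⁅(single i j (1 : k) : Matrix n n k), (single j i (1 : k) : Matrix n n k)⁆ =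
      single i i 1 - single j j 1 := by
  rw [Ring.lie_def, single_mul_single_same, single_mul_single_same, mul_one]

theorem br3 {i j : n} (h : i ≠ j) (a : Matrix n n k) :
    ⁅(single i j (1 : k) : Matrix n n k), ⁅(single i j (1 : k) : Matrix n n k), a⁆⁆ =
      (-(2 * a j i)) • single i j 1 := by
  have h0 : (single i j (1 : k) : Matrix n n k) * (single i j (1 : k) : Matrix n n k) = 0 :=
    single_mul_single_of_ne _ _ _ _ h.symm _
  have h1 : (single i j (1 : k) : Matrix n n k) * a * (single i j (1 : k) : Matrix n n k) =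
      a j i • single i j 1 := by
    rw [single_mul_mul_single, smul_single]
    simp
  rw [Ring.lie_def, Ring.lie_def, mul_sub, sub_mul, ← mul_assoc, ← mul_assoc, h0, h1,
    mul_assoc a, h0, zero_mul, mul_zero]
  module

theorem off {N : ℕ} (M : LieSubalgebra k (Matrix (Fin (N + 1)) (Fin (N + 1)) k))
    (h1 : ∀ i : Fin N, single i.castSucc i.succ (1 : k) ∈ M)
    (h2 : ∀ i : Fin N, single i.succ i.castSucc (1 : k) ∈ M) (d : ℕ) :
    ∀ (i : Fin (N + 1)) (j : Fin N), j.val = i.val + d →
      single i j.succ (1 : k) ∈ M ∧ single j.succ i (1 : k) ∈ M := by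
  induction d with
  | zero =>
    intro i j h
    obtain rfl : i = j.castSucc := Fin.ext (by simpa using h.symm)
    exact ⟨h1 j, h2 j⟩
  | succ d ih =>
    intro i j h
    obtain ⟨a, b⟩ := ih i ⟨i.val + d, by omega⟩ rfl
    have e : (⟨i.val + d, by omega⟩ : Fin N).succ = j.castSucc := Fin.ext (by simp; omega)
    have ne : i ≠ j.succ := fun hh => by
      have := congrArg Fin.val hh
      simp at this
      omega
    rw [e] at a b
    exact ⟨br1 (k := k) j.castSucc ne ▸ M.lie_mem a (h1 j),
      br1 (k := k) j.castSucc ne.symm ▸ M.lie_mem (h2 j) b⟩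

theorem red (M : LieSubalgebra k (Matrix n n k)) (h : ∀ i j, i ≠ j → single i j (1 : k) ∈ M)
    (o : n) (a : Matrix n n k) : a - a.trace • single o o (1 : k) ∈ M := by
  have e : a - a.trace • single o o (1 : k) =
      ∑ i, (a i i • (single i i (1 : k) - single o o 1) +
        ∑ j ∈ Finset.univ.erase i, a i j • single i j (1 : k)) := by
    have : ∀ i, a i i • (single i i (1 : k) - single o o 1) +
        ∑ j ∈ Finset.univ.erase i, a i j • single i j (1 : k) =
        ∑ j, single i j (a i j) - a i i • single o o (1 : k) := by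
      intro i
      rw [← Finset.add_sum_erase _ _ (Finset.mem_univ i), smul_sub]
      simp only [smul_single, smul_eq_mul, mul_one]
      abel
    simp only [this]
    rw [Finset.sum_sub_distrib, ← matrix_eq_sum_single, ← Finset.sum_smul]
    rfl
  rw [e]
  refine sum_mem fun i _ => add_mem (M.smul_mem _ ?_) (sum_mem fun j hj => M.smul_mem _ ?_)
  · by_cases hi : i = o
    · rw [hi, sub_self]
      exact M.zero_mem
    · exact br2 (k := k) i o ▸ M.lie_mem (h _ _ hi) (h _ _ (Ne.symm hi))
  · exact h _ _ (Finset.ne_of_mem_erase hj).symm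

theorem of_smul (J : LieIdeal k (Matrix n n k)) {c : k} (hc : c ≠ 0) {a : Matrix n n k}
    (h : c • a ∈ J) : a ∈ J := by
  have := J.smul_mem c⁻¹ h
  rwa [smul_smul, inv_mul_cancel₀ hc, one_smul] at this

theorem spread (h2 : (2 : k) ≠ 0) (J : LieIdeal k (Matrix n n k)) {i j x y : n} (hij : i ≠ j)
    (hxy : x ≠ y) (h : single i j (1 : k) ∈ J) : single x y (1 : k) ∈ J := by
  have left : ∀ s, single s y (1 : k) ∈ J → single x y (1 : k) ∈ J := fun s hs =>
    br1 (k := k) s hxy ▸ J.lie_mem hs
  by_cases hy : i = y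
  · subst hy
    refine left j (of_smul J (c := -(2 * 1)) (by simpa using h2) ?_)
    have := br3 hij.symm (single i j (1 : k))
    rw [single_apply_same] at this
    exact this ▸ J.lie_mem (J.lie_mem h)
  · exact left i (br1 (k := k) j hy ▸ lie_mem_left k _ J _ _ h)

theorem scalar (h2 : (2 : k) ≠ 0) (J : LieIdeal k (Matrix n n k)) {x y : n} (hxy : x ≠ y)
    (h : single x y (1 : k) ∉ J) (a : Matrix n n k) (ha : a ∈ J) : a = a x x • 1 := by
  have z : ∀ b ∈ J, ∀ i j, i ≠ j → b j i = 0 := by
    intro b hb i j hij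
    by_contra hne
    refine h (spread h2 J hij hxy (of_smul J (c := -(2 * b j i)) (by simp [h2, hne]) ?_))
    exact br3 hij b ▸ J.lie_mem (J.lie_mem hb)
  ext i j
  by_cases hij : i = j
  · subst hij
    by_cases hx : x = i
    · simp [hx]
    · have := z _ (J.lie_mem (x := single x i (1 : k)) ha) i x (Ne.symm hx)
      rw [Ring.lie_def, Matrix.sub_apply, single_mul_apply_same, mul_single_apply_same] at this
      simpa [sub_eq_zero] using this
  · simp [z a ha j i (Ne.symm hij), hij]

end GLG

theorem st_glg (k : Type u) [Field k] [IsAlgClosed k] (p : ℕ) [Fact p.Prime] [CharP k p]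
    (hp : p ≠ 2) : S_glg k := by
  refine ⟨fun N M h1 h2 => ?_, fun N J h a ha =>
    ⟨_, GLG.scalar (two_ne k p hp) J (by simp) h a ha⟩⟩
  have lt : ∀ i j : Fin (N + 1), i < j → single i j (1 : k) ∈ M ∧ single j i (1 : k) ∈ M := by
    intro i j hij
    obtain ⟨j, rfl⟩ := Fin.exists_succ_eq.2 (Fin.ne_zero_of_lt hij)
    have : i.val < j.val + 1 := hij
    exact GLG.off M h1 h2 (j.val - i.val) i j (by omega)
  have all : ∀ i j : Fin (N + 1), i ≠ j → single i j (1 : k) ∈ M := fun i j hij =>
    (lt_or_gt_of_ne hij).elim (fun h => (lt i j h).1) fun h => (lt j i h).2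
  refine ⟨fun a ha => ?_, fun h0 => eq_top_iff.2 fun a _ => ?_⟩
  · simpa [ha] using GLG.red M all 0 a
  · have := add_mem (GLG.red M all 0 a) (M.smul_mem a.trace h0)
    rwa [sub_add_cancel] at this

end Pool.Agent.Lib.PRC
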