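import Pool.Agent.Lib.PRC.Api

namespace Pool.Agent.Lib.PRC

open Matrix Pool.Agent.Lib.MP_3a0263_al Pool.Agent.Lib.MP_3a0263_al.R Pool.Agent.Lib.MP_3a0263_al.Q

attribute [local instance 100] LieRing.ofAssociativeRing

universe u

namespace GRL

variable {k : Type u} [Field k] {n : Type} [Fintype n] [DecidableEq n] {p : ℕ}
  {L : LieSubalgebra k (Matrix n n k)} {Φ : Type u} [Fintype Φ] (R : XR p L Φ)

/-- root vectors as elements of `L` -/
def E (β : Φ) : L := ⟨R.e β, R.e_mem β⟩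

/-- diagonal matrices as elements of `L` -/
def Dg : R.t →ₗ[k] L where
  toFun d := ⟨diagonal d.1, R.t_mem d⟩
  map_add' d d' := Subtype.ext (diagonal_add d.1 d'.1).symm
  map_smul' c d := Subtype.ext (diagonal_smul c d.1)

lemma dec (x : L) : x = Dg R (R.tp x.1) + ∑ β, R.cf β x.1 • E R β := by
  apply Subtype.ext
  refine (R.decomp x.1 x.2).trans ?_
  have h := map_sum L.incl (fun β => R.cf β x.1 • E R β) Finset.univ
  exact congrArg (diagonal (R.tp x.1).1 + ·) h.symm

lemma mem_of_gen (S : Submodule k L) (h1 : ∀ d, Dg R d ∈ S) (h2 : ∀ β, E R β ∈ S) (x : L) :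
    x ∈ S := by
  rw [dec R x]
  exact S.add_mem (h1 _) (S.sum_mem fun β _ => S.smul_mem _ (h2 β))

/-- projection to height `a` -/
noncomputable def P (a : ℤ) : Module.End k L :=
  (if 0 = a then Dg R ∘ₗ R.tp ∘ₗ L.incl.toLinearMap else 0) +
    ∑ β, if C1.ht R.toComb β = a then (R.cf β ∘ₗ L.incl.toLinearMap).smulRight (E R β) else 0

lemma P_D (a : ℤ) (d : R.t) : P R a (Dg R d) = if 0 = a then Dg R d else 0 := by
  rw [P, LinearMap.add_apply, LinearMap.sum_apply, Finset.sum_eq_zero, add_zero]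
  · split_ifs
    · exact congrArg (Dg R) (R.tp_t d)
    · rfl
  · intro β _
    split_ifs
    · exact (congrArg (· • E R β) (R.cf_t β d)).trans (zero_smul _ _)
    · rfl

lemma P_E (a : ℤ) (β : Φ) : P R a (E R β) = if C1.ht R.toComb β = a then E R β else 0 := by
  rw [P, LinearMap.add_apply, LinearMap.sum_apply, Finset.sum_eq_single β (fun γ _ h => ?_)
    (by simp)]
  · have h0 : (if 0 = a then Dg R ∘ₗ R.tp ∘ₗ L.incl.toLinearMap else 0) (E R β) = 0 := by
      split_ifs
      · exact (congrArg (Dg R) (R.tp_e β)).trans (map_zero _)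
      · rfl
    rw [h0, zero_add]
    split_ifs
    · exact (congrArg (· • E R β) (R.cf_self β)).trans (one_smul _ _)
    · rfl
  · split_ifs
    · exact (congrArg (· • E R γ) (R.cf_ne _ _ h)).trans (zero_smul _ _)
    · rfl

/-- homogeneous elements of height `a` -/
def W (a : ℤ) : Submodule k L where
  carrier := {x | ∀ c, P R c x = if a = c then x else 0}
  zero_mem' := fun c => by simp
  add_mem' := fun {x y} hx hy c => by
    rw [map_add, hx c, hy c]
    split_ifs <;> simp
  smul_mem' := fun r x hx c => by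
    rw [map_smul, hx c]
    split_ifs <;> simp

lemma D_mem (d : R.t) : Dg R d ∈ W R 0 := fun c => P_D R c d

lemma E_mem (β : Φ) : E R β ∈ W R (C1.ht R.toComb β) := fun c => P_E R c β

lemma mem_of_hom (S : Submodule k L) (h : ∀ c, ∀ x ∈ W R c, x ∈ S) (x : L) : x ∈ S :=
  mem_of_gen R S (fun d => h _ _ (D_mem R d)) (fun β => h _ _ (E_mem R β)) x

lemma ext_hom {V : Type*} [AddCommGroup V] [Module k V] {f g : L →ₗ[k] V}
    (h : ∀ c, ∀ x ∈ W R c, f x = g x) (x : L) : f x = g x :=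
  mem_of_hom R (LinearMap.eqLocus f g) h x

lemma P_mem (a : ℤ) (x : L) : P R a x ∈ W R a :=
  mem_of_hom R ((W R a).comap (P R a)) (fun c y hy => by
    rw [Submodule.mem_comap, hy a]
    split_ifs with h
    · exact h ▸ hy
    · exact Submodule.zero_mem _) x

lemma P_self {a : ℤ} {x : L} (hx : x ∈ W R a) : P R a x = x := (hx a).trans (if_pos rfl)

lemma DE (d : R.t) (β : Φ) : ⁅Dg R d, E R β⁆ = R.wt β d • E R β := Subtype.ext (R.lie_e d β)

lemma EE (β γ : Φ) : ⁅E R β, E R γ⁆ ∈ W R (C1.ht R.toComb β + C1.ht R.toComb γ) := by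
  by_cases h : γ = R.neg β
  · have h1 : ⁅E R β, E R γ⁆ = Dg R (R.tp ⁅R.e β, R.e (R.neg β)⁆) := by
      rw [h]
      exact Subtype.ext (L0.br_neg R.toCRoot β)
    rw [h1, h, C1.ht_neg, add_neg_cancel]
    exact D_mem R _
  by_cases h2 : ∃ δ, L0.IsSum R.toComb β γ δ
  · obtain ⟨δ, hδ⟩ := h2
    have h1 : ⁅E R β, E R γ⁆ = R.cf δ ⁅R.e β, R.e γ⁆ • E R δ :=
      Subtype.ext (L0.br_sum R.toCRoot hδ)
    have h3 := C1.ht_comb R.toComb 1 1 (a := β) (b := γ) (c := δ) fun i hi => by
      rw [hδ i hi, one_mul, one_mul]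
    rw [one_mul, one_mul] at h3
    rw [h1, ← h3]
    exact Submodule.smul_mem _ _ (E_mem R δ)
  · have h1 : ⁅E R β, E R γ⁆ = 0 :=
      Subtype.ext (L0.br_zero R.toCRoot h fun δ hδ => h2 ⟨δ, hδ⟩)
    rw [h1]
    exact Submodule.zero_mem _

lemma lie_mem {a b : ℤ} {x y : L} (hx : x ∈ W R a) (hy : y ∈ W R b) : ⁅x, y⁆ ∈ W R (a + b) := by
  have k1 : ∀ (c : ℤ) (g : L), (∀ d, ⁅g, Dg R d⁆ ∈ W R (c + 0)) →
      (∀ γ, ⁅g, E R γ⁆ ∈ W R (c + C1.ht R.toComb γ)) → ⁅g, y⁆ ∈ W R (c + b) := by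
    intro c g h1 h2
    rw [← P_self R hy]
    refine mem_of_gen R ((W R (c + b)).comap (LieModule.toEnd k L L g ∘ₗ P R b)) (fun d => ?_)
      (fun γ => ?_) y
    · rw [Submodule.mem_comap, LinearMap.comp_apply, P_D]
      split_ifs with h
      · exact h ▸ h1 d
      · rw [map_zero]
        exact Submodule.zero_mem _
    · rw [Submodule.mem_comap, LinearMap.comp_apply, P_E]
      split_ifs with h
      · exact h ▸ h2 γ
      · rw [map_zero]
        exact Submodule.zero_mem _
  rw [← P_self R hx, ← lie_skew]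
  refine Submodule.neg_mem _ (mem_of_gen R ((W R (a + b)).comap
    (LieModule.toEnd k L L y ∘ₗ P R a)) (fun d => ?_) (fun β => ?_) x)
  · rw [Submodule.mem_comap, LinearMap.comp_apply, P_D]
    split_ifs with h
    · rw [LieModule.toEnd_apply_apply, ← lie_skew, ← h]
      refine Submodule.neg_mem _ (k1 0 _ (fun d' => ?_) fun γ => ?_)
      · have : ⁅Dg R d, Dg R d'⁆ = 0 := Subtype.ext (L0.diag_lie R.toCRoot d d')
        rw [this]
        exact Submodule.zero_mem _
      · rw [DE, zero_add]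
        exact Submodule.smul_mem _ _ (E_mem R γ)
    · rw [map_zero]
      exact Submodule.zero_mem _
  · rw [Submodule.mem_comap, LinearMap.comp_apply, P_E]
    split_ifs with h
    · rw [LieModule.toEnd_apply_apply, ← lie_skew, ← h]
      refine Submodule.neg_mem _ (k1 _ _ (fun d' => ?_) (EE R β))
      rw [← lie_skew, DE, add_zero]
      exact Submodule.neg_mem _ (Submodule.smul_mem _ _ (E_mem R β))
    · rw [map_zero]
      exact Submodule.zero_mem _

/-- the height grading -/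
noncomputable def gr : Gr k L where
  P := P R
  N := ∑ β, (C1.ht R.toComb β).natAbs
  sum w := by
    have key : ∀ (c : ℤ) (x : L), x ∈ W R c → c.natAbs ≤ ∑ β, (C1.ht R.toComb β).natAbs →
        x ∈ LinearMap.eqLocus (∑ a ∈ Finset.Icc (-((∑ β, (C1.ht R.toComb β).natAbs : ℕ) : ℤ))
          (∑ β, (C1.ht R.toComb β).natAbs : ℕ), P R a) LinearMap.id := fun c x hx hc => by
      rw [LinearMap.mem_eqLocus, LinearMap.sum_apply, Finset.sum_congr rfl fun a _ => hx a,
        Finset.sum_ite_eq, if_pos (Finset.mem_Icc.2 (by omega))]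
      rfl
    rw [← LinearMap.sum_apply]
    exact mem_of_gen R _ (fun d => key _ _ (D_mem R d) (Nat.zero_le _)) (fun β => key _ _
      (E_mem R β) (Finset.single_le_sum (f := fun β => (C1.ht R.toComb β).natAbs)
        (fun _ _ => Nat.zero_le _) (Finset.mem_univ β))) w
  idem a w := P_self R (P_mem R a w)
  orth a a' h w := (P_mem R a' w a).trans (if_neg h.symm)

lemma kill_zero {a b : ℤ} {x y : L} (hx : x ∈ W R a) (hy : y ∈ W R b) (h : a + b ≠ 0) :
    killingForm k L x y = 0 := by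
  set T := LieModule.toEnd k L L x ∘ₗ LieModule.toEnd k L L y with hT
  have h1 : T = ∑ c ∈ Finset.Icc (-((gr R).N : ℤ)) (gr R).N, (T * P R c) * P R c := by
    ext1 w
    rw [LinearMap.sum_apply]
    conv_lhs => rw [← (gr R).sum w, map_sum]
    exact Finset.sum_congr rfl fun c _ => congrArg T ((gr R).idem c w).symm
  rw [killingForm, LieModule.traceForm_apply_apply, ← hT, h1, map_sum]
  refine Finset.sum_eq_zero fun c _ => ?_
  have h2 : P R c * (T * P R c) = 0 := by
    ext1 w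
    exact (lie_mem R hx (lie_mem R hy (P_mem R c w)) c).trans (if_neg (by omega))
  rw [LinearMap.trace_mul_comm, h2, map_zero]

lemma abs_m {a b : Φ} (C : Comb Φ) (h1 : b ≠ a) (h2 : b ≠ C.neg a) : |C.m a b| ≤ 3 := by
  by_cases h : C.m b a = 0
  · rw [C1.m_zero_symm C h]
    norm_num
  · have h3 := C1.mm_le C h1 h2
    rw [← abs_of_nonneg (C1.mm_nonneg C a b), abs_mul] at h3
    have h4 : 1 ≤ |C.m b a| := Int.one_le_abs h
    nlinarith [abs_nonneg (C.m a b)]

lemma pow_D (β : Φ) (d : R.t) (j : ℕ) :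
    (LieModule.toEnd k L L (E R β) ^ (j + 2)) (Dg R d) = 0 := by
  rw [pow_add, pow_two, Module.End.mul_apply, Module.End.mul_apply, LieModule.toEnd_apply_apply,
    LieModule.toEnd_apply_apply, ← lie_skew (E R β) (Dg R d), DE, lie_neg, lie_smul, lie_self,
    smul_zero, neg_zero, map_zero]

lemma string {β γ : Φ} (h1 : γ ≠ β) (h2 : γ ≠ R.neg β) (j : ℕ) :
    (LieModule.toEnd k L L (E R β) ^ j) (E R γ) = 0 ∨ ∃ (δ : Φ) (c : k),
      (∀ i ∈ R.Δ, R.co δ i = R.co γ i + j * R.co β i) ∧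
        (LieModule.toEnd k L L (E R β) ^ j) (E R γ) = c • E R δ := by
  induction j with
  | zero => exact Or.inr ⟨γ, 1, fun i _ => by simp, by simp⟩
  | succ j ih =>
    rw [pow_succ', Module.End.mul_apply]
    rcases ih with h | ⟨δ, c, hδ, h⟩
    · exact Or.inl (by rw [h, map_zero])
    rw [h, map_smul, LieModule.toEnd_apply_apply]
    by_cases h3 : ∃ δ', L0.IsSum R.toComb β δ δ'
    · obtain ⟨δ', hδ'⟩ := h3
      have h4 : ⁅E R β, E R δ⁆ = R.cf δ' ⁅R.e β, R.e δ⁆ • E R δ' :=
        Subtype.ext (L0.br_sum R.toCRoot hδ')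
      refine Or.inr ⟨δ', c * R.cf δ' ⁅R.e β, R.e δ⁆, fun i hi => ?_, by rw [h4, mul_smul]⟩
      rw [hδ' i hi, hδ i hi]
      push_cast
      ring
    · have h5 : δ ≠ R.neg β := fun e => by
        refine (R.red β γ 1 (-(j + 1)) one_ne_zero fun i hi => ?_).elim h1 h2
        have := hδ i hi
        rw [e, R.co_neg β i hi] at this
        linarith
      have h4 : ⁅E R β, E R δ⁆ = 0 :=
        Subtype.ext (L0.br_zero R.toCRoot h5 fun δ' hδ' => h3 ⟨δ', hδ'⟩)
      exact Or.inl (by rw [h4, smul_zero])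

lemma pow_four (β : Φ) : LieModule.toEnd k L L (E R β) ^ 4 = 0 := by
  ext1 x
  refine mem_of_gen R (LinearMap.ker _) (fun d => pow_D R β d 2) (fun γ => ?_) x
  rw [LinearMap.mem_ker]
  by_cases h1 : γ = β
  · rw [h1, pow_succ, Module.End.mul_apply, LieModule.toEnd_apply_apply, lie_self, map_zero]
  by_cases h2 : γ = R.neg β
  · have h3 : ⁅E R β, E R γ⁆ = Dg R (R.tp ⁅R.e β, R.e (R.neg β)⁆) := by
      rw [h2]
      exact Subtype.ext (L0.br_neg R.toCRoot β)
    rw [pow_succ, Module.End.mul_apply, LieModule.toEnd_apply_apply, h3]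
    exact pow_D R β _ 1
  rcases string R h1 h2 4 with h | ⟨δ, c, hδ, -⟩
  · exact h
  · have := C1.string_le R.toComb 3 (fun a b => abs_m R.toComb) β γ δ _ h1 h2 hδ
    norm_num at this

end GRL

theorem st_grl (k : Type u) [Field k] [IsAlgClosed k] (p : ℕ) [Fact p.Prime] [CharP k p]
    (_hp : p ≠ 2) : S_grl k p := by
  intro n _ _ L Φ _ R
  refine ⟨GRL.gr R, fun a u w => ?_, fun j z a w => ?_,
    fun β => GRL.P_self R (GRL.E_mem R β), GRL.pow_four R⟩
  · refine GRL.ext_hom R (f := (killingForm k L).flip w ∘ₗ GRL.P R a)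
      (g := (killingForm k L).flip (GRL.P R (-a) w)) (fun c x hx => ?_) u
    refine GRL.ext_hom R (f := killingForm k L (GRL.P R a x))
      (g := killingForm k L x ∘ₗ GRL.P R (-a)) (fun d y hy => ?_) w
    rw [LinearMap.comp_apply, hx a, hy (-a)]
    by_cases h : c + d = 0
    · by_cases h1 : c = a
      · rw [if_pos h1, if_pos (by omega)]
      · rw [if_neg h1, if_neg (by omega), map_zero, map_zero, LinearMap.zero_apply]
    · have h0 := GRL.kill_zero R hx hy h
      split_ifs <;> simp [h0]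
  · refine GRL.ext_hom R (f := GRL.P R (a + j) ∘ₗ LieModule.toEnd k L L (GRL.P R j z))
      (g := LieModule.toEnd k L L (GRL.P R j z) ∘ₗ GRL.P R a) (fun c y hy => ?_) w
    rw [LinearMap.comp_apply, LinearMap.comp_apply, hy a, LieModule.toEnd_apply_apply,
      GRL.lie_mem R (GRL.P_mem R j z) hy (a + j)]
    by_cases h : c = a
    · rw [if_pos h, if_pos (by omega), LieModule.toEnd_apply_apply]
    · rw [if_neg h, if_neg (by omega), map_zero]

end Pool.Agent.Lib.PRC
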