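import Pool.Agent.Lib.PRC.Api

namespace Pool.Agent.Lib.PRC

open Matrix Pool.Agent.Lib.MP_3a0263_al Pool.Agent.Lib.MP_3a0263_al.R Pool.Agent.Lib.MP_3a0263_al.Q

attribute [local instance 100] LieRing.ofAssociativeRing

universe u

theorem st_kil (k : Type u) [Field k] [IsAlgClosed k] (p : ℕ) [hq : Fact p.Prime] [CharP k p]
    (hp : p ≠ 2) (hchev : S_chev k p) (hfr1 : S_fr1 k) (hfr2 : S_fr2 k) (hfr3 : S_fr3 k p)
    (hcas : S_cas k) (htr : S_tr k) (hgrl : S_grl k p) (hkk : S_kk k p) (hroots : S_roots.{u})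
    (hfit : S_fit k) : S_kil k p := by
  intro n _ _ L Φ _ R hs hT ⟨a, ha, hK⟩
  have h2 := two_ne k p hp
  set x0 : L := ⟨diagonal (R.h a).1, R.t_mem _⟩ with hx0
  have hκ : killingForm k L x0 x0 ≠ 0 := by
    rw [hx0, L0.killing_h R.toCRoot hs ha]
    exact fun h0 => hK ((CharP.intCast_eq_zero_iff k p _).1 h0)
  by_cases hd : (Module.finrank k L : k) = 0
  swap
  · exact ⟨L, inferInstance, inferInstance, inferInstance, inferInstance, inferInstance,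
      inferInstance, hd, x0, x0, hκ⟩
  have hsym : ∀ u w : L, killingForm k L u w = killingForm k L w u :=
    fun u w => LieModule.traceForm_comm k L L u w
  have H : IF L (killingForm k L) 1 :=
    ⟨fun u hu => RICH.nondeg hκ u fun w => (hsym w u).trans (hu w),
      fun u w => by rw [one_mul, hsym], fun x u w => by
        rw [← lie_skew x u, map_neg, LinearMap.neg_apply, LieModule.traceForm_apply_lie_apply],
      Or.inl rfl⟩
  have : Nontrivial L := LieModule.nontrivial_of_isIrreducible k L L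
  obtain ⟨hdim, -, -⟩ := hchev n L Φ R hs
  obtain ⟨⟨θ, kk, θ', hE⟩, h7⟩ := hroots Φ R.toComb hT
  have hp7 : 7 ≤ p := h7 p hq.out hp R.goodAll
    (hdim ▸ (CharP.cast_eq_zero_iff k p _).1 hd)
  obtain ⟨l, M, v, hv⟩ : ∃ (l : ℕ) (M : Matrix (Fin l) (Fin l) ℤ) (v : Fin l → Φ),
      C1.Ty R.toComb M v := by
    rcases hT with ⟨v, h⟩ | ⟨v, h⟩ | ⟨v, h⟩ | ⟨v, h⟩ | ⟨v, h⟩ <;> exact ⟨_, _, v, h⟩
  obtain ⟨f1, f2, Λ, f3, f4⟩ := hfr1 L L _ 1 H hd
  obtain ⟨Q, q1, q2, q3, q4⟩ := hgrl n L Φ R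
  obtain ⟨G, β, g1, g2, g3⟩ := hfr2 L L _ 1 H hd Q q1
  obtain ⟨⟨m, x, y, D⟩, c0⟩ := hcas L _ H
  obtain ⟨c1, c2⟩ := c0 _ x y D
  obtain ⟨c3, c4, c5⟩ := c2 (MM H)
  obtain ⟨t1, t2⟩ := htr L H hd _ x y D Λ f3 x0
  have e1 := hfr3 L L _ 1 H hd l (R.xe v) fun i => ⟨4, by omega, q4 _⟩
  have e2 := hfr3 L L _ 1 H hd l (R.xf v) fun i => ⟨4, by omega, q4 _⟩
  have k1 := hkk n L Φ R hs l M v hv θ kk θ' hE H
  have k2 := hkk n L Φ R.opp hs l M v hv θ kk θ' hE H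
  rw [XR.opp_xe] at k2
  have h15 : (15 : k) ≠ 0 := fun h0 => by
    have h1 : p ∣ 3 * 5 := (CharP.cast_eq_zero_iff k p 15).1 (by exact_mod_cast h0)
    rcases (Nat.Prime.dvd_mul hq.out).1 h1 with h | h
    · have := Nat.le_of_dvd (by omega) h; omega
    · have := Nat.le_of_dvd (by omega) h; omega
  refine hfit L (MM H) β g1 G g2 l (R.xe v) (R.xf v) (fun i => g3 _ _ ?_) (fun i => g3 _ _ ?_)
    (by omega) (by omega) _ x y c3 (c4 β g1) (c5 Q G q1 fun j z => g3 _ _ (q2 j z))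
    (c1 hs hd) f1 h2 h15 x0 _ hκ ?_ ?_ ?_
  · have := q2 (C1.ht R.toComb (v i)) (R.xe v i)
    rwa [show Q.P _ (R.xe v i) = R.xe v i from q3 _, C1.ht_simple _ (hv.mem _ i)] at this
  · have := q2 (C1.ht R.toComb (R.neg (v i))) (R.xf v i)
    rwa [show Q.P _ (R.xf v i) = R.xf v i from q3 _, C1.ht_neg, C1.ht_simple _ (hv.mem _ i)] at this
  · have := f2 x0 x0
    rw [mul_one] at this
    rw [op, pow_zero, one_mul]
    exact this
  · refine mul_left_cancel₀ h2 ?_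
    rw [← f4, t1]; ring
  · refine mul_left_cancel₀ h2 ?_
    rw [← f4, t2]; ring

end Pool.Agent.Lib.PRC
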