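import Pool.Agent.Lib.PRC.Api

namespace Pool.Agent.Lib.PRC

open Matrix Pool.Agent.Lib.MP_3a0263_al Pool.Agent.Lib.MP_3a0263_al.R Pool.Agent.Lib.MP_3a0263_al.Q

attribute [local instance 100] LieRing.ofAssociativeRing

universe u

namespace KK

variable {k : Type u} [Field k] {n : Type} [Fintype n] [DecidableEq n] {p : ℕ}
  {L : LieSubalgebra k (Matrix n n k)} {Φ : Type u} [Fintype Φ] (R : XR p L Φ)

lemma lie_exp (a : Φ) {x : Matrix n n k} (hx : x ∈ L) : ⁅R.e a, x⁆ =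
    -(R.wt a (R.tp x) • R.e a) + ∑ γ, R.cf γ x • ⁅R.e a, R.e γ⁆ := by
  conv_lhs => rw [R.decomp x hx]
  rw [lie_add, L0.e_lie R.toCRoot, lie_sum]
  simp only [lie_smul]

lemma cf_sum {a β δ : Φ} (h : L0.IsSum R.toComb a β δ) {x : Matrix n n k} (hx : x ∈ L) :
    R.cf δ ⁅R.e a, x⁆ = R.cf β x * R.cf δ ⁅R.e a, R.e β⁆ := by
  have h1 : δ ≠ a := fun e => by
    obtain ⟨i, hi, h2⟩ := C1.co_ne R.toComb β
    have := h i hi
    rw [e] at this
    omega
  rw [lie_exp R a hx, map_add, map_neg, map_smul, R.cf_ne _ _ h1, smul_zero, neg_zero, zero_add,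
    map_sum, Finset.sum_eq_single β (fun γ _ hγ => ?_) (by simp), map_smul, smul_eq_mul]
  have : R.cf δ ⁅R.e a, R.e γ⁆ = 0 := by
    by_contra h2
    refine hγ (R.inj _ _ fun i hi => ?_)
    have := R.br_cf _ _ _ h2 i hi
    have := h i hi
    omega
  rw [map_smul, this, smul_zero]

lemma cf_self (a : Φ) {x : Matrix n n k} (hx : x ∈ L) :
    R.cf a ⁅R.e a, x⁆ = - R.wt a (R.tp x) := by
  rw [lie_exp R a hx, map_add, map_neg, map_smul, R.cf_self, smul_eq_mul, mul_one, map_sum,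
    Finset.sum_eq_zero fun γ _ => ?_, add_zero]
  have : R.cf a ⁅R.e a, R.e γ⁆ = 0 := by
    by_contra h2
    obtain ⟨i, hi, h3⟩ := C1.co_ne R.toComb γ
    have := R.br_cf _ _ _ h2 i hi
    omega
  rw [map_smul, this, smul_zero]

lemma tp_lie (a : Φ) {x : Matrix n n k} (hx : x ∈ L) :
    R.tp ⁅R.e a, x⁆ = R.cf (R.neg a) x • R.h a := by
  rw [lie_exp R a hx, map_add, map_neg, map_smul, R.tp_e, smul_zero, neg_zero, zero_add,
    map_sum, Finset.sum_eq_single (R.neg a) (fun γ _ hγ => ?_) (by simp), map_smul, R.br_h, R.tp_t]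
  rw [map_smul, R.br_tp _ _ hγ, smul_zero]

/-- root vectors as elements of `L` -/
def E (β : Φ) : L := ⟨R.e β, R.e_mem β⟩

/-- diagonal elements of `L` -/
def D (d : R.t) : L := ⟨diagonal d.1, R.t_mem d⟩

lemma D_E (d : R.t) (β : Φ) : ⁅D R d, E R β⁆ = R.wt β d • E R β := Subtype.ext (R.lie_e d β)

lemma E_ne (β : Φ) : E R β ≠ 0 := fun h => L0.e_ne R.toCRoot β (congrArg Subtype.val h)

variable {b : L →ₗ[k] L →ₗ[k] k} (H : IF L b 1)
include H

lemma b_E (h2 : (2 : k) ≠ 0) (x : L) (β : Φ) :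
    b x (E R β) = R.cf (R.neg β) x.1 * b (E R (R.neg β)) (E R β) := by
  have e : x = D R (R.tp x.1) + ∑ γ, R.cf γ x.1 • E R γ := Subtype.ext (by
    rw [AddMemClass.coe_add, AddSubmonoidClass.coe_finsetSum]
    exact R.decomp x.1 x.2)
  have h1 : ∀ d, b (D R d) (E R β) = 0 := fun d => by
    obtain ⟨d', hd'⟩ := DFunLike.ne_iff.1 (R.wt_ne h2 β)
    have := H.inv (D R d') (D R d) (E R β)
    rw [show ⁅D R d', D R d⁆ = 0 from Subtype.ext (L0.diag_lie R.toCRoot d' d), D_E, map_zero,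
      map_smul] at this
    simpa [show R.wt β d' ≠ 0 from hd'] using this
  have h3 : ∀ γ, γ ≠ R.neg β → b (E R γ) (E R β) = 0 := fun γ hγ => by
    by_contra h4
    refine hγ (R.wt_inj _ _ (LinearMap.ext fun d => ?_))
    have := H.inv (D R d) (E R γ) (E R β)
    rw [D_E, D_E, map_smul, map_smul, LinearMap.smul_apply, smul_eq_mul, smul_eq_mul,
      ← neg_mul] at this
    rw [L0.wt_neg R.toCRoot]
    exact mul_right_cancel₀ h4 this
  conv_lhs => rw [e]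
  rw [map_add, LinearMap.add_apply, h1, zero_add, map_sum, LinearMap.sum_apply,
    Finset.sum_eq_single (R.neg β) (fun γ _ hγ => ?_) (by simp), map_smul, LinearMap.smul_apply,
    smul_eq_mul]
  rw [map_smul, LinearMap.smul_apply, h3 γ hγ, smul_zero]

lemma b_ne (h2 : (2 : k) ≠ 0) (β : Φ) : b (E R (R.neg β)) (E R β) ≠ 0 := fun h =>
  E_ne R β (H.nd _ fun w => by rw [H.sym, b_E R H h2, h, mul_zero, mul_zero])

lemma skew (h2 : (2 : k) ≠ 0) {φ : L →ₗ[k] L} (hφ : ∀ u w, b (φ u) w = b u (φ w)) {y : L}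
    (hy : ∀ w, φ ⁅y, w⁆ = ⁅y, φ w⁆) (v : L) : b (φ v) ⁅y, v⁆ = 0 := by
  have h1 := H.inv y v (φ v)
  rw [← hy, ← hφ v, H.sym, one_mul] at h1
  exact (mul_eq_zero.1 (show 2 * b (φ v) ⁅y, v⁆ = 0 by linear_combination h1)).resolve_left h2

omit H in
lemma comm_pos (hgen : S_gen k p) {φ : L →ₗ[k] L}
    (h : ∀ i ∈ R.Δ, ∀ w, φ ⁅E R i, w⁆ = ⁅E R i, φ w⁆) {β : Φ} (hβ : C1.Pos R.toComb β) (w : L) :
    φ ⁅E R β, w⁆ = ⁅E R β, φ w⁆ := by
  let M : LieSubalgebra k L :=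
    { carrier := {y | ∀ w, φ ⁅y, w⁆ = ⁅y, φ w⁆}
      zero_mem' := fun w => by simp
      add_mem' := fun {a c} ha hc w => by rw [add_lie, add_lie, map_add, ha, hc]
      smul_mem' := fun c a ha w => by rw [smul_lie, smul_lie, map_smul, ha]
      lie_mem' := fun {a c} ha hc w => by rw [lie_lie, lie_lie, map_sub, ha, hc, hc, ha] }
  obtain ⟨y, hy, e⟩ := hgen n L Φ R Set.univ (M.map L.incl)
    (fun i hi _ => ⟨E R i, h i hi, rfl⟩) β hβ fun j _ hj => absurd trivial hj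
  obtain rfl : y = E R β := Subtype.ext e
  exact hy w

lemma low_zero [CharP k p] (h2 : (2 : k) ≠ 0) (hbr : S_br k p) (hgen : S_gen k p)
    (hs : LieAlgebra.IsSimple k L) {θ kk θ' : Φ} (hE : Exc R.toComb θ kk θ') {φ : L →ₗ[k] L}
    (hφ : ∀ u w, b (φ u) w = b u (φ w)) (h : ∀ i ∈ R.Δ, ∀ w, φ ⁅E R i, w⁆ = ⁅E R i, φ w⁆)
    (c1 : R.cf θ (φ (E R (R.neg θ))).1 = 0) (c2 : R.cf (R.neg θ) (φ (E R (R.neg θ))).1 = 0)
    (c3 : R.cf θ' (φ (E R (R.neg θ))).1 = 0) : φ (E R (R.neg θ)) = 0 := by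
  set u := φ (E R (R.neg θ)) with hu
  have hc : ∀ {a β δ}, L0.IsSum R.toComb a β δ → R.cf δ ⁅R.e a, R.e β⁆ ≠ 0 := fun {a β δ} hd h0 =>
    hbr n L Φ R a β δ hd (by rw [L0.br_sum R.toCRoot hd, h0, zero_smul])
  have hn : ∀ i ∈ R.Δ, R.neg θ ≠ R.neg i := fun i hi e => hE.nsimple (by
    rw [← C1.neg_neg R.toComb θ, e, C1.neg_neg]; exact hi)
  have a1 : ∀ i ∈ R.Δ, i ≠ kk → ⁅R.e i, u.1⁆ = 0 := fun i hi hik => by
    have := h i hi (E R (R.neg θ))
    rw [show ⁅E R i, E R (R.neg θ)⁆ = 0 from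
      Subtype.ext (L0.br_zero R.toCRoot (hn i hi) (hE.low i hi hik)), map_zero] at this
    exact (congrArg Subtype.val this).symm
  obtain ⟨δ, hδ⟩ := hE.low1
  have a2 : ⁅E R kk, E R (R.neg θ)⁆ = R.cf δ ⁅R.e kk, R.e (R.neg θ)⁆ • E R δ :=
    Subtype.ext (L0.br_sum R.toCRoot hδ)
  have a3 : ⁅R.e kk, ⁅R.e kk, u.1⁆⁆ = 0 := by
    have := h kk hE.kmem ⁅E R kk, E R (R.neg θ)⁆
    rw [h kk hE.kmem (E R (R.neg θ)), a2, lie_smul, show ⁅E R kk, E R δ⁆ = 0 from
      Subtype.ext (L0.br_zero R.toCRoot (hE.low2 δ hδ).1 (hE.low2 δ hδ).2), smul_zero,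
      map_zero] at this
    exact (congrArg Subtype.val this).symm
  have hm : ⁅R.e kk, u.1⁆ ∈ L := L.lie_mem (R.e_mem _) u.2
  have hk : 1 ≤ R.co θ kk := R.self kk hE.kmem ▸ hE.high kk kk hE.kmem
  refine Subtype.ext (L0.eq_zero R.toCRoot u.2 (L0.wt_sep R.toCRoot hs fun i hi => ?_) fun β => ?_)
  · have t1 : ∀ i ∈ R.Δ, i ≠ kk → R.wt i (R.tp u.1) = 0 := fun i hi hik => by
      rw [← neg_eq_zero, ← cf_self R i u.2, a1 i hi hik, map_zero]
    by_cases hik : i = kk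
    swap
    · exact t1 i hi hik
    have t2 := skew H h2 hφ (comm_pos R hgen h (C1.pos_of_co _ hE.kmem hk)) (E R (R.neg θ))
    rw [← neg_eq_zero, ← H.inv, b_E R H h2, C1.neg_neg] at t2
    have t3 := (mul_eq_zero.1 t2).resolve_right
      (by simpa only [C1.neg_neg] using b_ne R H h2 (R.neg θ))
    rw [show (⁅E R θ, φ (E R (R.neg θ))⁆ : L).1 = ⁅R.e θ, u.1⁆ from rfl, cf_self R θ u.2,
      neg_eq_zero, R.wt_lin, Finset.sum_eq_single_of_mem kk hE.kmem
        fun j hj hjk => by rw [t1 j hj hjk, mul_zero]] at t3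
    rw [hik]
    exact (mul_eq_zero.1 t3).resolve_left fun h0 =>
      R.good θ kk hE.kmem (by omega) ((CharP.intCast_eq_zero_iff k p _).1 h0)
  by_contra h0
  refine (hE.cand β (fun i hi hik => ⟨fun e => ?_, fun δ hd => ?_⟩) (fun e => ?_)
    fun δ δ' hd hd' => ?_).elim (fun e => h0 (e ▸ c1)) fun e => e.elim (fun e => h0 (e ▸ c2))
      fun e => e.elim (fun e => h0 (e ▸ c3)) fun e => ?_
  · have := tp_lie R i u.2
    rw [a1 i hi hik, map_zero, ← e] at this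
    exact smul_ne_zero h0 (R.h_ne h2 i) this.symm
  · have := cf_sum R hd u.2
    rw [a1 i hi hik, map_zero] at this
    exact mul_ne_zero h0 (hc hd) this.symm
  · have := cf_self R kk hm
    rw [a3, map_zero, tp_lie R kk u.2, ← e, map_smul, R.wt_self, smul_eq_mul, eq_comm,
      neg_eq_zero] at this
    exact mul_ne_zero h0 h2 this
  · have := cf_sum R hd' hm
    rw [a3, map_zero, cf_sum R hd u.2] at this
    exact mul_ne_zero (mul_ne_zero h0 (hc hd)) (hc hd') this.symm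
  · have t2 := skew H h2 hφ (h kk hE.kmem) (E R (R.neg θ))
    have t3 : R.neg δ = β := R.inj _ _ fun i hi => by
      have := hδ i hi
      have := e i hi
      have := R.co_neg θ i hi
      have := R.co_neg δ i hi
      omega
    rw [a2, map_smul, b_E R H h2, smul_eq_mul] at t2
    exact mul_ne_zero (hc hδ) (mul_ne_zero (t3 ▸ h0) (b_ne R H h2 δ)) t2

end KK

open KK in
theorem st_kk (k : Type u) [Field k] [IsAlgClosed k] (p : ℕ) [Fact p.Prime] [CharP k p]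
    (hp : p ≠ 2) (hbr : S_br k p) (hgen : S_gen k p) (hchev : S_chev k p) (hdet : S_det k) :
    S_kk k p := by
  intro n _ _ L Φ _ R hs l M v hv θ kk θ' hE H
  have h2 := two_ne k p hp
  let ev : Fix k (R.xe v) (symN H) →ₗ[k] Matrix n n k :=
    L.toSubmodule.subtype ∘ₗ LinearMap.applyₗ (E R (R.neg θ)) ∘ₗ (symN H).toSubmodule.subtype ∘ₗ
      (Fix k (R.xe v) (symN H)).subtype
  let F : Fix k (R.xe v) (symN H) →ₗ[k] Fin 3 → k :=
    LinearMap.pi fun j => R.cf (![θ, R.neg θ, θ'] j) ∘ₗ ev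
  have hF : Function.Injective F := (injective_iff_map_eq_zero _).2 fun φ h0 => by
    have hc : ∀ i w, φ.1.1 ⁅R.xe v i, w⁆ = ⁅R.xe v i, φ.1.1 w⁆ := fun i w => by
      have := LinearMap.congr_fun (congrArg Subtype.val (mem_Fix.1 φ.2 i)) w
      rw [LieSubmodule.coe_bracket, LieHom.lie_apply] at this
      exact (sub_eq_zero.1 this).symm
    have h3 := low_zero R H h2 hbr hgen hs hE φ.1.2.1 (fun i hi => by
      obtain ⟨j, rfl⟩ := (hv.2.1 i).1 hi
      exact hc j) (congrFun h0 0) (congrFun h0 1) (congrFun h0 2)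
    refine Subtype.ext (Subtype.ext (hdet L l M _ _ _ ((hchev n L Φ R hs).2.2 l M v hv) L
      inferInstance _ (E_ne R (R.neg θ)) (fun i => Subtype.ext ?_) (fun i => ⟨_, D_E R _ _⟩)
      φ.1.1 hc h3))
    have hi := hv.mem _ i
    have h4 := hE.high (v i) (v i) hi
    have h5 := R.self _ hi
    have h6 := R.co_neg θ _ hi
    have h7 := R.co_neg (v i) _ hi
    refine L0.br_zero R.toCRoot (fun e => ?_) fun δ hd => ?_
    · rw [C1.neg_neg] at e
      rw [e] at h6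
      omega
    · have := hd _ hi
      have := hE.high (R.neg δ) _ hi
      have := R.co_neg δ _ hi
      omega
  simpa using LinearMap.finrank_le_finrank_of_injective hF

end Pool.Agent.Lib.PRC
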