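import Pool.Agent.Lib.PRC.Api

namespace Pool.Agent.Lib.PRC

open Matrix Pool.Agent.Lib.MP_3a0263_al Pool.Agent.Lib.MP_3a0263_al.R Pool.Agent.Lib.MP_3a0263_al.Q

attribute [local instance 100] LieRing.ofAssociativeRing

universe u

namespace KMIN

variable {l : ℕ} {A : Fin l → Fin l → ℤ} {X : Type} {w : X → Fin l → ℤ} {r : Fin l → X → X}
  {x0 : X} {ng : X → X} {s : X → ℤ} {ε : ℤ} {z : X}

lemma w_r (M : DG.Minu A w r) (i : Fin l) (x : X) : w (r i x) i = - w x i := by
  rw [M.refl, M.two]; ring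

lemma ng_ng (M : DG.Minu A w r) (S : SD w r x0 ng s ε z) (x : X) : ng (ng x) = x :=
  M.inj _ _ fun i => by rw [S.ng_w, S.ng_w, neg_neg]

lemma ng_r (M : DG.Minu A w r) (S : SD w r x0 ng s ε z) (i : Fin l) (x : X) :
    ng (r i x) = r i (ng x) := M.inj _ _ fun j => by
  rw [S.ng_w, M.refl, M.refl, S.ng_w, S.ng_w]; ring

lemma md_neg (M : MD A w r x0) (S : SD w r x0 ng s ε z) :
    MD A (fun x i => - w x i) r (ng x0) where
  minu := ⟨M.minu.two, M.minu.le, M.minu.symm,
    fun x i => by rcases M.minu.val x i with h | h | h <;> simp [h],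
    fun i x j => by rw [M.minu.refl]; ring,
    fun x y h => M.minu.inj x y fun i => neg_injective (h i)⟩
  dom0 i := by rw [S.ng_w, neg_neg]; exact M.dom0 i
  dom x h := by rw [← M.dom (ng x) fun i => by rw [S.ng_w]; exact h i, ng_ng M.minu S]

lemma sd_neg (M : MD A w r x0) (S : SD w r x0 ng s ε z) :
    SD (fun x i => - w x i) r (ng x0) ng s ε (ng z) where
  ng_w x i := by rw [S.ng_w]
  s_sq := S.s_sq
  s_r i x h := S.s_r i x (neg_ne_zero.1 h)
  s_ng := S.s_ng
  cand y h := by
    have := S.cand (ng y) fun i hi => by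
      rw [S.ng_w]; exact h i (by rw [S.ng_w, hi]; rfl)
    rw [← ng_ng M.minu S y]
    rcases this with e | e | e <;> simp [e]
  kill := S.kill.imp id fun ⟨h, i, h1, h2⟩ =>
    ⟨h, i, by rw [S.ng_w, neg_neg, h1], by rw [h2, ng_r M.minu S]⟩

variable {k : Type u} [Field k]

lemma opE_neg (a : ℤ) (i : Fin l) :
    DG.opE k (fun x i => - w x i) r a i = DG.opE k w r (-a) i := by
  ext1 v
  funext x
  simp only [DG.opE_apply, neg_eq_iff_eq_neg]

lemma s_ne (S : SD w r x0 ng s ε z) (x : X) : (s x : k) ≠ 0 := by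
  rcases S.s_sq x with h | h <;> simp [h]

variable [Fintype X]

variable (k) in
/-- the invariant form -/
def frm (ng : X → X) (s : X → ℤ) : (X → k) →ₗ[k] (X → k) →ₗ[k] k :=
  LinearMap.mk₂ k (fun u u' => ∑ x, (s x : k) * u x * u' (ng x))
    (fun _ _ _ => by simp [mul_add, add_mul, Finset.sum_add_distrib])
    (fun _ _ _ => by simp [Finset.mul_sum, mul_assoc, mul_left_comm])
    (fun _ _ _ => by simp [mul_add, Finset.sum_add_distrib])
    (fun _ _ _ => by simp [Finset.mul_sum, mul_assoc, mul_left_comm])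

lemma frm_apply (u u' : X → k) : frm k ng s u u' = ∑ x, (s x : k) * u x * u' (ng x) := rfl

lemma frm_single [DecidableEq X] (M : DG.Minu A w r) (S : SD w r x0 ng s ε z) (u : X → k) (y : X) :
    frm k ng s u (Pi.single (ng y) 1) = s y * u y := by
  rw [frm_apply, Finset.sum_eq_single y (fun x _ hx => ?_) (by simp), Pi.single_eq_same, mul_one]
  rw [Pi.single_eq_of_ne fun e => hx (by rw [← ng_ng M S x, e, ng_ng M S]), mul_zero]

lemma frm_sym (M : DG.Minu A w r) (S : SD w r x0 ng s ε z) (u u' : X → k) :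
    frm k ng s u u' = ε * frm k ng s u' u := by
  rw [frm_apply, frm_apply, ← Equiv.sum_comp (Function.Involutive.toPerm ng (ng_ng M S)),
    Finset.mul_sum]
  refine Finset.sum_congr rfl fun x _ => ?_
  rw [Function.Involutive.coe_toPerm, ng_ng M S, S.s_ng]
  push_cast
  ring

lemma frm_opE (M : DG.Minu A w r) (S : SD w r x0 ng s ε z) {a : ℤ} (ha : a ≠ 0) (i : Fin l)
    (u u' : X → k) : frm k ng s (DG.opE k w r a i u) u' = - frm k ng s u (DG.opE k w r a i u') := by
  rw [frm_apply, frm_apply, ← Equiv.sum_comp (Function.Involutive.toPerm (r i) (M.rr i)),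
    ← Finset.sum_neg_distrib]
  refine Finset.sum_congr rfl fun x _ => ?_
  rw [Function.Involutive.coe_toPerm, DG.opE_apply, DG.opE_apply, M.rr, w_r M, S.ng_w, ng_r M S]
  split_ifs with h
  · rw [S.s_r i x fun h0 => ha (by rw [← h, h0, neg_zero])]
    push_cast
    ring
  · simp

variable (k) in
/-- the grading by a height function -/
def grd (ht : X → ℤ) : Gr k (X → k) where
  P a :=
    { toFun := fun u x => if ht x = a then u x else 0
      map_add' := fun u u' => by ext x; simp only [Pi.add_apply]; split_ifs <;> simp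
      map_smul' := fun c u => by
        ext x; simp only [Pi.smul_apply, RingHom.id_apply]; split_ifs <;> simp }
  N := ∑ x, (ht x).natAbs
  sum u := by
    ext x
    have := Finset.single_le_sum (f := fun x => (ht x).natAbs) (fun _ _ => Nat.zero_le _)
      (Finset.mem_univ x)
    simp only [Finset.sum_apply, LinearMap.coe_mk, AddHom.coe_mk, Finset.sum_ite_eq]
    rw [if_pos (Finset.mem_Icc.2 (by omega))]
  idem a u := by
    ext x
    simp only [LinearMap.coe_mk, AddHom.coe_mk]
    split_ifs <;> rfl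
  orth a a' h u := by
    ext x
    simp only [LinearMap.coe_mk, AddHom.coe_mk, Pi.zero_apply]
    split_ifs with h1 h2
    · exact absurd (h1.symm.trans h2) h
    · rfl
    · rfl

lemma grd_apply (ht : X → ℤ) (a : ℤ) (u : X → k) (x : X) :
    (grd k ht).P a u x = if ht x = a then u x else 0 := rfl

lemma grd_pair (S : SD w r x0 ng s ε z) (c : Fin l → ℤ) :
    (grd k fun x => ∑ j, c j * w x j).Pair (frm k ng s) := fun a u u' => by
  rw [frm_apply, frm_apply]
  refine Finset.sum_congr rfl fun x _ => ?_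
  simp only [grd_apply, S.ng_w, mul_neg, Finset.sum_neg_distrib, neg_inj]
  split_ifs <;> simp

lemma grd_deg (M : DG.Minu A w r) (c : Fin l → ℤ) (a : ℤ) (i : Fin l) :
    (grd k fun x => ∑ j, c j * w x j).Deg (DG.opE k w r a i) (a * ∑ j, c j * A j i) := by
  intro b u
  ext x
  rw [grd_apply, DG.opE_apply, DG.opE_apply, grd_apply]
  by_cases h : w x i = a
  · have e : ∑ j, c j * w (r i x) j = ∑ j, c j * w x j - a * ∑ j, c j * A j i := by
      rw [Finset.mul_sum, ← Finset.sum_sub_distrib]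
      exact Finset.sum_congr rfl fun j _ => by rw [M.refl, h]; ring
    rw [if_pos h, if_pos h, e]
    exact if_congr sub_eq_iff_eq_add.symm rfl rfl
  · simp [h]

omit [Fintype X] in
lemma opE_sq (M : DG.Minu A w r) {a : ℤ} (ha : a ≠ 0) (i : Fin l) : DG.opE k w r a i ^ 2 = 0 := by
  ext1 u
  funext x
  rw [sq, Module.End.mul_apply, DG.opE_apply, DG.opE_apply, w_r M]
  split_ifs with h1 h2
  · omega
  · rfl
  · rfl

lemma trace_opH (i : Fin l) : LinearMap.trace k _ (DG.opH k w i * DG.opH k w i) =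
    ((∑ x, w x i * w x i : ℤ) : k) := by
  classical
  rw [LinearMap.trace_eq_matrix_trace k (Pi.basisFun k X), Matrix.trace]
  push_cast
  exact Finset.sum_congr rfl fun x _ => by simp [DG.opH_apply]

variable {L : Type u} [LieRing L] [LieAlgebra k L] {e f h : Fin l → L}
  [LieRingModule L (X → k)] [LieModule k L (X → k)]

lemma frm_if (c : CA k A e f h) (M : MD A w r x0) (S : SD w r x0 ng s ε z)
    (he : ∀ i (u : X → k), ⁅e i, u⁆ = DG.opE k w r 1 i u)
    (hf : ∀ i (u : X → k), ⁅f i, u⁆ = DG.opE k w r (-1) i u) : IF L (frm k ng s) (ε : k) where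
  nd u hu := by
    classical
    funext x
    have := hu (Pi.single (ng x) 1)
    rw [frm_single M.minu S] at this
    exact (mul_eq_zero.1 this).resolve_left (s_ne S x)
  sym := frm_sym M.minu S
  inv x := by
    have hx := c.gen x
    induction hx using LieSubalgebra.lieSpan_induction with
    | mem y hy =>
      intro u u'
      rcases hy with ⟨i, rfl⟩ | ⟨i, rfl⟩
      · rw [he, he, frm_opE M.minu S one_ne_zero]
      · rw [hf, hf, frm_opE M.minu S (by norm_num)]
    | zero => intro u u'; simp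
    | add a b _ _ ha hb =>
      intro u u'
      rw [add_lie, add_lie, map_add, map_add, LinearMap.add_apply, ha, hb, neg_add]
    | smul t a _ ha =>
      intro u u'
      rw [smul_lie, smul_lie, map_smul, map_smul, LinearMap.smul_apply, ha, smul_neg]
    | lie a b _ _ ha hb =>
      intro u u'
      rw [lie_lie, lie_lie, map_sub, map_sub, LinearMap.sub_apply, ha, hb, hb, ha]
      ring
  eps := by rcases S.kill with h | ⟨h, -⟩ <;> simp [h]

lemma fix_le (h2 : (2 : k) ≠ 0) (hdet : S_det k) (c : CA k A e f h) (M : MD A w r x0)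
    (S : SD w r x0 ng s ε z) (hi : LieModule.IsIrreducible k L (X → k))
    (he : ∀ i (u : X → k), ⁅e i, u⁆ = DG.opE k w r 1 i u)
    (hf : ∀ i (u : X → k), ⁅f i, u⁆ = DG.opE k w r (-1) i u)
    (hh : ∀ i (u : X → k), ⁅h i, u⁆ = DG.opH k w i u) (H : IF L (frm k ng s) (ε : k)) :
    Module.finrank k (Fix k e (symN H)) ≤ 2 := by
  classical
  set v : X → k := Pi.single (ng x0) 1 with hv
  have hc : ∀ (φ : Fix k e (symN H)) i u, φ.1.1 ⁅e i, u⁆ = ⁅e i, φ.1.1 u⁆ := fun φ i u => by
    have := LinearMap.congr_fun (congrArg Subtype.val (mem_Fix.1 φ.2 i)) u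
    rw [LieSubmodule.coe_bracket, LieHom.lie_apply] at this
    exact (sub_eq_zero.1 this).symm
  have hE : ∀ a i, w x0 i ≠ a → DG.opE k w r a i v = 0 := fun a i hia => by
    funext x
    rw [DG.opE_apply]
    split_ifs with h1
    · refine Pi.single_eq_of_ne (fun e1 => hia ?_) _
      have := w_r M.minu i x
      rw [e1, S.ng_w] at this
      omega
    · rfl
  obtain ⟨y0, y1, hy, hy1⟩ : ∃ y0 y1, (∀ y, (∀ i, w x0 i = 0 → 0 ≤ w y i) →
      y = ng x0 ∨ y = y0 ∨ y = y1) ∧ ∀ φ : Fix k e (symN H), φ.1.1 v y1 = 0 := by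
    rcases S.kill with h0 | ⟨h0, i, h1, h3⟩
    · refine ⟨z, x0, fun y h => by have := S.cand y h; tauto, fun φ => ?_⟩
      have t := φ.1.2.1 v v
      have h4 : (ε : k) = -1 := by simp [h0]
      rw [H.sym v, hv, frm_single M.minu S] at t
      refine (mul_eq_zero.1 ((mul_eq_zero.1 (?_ : (2 : k) * _ = 0)).resolve_left h2)).resolve_left
        (s_ne (k := k) S x0)
      linear_combination t + (s x0 * φ.1.1 v x0) * h4
    · refine ⟨x0, z, fun y h => by have := S.cand y h; tauto, fun φ => ?_⟩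
      have t := H.inv (e i) v (φ.1.1 v)
      have t2 : ⁅e i, v⁆ = Pi.single (ng z) 1 := by
        rw [he, h3, ng_r M.minu S]
        funext x
        rw [DG.opE_apply]
        by_cases hx : x = r i (ng x0)
        · rw [hx, M.minu.rr, w_r M.minu, S.ng_w, neg_neg, if_pos h1, hv, Pi.single_eq_same,
            Pi.single_eq_same]
        · rw [Pi.single_eq_of_ne hx, hv, Pi.single_eq_of_ne fun e1 => hx (by
            rw [← e1, M.minu.rr]), ite_self]
      have h4 : (ε : k) = 1 := by simp [h0]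
      rw [← hc, ← φ.1.2.1 v, H.sym, t2, frm_single M.minu S] at t
      refine (mul_eq_zero.1 ((mul_eq_zero.1 (?_ : (2 : k) * _ = 0)).resolve_left h2)).resolve_left
        (s_ne (k := k) S z)
      linear_combination t - (s z * φ.1.1 v z) * h4
  let F : Fix k e (symN H) →ₗ[k] Fin 2 → k := LinearMap.pi fun j =>
    LinearMap.proj (![ng x0, y0] j) ∘ₗ LinearMap.applyₗ v ∘ₗ (symN H).toSubmodule.subtype ∘ₗ
      (Fix k e (symN H)).subtype
  have hF : Function.Injective F := (injective_iff_map_eq_zero _).2 fun φ h0 => by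
    refine Subtype.ext (Subtype.ext (hdet L l A e f h c _ hi v (by simp [hv])
      (fun i => by rw [hf, hE _ _ (by have := M.dom0 i; omega)])
      (fun i => ⟨w (ng x0) i, ?_⟩) φ.1.1 (hc φ) (funext fun y => ?_)))
    · rw [hh]
      funext x
      rw [DG.opH_apply, Pi.smul_apply, smul_eq_mul]
      by_cases hx : x = ng x0
      · rw [hx]
      · rw [hv, Pi.single_eq_of_ne hx, mul_zero, mul_zero]
    · by_contra h1
      refine (hy y fun i h3 => not_lt.1 fun h4 => h1 ?_).elim (fun e1 => h1 (e1 ▸ congrFun h0 0))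
        fun e1 => e1.elim (fun e1 => h1 (e1 ▸ congrFun h0 1)) fun e1 => h1 (e1 ▸ hy1 φ)
      have t := hc φ i v
      rw [he, he, hE _ _ (by omega), map_zero] at t
      have t2 := congrFun t (r i y)
      rw [DG.opE_apply, M.minu.rr, w_r M.minu,
        if_pos (by rcases M.minu.val y i with g | g | g <;> omega)] at t2
      exact t2.symm
  simpa using LinearMap.finrank_le_finrank_of_injective hF

end KMIN

open KMIN in
theorem st_kmin (k : Type u) [Field k] [IsAlgClosed k] (p : ℕ) [hq : Fact p.Prime] [CharP k p]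
    (hp : p ≠ 2) (hdet : S_det k) (hminu : S_minu k) (hfr1 : S_fr1 k) (hfr2 : S_fr2 k)
    (hfr3 : S_fr3 k p) (hsimple : S_simple k) : S_kmin k := by
  intro L _ _ l A e f h c X _ w r x0 M ng s ε z S h0 ⟨i, hi⟩
  have h2 := two_ne k p hp
  obtain ⟨ρ, r1, r2, r3, r4⟩ := hminu L l A e f h c X w r x0 M
  let _ := LieRingModule.compLieHom (X → k) ρ
  have : LieModule k L (X → k) := LieModule.compLieHom (X → k) ρ
  have : Nonempty X := ⟨x0⟩
  have hρ : ∀ x, LieModule.toEnd k L (X → k) x = ρ x := fun x => rfl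
  have he : ∀ i (u : X → k), ⁅e i, u⁆ = DG.opE k w r 1 i u := fun i u => by rw [← r1]; rfl
  have hf : ∀ i (u : X → k), ⁅f i, u⁆ = DG.opE k w r (-1) i u := fun i u => by rw [← r2]; rfl
  have hh : ∀ i (u : X → k), ⁅h i, u⁆ = DG.opH k w i u := fun i u => by rw [← r3]; rfl
  have hir : LieModule.IsIrreducible k L (X → k) := LieModule.IsIrreducible.mk fun N hN =>
    (r4 N.toSubmodule fun x u hu => N.lie_mem hu).elim
      (fun h => absurd ((LieSubmodule.toSubmodule_eq_bot N).1 h) hN)
      (LieSubmodule.toSubmodule_eq_top N).1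
  have H := frm_if c M S he hf
  have hd : (Module.finrank k (X → k) : k) = 0 := by
    rw [Module.finrank_fintype_fun_eq_card, h0]
  have k1 := fix_le h2 hdet c M S hir he hf hh H
  have k2 := fix_le h2 hdet c.symm (md_neg M S) (sd_neg M S) hir
    (fun i u => by rw [opE_neg, hf]) (fun i u => by rw [opE_neg, neg_neg, he])
    (fun i u => by
      rw [neg_lie, hh]
      funext x
      simp [DG.opH_apply]) H
  have hp2 : 2 < p := lt_of_le_of_ne hq.out.two_le hp.symm
  have e1 := hfr3 L _ _ _ H hd l e fun i => ⟨2, hp2, by rw [hρ, r1, opE_sq M.minu one_ne_zero]⟩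
  have e2 := hfr3 L _ _ _ H hd l f fun i => ⟨2, hp2, by rw [hρ, r2, opE_sq M.minu (by norm_num)]⟩
  obtain ⟨f1, f2, -⟩ := hfr1 L _ _ _ H hd
  obtain ⟨ch, hch⟩ := DG.exists_height c.det
  obtain ⟨G, β, g1, g2, g3⟩ := hfr2 L _ _ _ H hd _ (grd_pair S ch)
  have hne : (Module.finrank k (MM H) : k) ≠ 0 := by rw [f1]; exact neg_ne_zero.2 h2
  have : Nontrivial (MM H) := Module.nontrivial_of_finrank_pos (R := k)
    (Nat.pos_of_ne_zero fun h => hne (by rw [h, Nat.cast_zero]))
  have hs := (hsimple L (MM H) β g1 G g2 l e f _ hch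
    (fun i => g3 _ _ (by rw [hρ, r1]; simpa using grd_deg M.minu ch 1 i))
    (fun i => g3 _ _ (by rw [hρ, r2]; simpa using grd_deg M.minu ch (-1) i))).2 ⊤ top_ne_bot
    (fun _ _ _ => trivial) (fun u _ hu => g1.nd u fun u' => hu u' trivial)
    (by rw [LieSubmodule.top_toSubmodule, top_inf_eq]; omega)
    (by rw [LieSubmodule.top_toSubmodule, top_inf_eq]; omega)
  refine ⟨MM H, inferInstance, inferInstance, inferInstance, inferInstance, inferInstance,
    (LieSubmodule.orderIsoMapComap (LieModuleEquiv.ofTop k L (MM H))).symm.isSimpleOrder, hne,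
    h i, h i, ?_⟩
  rw [f2, LieModule.traceForm_apply_apply, hρ, r3]
  refine mul_ne_zero (mul_ne_zero h2 ?_) ((trace_opH (k := k) (w := w) i).trans_ne hi)
  rcases H.eps with h | h <;> simp [h]

end Pool.Agent.Lib.PRC
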