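import Pool.Agent.Lib.PRC.Api

namespace Pool.Agent.Lib.PRC

open Matrix Pool.Agent.Lib.MP_3a0263_al Pool.Agent.Lib.MP_3a0263_al.R Pool.Agent.Lib.MP_3a0263_al.Q

attribute [local instance 100] LieRing.ofAssociativeRing

universe u

namespace MINU

variable {k : Type u} [Field k]

theorem stabM {L : Type u} [LieRing L] [LieAlgebra k L] {V : Type u} [AddCommGroup V] [Module k V]
    [LieRingModule L V] [LieModule k L V] (T : Submodule k V) (s : Set L)
    (hs : ∀ z ∈ s, ∀ x ∈ T, ⁅z, x⁆ ∈ T) {z : L} (hz : z ∈ LieSubalgebra.lieSpan k L s) :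
    ∀ x ∈ T, ⁅z, x⁆ ∈ T := by
  induction hz using LieSubalgebra.lieSpan_induction with
  | mem z hz => exact hs z hz
  | zero => intro x _; simp
  | add a b _ _ ha hb => intro x hx; rw [add_lie]; exact T.add_mem (ha x hx) (hb x hx)
  | smul c a _ ha => intro x hx; rw [smul_lie]; exact T.smul_mem c (ha x hx)
  | lie a b _ _ ha hb =>
    intro x hx
    rw [lie_lie]
    exact T.sub_mem (ha _ (hb x hx)) (hb _ (ha x hx))

theorem irr {l : ℕ} {A : Fin l → Fin l → ℤ} (hdet : (Matrix.of A).det ≠ 0) {X : Type} [Fintype X]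
    {w : X → Fin l → ℤ} {r : Fin l → X → X} {x0 : X} (M : MD A w r x0) (U : Submodule k (X → k))
    (hE : ∀ i, ∀ u ∈ U, DG.opE k w r 1 i u ∈ U) (hF : ∀ i, ∀ u ∈ U, DG.opE k w r (-1) i u ∈ U) :
    U = ⊥ ∨ U = ⊤ := by
  classical
  obtain ⟨c, hc⟩ := DG.exists_height hdet
  obtain ⟨b, hb⟩ := (Set.finite_range fun x => ∑ j, c j * w x j).bddAbove
  have hb' : ∀ x, ∑ j, c j * w x j ≤ b := fun x => hb ⟨x, rfl⟩
  obtain ⟨a, ha⟩ := (Set.finite_range fun x => ∑ j, c j * w x j).bddBelow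
  have ha' : ∀ x, a ≤ ∑ j, c j * w x j := fun x => ha ⟨x, rfl⟩
  have low : ∀ x, x ≠ x0 → ∃ i, w x i = -1 := fun x hx => by
    by_contra hn
    push Not at hn
    refine hx (M.dom x fun i => ?_)
    have := hn i
    rcases M.minu.val x i with g | g | g <;> omega
  rw [or_iff_not_imp_left]
  intro hU
  have h0 : ∀ n : ℕ, ∀ u ∈ U, u ≠ 0 → (∀ x, 1 * ∑ j, c j * w x j < b + 1 - n → u x = 0) →
      Pi.single x0 (1 : k) ∈ U := by
    intro n
    induction n with
    | zero =>
      intro u _ hu h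
      exact absurd (funext fun x => h x (by have := hb' x; omega)) hu
    | succ n ih =>
      intro u hu hu0 h
      by_cases hy : ∃ y, y ≠ x0 ∧ u y ≠ 0
      · obtain ⟨y, hy, hy'⟩ := hy
        obtain ⟨i, hi⟩ := low y hy
        refine ih _ (hE i u hu) (fun h1 => hy' ?_) fun x hx =>
          M.minu.opE_Up (k := k) hc (Or.inl rfl) i _ u h x (by push_cast; omega)
        have := congrFun h1 (r i y)
        rwa [DG.opE_apply, if_pos (by rw [M.minu.refl, M.minu.two, hi]; norm_num), M.minu.rr] at this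
      · push Not at hy
        have h1 : u x0 ≠ 0 := fun h1 => hu0 (funext fun x => by
          by_cases hx : x = x0
          · rw [hx, h1]; rfl
          · exact hy x hx)
        have h2 : Pi.single x0 (1 : k) = (u x0)⁻¹ • u := funext fun x => by
          by_cases hx : x = x0
          · rw [hx]; simp [h1]
          · simp [hx, hy x hx]
        rw [h2]
        exact U.smul_mem _ hu
  obtain ⟨u, hu, hu0⟩ := (Submodule.ne_bot_iff U).1 hU
  have h1 := h0 (b + 1 - a).toNat u hu hu0 fun x hx => by have := ha' x; omega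
  have h2 : ∀ n : ℕ, ∀ x, b + 1 - n ≤ ∑ j, c j * w x j → Pi.single x (1 : k) ∈ U := by
    intro n
    induction n with
    | zero => intro x hx; have := hb' x; omega
    | succ n ih =>
      intro x hx
      by_cases hx0 : x = x0
      · rwa [hx0]
      obtain ⟨i, hi⟩ := low x hx0
      have e : ∑ j, c j * w (r i x) j = ∑ j, c j * w x j + ∑ j, c j * A j i := by
        rw [← Finset.sum_add_distrib]
        exact Finset.sum_congr rfl fun j _ => by rw [M.minu.refl, hi]; ring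
      have h3 := hF i _ (ih (r i x) (by have := hc i; omega))
      have h4 : DG.opE k w r (-1) i (Pi.single (r i x) 1) = Pi.single x 1 := funext fun z => by
        rw [DG.opE_apply]
        by_cases hz : z = x
        · rw [hz, if_pos hi]; simp
        · have : r i z ≠ r i x := fun h => hz (by rw [← M.minu.rr i z, h, M.minu.rr])
          simp [hz, this]
      rwa [h4] at h3
  rw [eq_top_iff]
  intro v _
  rw [pi_eq_sum_univ' v]
  exact U.sum_mem fun x _ => U.smul_mem _ (h2 (b + 1 - a).toNat x (by have := ha' x; omega))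

end MINU

theorem st_det (k : Type u) [Field k] [IsAlgClosed k] (p : ℕ) [Fact p.Prime] [CharP k p]
    (hp : p ≠ 2) : S_det k := by
  intro L _ _ l A e f h c V _ _ _ _ hirr v hv hf hh φ hφ h0
  obtain ⟨W, hv', hW, hmin⟩ : ∃ W : Submodule k V, v ∈ W ∧ (∀ i, ∀ u ∈ W, ⁅e i, u⁆ ∈ W) ∧
      ∀ U : Submodule k V, v ∈ U → (∀ i, ∀ u ∈ U, ⁅e i, u⁆ ∈ U) → W ≤ U :=
    ⟨sInf {U | v ∈ U ∧ ∀ i, ∀ u ∈ U, ⁅e i, u⁆ ∈ U}, Submodule.mem_sInf.2 fun U hU => hU.1,
      fun i u hu => Submodule.mem_sInf.2 fun U hU => hU.2 i u (Submodule.mem_sInf.1 hu U hU),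
      fun U h1 h2 => sInf_le ⟨h1, h2⟩⟩
  have step : ∀ z : L, ⁅z, v⁆ ∈ W → (∀ i, ∀ u ∈ W, ⁅⁅z, e i⁆, u⁆ ∈ W) → ∀ u ∈ W, ⁅z, u⁆ ∈ W := by
    intro z h1 h2 u hu
    refine (hmin (W ⊓ W.comap (LieModule.toEnd k L V z)) ⟨hv', h1⟩ ?_ hu).2
    rintro i u ⟨h3, h4⟩
    refine ⟨hW i u h3, ?_⟩
    change ⁅z, ⁅e i, u⁆⁆ ∈ W
    rw [leibniz_lie]
    exact W.add_mem (h2 i u h3) (hW i _ h4)
  have hH : ∀ j, ∀ u ∈ W, ⁅h j, u⁆ ∈ W := fun j => step _
    (by obtain ⟨a, ha⟩ := hh j; rw [ha]; exact W.smul_mem a hv') fun i u hu => by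
      rw [c.chev.he, zsmul_lie]
      exact W.smul_of_tower_mem _ (hW i u hu)
  have hF : ∀ j, ∀ u ∈ W, ⁅f j, u⁆ ∈ W := fun j => step _
    (by rw [hf]; exact W.zero_mem) fun i u hu => by
      rw [← lie_skew, c.chev.ef, neg_lie]
      split_ifs
      · exact W.neg_mem (hH i u hu)
      · simp
  let N : LieSubmodule k L V :=
    { W with
      lie_mem := fun {z u} hu => MINU.stabM W _ (by
        rintro _ (⟨i, rfl⟩ | ⟨i, rfl⟩)
        · exact hW i
        · exact hF i) (c.gen z) u hu }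
  have hN : N = ⊤ := (IsSimpleOrder.eq_bot_or_eq_top N).resolve_left fun h1 => hv (by
    have : v ∈ N := hv'
    rw [h1] at this
    simpa using this)
  ext u
  have h2 : u ∈ N := by rw [hN]; trivial
  refine hmin (LinearMap.ker φ) h0 (fun i u hu => ?_) h2
  rw [LinearMap.mem_ker] at hu ⊢
  rw [hφ, hu, lie_zero]

open DG in
theorem st_minu (k : Type u) [Field k] [IsAlgClosed k] (p : ℕ) [Fact p.Prime] [CharP k p]
    (hp : p ≠ 2) : S_minu k := by
  intro L _ _ l A e f h c X _ w r x0 M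
  classical
  obtain ⟨N₁, N₂, he, hf, hind⟩ := c.ind
  obtain ⟨ch, hch⟩ := exists_height c.det
  have C := c.chev.prod (M.minu.chev (k := k))
  let E : Fin l → L × Module.End k (X → k) := fun i => (e i, opE k w r 1 i)
  let F : Fin l → L × Module.End k (X → k) := fun i => (f i, opE k w r (-1) i)
  let H : Fin l → L × Module.End k (X → k) := fun i => (h i, opH k w i)
  let π := LieHom.fst k L (Module.End k (X → k))
  let σ := LieHom.snd k L (Module.End k (X → k))
  have hi : Ind π E F H := by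
    intro a ha y hy b hb h0
    obtain ⟨t, rfl⟩ := (Submodule.mem_span_range_iff_exists_fun k).1 hy
    have h1 : π (∑ i, t i • H i) = ∑ i, t i • h i := by
      rw [map_sum]; exact Finset.sum_congr rfl fun i _ => rfl
    rw [map_add, map_add, h1] at h0
    obtain ⟨g1, g2, g3⟩ := hind _ (map_Np π N₁ he ha) _ (map_Np π N₂ hf hb) t h0
    exact ⟨g1, by simp [g2], g3⟩
  let D := Dd k E F
  let ρ : D →ₗ⁅k⁆ Module.End k (X → k) := σ.comp D.incl
  let _ : LieRingModule D (X → k) := LieRingModule.compLieHom _ ρ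
  have : LieModule k D (X → k) := LieModule.compLieHom _ ρ
  have : Nonempty X := ⟨x0⟩
  have : LieModule.IsIrreducible k D (X → k) := LieModule.IsIrreducible.mk fun N hN => by
    rcases MINU.irr c.det M N.toSubmodule
      (fun i u hu => N.lie_mem (x := ⟨E i, Np_le (mem_Np E i)⟩) hu)
      (fun i u hu => N.lie_mem (x := ⟨F i, Np_le' (mem_Np F i)⟩) hu) with h1 | h1
    · exact absurd (by simpa using h1) hN
    · simpa using h1
  have k1 := RICH.kill (V := X → k) (Jp C hi D rfl) fun z hz =>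
    Up_nil (map_Np σ _ (fun i => M.minu.opE_Up hch (Or.inl rfl) i) hz.1)
  have k2 := RICH.kill (V := X → k) (Jp C.symm hi.symm D Dd_symm.symm) fun z hz =>
    Up_nil (map_Np σ _ (fun i => M.minu.opE_Up hch (Or.inr rfl) i) hz.1)
  have hk : ∀ d : D, π d.1 = 0 → ρ d = 0 := fun d hd => by
    obtain ⟨a, ha, y, hy, b, hb, e1⟩ := mem_Tri.1 (C.Dd_Tri d.2)
    obtain ⟨g1, g2, g3⟩ := hi a ha y hy b hb (by rw [← e1]; exact hd)
    have e2 : d = ⟨a, Np_le ha⟩ + ⟨b, Np_le' hb⟩ := Subtype.ext (by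
      change d.1 = a + b
      rw [e1, g2, add_zero])
    have e3 : ρ ⟨a, Np_le ha⟩ = 0 := LinearMap.ext (k1 _ ⟨ha, g1⟩)
    have e4 : ρ ⟨b, Np_le' hb⟩ = 0 := LinearMap.ext (k2 _ ⟨hb, g3⟩)
    rw [e2, map_add, e3, e4, add_zero]
  have hs : ∀ x, ∃ d : D, (π.comp D.incl) d = x := fun x => by
    have : Dd k e f ≤ D.map π := LieSubalgebra.lieSpan_le.2 (by
      rintro _ (⟨i, rfl⟩ | ⟨i, rfl⟩)
      · exact ⟨E i, Np_le (mem_Np E i), rfl⟩
      · exact ⟨F i, Np_le' (mem_Np F i), rfl⟩)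
    obtain ⟨z, hz, rfl⟩ := this (c.gen x)
    exact ⟨⟨z, hz⟩, rfl⟩
  choose s hs using hs
  have key : ∀ d d', (π.comp D.incl) d = (π.comp D.incl) d' → ρ d = ρ d' := fun d d' e1 => by
    rw [← sub_eq_zero, ← map_sub] at e1 ⊢
    exact hk _ e1
  let τ : L →ₗ⁅k⁆ Module.End k (X → k) :=
    { toFun := fun x => ρ (s x)
      map_add' := fun a b => by
        rw [← map_add]; exact key _ _ (by rw [map_add, hs, hs, hs])
      map_smul' := fun c a => by
        rw [RingHom.id_apply, ← map_smul]; exact key _ _ (by rw [map_smul, hs, hs])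
      map_lie' := fun {a b} => by
        rw [← LieHom.map_lie]; exact key _ _ (by rw [LieHom.map_lie, hs, hs, hs]) }
  have hτ : ∀ d, τ ((π.comp D.incl) d) = ρ d := fun d => key _ _ (hs _)
  have t1 : ∀ i, τ (e i) = opE k w r 1 i := fun i => hτ ⟨E i, Np_le (mem_Np E i)⟩
  have t2 : ∀ i, τ (f i) = opE k w r (-1) i := fun i => hτ ⟨F i, Np_le' (mem_Np F i)⟩
  exact ⟨τ, t1, t2, fun i => hτ ⟨H i, C.h_mem i⟩, fun U hU => MINU.irr c.det M U
    (fun i u hu => t1 i ▸ hU _ u hu) fun i u hu => t2 i ▸ hU _ u hu⟩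

theorem st_min1 (k : Type u) [Field k] [IsAlgClosed k] (p : ℕ) [Fact p.Prime] [CharP k p]
    (hp : p ≠ 2) (h : S_minu k) : S_min1 k := by
  intro L _ _ l A e f h' c X _ w r x0 M hX ⟨i, hi⟩
  classical
  obtain ⟨ρ, -, -, h3, h4⟩ := h L l A e f h' c X w r x0 M
  let _ : LieRingModule L (X → k) := LieRingModule.compLieHom _ ρ
  have : LieModule k L (X → k) := LieModule.compLieHom _ ρ
  have : Nonempty X := ⟨x0⟩
  refine ⟨X → k, _, _, _, inferInstance, inferInstance, LieModule.IsIrreducible.mk fun N hN => ?_,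
    by rwa [Module.finrank_fintype_fun_eq_card], h' i, h' i, fun h0 => hi ?_⟩
  · rcases h4 N.toSubmodule (fun x u hu => N.lie_mem hu) with h1 | h1
    · exact absurd (by simpa using h1) hN
    · simpa using h1
  · have e1 : LieModule.toEnd k L (X → k) (h' i) = DG.opH k w i := h3 i
    rw [← h0, LieModule.traceForm_apply_apply, e1,
      LinearMap.trace_eq_matrix_trace k (Pi.basisFun k X), Matrix.trace]
    push_cast
    refine Finset.sum_congr rfl fun x _ => ?_
    simp [LinearMap.toMatrix_apply, DG.opH_apply]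

end Pool.Agent.Lib.PRC
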