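import Pool.Agent.Lib.PRC.Api
import Pool.Agent.Lib.MP_3a0263_al.R.Final
import Pool.Agent.Lib.MP_3a0263_al.R.Fr
import Pool.Agent.Lib.MP_3a0263_al.R.B_BASE
import Pool.Agent.Lib.MP_3a0263_al.R.B_DIAG
import Pool.Agent.Lib.MP_3a0263_al.R.B_EIG
import Pool.Agent.Lib.MP_3a0263_al.R.B_FAM
import Pool.Agent.Lib.MP_3a0263_al.R.B_GOOD
import Pool.Agent.Lib.MP_3a0263_al.R.B_JM
import Pool.Agent.Lib.MP_3a0263_al.R.B_NIL
import Pool.Agent.Lib.MP_3a0263_al.R.B_ODD1
import Pool.Agent.Lib.MP_3a0263_al.R.B_ODD2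
import Pool.Agent.Lib.MP_3a0263_al.R.B_ODD3
import Pool.Agent.Lib.MP_3a0263_al.R.B_P3
import Pool.Agent.Lib.MP_3a0263_al.R.B_REFL
import Pool.Agent.Lib.MP_3a0263_al.R.B_SETUP
import Pool.Agent.Lib.MP_3a0263_al.R.B_SL2
import Pool.Agent.Lib.MP_3a0263_al.R.B_THETA

namespace Pool.Agent.Lib.PRC

open Matrix Pool.Agent.Lib.MP_3a0263_al Pool.Agent.Lib.MP_3a0263_al.R Pool.Agent.Lib.MP_3a0263_al.Q
  LieAlgebra.SpecialLinear

attribute [local instance 100] LieRing.ofAssociativeRing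

universe u

namespace N0

variable {k : Type u} [Field k] {n : Type} [Fintype n] [DecidableEq n] {p : ℕ}
  {L : LieSubalgebra k (Matrix n n k)} {π : Matrix n n k →ₗ[k] Matrix n n k}
  {Φ : Type u} [Fintype Φ] {m : Φ → Φ → ℤ} {s : Φ → Φ → Φ} {Δ : Finset Φ} {co : Φ → Φ → ℤ}

theorem lin_int {R : Frame L Φ} (hB : BaseData R Δ co) {φ : Φ → ℤ} (h : IsGrading R φ) (β : Φ) :
    φ β = ∑ i ∈ Δ, co β i * φ i := by
  have h1 := hB.lin (ULift.{u} ℤ) (fun β => ULift.up (φ β))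
    ⟨fun β γ δ c hc e => congrArg ULift.up (h.1 β γ δ c hc e),
      fun β => congrArg ULift.up (h.2 β)⟩ β
  have h2 := congrArg (AddEquiv.ulift : ULift.{u} ℤ ≃+ ℤ) h1
  rw [map_sum] at h2
  exact h2

theorem red {R : Frame L Φ} (hm : RefData R m s) (hB : BaseData R Δ co) (β γ : Φ) (a b : ℤ)
    (ha : a ≠ 0) (h : ∀ i ∈ Δ, a * co γ i = b * co β i) : γ = β ∨ γ = R.neg β := by
  have h0 : ∀ κ, a * m κ γ = b * m κ β := fun κ => by
    rw [lin_int hB (hm.grad κ) γ, lin_int hB (hm.grad κ) β, Finset.mul_sum, Finset.mul_sum]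
    exact Finset.sum_congr rfl fun i hi => by rw [← mul_assoc, h i hi, mul_assoc]
  have h1 := h0 β
  have h2 := h0 γ
  rw [hm.two] at h1 h2
  have h3 : m β γ * m γ β = 4 := mul_left_cancel₀ ha (by linear_combination m γ β * h1 - 2 * h2)
  have h4 : |m β γ| ≤ 4 := Int.le_of_dvd (by norm_num) ((abs_dvd _ _).2 ⟨_, h3.symm⟩)
  obtain ⟨h5, h6⟩ := abs_le.1 h4
  have hb : b ≠ 0 := by
    rintro rfl
    omega
  have big : ∀ j : ℤ, b = j * a → j = 1 ∨ j = -1 := fun j hj =>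
    hB.red β γ j fun i hi => mul_left_cancel₀ ha (by rw [h i hi, hj]; ring)
  have small : ∀ j : ℤ, a = j * b → j = 1 ∨ j = -1 := fun j hj =>
    hB.red γ β j fun i hi => mul_left_cancel₀ hb (by rw [← h i hi, hj]; ring)
  generalize m β γ = x at h1 h3 h5 h6
  interval_cases x
  · exact absurd (big (-2) (by omega)) (by omega)
  · omega
  · right
    refine hB.inj _ _ fun i hi => mul_left_cancel₀ ha ?_
    have e : co (R.neg β) i = - co β i := (hB.grad i hi).2 β
    rw [h i hi, e, show b = -a by omega]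
    ring
  · exact absurd (small (-2) (by omega)) (by omega)
  · omega
  · exact absurd (small 2 (by omega)) (by omega)
  · left
    refine hB.inj _ _ fun i hi => mul_left_cancel₀ ha ?_
    rw [h i hi, show b = a by omega]
  · omega
  · exact absurd (big 2 (by omega)) (by omega)

/-- the combinatorial data -/
def comb {R : Frame L Φ} (hm : RefData R m s) (hB : BaseData R Δ co) : Comb Φ where
  Δ := Δ
  co := co
  neg := R.neg
  m := m
  s := s
  self := hB.self
  ne := hB.ne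
  sign := hB.sign
  inj := hB.inj
  co_neg β i hi := (hB.grad i hi).2 β
  refl α β i hi := hm.refl_int _ (hB.grad i hi) α β
  lin α β := lin_int hB (hm.grad α) β
  two := hm.two
  red := red hm hB

theorem wt_lin {R : Frame L Φ} (hB : BaseData R Δ co) (β : Φ) (d : R.t) :
    R.wt β d = ∑ i ∈ Δ, (co β i : k) * R.wt i d := by
  have := hB.lin k (fun β => R.wt β d) (GOOD.grading_wt R d) β
  simpa only [zsmul_eq_mul] using this

open LaurentPolynomial GOOD in
theorem cow (hR : Rich L π) {R : Frame L Φ} (hB : BaseData R Δ co) (hT : Thetas R) (i : Φ)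
    (hi : i ∈ Δ) : ∃ d : R.t, R.wt i d = 1 ∧ ∀ j ∈ Δ, j ≠ i → R.wt j d = 0 := by
  have hN : co i i ≠ 0 := by rw [hB.self i hi]; exact one_ne_zero
  obtain ⟨Θ, h1, ht, he⟩ := hT.tor (fun β => co β i) (hB.grad i hi)
  have := hR.ne
  obtain ⟨U, hU1, hU⟩ := exists_intertwiner Θ h1
  set M : Matrix n n k := U.map (quo k (co i i)) with hM
  have hc : ∀ a : Matrix n n k, Θ a = cM a → ⁅a, M⁆ = 0 := fun a ha => by
    have h := congrArg (fun V : Matrix n n k[T;T⁻¹] => V.map (quo k (co i i))) (hU a)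
    simp only [ha, map_cM_mul, map_mul_cM] at h
    rw [Ring.lie_def, h, sub_self]
  have hθ : ⁅M, R.e i⁆ = R.e i := by
    have h := congrArg (fun V : Matrix n n k[T;T⁻¹] => V.map (quo k (co i i))) (hU (R.e i))
    simp only [he, smul_mul_assoc, ← mul_smul_comm, map_cM_mul, map_mul_cM, map_shift hN, hU1] at h
    rw [Ring.lie_def, ← h, mul_add, mul_one, add_sub_cancel_left]
  have hx : π M = diagonal (R.tp (π M)).1 := eq_diag R (hR.mem M) fun d => by
    rw [← hR.equi _ (R.t_mem d), hc _ (ht d), map_zero]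
  set d := R.tp (π M) with hd
  have hw : ∀ (β : Φ) (c : k), ⁅M, R.e β⁆ = c • R.e β → R.wt β d = c := fun β c h => by
    have h2 := hR.equi' (R.e_mem β) M
    rw [h, map_smul, hR.left _ (R.e_mem β), hx, R.lie_e] at h2
    exact (smul_left_injective k (e_ne R β) h2).symm
  refine ⟨d, hw i 1 (by rw [hθ, one_smul]), fun a ha hai => hw a 0 ?_⟩
  rw [zero_smul, ← lie_skew, hc _ ?_, neg_zero]
  rw [he, hB.ne a ha i hi hai, T_zero, one_smul]

theorem dim {R : Frame L Φ}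
    (h : ∀ i ∈ Δ, ∃ d : R.t, R.wt i d = 1 ∧ ∀ j ∈ Δ, j ≠ i → R.wt j d = 0) :
    Δ.card ≤ Module.finrank k R.t := by
  choose d h1 h2 using h
  have hl : LinearIndependent k fun i : Δ => d i.1 i.2 := by
    rw [Fintype.linearIndependent_iff]
    intro g hg j
    have h3 := congrArg (R.wt j.1) hg
    rw [map_sum, map_zero, Finset.sum_eq_single j] at h3
    · rwa [map_smul, h1, smul_eq_mul, mul_one] at h3
    · intro i _ hij
      rw [map_smul, h2 _ _ _ j.2 fun e => hij (Subtype.ext e).symm, smul_zero]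
    · simp
  simpa using hl.fintype_card_le_finrank

theorem xr [IsAlgClosed k] [Fact p.Prime] [CharP k p] (hp : p ≠ 2) (hR : Rich L π)
    (R : RootData p L Φ) (hm : RefData R.toFrame m s) (hB : BaseData R.toFrame Δ co)
    (hT : Thetas R.toFrame) : Nonempty (XR p L Φ) :=
  ⟨{toComb := comb hm hB
    t := R.t
    e := R.e
    wt := R.wt
    tp := R.tp
    cf := R.cf
    h := R.cor
    t_mem := R.t_mem
    e_mem := R.e_mem
    lie_e := R.lie_e
    decomp := R.decomp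
    tp_t := R.tp_t
    tp_e := R.tp_e
    cf_t := R.cf_t
    cf_self := R.cf_self
    cf_ne := R.cf_ne
    wt_lin := wt_lin hB
    dim := dim (cow hR hB hT)
    br_cf := fun β γ δ h i hi => by
      by_contra hn
      exact h ((R.lie_e_gr (hB.grad i hi) β γ).2.1 δ hn)
    br_tp := fun β γ h => by
      obtain ⟨δ, c, e⟩ := R.br β γ h
      rw [e, map_smul, R.tp_e, smul_zero]
    h_mem := fun α => ⟨1, by rw [one_smul]; exact (R.lie_neg α).symm⟩
    wt_h := fun α _ β => (hm.cast α β).symm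
    sq := fun α => ⟨-1, by
      have e : ⁅R.e α, R.e ((comb hm hB).neg α)⁆ = diagonal (R.cor α).1 := R.lie_neg α
      rw [e, ← lie_skew, R.lie_e, R.wt_cor, mul_neg, mul_one, neg_smul]⟩
    gen := fun α β h1 h2 h3 => absurd (h3 β β 0 h1 h2 fun i _ => by simp) (by simp)
    br_h := R.lie_neg
    wt_hh := fun α β => (hm.cast α β).symm
    wt_inj := fun β γ h => by
      rcases R.wt_inj β γ h with e | e
      · exact e.symm
      · have h1 := congrArg (fun f => f (R.cor β)) h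
        simp only [e, R.wt_neg, LinearMap.neg_apply, R.wt_cor] at h1
        have h2 := two_ne k p hp
        exact absurd (by linear_combination h1) (mul_ne_zero h2 h2)
    good := st_good k p n L π hR Φ R Δ co hB hT
    cow := cow hR hB hT
    h_nc := fun β => by
      obtain ⟨γ, hγ⟩ := R.cor_nc β
      rw [wt_lin hB] at hγ
      obtain ⟨j, hj, h⟩ := Finset.exists_ne_zero_of_sum_ne_zero hγ
      exact ⟨j, hj, right_ne_zero_of_mul h⟩ }⟩

theorem main [IsAlgClosed k] [Fact p.Prime] [CharP k p] (hp : p ≠ 2) (hR : Rich L π) :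
    (∃ (L' : LieSubalgebra k (Matrix n n k)) (π' : Matrix n n k →ₗ[k] Matrix n n k) (Φ : Type u)
      (_ : Fintype Φ), Nonempty (L ≃ₗ⁅k⁆ L') ∧ Rich L' π' ∧ Nonempty (XR p L' Φ)) ∨
    ((∃ a b : Matrix n n k, ⁅a, b⁆ = 1) ∧ Nonempty (L ≃ₗ⁅k⁆ sl (Fin 2) k)) := by
  obtain ⟨θ, L', π', t, hθ, hR', hD⟩ := st_diag k p n L π hR
  let e : L ≃ₗ⁅k⁆ L' :=
    { toFun := fun x => ⟨θ x.1, (hθ _).1 x.2⟩
      map_add' := fun x y => Subtype.ext (map_add θ x.1 y.1)
      map_smul' := fun c x => Subtype.ext (map_smul θ c x.1)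
      map_lie' := fun {x y} => Subtype.ext (by
        show θ ⁅x.1, y.1⁆ = ⁅θ x.1, θ y.1⁆
        simp [Ring.lie_def])
      invFun := fun y => ⟨θ.symm y.1, (hθ _).2 (by simp)⟩
      left_inv := fun x => Subtype.ext (θ.symm_apply_apply x.1)
      right_inv := fun y => Subtype.ext (θ.apply_symm_apply y.1) }
  have h1 := st_odd1 k p (st_eig k p (st_p3 k p)) (st_jm k) hp n L' π' t hR' hD
  obtain ⟨Φ, _, ⟨R⟩⟩ := st_odd3 k p hp n L' π' t hR' hD h1 (st_odd2 k p hp n L' π' t hR' hD h1)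
  obtain ⟨m, s, hm⟩ := st_refl k p n L' Φ R
  obtain ⟨Δ, co, hB⟩ := st_base k n L' Φ R.toFrame m s hm
  rcases st_nil k p n L' π' hR' Φ R with hN | ⟨hab, α, hα⟩
  · exact Or.inl ⟨L', π', Φ, inferInstance, ⟨e⟩, hR',
      xr hp hR' R hm hB (MP_3a0263_al.R.st_theta k p (st_fam k) n L' π' hR' Φ R hN)⟩
  · obtain ⟨e'⟩ := st_sl2 k p hp n L' Φ R Δ co hB α hα
    exact Or.inr ⟨hab, ⟨e.trans e'⟩⟩

end N0

theorem st_n0 (k : Type u) [Field k] [IsAlgClosed k] (p : ℕ) [Fact p.Prime] [CharP k p]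
    (hp : p ≠ 2) : S_n0 k p := by
  intro g _ _ h
  obtain ⟨n, _, _, ρ, π, hρ, hR⟩ := st_setup k g h
  let e := LieEquiv.ofInjective ρ hρ
  rcases N0.main hp hR with ⟨L', π', Φ, _, ⟨e'⟩, h1, h2⟩ | ⟨-, ⟨e'⟩⟩
  · exact ⟨n, inferInstance, inferInstance, L', π', Φ, inferInstance, ⟨e.trans e'⟩, h1, h2⟩
  · have hm : ((2 : ℕ) : k) ≠ 0 := by exact_mod_cast two_ne k p hp
    rcases N0.main hp (rich_sl hm) with ⟨L', π', Φ, _, ⟨e''⟩, h1, h2⟩ | ⟨⟨a, b, hab⟩, -⟩
    · exact ⟨Fin 2, inferInstance, inferInstance, L', π', Φ, inferInstance,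
        ⟨(e.trans e').trans e''⟩, h1, h2⟩
    · have := congrArg Matrix.trace hab
      rw [Ring.lie_def, Matrix.trace_sub, Matrix.trace_mul_comm, sub_self, Matrix.trace_one,
        Fintype.card_fin] at this
      exact absurd this.symm hm

end Pool.Agent.Lib.PRC
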