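import Pool.Agent.Lib.PRC.Api

namespace Pool.Agent.Lib.PRC

open Matrix Pool.Agent.Lib.MP_3a0263_al Pool.Agent.Lib.MP_3a0263_al.R Pool.Agent.Lib.MP_3a0263_al.Q

attribute [local instance 100] LieRing.ofAssociativeRing

universe u

namespace N1

variable {k : Type u} [Field k] {n : Type} [Fintype n] [DecidableEq n] {p : ℕ}
  {L : LieSubalgebra k (Matrix n n k)} {Φ : Type u} [Fintype Φ] (R : XR p L Φ)

/-- root vectors in `L` -/
def E (β : Φ) : L := ⟨R.e β, R.e_mem β⟩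

/-- the torus in `L` -/
def Dg : R.t →ₗ[k] L where
  toFun d := ⟨diagonal d.1, R.t_mem d⟩
  map_add' x y := Subtype.ext (diagonal_add _ _).symm
  map_smul' c x := Subtype.ext (diagonal_smul c x.1)

theorem decompL (x : L) : x = Dg R (R.tp x) + ∑ β, R.cf β x • E R β :=
  Subtype.ext ((R.decomp x x.2).trans (by
    rw [AddMemClass.coe_add, AddSubmonoidClass.coe_finsetSum]; rfl))

theorem Dg_E (d : R.t) (β : Φ) : ⁅Dg R d, E R β⁆ = R.wt β d • E R β := Subtype.ext (R.lie_e d β)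

theorem Dg_Dg (d d' : R.t) : ⁅Dg R d, Dg R d'⁆ = 0 := Subtype.ext (L0.diag_lie R.toCRoot d d')

theorem E_neg (β : Φ) : ⁅E R β, E R (R.neg β)⁆ = Dg R (R.h β) := Subtype.ext (R.br_h β)

theorem E_neg' (β : Φ) : ⁅E R (R.neg β), E R β⁆ = Dg R (R.h (R.neg β)) := by
  rw [← E_neg, C1.neg_neg]

theorem E_sum {β γ δ : Φ} (h : L0.IsSum R.toComb β γ δ) :
    ⁅E R β, E R γ⁆ = R.cf δ ⁅R.e β, R.e γ⁆ • E R δ := Subtype.ext (L0.br_sum R.toCRoot h)

theorem Dg_inj {d : R.t} (h : Dg R d = 0) : d = 0 := by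
  rw [← R.tp_t d, show diagonal d.1 = 0 from congrArg Subtype.val h, map_zero]

theorem br_ne (h2 : (2 : k) ≠ 0) (β : Φ) : ⁅E R (R.neg β), E R β⁆ ≠ 0 := fun h =>
  R.h_ne h2 _ (Dg_inj R ((E_neg' R β).symm.trans h))

/-- a subspace stable under root vectors and the torus is an ideal -/
def mkIdeal (J : Submodule k L) (h1 : ∀ β, ∀ x ∈ J, ⁅E R β, x⁆ ∈ J)
    (h2 : ∀ d, ∀ x ∈ J, ⁅Dg R d, x⁆ ∈ J) : LieIdeal k L :=
  { J with
    lie_mem := fun {x y} hy => by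
      rw [decompL R x, add_lie, sum_lie]
      exact J.add_mem (h2 _ _ hy) (J.sum_mem fun β _ => by
        rw [smul_lie]; exact J.smul_mem _ (h1 β _ hy)) }

/-- the centraliser of a closed set of root vectors -/
def cz (A : Set Φ) (h : ∀ γ ∈ A, ∀ δ, δ ∉ A → ⁅E R γ, E R δ⁆ = 0) : LieIdeal k L :=
  mkIdeal R (⨅ γ : A, LinearMap.ker (LieModule.toEnd k L L (E R γ)))
    (fun β x hx => by
      simp only [Submodule.mem_iInf, LinearMap.mem_ker, LieModule.toEnd_apply_apply] at hx ⊢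
      intro γ
      by_cases hβ : β ∈ A
      · rw [hx ⟨β, hβ⟩, lie_zero]
      · rw [leibniz_lie, h γ γ.2 β hβ, hx γ, zero_lie, lie_zero, add_zero])
    (fun d x hx => by
      simp only [Submodule.mem_iInf, LinearMap.mem_ker, LieModule.toEnd_apply_apply] at hx ⊢
      intro γ
      rw [leibniz_lie, ← lie_skew (E R γ), Dg_E, neg_lie, smul_lie, hx γ, smul_zero, neg_zero,
        lie_zero, add_zero])

theorem mem_cz {A : Set Φ} {h : ∀ γ ∈ A, ∀ δ, δ ∉ A → ⁅E R γ, E R δ⁆ = 0} {x : L} :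
    x ∈ cz R A h ↔ ∀ γ ∈ A, ⁅E R γ, x⁆ = 0 := by
  change x ∈ (⨅ γ : A, LinearMap.ker (LieModule.toEnd k L L (E R γ))) ↔ _
  simp only [Submodule.mem_iInf, LinearMap.mem_ker, LieModule.toEnd_apply_apply, Subtype.forall]

theorem central {d : R.t} (h : ∀ i ∈ R.Δ, R.wt i d = 0) : Dg R d ∈ LieAlgebra.center k L := by
  intro x
  have h1 : ∀ γ, R.wt γ d = 0 := fun γ => by
    rw [R.wt_lin]
    exact Finset.sum_eq_zero fun i hi => by rw [h i hi, mul_zero]
  rw [← lie_skew, decompL R x, lie_add, Dg_Dg, lie_sum]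
  simp only [lie_smul, Dg_E, h1, zero_smul, smul_zero, Finset.sum_const_zero, add_zero, neg_zero]

theorem split (hN : NS k R.toComb) (d : R.t) :
    ∃ c : Φ → k, Dg R (d - ∑ i ∈ R.Δ, c i • R.h i) ∈ LieAlgebra.center k L := by
  classical
  let F : (R.Δ → k) →ₗ[k] (R.Δ → k) :=
    Matrix.vecMulLinear (Matrix.of fun i j : R.Δ => (R.m i j : k))
  have hF : ∀ (x : Φ → k) (j : R.Δ), F (fun i => x i) j = ∑ i ∈ R.Δ, x i * (R.m i j : k) :=
    fun x j => (Finset.sum_coe_sort R.Δ fun i => x i * (R.m i j : k))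
  have ext : ∀ x : R.Δ → k, ∃ x' : Φ → k, x = fun i : R.Δ => x' i := fun x =>
    ⟨fun i => if h : i ∈ R.Δ then x ⟨i, h⟩ else 0, funext fun i => by simp⟩
  have hi : Function.Injective F := (injective_iff_map_eq_zero _).2 fun x hx => by
    obtain ⟨x', rfl⟩ := ext x
    exact funext fun i => hN x' (fun j hj => (hF x' ⟨j, hj⟩).symm.trans (congrFun hx _)) i i.2
  obtain ⟨x, hx⟩ := LinearMap.injective_iff_surjective.1 hi fun j => R.wt j d
  obtain ⟨x', rfl⟩ := ext x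
  refine ⟨x', central R fun j hj => ?_⟩
  rw [map_sub, map_sum, ← show _ = R.wt j d from congrFun hx ⟨j, hj⟩, hF]
  simp only [map_smul, R.wt_hh, smul_eq_mul, sub_self]

variable (h2 : (2 : k) ≠ 0) (I : LieIdeal k L)
include h2

theorem neg_mem {β : Φ} (h : E R β ∈ I) : E R (R.neg β) ∈ I := by
  have h1 : ⁅E R (R.neg β), ⁅E R (R.neg β), E R β⁆⁆ ∈ I := I.lie_mem (I.lie_mem h)
  rw [E_neg', ← lie_skew, Dg_E, R.wt_self, neg_mem_iff] at h1
  exact (I.toSubmodule.smul_mem_iff h2).1 h1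

theorem wt_mem {x : L} (hx : x ∈ I) {β : Φ} (h : R.cf β x ≠ 0) : E R β ∈ I := by
  classical
  have key : ∀ s : Finset Φ, β ∉ s → ∃ y ∈ I, R.tp (y : L) = 0 ∧ R.cf β (y : L) ≠ 0 ∧
      ∀ γ ∈ s, R.cf γ (y : L) = 0 := fun s => by
    induction s using Finset.induction_on with
    | empty =>
      refine fun _ => ⟨⁅Dg R (R.h β), x⁆, I.lie_mem hx, L0.tp_lie_diag R.toCRoot _ x.2, ?_, by simp⟩
      change R.cf β ⁅diagonal (R.h β).1, x.1⁆ ≠ 0
      rw [L0.cf_lie_diag R.toCRoot (R.h β) x.2 β, R.wt_self]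
      exact mul_ne_zero h2 h
    | insert γ s _ ih =>
      intro hβ
      rw [Finset.mem_insert, not_or] at hβ
      obtain ⟨y, h1, h3, h4, h5⟩ := ih hβ.2
      obtain ⟨d, hd⟩ : ∃ d, R.wt β d ≠ R.wt γ d := by
        by_contra hc
        push Not at hc
        exact hβ.1 (R.wt_inj _ _ (LinearMap.ext hc))
      have e : ∀ δ, R.cf δ ((⁅Dg R d, y⁆ - R.wt γ d • y : L) : Matrix n n k) =
          (R.wt δ d - R.wt γ d) * R.cf δ y := fun δ => by
        change R.cf δ (⁅diagonal d.1, y.1⁆ - R.wt γ d • y.1) = _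
        rw [map_sub, L0.cf_lie_diag R.toCRoot d y.2, map_smul, smul_eq_mul, sub_mul]
      refine ⟨⁅Dg R d, y⁆ - R.wt γ d • y, sub_mem (I.lie_mem h1) (I.smul_mem _ h1), ?_, ?_, ?_⟩
      · change R.tp (⁅diagonal d.1, y.1⁆ - R.wt γ d • y.1) = _
        rw [map_sub, L0.tp_lie_diag R.toCRoot d y.2, map_smul, h3, smul_zero, sub_zero]
      · rw [e]; exact mul_ne_zero (sub_ne_zero.2 hd) h4
      · intro δ hδ
        rw [e]
        rcases Finset.mem_insert.1 hδ with rfl | hδ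
        · rw [sub_self, zero_mul]
        · rw [h5 δ hδ, mul_zero]
  obtain ⟨y, h1, h3, h4, h5⟩ := key (Finset.univ.erase β) (by simp)
  rw [decompL R y, h3, map_zero, zero_add, Finset.sum_eq_single β
    (fun γ _ hγ => by rw [h5 γ (by simp [hγ]), zero_smul]) (by simp)] at h1
  exact (I.toSubmodule.smul_mem_iff h4).1 h1

variable (hbr : ∀ a b c : Φ, L0.IsSum R.toComb a b c → ⁅R.e a, R.e b⁆ ≠ 0)
include hbr

omit h2 in
theorem cf_ne {a b c : Φ} (h : L0.IsSum R.toComb a b c) : R.cf c ⁅R.e a, R.e b⁆ ≠ 0 := fun h0 =>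
  hbr a b c h (by rw [L0.br_sum R.toCRoot h, h0, zero_smul])

theorem comm : ∀ γ ∈ {γ | E R γ ∈ I}, ∀ δ, δ ∉ {γ | E R γ ∈ I} → ⁅E R γ, E R δ⁆ = 0 := by
  intro γ hγ δ hδ
  refine Subtype.ext (L0.br_zero R.toCRoot (fun h => hδ (h ▸ neg_mem R h2 I hγ)) fun ε hε => hδ ?_)
  have h1 : ⁅E R δ, E R γ⁆ ∈ I := I.lie_mem hγ
  rw [E_sum R hε.symm] at h1
  have h3 : ⁅E R (R.neg γ), E R ε⁆ ∈ I :=
    I.lie_mem ((I.toSubmodule.smul_mem_iff (cf_ne R hbr hε.symm)).1 h1)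
  rw [E_sum R hε.sub] at h3
  exact (I.toSubmodule.smul_mem_iff (cf_ne R hbr hε.sub)).1 h3

theorem comm' : ∀ γ ∈ {γ | E R γ ∉ I}, ∀ δ, δ ∉ {γ | E R γ ∉ I} → ⁅E R γ, E R δ⁆ = 0 :=
  fun γ hγ δ hδ => by rw [← lie_skew, comm R h2 I hbr δ (not_not.1 hδ) γ hγ, neg_zero]

omit h2 in
theorem h_span (β : Φ) : R.h β ∈ Submodule.span k (R.h '' R.Δ) := by
  have hn : ∀ γ, R.h (R.neg γ) = - R.h γ := fun γ => by
    refine eq_neg_of_add_eq_zero_left (Dg_inj R ?_)
    rw [map_add, ← E_neg', ← E_neg, ← lie_skew, neg_add_cancel]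
  suffices H : ∀ m : ℕ, ∀ β, C1.Pos R.toComb β → C1.ht R.toComb β ≤ m →
      R.h β ∈ Submodule.span k (R.h '' R.Δ) by
    rcases C1.pos_or R.toComb β with h | h
    · exact H _ β h (Int.self_le_toNat _)
    · rw [← neg_mem_iff, ← hn]
      exact H _ _ h (Int.self_le_toNat _)
  intro m
  induction m with
  | zero => exact fun β hβ h => absurd (C1.ht_pos _ hβ) (by omega)
  | succ m ih =>
    intro β hβ hm
    obtain ⟨i, hi, -, h1⟩ := C1.exists_m_pos _ hβ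
    have hi' : R.h i ∈ Submodule.span k (R.h '' R.Δ) := Submodule.subset_span ⟨i, hi, rfl⟩
    by_cases hβi : β = i
    · rwa [hβi]
    obtain ⟨c, hc⟩ := C1.sub_root _ h1 hβi
    have s1 : L0.IsSum R.toComb i c β := fun j hj => by rw [hc j hj]; ring
    have s2 : L0.IsSum R.toComb c (R.neg β) (R.neg i) := fun j hj => by
      rw [hc j hj, R.co_neg _ j hj, R.co_neg _ j hj]; ring
    have s3 : L0.IsSum R.toComb i (R.neg β) (R.neg c) := fun j hj => by
      rw [R.co_neg _ j hj, R.co_neg _ j hj, hc j hj]; ring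
    have h3 : C1.ht R.toComb c = C1.ht R.toComb β - 1 := by
      rw [C1.ht_comb R.toComb 1 (-1) (a := β) (b := i) (c := c) fun j hj => by rw [hc j hj]; ring,
        C1.ht_simple _ hi]; ring
    obtain ⟨j, hj, hji, h4⟩ := C1.exists_co_pos _ hi hβ hβi
    have h5 := ih c (C1.pos_of_co _ hj (by rw [hc j hj, R.ne i hi j hj hji.symm]; omega)) (by omega)
    have h6 := lie_lie (E R i) (E R c) (E R (R.neg β))
    rw [E_sum R s1, E_sum R s2, E_sum R s3, smul_lie, lie_smul, lie_smul, E_neg, E_neg, E_neg,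
      ← map_smul, ← map_smul, ← map_smul, ← map_sub, ← sub_eq_zero, ← map_sub] at h6
    rw [← Submodule.smul_mem_iff _ (cf_ne R hbr s1), sub_eq_zero.1 (Dg_inj R h6)]
    exact sub_mem (Submodule.smul_mem _ _ hi') (Submodule.smul_mem _ _ h5)

omit h2 in
/-- the ideal spanned by the root vectors and the coroots -/
def K : LieIdeal k L :=
  L0.ideal R.toCRoot Set.univ (Submodule.span k (R.h '' R.Δ)) (fun _ _ _ _ _ => trivial)
    (fun β _ => by
      rw [show ⁅R.e (R.neg β), R.e β⁆ = _ from congrArg Subtype.val (E_neg' R β)]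
      exact (R.tp_t _).symm ▸ h_span R hbr _)
    fun _ _ _ _ => trivial

omit h2 in
theorem E_mem_K (β : Φ) : E R β ∈ K R hbr :=
  ⟨by rw [show R.tp (E R β).1 = 0 from R.tp_e β]; exact zero_mem _, fun _ h => (h trivial).elim⟩

variable (hN : NS k R.toComb)
include hN

omit h2 in
/-- a nonzero ideal inside `K` contains a root vector -/
theorem exists_E (hw : ∀ {x : L}, x ∈ I → ∀ {β : Φ}, R.cf β x ≠ 0 → E R β ∈ I)
    (hI : I ≤ K R hbr) (h0 : I ≠ ⊥) : ∃ β, E R β ∈ I := by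
  classical
  by_contra hc
  push Not at hc
  refine h0 ((LieSubmodule.eq_bot_iff I).2 fun x hx => ?_)
  have h1 : x = Dg R (R.tp x) := by
    conv_lhs => rw [decompL R x]
    rw [Finset.sum_eq_zero fun β _ => by
      rw [show R.cf β x = 0 from by_contra fun h => hc β (hw hx h), zero_smul], add_zero]
  have h3 : ∀ j, R.wt j (R.tp x) = 0 := fun j => by_contra fun h => hc j (by
    have : ⁅E R j, x⁆ ∈ I := I.lie_mem hx
    rw [h1, ← lie_skew, neg_mem_iff, Dg_E] at this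
    exact (I.toSubmodule.smul_mem_iff h).1 this)
  obtain ⟨c, hc'⟩ := (Submodule.mem_span_image_finset_iff_exists_fun' k).1 (hI hx).1
  have h4 := hN c fun j _ => by
    have := h3 j
    rw [← hc', map_sum] at this
    simpa only [map_smul, R.wt_hh, smul_eq_mul] using this
  rw [h1, ← hc', Finset.sum_eq_zero fun i hi => by rw [h4 i hi, zero_smul], map_zero]

theorem atom (β : Φ) (hI : I ≤ LieSubmodule.lieSpan k L {E R β}) (h0 : I ≠ ⊥) : E R β ∈ I := by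
  by_contra hβ
  obtain ⟨δ, hδ⟩ := exists_E R I hbr hN (fun hx _ h => wt_mem R h2 I hx h) (hI.trans
    (LieSubmodule.lieSpan_le.2 (Set.singleton_subset_iff.2 (E_mem_K R hbr β)))) h0
  have h1 : LieSubmodule.lieSpan k L {E R β} ≤ cz R _ (comm R h2 I hbr) :=
    LieSubmodule.lieSpan_le.2 (Set.singleton_subset_iff.2
      ((mem_cz R).2 fun γ hγ => comm R h2 I hbr γ hγ β hβ))
  exact br_ne R h2 δ ((mem_cz R).1 (h1 (hI hδ)) _ (neg_mem R h2 I hδ))

omit I in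
theorem simple (β : Φ) :
    LieAlgebra.IsSimple k (LieSubmodule.lieSpan k L {E R β} : LieIdeal k L) := by
  set I : LieIdeal k L := LieSubmodule.lieSpan k L {E R β} with hI
  have hβ : E R β ∈ I := LieSubmodule.subset_lieSpan rfl
  have hz : ∀ γ, E R γ ∉ I → ∀ x ∈ I, ⁅E R γ, x⁆ = 0 := fun γ hγ x hx =>
    (mem_cz R).1 (LieSubmodule.lieSpan_le.2 (Set.singleton_subset_iff.2
      ((mem_cz R (h := comm' R h2 I hbr)).2 fun δ hδ =>
        comm' R h2 I hbr δ hδ β (not_not.2 hβ))) hx) γ hγ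
  refine ⟨fun J => ?_, fun ⟨h⟩ => br_ne R h2 β
    (congrArg Subtype.val (h ⟨_, neg_mem R h2 I hβ⟩ ⟨_, hβ⟩))⟩
  let J0 : Submodule k L := J.toSubmodule.map I.toSubmodule.subtype
  have s0 : ∀ y ∈ I, ∀ x ∈ J0, ⁅y, x⁆ ∈ J0 := fun y hy x ⟨x', hx', e⟩ =>
    ⟨⁅(⟨y, hy⟩ : I), x'⁆, J.lie_mem hx', by rw [← e]; rfl⟩
  have s1 : ∀ γ, ∀ x ∈ J0, ⁅E R γ, x⁆ ∈ J0 := fun γ x hx => by
    by_cases hγ : E R γ ∈ I
    · exact s0 _ hγ x hx
    · obtain ⟨x', -, rfl⟩ := hx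
      rw [show ⁅E R γ, I.toSubmodule.subtype x'⁆ = 0 from hz γ hγ _ x'.2]
      exact zero_mem _
  have s2 : ∀ d, ∀ x ∈ J0, ⁅Dg R d, x⁆ ∈ J0 := fun d x hx => by
    obtain ⟨c, hc⟩ := split R hN d
    have := hc x
    rw [← lie_skew, neg_eq_zero, map_sub, sub_lie, sub_eq_zero, map_sum, sum_lie] at this
    rw [this]
    refine J0.sum_mem fun i _ => ?_
    rw [map_smul, smul_lie, ← E_neg, lie_lie]
    exact J0.smul_mem _ (sub_mem (s1 _ _ (s1 _ _ hx)) (s1 _ _ (s1 _ _ hx)))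
  by_cases h0 : mkIdeal R J0 s1 s2 = ⊥
  · exact Or.inl ((LieSubmodule.eq_bot_iff J).2 fun x hx => Subtype.ext
      ((LieSubmodule.eq_bot_iff _).1 h0 x.1 ⟨x, hx, rfl⟩))
  · have h1 := atom R h2 (mkIdeal R J0 s1 s2) hbr hN β (fun x ⟨x', _, e⟩ => e ▸ x'.2) h0
    refine Or.inr (eq_top_iff.2 fun x _ => ?_)
    obtain ⟨x', hx', e⟩ := LieSubmodule.lieSpan_le.2 (Set.singleton_subset_iff.2 h1) x.2
    rwa [← show x' = x from Subtype.ext e]

end N1

open N1 in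
theorem st_n1 (k : Type u) [Field k] [IsAlgClosed k] (p : ℕ) [Fact p.Prime] [CharP k p]
    (hp : p ≠ 2) (hbr : S_br k p) : S_n1 k p := by
  intro n _ _ L Φ _ R hN
  have h2 := two_ne k p hp
  have hb := hbr n L Φ R
  let I : Φ → LieIdeal k L := fun β => LieSubmodule.lieSpan k L {E R β}
  have hI : ∀ β, E R β ∈ I β := fun β => LieSubmodule.subset_lieSpan rfl
  have hle : ∀ {β} {J : LieIdeal k L}, E R β ∈ J → I β ≤ J := fun h =>
    LieSubmodule.lieSpan_le.2 (Set.singleton_subset_iff.2 h)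
  have hS : ∀ β, E R β ∈ sSup (Set.range I) := fun β =>
    (le_sSup (Set.mem_range_self β) : I β ≤ _) (hI β)
  refine ⟨Set.range I, ?_, ⟨?_, ?_⟩, ?_⟩
  · rintro _ ⟨β, rfl⟩
    rw [disjoint_iff]
    by_contra h0
    have h1 := (atom R h2 _ hb hN β inf_le_left h0).2
    have h3 : sSup (Set.range I \ {I β}) ≤ cz R _ (comm R h2 (I β) hb) := sSup_le ?_
    · exact br_ne R h2 β ((mem_cz R).1 (h3 h1) _ (neg_mem R h2 _ (hI β)))
    rintro _ ⟨⟨γ, rfl⟩, hγ⟩
    refine hle ((mem_cz R).2 fun δ hδ => comm R h2 (I β) hb δ hδ γ fun h => hγ ?_)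
    refine le_antisymm (hle h) (hle (atom R h2 _ hb hN β (hle h) fun h4 => ?_))
    exact L0.e_ne R.toCRoot γ (congrArg Subtype.val ((LieSubmodule.eq_bot_iff _).1 h4 _ (hI γ)))
  · rw [disjoint_iff]
    by_contra h0
    obtain ⟨β, hβ⟩ := exists_E R _ hb hN (fun hx _ h => wt_mem R h2 _ hx h)
      (inf_le_right.trans (sSup_le (by rintro _ ⟨β, rfl⟩; exact hle (E_mem_K R hb β)))) h0
    exact br_ne R h2 β (hβ.1 _)
  · rw [codisjoint_iff, eq_top_iff]
    intro x _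
    rw [decompL R x]
    refine add_mem ?_ (sum_mem fun β _ =>
      SMulMemClass.smul_mem _ (LieSubmodule.mem_sup_right (hS β)))
    obtain ⟨c, hc⟩ := split R hN (R.tp x)
    rw [← sub_add_cancel (R.tp x) (∑ i ∈ R.Δ, c i • R.h i), map_add]
    refine add_mem (LieSubmodule.mem_sup_left hc) (LieSubmodule.mem_sup_right ?_)
    rw [map_sum]
    refine sum_mem fun i _ => ?_
    rw [map_smul, ← E_neg]
    exact SMulMemClass.smul_mem _ (LieSubmodule.lie_mem _ (hS _))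
  · rintro _ ⟨β, rfl⟩
    exact simple R h2 hb hN β

end Pool.Agent.Lib.PRC
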