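import Pool.Agent.Lib.PRC.Api

namespace Pool.Agent.Lib.PRC

open Matrix Pool.Agent.Lib.MP_3a0263_al Pool.Agent.Lib.MP_3a0263_al.R Pool.Agent.Lib.MP_3a0263_al.Q

universe u

namespace N2

open Finset

section lin

variable {k : Type u} [Field k] {n : ℕ}

/-- a vector extended by zero -/
def ext (y : Fin n → k) (i : ℕ) : k := if h : i < n then y ⟨i, h⟩ else 0

theorem ext_val (y : Fin n → k) (i : Fin n) : ext y i.1 = y i := by simp [ext]

theorem ext_out (y : Fin n → k) {i : ℕ} (h : n ≤ i) : ext y i = 0 := by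
  simp [ext, Nat.not_lt.2 h]

theorem one (y : Fin n → k) (a : ℕ) (α : ℤ) :
    ∑ i : Fin n, y i * ((if i.1 = a then α else 0 : ℤ) : k) = α * ext y a := by
  by_cases h : a < n
  · rw [sum_eq_single (⟨a, h⟩ : Fin n)]
    · rw [if_pos rfl, mul_comm]; simp [ext, h]
    · intro b _ hb
      rw [if_neg fun e => hb (Fin.ext e)]; simp
    · simp
  · rw [ext_out y (Nat.not_lt.1 h), mul_zero]
    refine sum_eq_zero fun i _ => ?_
    have := i.2
    rw [if_neg (by omega)]; simp

/-- a column with at most four nonzero entries -/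
theorem col {y : Fin n → k} {f : Fin n → ℤ} (hf : ∑ i, y i * (f i : k) = 0) (a b c d : ℕ)
    (α β γ δ : ℤ) (h : ∀ i : Fin n, f i = (if i.1 = a then α else 0) + (if i.1 = b then β else 0) +
      (if i.1 = c then γ else 0) + (if i.1 = d then δ else 0)) :
    (α : k) * ext y a + β * ext y b + γ * ext y c + δ * ext y d = 0 := by
  rw [← one, ← one, ← one, ← one, ← sum_add_distrib, ← sum_add_distrib, ← sum_add_distrib, ← hf]
  refine sum_congr rfl fun i _ => ?_
  rw [h i]; push_cast; ring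

theorem chain (Y : ℕ → k) (m : ℕ) (h0 : Y 1 = 2 * Y 0)
    (h : ∀ j, j + 2 ≤ m → Y (j + 2) = 2 * Y (j + 1) - Y j) :
    ∀ i, i ≤ m → Y i = (i + 1 : k) * Y 0 := by
  intro i
  induction i using Nat.strong_induction_on with
  | _ i ih =>
    intro hi
    match i, ih, hi with
    | 0, _, _ => simp
    | 1, _, _ => rw [h0]; norm_num
    | j + 2, ih, hi =>
      rw [h j hi, ih (j + 1) (by omega) (by omega), ih j (by omega) (by omega)]
      push_cast; ring

/-- the recurrence along the tail of a diagram -/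
theorem tail {M : Matrix (Fin n) (Fin n) ℤ} {y : Fin n → k}
    (hy : ∀ j, ∑ i, y i * (M i j : k) = 0) (m : ℕ) (h1 : 1 ≤ m) (hm : m ≤ n)
    (hM : ∀ i j : Fin n, j.1 < m → M i j =
      if i.1 = j.1 then 2 else if i.1 + 1 = j.1 ∨ j.1 + 1 = i.1 then -1 else 0) :
    ∀ i, i ≤ m → ext y i = (i + 1 : k) * ext y 0 := by
  refine chain (ext y) m ?_ fun j hj => ?_
  · have := col (hy ⟨0, by omega⟩) 0 1 0 0 2 (-1) 0 0 fun i => by
      rw [hM i _ (by show 0 < m; omega)]
      dsimp only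
      split_ifs <;> first | omega | grind
    push_cast at this
    linear_combination -this
  · have := col (hy ⟨j + 1, by omega⟩) j (j + 1) (j + 2) 0 (-1) 2 (-1) 0 fun i => by
      rw [hM i _ (by show j + 1 < m; omega)]
      dsimp only
      split_ifs <;> omega
    push_cast at this
    linear_combination -this

theorem zero_of (y : Fin n → k) (h : ∀ i, i < n → ext y i = 0) : y = 0 :=
  funext fun i => by rw [← ext_val y i, h i.1 i.2]; rfl

theorem typeA (hn : 1 ≤ n) {y : Fin n → k}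
    (hy : ∀ j, ∑ i, y i * (CartanMatrix.A n i j : k) = 0) (h0 : y ≠ 0) :
    ((n + 1 : ℕ) : k) = 0 := by
  have t := tail hy n hn le_rfl fun i j _ => by
    simp only [CartanMatrix.A, Matrix.of_apply, Fin.ext_iff]
  have e := t n le_rfl
  rw [ext_out y le_rfl] at e
  rcases mul_eq_zero.1 e.symm with h | h
  · push_cast; exact h
  · exact absurd (zero_of y fun i hi => by rw [t i hi.le, h, mul_zero]) h0

theorem typeB (h2 : (2 : k) ≠ 0) (N : ℕ) {y : Fin (N + 2) → k}
    (hy : ∀ j, ∑ i, y i * (CartanMatrix.B (N + 2) i j : k) = 0) : y = 0 := by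
  have t := tail hy (N + 1) (by omega) (by omega) fun i j hj => by
    simp only [CartanMatrix.B, Matrix.of_apply, Fin.ext_iff]
    split_ifs <;> omega
  have e := col (hy ⟨N + 1, by omega⟩) N (N + 1) 0 0 (-2) 2 0 0 fun i => by
    have := i.2
    simp only [CartanMatrix.B, Matrix.of_apply, Fin.ext_iff]
    split_ifs <;> omega
  rw [t N (by omega), t (N + 1) le_rfl] at e
  push_cast at e
  have z : ext y 0 = 0 := (mul_eq_zero.1 (show 2 * ext y 0 = 0 by
    linear_combination e)).resolve_left h2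
  exact zero_of y fun i hi => by rw [t i (by omega), z, mul_zero]

theorem typeC (h2 : (2 : k) ≠ 0) (N : ℕ) {y : Fin (N + 3) → k}
    (hy : ∀ j, ∑ i, y i * (CartanMatrix.C (N + 3) i j : k) = 0) : y = 0 := by
  have t := tail hy (N + 1) (by omega) (by omega) fun i j hj => by
    simp only [CartanMatrix.C, Matrix.of_apply, Fin.ext_iff]
    split_ifs <;> omega
  have e := col (hy ⟨N + 1, by omega⟩) N (N + 1) (N + 2) 0 (-1) 2 (-2) 0 fun i => by
    have := i.2
    simp only [CartanMatrix.C, Matrix.of_apply, Fin.ext_iff]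
    split_ifs <;> omega
  have e' := col (hy ⟨N + 2, by omega⟩) (N + 1) (N + 2) 0 0 (-1) 2 0 0 fun i => by
    have := i.2
    simp only [CartanMatrix.C, Matrix.of_apply, Fin.ext_iff]
    split_ifs <;> omega
  rw [t N (by omega), t (N + 1) le_rfl] at e
  rw [t (N + 1) le_rfl] at e'
  push_cast at e e'
  have z : ext y 0 = 0 := by linear_combination e + e'
  have z' : ext y (N + 2) = 0 := (mul_eq_zero.1 (show 2 * ext y (N + 2) = 0 by
    rw [z] at e'; linear_combination e')).resolve_left h2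
  refine zero_of y fun i hi => ?_
  by_cases h : i = N + 2
  · rw [h, z']
  · rw [t i (by omega), z, mul_zero]

theorem typeD (h2 : (2 : k) ≠ 0) (N : ℕ) {y : Fin (N + 4) → k}
    (hy : ∀ j, ∑ i, y i * (CartanMatrix.D (N + 4) i j : k) = 0) : y = 0 := by
  have t := tail hy (N + 1) (by omega) (by omega) fun i j hj => by
    simp only [CartanMatrix.D, Matrix.of_apply, Fin.ext_iff]
    split_ifs <;> omega
  have e := col (hy ⟨N + 1, by omega⟩) N (N + 1) (N + 2) (N + 3) (-1) 2 (-1) (-1) fun i => by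
    have := i.2
    simp only [CartanMatrix.D, Matrix.of_apply, Fin.ext_iff]
    split_ifs <;> first | omega | grind
  have e1 := col (hy ⟨N + 2, by omega⟩) (N + 1) (N + 2) 0 0 (-1) 2 0 0 fun i => by
    have := i.2
    simp only [CartanMatrix.D, Matrix.of_apply, Fin.ext_iff]
    split_ifs <;> first | omega | grind
  have e2 := col (hy ⟨N + 3, by omega⟩) (N + 1) (N + 3) 0 0 (-1) 2 0 0 fun i => by
    have := i.2
    simp only [CartanMatrix.D, Matrix.of_apply, Fin.ext_iff]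
    split_ifs <;> first | omega | grind
  rw [t N (by omega), t (N + 1) le_rfl] at e
  rw [t (N + 1) le_rfl] at e1 e2
  push_cast at e e1 e2
  have z : ext y 0 = 0 := (mul_eq_zero.1 (show 2 * ext y 0 = 0 by
    linear_combination 2 * e + e1 + e2)).resolve_left h2
  have z1 : ext y (N + 2) = 0 := (mul_eq_zero.1 (show 2 * ext y (N + 2) = 0 by
    rw [z] at e1; linear_combination e1)).resolve_left h2
  have z2 : ext y (N + 3) = 0 := (mul_eq_zero.1 (show 2 * ext y (N + 3) = 0 by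
    rw [z] at e2; linear_combination e2)).resolve_left h2
  refine zero_of y fun i hi => ?_
  by_cases h : i = N + 2
  · rw [h, z1]
  by_cases h' : i = N + 3
  · rw [h', z2]
  · rw [t i (by omega), z, mul_zero]

theorem det_zero {M : Matrix (Fin n) (Fin n) ℤ} {y : Fin n → k}
    (hy : ∀ j, ∑ i, y i * (M i j : k) = 0) (h0 : y ≠ 0) : ((M.det : ℤ) : k) = 0 := by
  have e : ((M.det : ℤ) : k) = (M.map (Int.castRingHom k)).det :=
    (Int.castRingHom k).map_det M
  rw [e]
  exact Matrix.exists_vecMul_eq_zero_iff.1 ⟨y, h0, funext fun j => hy j⟩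

end lin

section comb

variable {Φ : Type u} [Fintype Φ] {C : Comb Φ} {n : ℕ} {M : Matrix (Fin n) (Fin n) ℤ}
  {v : Fin n → Φ}

/-- an enumerated union of components with Cartan matrix `M` -/
structure On (C : Comb Φ) (M : Matrix (Fin n) (Fin n) ℤ) (v : Fin n → Φ) : Prop where
  inj : Function.Injective v
  mem : ∀ i, v i ∈ C.Δ
  car : ∀ i j, C.m (v i) (v j) = M i j
  out : ∀ j ∈ C.Δ, j ∉ Set.range v → ∀ i, C.m (v i) j = 0

theorem On.sum (h : On C M v) {A : Type*} [AddCommMonoid A] (f : Φ → A)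
    (hf : ∀ a ∈ C.Δ, a ∉ Set.range v → f a = 0) : ∑ a ∈ C.Δ, f a = ∑ j, f (v j) := by
  classical
  rw [← sum_image (s := univ) (g := v) fun _ _ _ _ e => h.inj e]
  symm
  refine sum_subset (fun a ha => ?_) fun a ha hn => hf a ha fun ⟨j, hj⟩ => hn ?_
  · obtain ⟨j, _, rfl⟩ := mem_image.1 ha
    exact h.mem j
  · exact mem_image.2 ⟨j, mem_univ _, hj⟩

theorem On.co (h : On C M v) (i j : Fin n) : C.co (v i) (v j) = if j = i then 1 else 0 := by
  split_ifs with e
  · rw [e, C.self _ (h.mem i)]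
  · exact C.ne _ (h.mem i) _ (h.mem j) fun e' => e (h.inj e').symm

theorem On.m (h : On C M v) (i : Fin n) (b : Φ) :
    C.m (v i) b = ∑ j, M i j * C.co b (v j) := by
  rw [C.lin, h.sum _ fun a ha hn => by rw [h.out a ha hn i, mul_zero]]
  exact sum_congr rfl fun j _ => by rw [h.car, mul_comm]

theorem On.base (h : On C M v) (i0 : Fin n) {x : Fin n → ℤ}
    (hx : ∀ j, x j = if j = i0 then 1 else 0) : ∃ b, ∀ j, C.co b (v j) = x j :=
  ⟨v i0, fun j => by rw [h.co, hx]⟩

theorem On.step (h : On C M v) (i : Fin n) {x : Fin n → ℤ} (y : Fin n → ℤ)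
    (hx : ∃ b, ∀ j, C.co b (v j) = x j)
    (hy : ∀ j, y j = x j - if j = i then ∑ l, M i l * x l else 0) :
    ∃ b, ∀ j, C.co b (v j) = y j := by
  obtain ⟨b, hb⟩ := hx
  refine ⟨C.s (v i) b, fun j => ?_⟩
  rw [C.refl _ _ _ (h.mem j), h.co, h.m, hy, hb]
  simp only [hb]
  split_ifs <;> ring

theorem three {v : Fin 6 → Φ} (h : On C CartanMatrix.E₆ v) : ∃ b, C.co b (v 3) = 3 := by
  have h0 := h.base 5 (x := ![0, 0, 0, 0, 0, 1]) (by decide)
  have h1 := h.step 4 ![0, 0, 0, 0, 1, 1] h0 (by decide)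
  have h2 := h.step 3 ![0, 0, 0, 1, 1, 1] h1 (by decide)
  have h3 := h.step 1 ![0, 1, 0, 1, 1, 1] h2 (by decide)
  have h4 := h.step 2 ![0, 1, 1, 1, 1, 1] h3 (by decide)
  have h5 := h.step 0 ![1, 1, 1, 1, 1, 1] h4 (by decide)
  have h6 := h.step 3 ![1, 1, 1, 2, 1, 1] h5 (by decide)
  have h7 := h.step 2 ![1, 1, 2, 2, 1, 1] h6 (by decide)
  have h8 := h.step 4 ![1, 1, 2, 2, 2, 1] h7 (by decide)
  obtain ⟨b, hb⟩ := h.step 3 ![1, 1, 2, 3, 2, 1] h8 (by decide)
  exact ⟨b, hb 3⟩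

/-- the component of a node of the diagram -/
theorem component (C : Comb Φ) {i0 : Φ} (h0 : i0 ∈ C.Δ) :
    ∃ D : Finset Φ, D ⊆ C.Δ ∧ i0 ∈ D ∧ (∀ i ∈ D, ∀ j ∈ C.Δ, j ∉ D → C.m i j = 0) ∧
      ClassOn D C.m := by
  classical
  let r : Φ → Φ → Prop := fun i j => j ∈ C.Δ ∧ C.m i j ≠ 0
  let D : Finset Φ := C.Δ.filter fun j => Relation.ReflTransGen r i0 j
  have hD : D ⊆ C.Δ := filter_subset _ _
  have hi : i0 ∈ D := mem_filter.2 ⟨h0, Relation.ReflTransGen.refl⟩
  refine ⟨D, hD, hi, fun i hi j hj hn => ?_, ?_⟩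
  · by_contra h
    exact hn (mem_filter.2 ⟨hj, (mem_filter.1 hi).2.tail ⟨hj, h⟩⟩)
  refine dynOn D C.m (C1.d C) ⟨i0, hi⟩ (fun i _ => C.two i)
    (fun i hi j hj hij => C1.m_simple_le C (hD hi) (hD hj) hij) (fun i _ => C1.d_pos C i)
    (fun i _ j _ => C1.d_m_symm C i j) (fun x hx => ?_) fun S hS hSn hSne => ?_
  · obtain ⟨a, ha, hx⟩ := hx
    have := C1.cartan_pos C (fun b => if b ∈ D then x b else 0) ⟨a, hD ha, by simpa [ha] using hx⟩
    rw [← sum_subset hD fun b _ hb => by simp [hb]] at this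
    refine lt_of_lt_of_eq this (sum_congr rfl fun b hb => ?_)
    rw [← sum_subset hD fun c _ hc => by simp [hc]]
    exact sum_congr rfl fun c hc => by simp [hb, hc]
  · by_contra hn
    push Not at hn
    have key : ∀ j, Relation.ReflTransGen r i0 j → (j ∈ S ↔ i0 ∈ S) := by
      intro j hj
      induction hj with
      | refl => exact Iff.rfl
      | @tail b c hb hbc ih =>
        have hbD : b ∈ D := by
          refine mem_filter.2 ⟨?_, hb⟩
          rcases Relation.ReflTransGen.cases_tail hb with e | ⟨_, _, h'⟩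
          · rw [e]; exact h0
          · exact h'.1
        have hcD : c ∈ D := mem_filter.2 ⟨hbc.1, hb.tail hbc⟩
        rw [← ih]
        constructor
        · intro hc
          by_contra hb'
          exact hbc.2 (C1.m_zero_symm C (hn c hc b hbD hb'))
        · intro hb'
          by_contra hc
          exact hbc.2 (hn b hb' c hcD hc)
    obtain ⟨s, hs⟩ := hSn
    have h1 : i0 ∈ S := (key s (mem_filter.1 (hS hs)).2).1 hs
    exact hSne (Subset.antisymm hS fun j hj => (key j (mem_filter.1 hj).2).2 h1)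

theorem pull {k : Type u} [Field k] {D : Finset Φ} (hD : D ⊆ C.Δ) {i0 : Φ} (hi : i0 ∈ D)
    (ho : ∀ i ∈ D, ∀ j ∈ C.Δ, j ∉ D → C.m i j = 0) {x : Φ → k}
    (hx : ∀ j ∈ C.Δ, ∑ i ∈ C.Δ, x i * (C.m i j : k) = 0) (h0 : x i0 ≠ 0)
    (h : IsTypeOn D C.m M) :
    ∃ v : Fin n → Φ, On C M v ∧ ∃ y : Fin n → k, y ≠ 0 ∧ ∀ j, ∑ i, y i * (M i j : k) = 0 := by
  obtain ⟨v, h1, h2, h3⟩ := h
  have hv : On C M v := ⟨h1, fun i => hD ((h2 _).2 ⟨i, rfl⟩), h3, fun j hj hn i =>
    ho _ ((h2 _).2 ⟨i, rfl⟩) j hj fun hj' => hn ((h2 j).1 hj')⟩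
  refine ⟨v, hv, fun i => x (v i), fun e => ?_, fun j => ?_⟩
  · obtain ⟨i, rfl⟩ := (h2 i0).1 hi
    exact h0 (congrFun e i)
  · have := hx (v j) (hv.mem j)
    rw [hv.sum _ fun a ha hn => by
      rw [C1.m_zero_symm C (hv.out a ha hn j), Int.cast_zero, mul_zero]] at this
    simpa only [h3] using this

end comb

end N2

theorem st_n2 (k : Type u) [Field k] [IsAlgClosed k] (p : ℕ) [Fact p.Prime] [CharP k p]
    (hp : p ≠ 2) : S_n2 k p := by
  intro Φ _ C hg hns
  have h2 := two_ne k p hp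
  unfold NS at hns
  push Not at hns
  obtain ⟨x, hx, i0, hi0, h0⟩ := hns
  obtain ⟨D, hD, hi, ho, hc⟩ := N2.component C hi0
  rcases hc with ⟨n, hn, h⟩ | ⟨n, hn, h⟩ | ⟨n, hn, h⟩ | ⟨n, hn, h⟩ | h | h | h | h | h <;>
    obtain ⟨v, hv, y, hy0, hy⟩ := N2.pull hD hi ho hx h0 h
  · obtain ⟨N, rfl⟩ : ∃ N, n = N + 1 := ⟨n - 1, by omega⟩
    exact ⟨N, v, ⟨hv.inj, hv.mem, hv.car, hv.out⟩,
      (CharP.cast_eq_zero_iff k p (N + 2)).1 (N2.typeA hn hy hy0)⟩
  · obtain ⟨N, rfl⟩ : ∃ N, n = N + 2 := ⟨n - 2, by omega⟩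
    exact absurd (N2.typeB h2 N hy) hy0
  · obtain ⟨N, rfl⟩ : ∃ N, n = N + 3 := ⟨n - 3, by omega⟩
    exact absurd (N2.typeC h2 N hy) hy0
  · obtain ⟨N, rfl⟩ : ∃ N, n = N + 4 := ⟨n - 4, by omega⟩
    exact absurd (N2.typeD h2 N hy) hy0
  · have e := N2.det_zero hy hy0
    rw [CartanMatrix.E₆_det] at e
    obtain ⟨b, hb⟩ := N2.three hv
    refine absurd ?_ (hg b (v 3) (hv.mem 3) (by rw [hb]; norm_num))
    rw [hb]
    exact (CharP.intCast_eq_zero_iff k p 3).1 e
  · have e := N2.det_zero hy hy0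
    rw [CartanMatrix.E₇_det] at e
    exact absurd (by exact_mod_cast e) h2
  · have e := N2.det_zero hy hy0
    rw [CartanMatrix.E₈_det] at e
    exact absurd (by exact_mod_cast e) (one_ne_zero (α := k))
  · have e := N2.det_zero hy hy0
    rw [CartanMatrix.F₄_det] at e
    exact absurd (by exact_mod_cast e) (one_ne_zero (α := k))
  · have e := N2.det_zero hy hy0
    rw [CartanMatrix.G₂_det] at e
    exact absurd (by exact_mod_cast e) (one_ne_zero (α := k))

end Pool.Agent.Lib.PRC
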