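import Pool.Agent.Lib.PRC.Api

namespace Pool.Agent.Lib.PRC

open Matrix Pool.Agent.Lib.MP_3a0263_al Pool.Agent.Lib.MP_3a0263_al.R Pool.Agent.Lib.MP_3a0263_al.Q

attribute [local instance 100] LieRing.ofAssociativeRing

universe u

namespace N3A

section gl

variable (k : Type u) [Field k]

theorem lie_ss {m : Type} [Fintype m] [DecidableEq m] (a b c : m) :
    ⁅(single a a 1 : Matrix m m k), (single b c 1 : Matrix m m k)⁆ =
      ((if a = b then 1 else 0) - (if a = c then 1 else 0) : ℤ) • single b c (1 : k) := by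
  rw [Ring.lie_def, sub_smul]
  refine congrArg₂ (· - ·) ?_ ?_
  · split_ifs with h
    · subst h; simp
    · rw [single_mul_single_of_ne _ _ _ _ h, zero_smul]
  · split_ifs with h
    · subst h; simp
    · rw [single_mul_single_of_ne _ _ _ _ (Ne.symm h), zero_smul]

/-- upper generators -/
def Eg (M : ℕ) (i : Fin M) : Matrix (Fin (M + 1)) (Fin (M + 1)) k := single i.castSucc i.succ 1

/-- lower generators -/
def Fg (M : ℕ) (i : Fin M) : Matrix (Fin (M + 1)) (Fin (M + 1)) k := single i.succ i.castSucc 1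

/-- coroots -/
def Hg (M : ℕ) (i : Fin M) : Matrix (Fin (M + 1)) (Fin (M + 1)) k :=
  single i.castSucc i.castSucc 1 - single i.succ i.succ 1

theorem chev_gl (M : ℕ) :
    DG.Chev (fun i j => CartanMatrix.A M i j) (Eg k M) (Fg k M) (Hg k M) where
  hh i j := by
    simp only [Hg, sub_lie, lie_sub, lie_ss, sub_self, zero_smul]
  he i j := by
    simp only [Hg, Eg, sub_lie, lie_ss, ← sub_smul]
    refine congrArg (· • _) ?_
    simp only [CartanMatrix.A, of_apply, Fin.ext_iff, Fin.val_succ, Fin.val_castSucc]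
    split_ifs <;> omega
  hf i j := by
    simp only [Hg, Fg, sub_lie, lie_ss, ← sub_smul]
    refine congrArg (· • _) ?_
    simp only [CartanMatrix.A, of_apply, Fin.ext_iff, Fin.val_succ, Fin.val_castSucc]
    split_ifs <;> omega
  ef i j := by
    rw [Ring.lie_def, Eg, Fg]
    split_ifs with h
    · subst h; simp [Hg]
    · rw [single_mul_single_of_ne _ _ _ _ fun e => h (Fin.succ_injective _ e),
        single_mul_single_of_ne _ _ _ _ fun e => h (Fin.castSucc_injective _ e).symm, sub_zero]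

/-- matrices supported on a transitive relation -/
def Tr {m : Type} [Fintype m] [DecidableEq m] (r : m → m → Prop)
    (hr : ∀ a b c, r a b → r b c → r a c) : LieSubalgebra k (Matrix m m k) where
  carrier := {x | ∀ a b, ¬ r a b → x a b = 0}
  zero_mem' := fun _ _ _ => rfl
  add_mem' := fun {x y} hx hy a b h => by rw [Matrix.add_apply, hx a b h, hy a b h, add_zero]
  smul_mem' := fun c x hx a b h => by rw [Matrix.smul_apply, hx a b h, smul_zero]
  lie_mem' := fun {x y} hx hy a b h => by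
    have key : ∀ x y : Matrix m m k, (∀ a b, ¬ r a b → x a b = 0) →
        (∀ a b, ¬ r a b → y a b = 0) → (x * y) a b = 0 := fun x y hx hy => by
      rw [mul_apply]
      refine Finset.sum_eq_zero fun c _ => ?_
      by_cases h1 : r a c
      · rw [hy c b fun h2 => h (hr _ _ _ h1 h2), mul_zero]
      · rw [hx a c h1, zero_mul]
    rw [Ring.lie_def, Matrix.sub_apply, key x y hx hy, key y x hy hx, sub_zero]

theorem Hg_sum (M : ℕ) (i j : Fin M) :
    ∑ a, (if a ≤ j.castSucc then Hg k M i a a else 0) = if i = j then 1 else 0 := by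
  have e : ∀ c : Fin (M + 1), ∑ a, (if a ≤ j.castSucc then single c c (1 : k) a a else 0) =
      if c ≤ j.castSucc then 1 else 0 := fun c => by
    rw [Finset.sum_eq_single c]
    · simp
    · intro b _ hb
      rw [single_apply_of_row_ne hb.symm, ite_self]
    · simp
  have e2 : ∀ a, (if a ≤ j.castSucc then Hg k M i a a else 0) =
      (if a ≤ j.castSucc then single i.castSucc i.castSucc (1 : k) a a else 0) -
        if a ≤ j.castSucc then single i.succ i.succ (1 : k) a a else 0 := fun a => by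
    split_ifs <;> simp [Hg]
  rw [Finset.sum_congr rfl fun a _ => e2 a, Finset.sum_sub_distrib, e, e]
  simp only [Fin.le_def, Fin.ext_iff, Fin.val_succ, Fin.val_castSucc]
  split_ifs <;> first | omega | simp

theorem Hg_ind (M : ℕ) (t : Fin M → k) (h : ∀ a, (∑ i, t i • Hg k M i) a a = 0) : t = 0 := by
  funext j
  have h1 : ∑ a, (if a ≤ j.castSucc then (∑ i, t i • Hg k M i) a a else 0) = 0 :=
    Finset.sum_eq_zero fun a _ => by rw [h a, ite_self]
  have h2 : ∀ a, (if a ≤ j.castSucc then (∑ i, t i • Hg k M i) a a else 0) =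
      ∑ i, t i * if a ≤ j.castSucc then Hg k M i a a else 0 := fun a => by
    split_ifs <;> simp [Matrix.sum_apply]
  simp only [h2] at h1
  rw [Finset.sum_comm] at h1
  simp only [← Finset.mul_sum, Hg_sum] at h1
  simpa using h1

end gl

variable {k : Type u} [Field k] {n : Type} [Fintype n] [DecidableEq n] {p : ℕ}
  {L : LieSubalgebra k (Matrix n n k)} {Φ : Type u} [Fintype Φ]

theorem chev_L (R : XR p L Φ) {ι : Type} [DecidableEq ι] (v : ι → Φ)
    (hv : Function.Injective v) (hm : ∀ i, v i ∈ R.Δ) :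
    DG.Chev (fun i j => R.m (v i) (v j)) (R.xe v) (R.xf v) (R.xh v) := by
  refine ⟨fun i j => Subtype.ext (L0.diag_lie R.toCRoot _ _), fun i j => Subtype.ext ?_,
    fun i j => Subtype.ext ?_, fun i j => Subtype.ext ?_⟩
  · change ⁅diagonal (R.h (v i)).1, R.e (v j)⁆ = R.m (v i) (v j) • R.e (v j)
    rw [R.lie_e, R.wt_hh, Int.cast_smul_eq_zsmul]
  · change ⁅diagonal (R.h (v i)).1, R.e (R.neg (v j))⁆ = (- R.m (v i) (v j)) • R.e (R.neg (v j))
    rw [R.lie_e, R.wt_hh, C1.m_neg, Int.cast_smul_eq_zsmul]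
  · change ⁅R.e (v i), R.e (R.neg (v j))⁆ = _
    split_ifs with hij
    · subst hij; exact R.br_h _
    · have hij' : v i ≠ v j := fun e => hij (hv e)
      refine L0.br_zero R.toCRoot (fun e => hij' ?_) fun δ hδ => ?_
      · rw [← C1.neg_neg R.toComb (v j), e, C1.neg_neg]
      · have a1 := hδ _ (hm i)
        have a2 := hδ _ (hm j)
        rw [R.co_neg _ _ (hm i), R.self _ (hm i), R.ne _ (hm j) _ (hm i) hij'.symm] at a1
        rw [R.co_neg _ _ (hm j), R.self _ (hm j), R.ne _ (hm i) _ (hm j) hij'] at a2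
        rcases R.sign δ with g | g
        · have := g _ (hm j); omega
        · have := g _ (hm i); omega

/-- the positive part of the kernel of the second projection vanishes -/
theorem ker_zero (hbr : S_br k p) (h2 : (2 : k) ≠ 0) (R : XR p L Φ) {ι : Type} [DecidableEq ι]
    (v : ι → Φ) (hm : ∀ i, v i ∈ R.Δ) {G : Type*} [LieRing G] [LieAlgebra k G] {A : ι → ι → ℤ}
    {E F H : ι → L × G} (c : DG.Chev A E F H) (hi : DG.Ind (LieHom.snd k L G) E F H)
    (hE : ∀ i, (E i).1.1 = R.e (v i)) (hF : ∀ i, (F i).1.1 = R.e (R.neg (v i)))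
    {x : L × G} (hx : x ∈ DG.Np k E) (h0 : x.2 = 0) : x = 0 := by
  let Q : Φ → Prop := fun β => C1.Pos R.toComb β ∧ ∀ j ∈ R.Δ, j ∉ Set.range v → R.co β j = 0
  let Nl := DG.Nil R.toCRoot Q (fun β γ hβ hγ h => C1.not_pos_neg R.toComb hβ.1 (h ▸ hγ.1))
    fun β γ δ hβ hγ h => ⟨fun i hi => by rw [h i hi]; exact add_nonneg (hβ.1 i hi) (hγ.1 i hi),
      fun j hj hn => by rw [h j hj, hβ.2 j hj hn, hγ.2 j hj hn, add_zero]⟩
  have hN : ∀ x ∈ DG.Np k E, x.1 ∈ Nl := fun x hx =>
    DG.map_Np (LieHom.fst k L G) Nl (fun i => by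
      change R.tp (E i).1.1 = 0 ∧ ∀ β, ¬ Q β → R.cf β (E i).1.1 = 0
      rw [hE]
      refine ⟨R.tp_e _, fun β hβ => R.cf_ne _ _ fun e => hβ ?_⟩
      rw [e]
      exact ⟨C1.pos_simple R.toComb (hm i), fun j hj hn =>
        R.ne _ (hm i) j hj fun e => hn ⟨i, e⟩⟩) hx
  have key : ∀ m : ℕ, ∀ x ∈ DG.Np k E, x.2 = 0 → ∀ β, C1.ht R.toComb β ≤ m →
      R.cf β x.1.1 = 0 := by
    intro m
    induction m with
    | zero =>
      intro x hx _ β hβ
      refine (hN x hx).2 β fun hQ => ?_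
      have := C1.ht_pos R.toComb hQ.1
      omega
    | succ m ih =>
      intro x hx h0 β hβ
      by_cases hQ : Q β
      swap
      · exact (hN x hx).2 β hQ
      obtain ⟨j, hj, hco, hmp⟩ := C1.exists_m_pos R.toComb hQ.1
      obtain ⟨i, rfl⟩ : j ∈ Set.range v := by
        by_contra hn
        have := hQ.2 j hj hn
        omega
      obtain ⟨z1, z2⟩ := c.ker_stab hi (DG.Np_le' (DG.mem_Np F i)) hx h0
      have ez : (⁅F i, x⁆ : L × G).1.1 = ∑ γ, R.cf γ x.1.1 • ⁅R.e (R.neg (v i)), R.e γ⁆ := by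
        change ⁅(F i).1.1, x.1.1⁆ = _
        rw [hF]
        conv_lhs => rw [R.decomp _ x.1.2, (hN x hx).1, L0.diag_zero R.toCRoot, zero_add]
        rw [lie_sum]
        simp only [lie_smul]
      by_cases hb : β = v i
      · have t0 : R.tp (⁅F i, x⁆ : L × G).1.1 = 0 := (hN _ z1).1
        rw [ez, map_sum, Finset.sum_eq_single β, map_smul, hb, ← lie_skew, R.br_h, map_neg,
          R.tp_t, smul_eq_zero, neg_eq_zero] at t0
        · rw [hb]; exact t0.resolve_right (R.h_ne h2 _)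
        · intro γ _ hγ
          rw [map_smul, R.br_tp _ _ (by rw [C1.neg_neg, ← hb]; exact hγ), smul_zero]
        · simp
      · obtain ⟨δ, hδ⟩ := C1.sub_root R.toComb hmp hb
        have hs : L0.IsSum R.toComb (R.neg (v i)) β δ := fun a ha => by
          rw [hδ a ha, R.co_neg _ a ha]; ring
        have hh := C1.ht_comb R.toComb 1 (-1) (a := β) (b := v i) (c := δ) fun a ha => by
          rw [hδ a ha]; ring
        rw [C1.ht_simple R.toComb hj] at hh
        have t0 := ih _ z1 z2 δ (by push_cast at hβ; omega)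
        rw [ez, map_sum, Finset.sum_eq_single β, map_smul, smul_eq_mul, mul_eq_zero] at t0
        · refine t0.resolve_right fun h1 => hbr n L Φ R _ _ _ hs ?_
          rw [L0.br_sum R.toCRoot hs, h1, zero_smul]
        · intro γ _ hγ
          have : R.cf δ ⁅R.e (R.neg (v i)), R.e γ⁆ = 0 := by
            by_contra h1
            refine hγ (R.inj _ _ fun a ha => ?_)
            have b1 := R.br_cf _ _ _ h1 a ha
            have b2 := hs a ha
            omega
          rw [map_smul, this, smul_zero]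
        · simp
  exact Prod.ext (Subtype.ext (L0.eq_zero R.toCRoot x.1.2 (hN x hx).1 fun β =>
    key _ x hx h0 β (Int.self_le_toNat _))) h0

theorem ind_gl {P : Type*} [LieRing P] [LieAlgebra k P] {M : ℕ}
    (π : P →ₗ⁅k⁆ Matrix (Fin (M + 1)) (Fin (M + 1)) k) {E F H : Fin M → P}
    (hE : ∀ i, π (E i) = Eg k M i) (hF : ∀ i, π (F i) = Fg k M i)
    (hH : ∀ i, π (H i) = Hg k M i) : DG.Ind π E F H := by
  intro a ha y hy b hb h0
  obtain ⟨t, rfl⟩ := (Submodule.mem_span_range_iff_exists_fun k).1 hy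
  have h1 : π (∑ i, t i • H i) = ∑ i, t i • Hg k M i := by
    rw [map_sum]; exact Finset.sum_congr rfl fun i _ => by rw [map_smul, hH]
  have a1 : ∀ i j, ¬ i < j → π a i j = 0 :=
    DG.map_Np π (Tr k (· < ·) fun _ _ _ => lt_trans) (fun i c d h => by
      rw [hE, Eg, single_apply_of_ne]
      rintro ⟨rfl, rfl⟩
      exact h Fin.castSucc_lt_succ) ha
  have b1 : ∀ i j, ¬ j < i → π b i j = 0 :=
    DG.map_Np π (Tr k (fun i j => j < i) fun _ _ _ h h' => lt_trans h' h) (fun i c d h => by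
      rw [hF, Fg, single_apply_of_ne]
      rintro ⟨rfl, rfl⟩
      exact h Fin.castSucc_lt_succ) hb
  rw [map_add, map_add, h1] at h0
  have ht : t = 0 := Hg_ind k M t fun c => by
    have := congrFun (congrFun h0 c) c
    rwa [Matrix.add_apply, Matrix.add_apply, a1 c c (lt_irrefl _), b1 c c (lt_irrefl _),
      zero_add, add_zero] at this
  simp only [ht, Pi.zero_apply, zero_smul, Finset.sum_const_zero, add_zero] at h0 ⊢
  have a2 : π a = 0 := by
    ext i j
    by_cases h : i < j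
    · have := congrFun (congrFun h0 i) j
      rwa [Matrix.add_apply, b1 i j (lt_asymm h), add_zero] at this
    · exact a1 i j h
  exact ⟨a2, trivial, by rwa [a2, zero_add] at h0⟩

/-- adjoining an element that normalises a subalgebra -/
def Ext {P : Type*} [LieRing P] [LieAlgebra k P] (D : LieSubalgebra k P) (w : P)
    (hw : ∀ x ∈ D, ⁅w, x⁆ ∈ D) : LieSubalgebra k P where
  carrier := {x | ∃ a ∈ D, ∃ c : k, x = a + c • w}
  zero_mem' := ⟨0, D.zero_mem, 0, by simp⟩
  add_mem' := by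
    rintro _ _ ⟨a, ha, c, rfl⟩ ⟨b, hb, d, rfl⟩
    exact ⟨a + b, D.add_mem ha hb, c + d, by rw [add_smul]; abel⟩
  smul_mem' := by
    rintro r _ ⟨a, ha, c, rfl⟩
    exact ⟨r • a, D.smul_mem r ha, r * c, by rw [smul_add, mul_smul]⟩
  lie_mem' := by
    rintro _ _ ⟨a, ha, c, rfl⟩ ⟨b, hb, d, rfl⟩
    refine ⟨⁅a, b⁆ + c • ⁅w, b⁆ - d • ⁅w, a⁆, D.sub_mem (D.add_mem (D.lie_mem ha hb)
      (D.smul_mem c (hw b hb))) (D.smul_mem d (hw a ha)), 0, ?_⟩
    rw [add_lie, lie_add, lie_add, lie_smul, smul_lie, lie_smul, smul_lie, lie_self,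
      ← lie_skew a w]
    simp only [smul_zero, zero_smul, add_zero, smul_neg]
    abel

theorem norm_span {P : Type*} [LieRing P] [LieAlgebra k P] (s : Set P) (w : P)
    (hw : ∀ x ∈ s, ∃ c : k, ⁅w, x⁆ = c • x) :
    ∀ x ∈ LieSubalgebra.lieSpan k P s, ⁅w, x⁆ ∈ LieSubalgebra.lieSpan k P s := by
  intro x hx
  induction hx using LieSubalgebra.lieSpan_induction with
  | mem z hz =>
    obtain ⟨c, hc⟩ := hw z hz
    rw [hc]
    exact LieSubalgebra.smul_mem _ c (LieSubalgebra.subset_lieSpan hz)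
  | zero => simp
  | add a b _ _ ha hb => rw [lie_add]; exact LieSubalgebra.add_mem _ ha hb
  | smul r a _ ha => rw [lie_smul]; exact LieSubalgebra.smul_mem _ r ha
  | lie a b h1 h2 ha hb =>
    rw [leibniz_lie]
    exact LieSubalgebra.add_mem _ (LieSubalgebra.lie_mem _ ha h2) (LieSubalgebra.lie_mem _ h1 hb)

end N3A

open N3A in
theorem st_n3a (k : Type u) [Field k] [IsAlgClosed k] (p : ℕ) [Fact p.Prime] [CharP k p]
    (hp : p ≠ 2) (hbr : S_br k p) (hglg : S_glg k) : S_n3a k p := by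
  intro n _ _ L Φ _ R N v T d hd0 hd
  have h2 := two_ne k p hp
  have c1 := chev_L R v T.inj T.mem
  simp only [T.car] at c1
  have C := c1.prod (chev_gl k (N + 1))
  set E : Fin (N + 1) → L × Matrix (Fin (N + 2)) (Fin (N + 2)) k :=
    fun i => (R.xe v i, Eg k (N + 1) i) with hE
  set F : Fin (N + 1) → L × Matrix (Fin (N + 2)) (Fin (N + 2)) k :=
    fun i => (R.xf v i, Fg k (N + 1) i) with hF
  let π := LieHom.snd k L (Matrix (Fin (N + 2)) (Fin (N + 2)) k)
  have hi := ind_gl π (E := E) (F := F) (H := fun i => (R.xh v i, Hg k (N + 1) i))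
    (fun _ => rfl) (fun _ => rfl) fun _ => rfl
  let w : L × Matrix (Fin (N + 2)) (Fin (N + 2)) k := (⟨diagonal d.1, R.t_mem d⟩, single 0 0 1)
  have hwt : ∀ i, R.wt (v i) d = if i = 0 then 1 else 0 := fun i => by
    split_ifs with h
    · rw [h, hd0]
    · exact hd _ (T.mem i) fun e => h (T.inj e)
  have hw : ∀ x ∈ DG.Dd k E F, ⁅w, x⁆ ∈ DG.Dd k E F := by
    refine norm_span _ w ?_
    rintro _ (⟨i, rfl⟩ | ⟨i, rfl⟩)
    · refine ⟨R.wt (v i) d, Prod.ext (Subtype.ext (R.lie_e d _)) ?_⟩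
      change ⁅(single 0 0 1 : Matrix _ _ k), Eg k (N + 1) i⁆ = R.wt (v i) d • Eg k (N + 1) i
      rw [Eg, lie_ss, hwt, if_neg (Fin.succ_ne_zero i).symm, ← Int.cast_smul_eq_zsmul k]
      simp [eq_comm]
    · refine ⟨R.wt (R.neg (v i)) d, Prod.ext (Subtype.ext (R.lie_e d _)) ?_⟩
      change ⁅(single 0 0 1 : Matrix _ _ k), Fg k (N + 1) i⁆ =
        R.wt (R.neg (v i)) d • Fg k (N + 1) i
      rw [Fg, lie_ss, L0.wt_neg R.toCRoot, hwt, if_neg (Fin.succ_ne_zero i).symm,
        ← Int.cast_smul_eq_zsmul k]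
      simp [eq_comm]
  let D := Ext (DG.Dd k E F) w hw
  have hD : ∀ x ∈ DG.Dd k E F, x ∈ D := fun x hx => ⟨x, hx, 0, by simp⟩
  have hwD : w ∈ D := ⟨0, LieSubalgebra.zero_mem _, 1, by simp⟩
  have htr : ∀ x ∈ DG.Dd k E F, x.2.trace = 0 := fun x hx => by
    have : DG.Dd k E F ≤ (LieAlgebra.SpecialLinear.sl _ k).comap π :=
      LieSubalgebra.lieSpan_le.2 (by
        rintro _ (⟨i, rfl⟩ | ⟨i, rfl⟩)
        · exact trace_single_eq_of_ne _ _ _ Fin.castSucc_lt_succ.ne
        · exact trace_single_eq_of_ne _ _ _ Fin.castSucc_lt_succ.ne')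
    exact this hx
  have hb : Function.Bijective (π.comp D.incl) := by
    constructor
    · refine (injective_iff_map_eq_zero _).2 ?_
      rintro ⟨_, x, hx, c, rfl⟩ h0
      have h1 : x.2 + c • single 0 0 1 = 0 := h0
      have h3 := congrArg trace h1
      rw [trace_add, htr x hx, trace_smul, trace_single_eq_same, trace_zero, zero_add,
        smul_eq_mul, mul_one] at h3
      rw [h3, zero_smul, add_zero] at h1
      obtain ⟨a, ha, y, hy, b, hb, e1⟩ := DG.mem_Tri.1 (C.Dd_Tri hx)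
      obtain ⟨g1, g2, g3⟩ := hi a ha y hy b hb (by rw [← e1]; exact h1)
      refine Subtype.ext ?_
      change x + c • w = 0
      rw [h3, e1, g2, ker_zero hbr h2 R v T.mem C hi (fun _ => rfl) (fun _ => rfl) ha g1,
        ker_zero hbr h2 R.opp v T.mem C.symm hi.symm (fun _ => rfl)
          (fun i => congrArg R.e (C1.neg_neg R.toComb _).symm) hb g3]
      simp
    · intro a
      have := (hglg.1 (N + 1) (D.map π)
        (fun i => ⟨E i, hD _ (DG.Np_le (DG.mem_Np E i)), rfl⟩)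
        fun i => ⟨F i, hD _ (DG.Np_le' (DG.mem_Np F i)), rfl⟩).2 ⟨w, hwD, rfl⟩
      obtain ⟨z, hz, rfl⟩ : a ∈ D.map π := this ▸ LieSubalgebra.mem_top a
      exact ⟨⟨z, hz⟩, rfl⟩
  let ψ := LieEquiv.ofBijective _ hb
  have hψ : ∀ z (hz : z ∈ D), ψ.symm z.2 = ⟨z, hz⟩ := fun z hz =>
    ψ.symm_apply_apply ⟨z, hz⟩
  refine ⟨(L.incl.comp ((LieHom.fst k L _).comp D.incl)).comp ψ.symm.toLieHom,
    fun i => ?_, fun i => ?_, ?_⟩
  · exact congrArg (fun z : D => z.1.1.1) (hψ (E i) (hD _ (DG.Np_le (DG.mem_Np E i))))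
  · exact congrArg (fun z : D => z.1.1.1) (hψ (F i) (hD _ (DG.Np_le' (DG.mem_Np F i))))
  · exact congrArg (fun z : D => z.1.1.1) (hψ w hwD)

end Pool.Agent.Lib.PRC
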