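import Pool.Agent.Lib.PRC.Api
import Pool.Agent.Lib.MP_3a0263_al.TypeA
import Pool.Agent.Lib.MP_3a0263_al.R.Basic

namespace Pool.Agent.Lib.PRC

open Matrix Pool.Agent.Lib.MP_3a0263_al Pool.Agent.Lib.MP_3a0263_al.R Pool.Agent.Lib.MP_3a0263_al.Q

attribute [local instance 100] LieRing.ofAssociativeRing

universe u

namespace N4

variable {k : Type u} [Field k] {n : Type} [Fintype n] [DecidableEq n] {m : ℕ}
  {L : LieSubalgebra k (Matrix n n k)} {π : Matrix n n k →ₗ[k] Matrix n n k}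
  {φ : Matrix (Fin m) (Fin m) k →ₗ⁅k⁆ Matrix n n k}

/-- the centraliser of the image inside `L` -/
def cz (L : LieSubalgebra k (Matrix n n k)) (φ : Matrix (Fin m) (Fin m) k →ₗ⁅k⁆ Matrix n n k) :
    LieSubalgebra k (Matrix n n k) where
  carrier := {c | c ∈ L ∧ ∀ b, ⁅φ b, c⁆ = 0}
  zero_mem' := ⟨L.zero_mem, fun b => lie_zero _⟩
  add_mem' := fun {a c} h1 h2 => ⟨L.add_mem h1.1 h2.1, fun b => by
    rw [lie_add, h1.2, h2.2, add_zero]⟩
  smul_mem' := fun t a h1 => ⟨L.smul_mem t h1.1, fun b => by rw [lie_smul, h1.2, smul_zero]⟩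
  lie_mem' := fun {a c} h1 h2 => ⟨L.lie_mem h1.1 h2.1, fun b => by
    rw [leibniz_lie, h1.2, h2.2, zero_lie, lie_zero, add_zero]⟩

/-- the sum map -/
def sm (H : GlIn L φ) : Matrix (Fin m) (Fin m) k × cz L φ →ₗ⁅k⁆ L where
  toFun w := ⟨φ w.1 + w.2.1, L.add_mem (H.mem _) w.2.2.1⟩
  map_add' v w := Subtype.ext (by
    show φ (v.1 + w.1) + (v.2.1 + w.2.1) = φ v.1 + v.2.1 + (φ w.1 + w.2.1)
    rw [map_add]; abel)
  map_smul' t w := Subtype.ext (by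
    show φ (t • w.1) + t • w.2.1 = t • (φ w.1 + w.2.1)
    rw [map_smul, smul_add])
  map_lie' := fun {v w} => Subtype.ext (by
    show φ ⁅v.1, w.1⁆ + ⁅v.2.1, w.2.1⁆ = ⁅φ v.1 + v.2.1, φ w.1 + w.2.1⁆
    have h1 : ⁅φ v.1, w.2.1⁆ = 0 := w.2.2.2 _
    have h2 : ⁅v.2.1, φ w.1⁆ = 0 := by rw [← lie_skew, v.2.2.2 _, neg_zero]
    rw [add_lie, lie_add, lie_add, h1, h2, LieHom.map_lie, add_zero, zero_add])

theorem sm_val (H : GlIn L φ) (w : Matrix (Fin m) (Fin m) k × cz L φ) :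
    (sm H w).1 = φ w.1 + w.2.1 := rfl

theorem sm_surj (H : GlIn L φ) : Function.Surjective (sm H) := by
  rintro ⟨x, hx⟩
  obtain ⟨a, c, hc, rfl, h⟩ := H.span x hx
  exact ⟨(a, ⟨c, hc, h⟩), rfl⟩

theorem scal_of [Nonempty (Fin m)] (z : Matrix (Fin m) (Fin m) k)
    (h : ∀ A : Matrix (Fin m) (Fin m) k, ∃ c : k, ⁅A, z⁆ = c • 1) : ∃ c : k, z = c • 1 :=
  scalar_of_comm _ fun i j hij => by
    obtain ⟨c, hc⟩ := h (Matrix.single i j 1)
    obtain ⟨c', hc'⟩ := h (Matrix.single i i 1)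
    rw [Ring.lie_def] at hc hc'
    have h1 := congrFun (congrFun hc' j) i
    have h2 := congrFun (congrFun hc i) i
    simp [hij, hij.symm] at h1 h2
    rw [← sub_eq_zero, hc, ← h2, h1, zero_smul]

theorem sm_ker [Nonempty (Fin m)] (H : GlIn L φ) (w : Matrix (Fin m) (Fin m) k × cz L φ)
    (h : sm H w = 0) : ∃ c : k, w.1 = c • 1 := by
  have h0 : φ w.1 + w.2.1 = 0 := congrArg Subtype.val h
  refine scal_of _ fun A => H.ker _ ?_
  rw [LieHom.map_lie, eq_neg_of_add_eq_zero_left h0, lie_neg, w.2.2.2, neg_zero]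

theorem ad_pow_inl {A B : Type u} [LieRing A] [LieAlgebra k A] [LieRing B] [LieAlgebra k B]
    (x a : A) (b : B) (j : ℕ) :
    (LieAlgebra.ad k (A × B) (x, 0) ^ (j + 1)) (a, b) = ((LieAlgebra.ad k A x ^ (j + 1)) a, 0) := by
  induction j with
  | zero => simp [LieAlgebra.Prod.bracket_apply]
  | succ j ih =>
    rw [pow_succ' _ (j + 1), pow_succ' _ (j + 1), Module.End.mul_apply, Module.End.mul_apply, ih]
    simp [LieAlgebra.Prod.bracket_apply]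

theorem ret (h : Rich L π) : Ret (L.incl : L →ₗ[k] Matrix n n k)
    (π.codRestrict L.toSubmodule h.mem) :=
  ⟨fun _ _ => rfl, fun x => Subtype.ext (h.left _ x.2), fun a A => Subtype.ext (h.equi _ a.2 A)⟩

theorem one_ne [IsAlgClosed k] (p : ℕ) [hp : Fact p.Prime] [CharP k p] (h : Rich L π)
    (hm : 0 < m) (hpm : p ∣ m) (H : GlIn L φ) : φ 1 ≠ 0 := by
  intro h1
  haveI : Nonempty (Fin m) := ⟨⟨0, hm⟩⟩
  obtain ⟨X, Y, -, -, hX, hY, hXY⟩ := exists_pair (k := k) (p := p) (n := Fin m) (by simpa using hpm)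
  obtain ⟨q, hq⟩ : ∃ q, p = q + 1 + 1 := ⟨p - 2, by have := hp.out.two_le; omega⟩
  have hnil : ∀ u : Matrix (Fin m) (Fin m) k, u ^ p = 0 → ∀ a,
      (LieAlgebra.ad k (Matrix (Fin m) (Fin m) k × cz L φ) (u, 0) ^ p) a = 0 := by
    rintro u hu ⟨a, b⟩
    have h2 := adr_pow_q (k := k) (p := p) u a 1
    rw [pow_one, hu] at h2
    have h3 : (LieAlgebra.ad k _ u ^ p) a = 0 := h2.trans (by simp)
    rw [hq] at h3 ⊢
    rw [ad_pow_inl, h3]
    rfl
  refine no_ret_gl (p := p) (LieHom.fst k _ _) LieHom.fst_surjective (sm H) (sm_surj H)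
    (sm_ker H) (X, 0) (Y, 0) hXY (hnil X hX) (hnil Y hY) (fun t => ?_) (ret h)
  have e : ((X, 0) + t • (Y, 0) : Matrix (Fin m) (Fin m) k × cz L φ) = (X + t • Y, 0) := by simp
  have h2 : (LieAlgebra.ad k _ (X + t • Y) ^ (p - 1)) Y = 1 := adr_of_pow _ _ _ hXY t
  have hq' : p - 1 = q + 1 := by omega
  rw [hq'] at h2
  rw [e, hq', ad_pow_inl, h2]
  exact Subtype.ext (by rw [sm_val, h1]; simp)

end N4

open N4 in
theorem st_n4 (k : Type u) [Field k] [IsAlgClosed k] (p : ℕ) [hpp : Fact p.Prime] [CharP k p]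
    (hp : p ≠ 2) : S_n4 k p := by
  intro n _ _ L π h m hm hpm φ H
  have h1 := one_ne p h hm hpm H
  haveI : Nonempty (Fin m) := ⟨⟨0, hm⟩⟩
  obtain ⟨lam, hl⟩ := h.cent (z := φ 1) fun x hx => by
    obtain ⟨a, c, -, rfl, hc⟩ := H.span x hx
    have e : ⁅a, (1 : Matrix (Fin m) (Fin m) k)⁆ = 0 := by simp [Ring.lie_def]
    rw [add_lie, ← LieHom.map_lie, e, map_zero, zero_add, ← lie_skew, hc, neg_zero]
  have hl0 : lam ≠ 0 := fun e => h1 (by rw [hl, e, zero_smul])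
  have hinj : ∀ a, φ a = 0 → a = 0 := fun a ha => by
    obtain ⟨c, rfl⟩ := H.ker a ha
    rw [map_smul, smul_eq_zero] at ha
    rw [ha.resolve_right h1, zero_smul]
  obtain ⟨X, Y, -, -, -, -, hXY⟩ := exists_pair (k := k) (p := p) (n := Fin m) (by simpa using hpm)
  obtain ⟨U, Z, hUZ⟩ : ∃ U Z : Matrix (Fin m) (Fin m) k, ⁅U, Z⁆ = 1 := by
    have h2 := adr_of_pow _ _ _ hXY 1
    obtain ⟨q, hq⟩ : ∃ q, p - 1 = q + 1 := ⟨p - 2, by have := hpp.out.two_le; omega⟩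
    rw [hq, pow_succ', Module.End.mul_apply, adr_apply] at h2
    exact ⟨_, _, h2⟩
  have hrange : ∀ x ∈ L, ∃ a, φ a = x := by
    intro x hx
    obtain ⟨a, c, hcL, rfl, hc⟩ := H.span x hx
    have e1 : ⁅φ U, φ Z * c⁆ = lam • c := by
      have e2 : φ U * φ Z - φ Z * φ U = lam • 1 := by
        rw [← hl, ← hUZ, LieHom.map_lie, Ring.lie_def]
      have e3 : φ U * c = c * φ U := sub_eq_zero.1 (hc U)
      rw [Ring.lie_def, mul_assoc, ← e3, ← mul_assoc, ← mul_assoc, ← sub_mul, e2, smul_mul_assoc,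
        one_mul]
    have e4 := h.equi _ (H.mem U) (φ Z * c)
    rw [e1, map_smul, h.left c hcL] at e4
    obtain ⟨a', c', -, e5, hc'⟩ := H.span _ (h.mem (φ Z * c))
    rw [e5, lie_add, hc', add_zero, ← LieHom.map_lie] at e4
    refine ⟨a + lam⁻¹ • ⁅U, a'⁆, ?_⟩
    rw [map_add, map_smul, ← e4, smul_smul, inv_mul_cancel₀ hl0, one_smul]
  let ψ : Matrix (Fin m) (Fin m) k →ₗ⁅k⁆ L := (sm H).comp (LieHom.inl k _ _)
  have hψ : ∀ a, (ψ a).1 = φ a := fun a => add_zero _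
  refine ⟨(LieEquiv.ofBijective ψ ⟨fun a b e => ?_, fun x => ?_⟩).symm⟩
  · have := congrArg Subtype.val e
    rw [hψ, hψ] at this
    exact sub_eq_zero.1 (hinj _ (by rw [map_sub, this, sub_self]))
  · obtain ⟨a, ha⟩ := hrange x.1 x.2
    exact ⟨a, Subtype.ext ((hψ a).trans ha)⟩

end Pool.Agent.Lib.PRC
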