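import Pool.Agent.Lib.PRC.Api
import Pool.Agent.Lib.MP_3a0263_al.Q.T_RICH
import Pool.Agent.Lib.MP_3a0263_al.R.B_SETUP

namespace Pool.Agent.Lib.PRC

open Pool.Agent.Lib.MP_3a0263_al Pool.Agent.Lib.MP_3a0263_al.R Pool.Agent.Lib.MP_3a0263_al.Q
open scoped TensorProduct

attribute [local instance 100] LieRing.ofAssociativeRing

universe u

namespace PROD

variable {k : Type u} [Field k] {g : Type u} [LieRing g] [LieAlgebra k g]

/-- an absolutely simple traceless representation whose trace form has radical `K` -/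
structure Str {Y : Type u} [AddCommGroup Y] [Module k Y] (ρ : g →ₗ⁅k⁆ Module.End k Y)
    (K : LieIdeal k g) : Prop where
  adj : Algebra.adjoin k (Set.range ρ) = ⊤
  dim : (Module.finrank k Y : k) ≠ 0
  tr : ∀ x, LinearMap.trace k Y (ρ x) = 0
  ker : ∀ x ∈ K, ρ x = 0
  nd : ∀ x, (∀ y, LinearMap.trace k Y (ρ x * ρ y) = 0) → x ∈ K

def Has (K : LieIdeal k g) : Prop :=
  ∃ (Y : Type u) (_ : AddCommGroup Y) (_ : Module k Y) (_ : FiniteDimensional k Y)
    (ρ : g →ₗ⁅k⁆ Module.End k Y), Str ρ K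

theorem has_top : Has (⊤ : LieIdeal k g) := by
  refine ⟨k, inferInstance, inferInstance, inferInstance, 0, ?_, by simp, by simp, by simp,
    fun x _ => trivial⟩
  rw [eq_top_iff]
  intro f _
  have : f = algebraMap k (Module.End k k) (f 1) := by ext; simp
  rw [this]
  exact Subalgebra.algebraMap_mem _ _

section sum

variable {A B C : Type u} [Ring A] [Algebra k A] [Ring B] [Algebra k B] [Ring C] [Algebra k C]

/-- the sum of two commuting representations -/
def sumHom (α : A →ₐ[k] C) (β : B →ₐ[k] C) (h : ∀ a b, α a * β b = β b * α a)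
    (ρ : g →ₗ⁅k⁆ A) (σ : g →ₗ⁅k⁆ B) : g →ₗ⁅k⁆ C where
  toFun x := α (ρ x) + β (σ x)
  map_add' x y := by simp only [map_add]; abel
  map_smul' c x := by simp only [map_smul, smul_add, RingHom.id_apply]
  map_lie' := fun {x y} => by
    simp only [LieHom.map_lie, Ring.lie_def, map_sub, map_mul, add_mul, mul_add, h]
    abel

theorem mem_adj (α : A →ₐ[k] C) (ρ : g →ₗ⁅k⁆ A) (h : Algebra.adjoin k (Set.range ρ) = ⊤)
    (T : Subalgebra k C) (hT : ∀ x, α (ρ x) ∈ T) (a : A) : α a ∈ T := by
  have : Algebra.adjoin k (Set.range ρ) ≤ T.comap α :=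
    Algebra.adjoin_le (by rintro _ ⟨x, rfl⟩; exact hT x)
  exact this (h ▸ Algebra.mem_top)

end sum

theorem Has.inf {K1 K2 : LieIdeal k g} (h1 : Has K1) (h2 : Has K2) (h : K1 ⊔ K2 = ⊤) :
    Has (K1 ⊓ K2) := by
  obtain ⟨Y1, _, _, _, ρ, s1⟩ := h1
  obtain ⟨Y2, _, _, _, σ, s2⟩ := h2
  let α : Module.End k Y1 →ₐ[k] Module.End k (Y1 ⊗[k] Y2) := Module.End.rTensorAlgHom k Y1 Y2
  let β : Module.End k Y2 →ₐ[k] Module.End k (Y1 ⊗[k] Y2) := Module.End.lTensorAlgHom k Y2 Y1
  have ab : ∀ a b, α a * β b = TensorProduct.map a b := fun a b =>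
    LinearMap.rTensor_comp_lTensor _ _ _
  have ba : ∀ a b, β b * α a = TensorProduct.map a b := fun a b =>
    LinearMap.lTensor_comp_rTensor _ _ _
  have tab : ∀ a b, LinearMap.trace k _ (α a * β b) =
      LinearMap.trace k Y1 a * LinearMap.trace k Y2 b := fun a b => by
    rw [ab, LinearMap.trace_tensorProduct']
  have ta : ∀ a, LinearMap.trace k _ (α a) =
      LinearMap.trace k Y1 a * (Module.finrank k Y2 : k) := fun a => by
    rw [← mul_one (α a), ← map_one β, tab, LinearMap.trace_one]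
  have tb : ∀ b, LinearMap.trace k _ (β b) =
      (Module.finrank k Y1 : k) * LinearMap.trace k Y2 b := fun b => by
    rw [← one_mul (β b), ← map_one α, tab, LinearMap.trace_one]
  have hc : ∀ a b, α a * β b = β b * α a := fun a b => by rw [ab, ba]
  have he : ∀ x, sumHom α β hc ρ σ x = α (ρ x) + β (σ x) := fun x => rfl
  have dec : ∀ y : g, ∃ a ∈ K1, ∃ b ∈ K2, ρ y = ρ b ∧ σ y = σ a := fun y => by
    obtain ⟨a, ha, b, hb, rfl⟩ := (LieSubmodule.mem_sup K1 K2 y).1 (by rw [h]; trivial)
    exact ⟨a, ha, b, hb, by rw [map_add, s1.ker a ha, zero_add],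
      by rw [map_add, s2.ker b hb, add_zero]⟩
  have e1 : ∀ a ∈ K1, sumHom α β hc ρ σ a = β (σ a) := fun a ha => by
    rw [he, s1.ker a ha, map_zero, zero_add]
  have e2 : ∀ b ∈ K2, sumHom α β hc ρ σ b = α (ρ b) := fun b hb => by
    rw [he, s2.ker b hb, map_zero, add_zero]
  refine ⟨Y1 ⊗[k] Y2, inferInstance, inferInstance, inferInstance, sumHom α β hc ρ σ,
    ?_, ?_, fun x => ?_, fun x hx => ?_, fun x hx => ⟨s1.nd x fun y => ?_, s2.nd x fun y => ?_⟩⟩
  · rw [eq_top_iff]
    intro f _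
    have m1 := mem_adj α ρ s1.adj (Algebra.adjoin k (Set.range (sumHom α β hc ρ σ))) fun x => by
      obtain ⟨a, _, b, hb, e, _⟩ := dec x
      rw [e, ← e2 b hb]
      exact Algebra.subset_adjoin ⟨b, rfl⟩
    have m2 := mem_adj β σ s2.adj (Algebra.adjoin k (Set.range (sumHom α β hc ρ σ))) fun x => by
      obtain ⟨a, ha, b, _, _, e⟩ := dec x
      rw [e, ← e1 a ha]
      exact Algebra.subset_adjoin ⟨a, rfl⟩
    obtain ⟨t, rfl⟩ := (homTensorHomEquiv k Y1 Y2 Y1 Y2).surjective f
    induction t using TensorProduct.induction_on with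
    | zero => rw [map_zero]; exact Subalgebra.zero_mem _
    | tmul a b =>
      rw [homTensorHomEquiv_apply, TensorProduct.homTensorHomMap_apply, ← ab]
      exact Subalgebra.mul_mem _ (m1 a) (m2 b)
    | add a b ha hb => rw [map_add]; exact Subalgebra.add_mem _ (ha trivial) (hb trivial)
  · rw [Module.finrank_tensorProduct, Nat.cast_mul]
    exact mul_ne_zero s1.dim s2.dim
  · rw [he, map_add, ta, tb, s1.tr, s2.tr, zero_mul, mul_zero, add_zero]
  · rw [e1 x hx.1, s2.ker x hx.2, map_zero]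
  · obtain ⟨a, _, b, hb, e, _⟩ := dec y
    have := hx b
    rw [e2 b hb, he, add_mul, ← map_mul, ← hc, map_add, ta, tab, s2.tr, mul_zero, add_zero] at this
    rw [e]
    exact (mul_eq_zero.1 this).resolve_right s2.dim
  · obtain ⟨a, ha, b, _, _, e⟩ := dec y
    have := hx a
    rw [e1 a ha, he, add_mul, ← map_mul, map_add, tb, tab, s1.tr, zero_mul, zero_add] at this
    rw [e]
    exact (mul_eq_zero.1 this).resolve_left s1.dim

/-- the projection onto a direct factor -/
theorem exists_pr {I K : LieIdeal k g} (h : IsCompl I K) :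
    ∃ π : g →ₗ⁅k⁆ I, (∀ a : I, π a.1 = a) ∧ ∀ x, π x = 0 ↔ x ∈ K := by
  have h' : IsCompl I.toSubmodule K.toSubmodule := LieSubmodule.isCompl_toSubmodule.2 h
  let f : g →ₗ[k] I := Submodule.projectionOnto I.toSubmodule K.toSubmodule h'
  have f1 : ∀ a : I, f a.1 = a := fun a => Submodule.projectionOnto_apply_left h' a
  have f2 : ∀ x, f x = 0 ↔ x ∈ K := fun x => Submodule.projectionOnto_apply_eq_zero_iff h'
  have f3 : ∀ x, x - (f x).1 ∈ K := fun x => (f2 _).1 (by rw [map_sub, f1, sub_self])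
  refine ⟨{ f with map_lie' := fun {x y} => ?_ }, f1, f2⟩
  change f ⁅x, y⁆ = ⁅f x, f y⁆
  rw [← f1 ⁅f x, f y⁆, ← sub_eq_zero, ← map_sub, f2]
  have : ⁅x, y⁆ - (⁅f x, f y⁆ : I).1 = ⁅x - (f x).1, y⁆ + ⁅(f x).1, y - (f y).1⁆ := by
    change ⁅x, y⁆ - ⁅(f x).1, (f y).1⁆ = _
    rw [sub_lie, lie_sub]; abel
  rw [this]
  exact K.add_mem (lie_mem_left k g K _ _ (f3 x)) (K.lie_mem (f3 y))

theorem trace_zero {L : Type u} [LieRing L] [LieAlgebra k L] (hs : LieAlgebra.IsSimple k L)
    {Y : Type u} [AddCommGroup Y] [Module k Y] [FiniteDimensional k Y]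
    (ρ : L →ₗ⁅k⁆ Module.End k Y) (x : L) : LinearMap.trace k Y (ρ x) = 0 := by
  have hb : ∀ a b, LinearMap.trace k Y (ρ ⁅a, b⁆) = 0 := fun a b => by
    rw [LieHom.map_lie, Ring.lie_def, map_sub, LinearMap.trace_mul_comm, sub_self]
  let J : LieIdeal k L :=
    { carrier := {x | LinearMap.trace k Y (ρ x) = 0}
      zero_mem' := by simp
      add_mem' := fun {a b} ha hb => by
        change LinearMap.trace k Y (ρ (a + b)) = 0
        rw [map_add, map_add, ha, hb, add_zero]
      smul_mem' := fun c a ha => by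
        change LinearMap.trace k Y (ρ (c • a)) = 0
        rw [map_smul, map_smul, ha, smul_zero]
      lie_mem := fun {a b} _ => hb a b }
  rcases hs.eq_bot_or_eq_top J with h0 | h1
  · refine absurd ⟨fun a b => ?_⟩ hs.non_abelian
    have : ⁅a, b⁆ ∈ J := hb a b
    rw [h0] at this
    exact (LieSubmodule.mem_bot _).1 this
  · have : x ∈ J := h1 ▸ trivial
    exact this

theorem has_of_strong [IsAlgClosed k] {I K : LieIdeal k g} (h : IsCompl I K)
    (hs : LieAlgebra.IsSimple k I) (hI : Strong k I) : Has K := by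
  obtain ⟨Y, _, _, _, _, hfd, hi, hd, x0, y0, hxy⟩ := hI
  obtain ⟨π, p1, p2⟩ := exists_pr h
  have he : ∀ x, ((LieModule.toEnd k I Y).comp π) x = LieModule.toEnd k I Y (π x) := fun x => rfl
  refine ⟨Y, inferInstance, inferInstance, hfd, (LieModule.toEnd k I Y).comp π, ?_, hd,
    fun x => trace_zero hs (LieModule.toEnd k I Y) (π x), fun x hx => ?_, fun x hx => ?_⟩
  · rw [eq_top_iff, ← Setup.burnside_lie hi]
    refine Algebra.adjoin_mono ?_
    rintro _ ⟨a, rfl⟩
    exact ⟨a.1, by rw [he, p1]⟩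
  · rw [he, (p2 x).2 hx, map_zero]
  · refine (p2 x).1 (RICH.nondeg hxy _ fun w => ?_)
    have := hx w.1
    rw [he, he, p1, LinearMap.trace_mul_comm] at this
    exact this

/-- a nondegenerate trace form on an absolutely simple module -/
theorem rich_of {Y : Type u} [AddCommGroup Y] [Module k Y] [FiniteDimensional k Y] [Nontrivial Y]
    (ρ : g →ₗ⁅k⁆ Module.End k Y) (adj : Algebra.adjoin k (Set.range ρ) = ⊤)
    (nd : ∀ x, (∀ y, LinearMap.trace k Y (ρ y * ρ x) = 0) → x = 0) : HasRichardson k g := by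
  let _ : LieRingModule g Y := LieRingModule.compLieHom Y ρ
  have : LieModule k g Y := LieModule.compLieHom Y ρ
  have he : ∀ x, LieModule.toEnd k g Y x = ρ x := fun x => rfl
  have hinj : Function.Injective ρ := by
    rw [injective_iff_map_eq_zero]
    exact fun z hz => nd z fun w => by rw [hz, mul_zero, map_zero]
  have : FiniteDimensional k g :=
    FiniteDimensional.of_injective (ρ : g →ₗ[k] Module.End k Y) hinj
  let T : Module.End k Y →ₗ[k] Module.Dual k g :=
    (((LinearMap.mul k (Module.End k Y)).compl₁₂ (ρ : g →ₗ[k] Module.End k Y)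
      LinearMap.id).compr₂ (LinearMap.trace k Y)).flip
  have hT : ∀ r w, T r w = LinearMap.trace k Y (ρ w * r) := fun r w => rfl
  have hTi : Function.Injective (T ∘ₗ (ρ : g →ₗ[k] Module.End k Y)) := by
    rw [injective_iff_map_eq_zero]
    exact fun z hz => nd z fun w => LinearMap.congr_fun hz w
  have hTs : Function.Surjective (T ∘ₗ (ρ : g →ₗ[k] Module.End k Y)) :=
    (LinearMap.injective_iff_surjective_of_finrank_eq_finrank
      (Subspace.dual_finrank_eq (K := k) (V := g)).symm).1 hTi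
  refine ⟨Y, inferInstance, inferInstance, inferInstance, inferInstance, inferInstance, ⟨hinj⟩,
    ?_, LinearMap.ker T, ⟨?_, ?_⟩, ?_⟩
  · refine LieModule.IsIrreducible.mk fun N hN => ?_
    obtain ⟨v, hv, h0⟩ := (LieSubmodule.eq_bot_iff N).not.1 hN |> not_forall₂.1
    have hs : ∀ f : Module.End k Y, ∀ u ∈ N, f u ∈ N := fun f => by
      have hf : f ∈ Algebra.adjoin k (Set.range ρ) := adj ▸ Algebra.mem_top
      induction hf using Algebra.adjoin_induction with
      | mem a ha => obtain ⟨x, rfl⟩ := ha; exact fun u hu => N.lie_mem (x := x) hu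
      | algebraMap c => exact fun u hu => N.smul_mem c hu
      | add a b _ _ ha hb => exact fun u hu => N.add_mem (ha u hu) (hb u hu)
      | mul a b _ _ ha hb => exact fun u hu => ha _ (hb u hu)
    rw [eq_top_iff]
    intro w _
    obtain ⟨l, hl⟩ := Module.Projective.exists_dual_ne_zero k h0
    have := hs (((l v)⁻¹ • l).smulRight w) v hv
    simpa [hl] using this
  · rw [Submodule.disjoint_def]
    rintro _ ⟨z, rfl⟩ hz
    have : z = 0 := hTi (by rw [map_zero]; exact hz)
    rw [this, map_zero]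
  · rw [codisjoint_iff, eq_top_iff]
    intro r _
    obtain ⟨z, hz⟩ := hTs (T r)
    have e : r = ρ z + (r - ρ z) := by abel
    rw [e]
    refine Submodule.add_mem_sup ⟨z, rfl⟩ ?_
    rw [LinearMap.mem_ker, map_sub, ← hz]
    exact sub_self _
  · intro z r hr
    rw [LinearMap.mem_ker] at hr ⊢
    ext w
    have h1 := LinearMap.congr_fun hr ⁅w, z⁆
    rw [hT, LieHom.map_lie, Ring.lie_def, sub_mul, map_sub] at h1
    rw [hT, he, Ring.lie_def, mul_sub, map_sub, ← mul_assoc, ← mul_assoc,
      LinearMap.trace_mul_cycle k (ρ w) r (ρ z)]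
    exact h1

/-- twisting by a character that is injective on the centre -/
theorem rich_of_has [FiniteDimensional k g] (hc : Module.finrank k (LieAlgebra.center k g) ≤ 1)
    {D : LieIdeal k g} (hD : IsCompl (LieAlgebra.center k g) D)
    (h : Has (LieAlgebra.center k g)) : HasRichardson k g := by
  obtain ⟨Y, _, _, _, ρ, s⟩ := h
  obtain ⟨π, p1, p2⟩ := exists_pr hD
  obtain ⟨μ, hμ⟩ : ∃ μ : LieAlgebra.center k g →ₗ[k] k, Function.Injective μ :=
    finrank_le_iff_exists_linearMap.1 (by rwa [Module.finrank_self])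
  have hb : ∀ x y : g, π ⁅x, y⁆ = 0 := fun x y => by
    rw [LieHom.map_lie]
    exact Subtype.ext ((π y).2 (π x).1)
  let τ : g →ₗ⁅k⁆ Module.End k Y :=
    { toFun := fun x => ρ x + μ (π x) • 1
      map_add' := fun x y => by simp only [map_add, add_smul]; abel
      map_smul' := fun c x => by
        simp only [map_smul, smul_add, RingHom.id_apply, smul_eq_mul, mul_smul]
      map_lie' := fun {x y} => by
        rw [hb, map_zero, zero_smul, add_zero, LieHom.map_lie]
        simp only [Ring.lie_def, add_mul, mul_add, smul_mul_assoc, mul_smul_comm, one_mul, mul_one,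
          smul_add, smul_comm (μ (π x)) (μ (π y))]
        abel }
  have he : ∀ x, τ x = ρ x + μ (π x) • 1 := fun x => rfl
  have tt : ∀ x y, LinearMap.trace k Y (τ y * τ x) =
      LinearMap.trace k Y (ρ y * ρ x) + μ (π x) * (μ (π y) * (Module.finrank k Y : k)) :=
    fun x y => by
      simp only [he, add_mul, mul_add, smul_mul_assoc, mul_smul_comm, one_mul, mul_one, smul_add,
        map_add, map_smul, s.tr, mul_zero, add_zero, zero_add, LinearMap.trace_one, smul_eq_mul]
  have : Nontrivial Y := Module.nontrivial_of_finrank_pos (R := k)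
    (Nat.pos_of_ne_zero fun h0 => s.dim (by rw [h0, Nat.cast_zero]))
  refine rich_of τ ?_ fun x hx => ?_
  · rw [eq_top_iff, ← s.adj]
    refine Algebra.adjoin_le ?_
    rintro _ ⟨x, rfl⟩
    have : ρ x = τ x - μ (π x) • 1 := by rw [he, add_sub_cancel_right]
    rw [this]
    exact Subalgebra.sub_mem _ (Algebra.subset_adjoin ⟨x, rfl⟩)
      (Subalgebra.smul_mem _ (Subalgebra.one_mem _) _)
  · have hz : x ∈ LieAlgebra.center k g := s.nd x fun y => by
      have := hx (y - (π y).1)
      rw [tt, map_sub π, p1, sub_self, map_zero, zero_mul, mul_zero, add_zero, map_sub,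
        s.ker _ (π y).2, sub_zero, LinearMap.trace_mul_comm] at this
      exact this
    have := hx x
    rw [tt, s.ker x hz, mul_zero, map_zero, zero_add, ← mul_assoc] at this
    have h0 : μ (π x) = 0 := mul_self_eq_zero.1 ((mul_eq_zero.1 this).resolve_right s.dim)
    have h1 : π x = 0 := hμ (by rw [h0, map_zero])
    have h2 := p1 ⟨x, hz⟩
    rw [h1] at h2
    exact (congrArg Subtype.val h2).symm

theorem compl_rest {S : Set (LieIdeal k g)} (h1 : sSupIndep S)
    (h2 : IsCompl (LieAlgebra.center k g) (sSup S)) {I : LieIdeal k g} (hI : I ∈ S)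
    (hs : LieAlgebra.IsSimple k I) :
    IsCompl I (LieAlgebra.center k g ⊔ sSup (S \ {I})) := by
  constructor
  · rw [disjoint_iff, eq_bot_iff]
    rintro x ⟨hx, hx'⟩
    obtain ⟨z, hz, y, hy, rfl⟩ := (LieSubmodule.mem_sup _ _ _).1 hx'
    have : (⟨z + y, hx⟩ : I) ∈ LieAlgebra.center k I := fun a => Subtype.ext (by
      change ⁅a.1, z + y⁆ = 0
      have h3 : ⁅a.1, y⁆ ∈ I ⊓ sSup (S \ {I}) :=
        ⟨lie_mem_left k g I _ _ a.2, LieSubmodule.lie_mem _ hy⟩
      rw [(h1 hI).eq_bot] at h3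
      rw [lie_add, hz a.1, (LieSubmodule.mem_bot _).1 h3, add_zero])
    rw [LieAlgebra.center_eq_bot] at this
    exact congrArg Subtype.val ((LieSubmodule.mem_bot _).1 this)
  · rw [codisjoint_iff, ← sup_assoc, sup_comm I, sup_assoc, ← sSup_insert,
      Set.insert_sdiff_singleton, Set.insert_eq_of_mem hI]
    exact h2.sup_eq_top

/-- the centraliser of an ideal -/
def cent (K : LieIdeal k g) : LieIdeal k g where
  carrier := {a | ∀ x ∈ K, ⁅a, x⁆ = 0}
  zero_mem' := fun x _ => zero_lie x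
  add_mem' := fun {a b} ha hb x hx => by rw [add_lie, ha x hx, hb x hx, add_zero]
  smul_mem' := fun c a ha x hx => by rw [smul_lie, ha x hx, smul_zero]
  lie_mem := fun {y a} ha x hx => by
    rw [lie_lie, ha x hx, ha _ (K.lie_mem hx), lie_zero, sub_zero]

end PROD

open PROD in
theorem st_prod (k : Type u) [Field k] [IsAlgClosed k] (p : ℕ) [Fact p.Prime] [CharP k p]
    (_hp : p ≠ 2) : S_prod k := by
  intro g _ _ _ hc S s1 s2 s3
  let K : LieIdeal k g → LieIdeal k g := fun I => LieAlgebra.center k g ⊔ sSup (S \ {I})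
  have hK : ∀ I ∈ S, IsCompl I (K I) := fun I hI => compl_rest s1 s2 hI (s3 I hI).1
  have key : ∀ T : Set (LieIdeal k g), T.Finite → T ⊆ S → Has (⨅ I ∈ T, K I) := by
    intro T hT
    induction T, hT using Set.Finite.induction_on with
    | empty => intro _; simpa using has_top
    | @insert I T hI _ ih =>
      intro hs
      have hIS : I ∈ S := hs (Set.mem_insert _ _)
      rw [iInf_insert]
      refine (has_of_strong (hK I hIS) (s3 I hIS).1 (s3 I hIS).2).inf
        (ih ((Set.subset_insert _ _).trans hs)) ?_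
      rw [eq_top_iff, ← (hK I hIS).sup_eq_top, sup_comm]
      refine sup_le_sup_left (le_iInf₂ fun J hJ => le_sup_of_le_right
        (le_sSup ((Set.mem_sdiff _).2 ⟨hIS, ?_⟩))) _
      rintro rfl
      exact hI hJ
  have h := key S (WellFoundedGT.finite_of_sSupIndep s1) subset_rfl
  have e : ⨅ I ∈ S, K I = LieAlgebra.center k g := by
    refine le_antisymm (fun x hx a => ?_) (le_iInf₂ fun I _ => le_sup_left)
    have : (⊤ : LieIdeal k g) ≤ cent (⨅ I ∈ S, K I) := by
      rw [← s2.sup_eq_top]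
      refine sup_le (fun z hz y _ => ?_) (sSup_le fun I hI b hb y hy => ?_)
      · rw [← lie_skew, hz y, neg_zero]
      · have h3 : ⁅b, y⁆ ∈ I ⊓ K I :=
          ⟨lie_mem_left k g I _ _ hb, LieSubmodule.lie_mem _ (iInf₂_le (f := fun I _ => K I) I hI hy)⟩
        rw [(hK I hI).inf_eq_bot] at h3
        exact (LieSubmodule.mem_bot _).1 h3
    exact this (LieSubmodule.mem_top a) x hx
  rw [e] at h
  exact rich_of_has hc s2 h

end Pool.Agent.Lib.PRC
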