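import Pool.Agent.Lib.PRC.Api
import Pool.Agent.Lib.MP_3a0263_al.R.B_SETUP

/-! Row RES: direct factors inherit the Richardson property. -/

namespace Pool.Agent.Lib.PRC

open Pool.Agent.Lib.MP_3a0263_al Pool.Agent.Lib.MP_3a0263_al.R

attribute [local instance 100] LieRing.ofAssociativeRing

universe u

namespace RES

variable {k : Type u} [Field k] {g : Type u} [LieRing g] [LieAlgebra k g]
  {Y : Type u} [AddCommGroup Y] [Module k Y] [LieRingModule g Y] [LieModule k g Y]

omit [LieAlgebra k g] [LieModule k g Y] in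
theorem irr_of_atom {N : LieSubmodule k g Y} (h : IsAtom N) : LieModule.IsIrreducible k g N := by
  have : Nontrivial N := (LieSubmodule.nontrivial_iff_ne_bot k g Y).2 h.1
  refine LieModule.IsIrreducible.mk fun W hW => ?_
  have hle : W.map N.incl ≤ N := by
    rintro _ ⟨y, -, rfl⟩
    exact y.2
  rcases (h.le_iff).1 hle with h0 | h1
  · refine absurd ((LieSubmodule.eq_bot_iff W).2 fun y hy => Subtype.ext ?_) hW
    exact (LieSubmodule.eq_bot_iff _).1 h0 _ (LieSubmodule.mem_map_of_mem hy)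
  · refine eq_top_iff.2 fun y _ => ?_
    obtain ⟨z, hz, e⟩ := (LieSubmodule.mem_map _).1 (h1.ge y.2)
    rwa [← (Subtype.ext e : z = y)]

theorem lie_eq_zero {I I' : LieIdeal k g} (hc : IsCompl I I') {x y : g} (hx : x ∈ I) (hy : y ∈ I') :
    ⁅x, y⁆ = 0 := by
  have : ⁅x, y⁆ ∈ I ⊓ I' := ⟨lie_mem_left k g I x y hx, lie_mem_right k g I' x y hy⟩
  rwa [hc.inf_eq_bot, LieSubmodule.mem_bot] at this

theorem split {I I' : LieIdeal k g} (hc : IsCompl I I') (x : g) :
    ∃ a ∈ I, ∃ b ∈ I', a + b = x :=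
  (LieSubmodule.mem_sup _ _ _).1 (by rw [hc.sup_eq_top]; trivial)

/-- an operator generated by the ideal that kills a submodule of the ideal vanishes -/
theorem inj (hi : LieModule.IsIrreducible k g Y) {I I' : LieIdeal k g} (hc : IsCompl I I')
    {N : LieSubmodule k I Y} (hN : N ≠ ⊥) {a : Module.End k Y}
    (ha : a ∈ Algebra.adjoin k (Set.range fun x : I => LieModule.toEnd k g Y x))
    (h0 : ∀ y : N, a y = 0) : a = 0 := by
  let A := Algebra.adjoin k (Set.range fun x : I => LieModule.toEnd k g Y x)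
  have hcomm : ∀ x ∈ I', ∀ b ∈ A, Commute (LieModule.toEnd k g Y x) b := fun x hx b hb =>
    Algebra.commute_of_mem_adjoin_of_forall_mem_commute hb (by
      rintro _ ⟨z, rfl⟩
      have := (LieModule.toEnd k g Y).map_lie z x
      rw [lie_eq_zero hc z.2 hx, map_zero, Ring.lie_def, eq_comm, sub_eq_zero] at this
      exact this.symm)
  let W : LieSubmodule k g Y :=
    { carrier := {y | ∀ b ∈ A, (∀ z : N, b z = 0) → b y = 0}
      zero_mem' := fun b _ _ => map_zero b
      add_mem' := fun h h' b hb hz => by rw [map_add, h b hb hz, h' b hb hz, add_zero]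
      smul_mem' := fun c y h b hb hz => by rw [map_smul, h b hb hz, smul_zero]
      lie_mem := fun {x y} h b hb hz => by
        obtain ⟨x1, h1, x2, h2, rfl⟩ := split hc x
        have e1 : b ⁅x1, y⁆ = 0 :=
          h (b * LieModule.toEnd k g Y x1) (A.mul_mem hb (Algebra.subset_adjoin ⟨⟨x1, h1⟩, rfl⟩))
            fun z => hz ⁅(⟨x1, h1⟩ : I), z⁆
        have e2 : b ⁅x2, y⁆ = 0 := by
          have := congrArg (fun T : Module.End k Y => T y) (hcomm x2 h2 b hb).eq
          simp only [Module.End.mul_apply, LieModule.toEnd_apply_apply, h b hb hz] at this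
          rw [← this]; simp
        rw [add_lie, map_add, e1, e2, add_zero] }
  have hW : W = ⊤ := (hi.eq_bot_or_eq_top W).resolve_left fun h => hN
    ((LieSubmodule.eq_bot_iff N).2 fun y hy =>
      (LieSubmodule.eq_bot_iff W).1 h y fun b _ hz => hz ⟨y, hy⟩)
  ext y
  exact (hW.ge (LieSubmodule.mem_top y) :) a ha h0

end RES

theorem st_res (k : Type u) [Field k] [IsAlgClosed k] (p : ℕ) [Fact p.Prime] [CharP k p]
    (_hp : p ≠ 2) : S_res k := by
  rintro g _ _ ⟨Y, _, _, _, _, hfd, hf, hi, R, hc, hR⟩ I I' hI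
  obtain ⟨π, hπ1, hπ2⟩ := exists_proj hf R hc hR
  have : Nontrivial Y := LieModule.nontrivial_of_isIrreducible k g Y
  obtain ⟨N, hN, -⟩ := (eq_bot_or_exists_atom_le (⊤ : LieSubmodule k I Y)).resolve_left top_ne_bot
  have hirr := RES.irr_of_atom hN
  let A := Algebra.adjoin k (Set.range fun x : I => LieModule.toEnd k g Y x)
  have hex : ∀ b : Module.End k N, ∃ a ∈ A, ∀ y : N, a y = b y := fun b => by
    have hb : b ∈ Algebra.adjoin k (Set.range (LieModule.toEnd k I N)) := by
      rw [Setup.burnside_lie hirr]; trivial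
    induction hb using Algebra.adjoin_induction with
    | mem b hb =>
      obtain ⟨x, rfl⟩ := hb
      exact ⟨_, Algebra.subset_adjoin ⟨x, rfl⟩, fun y => rfl⟩
    | algebraMap c => exact ⟨_, A.algebraMap_mem c, fun y => rfl⟩
    | add b b' _ _ h h' =>
      obtain ⟨a, ha, e⟩ := h
      obtain ⟨a', ha', e'⟩ := h'
      exact ⟨a + a', A.add_mem ha ha', fun y => by simp [e, e']⟩
    | mul b b' _ _ h h' =>
      obtain ⟨a, ha, e⟩ := h
      obtain ⟨a', ha', e'⟩ := h'
      exact ⟨a * a', A.mul_mem ha ha', fun y => by simp [e, e']⟩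
  choose s hs hs' using hex
  have huniq : ∀ (b : Module.End k N), ∀ a ∈ A, (∀ y : N, a y = b y) → s b = a :=
    fun b a ha h => sub_eq_zero.1 (RES.inj hi hI hN.1 (A.sub_mem (hs b) ha) fun y => by
      rw [LinearMap.sub_apply, hs', h, sub_self])
  let σ : Module.End k N →ₗ[k] Module.End k Y :=
    { toFun := s
      map_add' := fun b b' => huniq _ _ (A.add_mem (hs b) (hs b')) fun y => by simp [hs']
      map_smul' := fun c b => huniq _ _ (A.smul_mem (hs b) c) fun y => by simp [hs'] }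
  have hσ1 : ∀ x : I, σ (LieModule.toEnd k I N x) = LieModule.toEnd k g Y x := fun x =>
    huniq _ _ (Algebra.subset_adjoin ⟨x, rfl⟩) fun y => rfl
  have hσ2 : ∀ b b', σ (b * b') = σ b * σ b' := fun b b' =>
    huniq _ _ (A.mul_mem (hs b) (hs b')) fun y => by
      change s b (s b' y) = _
      simp [hs']
  have hI' : IsCompl I.toSubmodule I'.toSubmodule := LieSubmodule.isCompl_toSubmodule.2 hI
  let pr : g →ₗ[k] I := Submodule.projectionOnto I.toSubmodule I'.toSubmodule hI'
  have pr1 : ∀ x : I, pr x = x := Submodule.projectionOnto_apply_left hI'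
  have pr2 : ∀ x ∈ I', pr x = 0 := fun x hx => Submodule.projectionOnto_apply_of_mem_right hI' hx
  have pr3 : ∀ (x : I) (z : g), pr ⁅(x : g), z⁆ = ⁅x, pr z⁆ := fun x z => by
    obtain ⟨z1, h1, z2, h2, rfl⟩ := RES.split hI z
    rw [lie_add, RES.lie_eq_zero hI x.2 h2, add_zero, map_add, pr2 z2 h2, add_zero, pr1 ⟨z1, h1⟩]
    exact pr1 ⁅x, (⟨z1, h1⟩ : I)⁆
  let π1 : Module.End k N →ₗ[k] I := pr ∘ₗ π ∘ₗ σ
  have h1 : ∀ x : I, π1 (LieModule.toEnd k I N x) = x := fun x => by
    change pr (π (σ _)) = x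
    rw [hσ1, hπ1, pr1]
  refine ⟨N, inferInstance, inferInstance, inferInstance, inferInstance, inferInstance,
    ⟨fun x y e => by rw [← h1 x, e, h1]⟩, hirr, LinearMap.ker π1, ⟨?_, ?_⟩, fun x r hr => ?_⟩
  · rw [Submodule.disjoint_def]
    rintro _ ⟨x, rfl⟩ hx
    have : x = 0 := (h1 x).symm.trans hx
    rw [this, map_zero]
  · rw [codisjoint_iff, eq_top_iff]
    intro b _
    refine Submodule.mem_sup.2 ⟨_, ⟨π1 b, rfl⟩, b - LieModule.toEnd k I N (π1 b), ?_,
      add_sub_cancel _ _⟩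
    rw [LinearMap.mem_ker, map_sub, h1, sub_self]
  · rw [Ring.lie_def]
    change pr (π (σ _)) = 0
    rw [map_sub, hσ2, hσ2, hσ1, hπ2, pr3]
    have : pr (π (σ r)) = 0 := hr
    rw [this, lie_zero]

end Pool.Agent.Lib.PRC
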