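import Pool.Agent.Lib.PRC.Api
import Pool.Agent.Lib.MP_3a0263_al.Q.T_CLK

namespace Pool.Agent.Lib.PRC

open Pool.Agent.Lib.MP_3a0263_al Pool.Agent.Lib.MP_3a0263_al.R Pool.Agent.Lib.MP_3a0263_al.Q

universe u

namespace ROOTS

def ad (x y : List ℤ) : List ℤ := List.zipWith (· + ·) x y
def ng (x : List ℤ) : List ℤ := x.map (- ·)
def un {n : ℕ} (i : Fin n) : List ℤ := List.ofFn fun j : Fin n => if j = i then 1 else 0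
def dot {n : ℕ} (M : Matrix (Fin n) (Fin n) ℤ) (i : Fin n) (x : List ℤ) : ℤ :=
  (List.zipWith (· * ·) (List.ofFn (M i)) x).sum
def rf {n : ℕ} (M : Matrix (Fin n) (Fin n) ℤ) (i : Fin n) (x : List ℤ) : List ℤ :=
  ad x ((un i).map (- dot M i x * ·))

/-- the list `R` is the list of positive roots -/
def Ok1 {n : ℕ} (M : Matrix (Fin n) (Fin n) ℤ) (R : List (List ℤ)) : Prop :=
  (∀ i : Fin n, un i ∈ R) ∧ (∀ x ∈ R, ∀ i, dot M i x < 0 → rf M i x ∈ R) ∧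
  (∀ x ∈ R, 0 ≤ x.sum ∧ ((∃ i : Fin n, x = un i) ∨
    ∃ i, 0 < dot M i x ∧ rf M i x ∈ R ∧ (rf M i x).sum < x.sum ∧ rf M i (rf M i x) = x)) ∧
  (R ++ R.map ng).Nodup

/-- the finite checks on the list `A` of all roots -/
def Ok2 {n : ℕ} (A : List (List ℤ)) (t t' : List ℤ) (k : Fin n) : Prop :=
  t ∈ A ∧ t' ∈ A ∧ (∀ x ∈ A, ∀ j : Fin n, x.getD j 0 ≤ t.getD j 0) ∧ (∀ i : Fin n, t ≠ un i) ∧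
  (∀ i : Fin n, i ≠ k → ad (un i) (ng t) ∉ A) ∧ ad (un k) (ng t) ∈ A ∧
  ad (un k) (ng t) ≠ ng (un k) ∧ ad (un k) (ad (un k) (ng t)) ∉ A ∧
  (∀ x ∈ A, (∀ i : Fin n, i ≠ k → x ≠ ng (un i) ∧ ad (un i) x ∉ A) → x ≠ ng (un k) →
    (ad (un k) x ∈ A → ad (un k) (ad (un k) x) ∉ A) →
      x = t ∨ x = ng t ∨ x = t' ∨ t = ad (un k) x) ∧
  (∃ j : Fin n, t.getD j 0 = 3) ∧ ¬ 5 ∣ n + A.length

variable {Φ : Type u} [Fintype Φ] {C : Comb Φ} {n : ℕ} {M : Matrix (Fin n) (Fin n) ℤ}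
  {v : Fin n → Φ}

def cv (C : Comb Φ) (v : Fin n → Φ) (b : Φ) : List ℤ := List.ofFn fun j => C.co b (v j)

theorem ad_ofFn (f g : Fin n → ℤ) : ad (List.ofFn f) (List.ofFn g) = List.ofFn fun j => f j + g j :=
  List.ext_getElem (by simp [ad]) fun _ _ _ => by simp [ad]

theorem all_iff (h : C1.Ty C M v) {P : Φ → Prop} : (∀ a ∈ C.Δ, P a) ↔ ∀ j, P (v j) :=
  ⟨fun H j => H _ (h.mem C j), fun H a ha => by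
    obtain ⟨j, rfl⟩ := (h.2.1 a).1 ha
    exact H j⟩

theorem cv_inj (h : C1.Ty C M v) : Function.Injective (cv C v) := fun a b e =>
  C.inj a b ((all_iff h).2 (congrFun (List.ofFn_injective e)))

theorem cv_un (h : C1.Ty C M v) (i : Fin n) : cv C v (v i) = un i :=
  congrArg List.ofFn (funext fun j => h.co C i j)

theorem cv_neg (h : C1.Ty C M v) (b : Φ) : cv C v (C.neg b) = ng (cv C v b) := by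
  rw [ng, cv, cv, List.map_ofFn]
  exact congrArg List.ofFn (funext fun j => C.co_neg _ _ (h.mem C j))

theorem cv_dot (h : C1.Ty C M v) (i : Fin n) (b : Φ) : dot M i (cv C v b) = C.m (v i) b := by
  rw [h.m C, ← List.sum_ofFn, dot, cv]
  exact congrArg List.sum (List.ext_getElem (by simp) fun _ _ _ => by simp)

theorem cv_s (h : C1.Ty C M v) (i : Fin n) (b : Φ) :
    cv C v (C.s (v i) b) = rf M i (cv C v b) := by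
  rw [rf, cv_dot h, un, List.map_ofFn, cv, cv, ad_ofFn]
  refine congrArg List.ofFn (funext fun j => ?_)
  rw [C.refl _ _ _ (h.mem C j), h.co C, Function.comp_apply]
  ring

theorem cv_sum (h : C1.Ty C M v) (a b c : Φ) :
    L0.IsSum C a b c ↔ cv C v c = ad (cv C v a) (cv C v b) := by
  rw [cv, cv, cv, ad_ofFn, List.ofFn_inj, funext_iff]
  exact all_iff h

theorem cv_get (b : Φ) (j : Fin n) : (cv C v b).getD j 0 = C.co b (v j) := by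
  simp [cv]

theorem mem_iff (h : C1.Ty C M v) {R : List (List ℤ)} (H : Ok1 M R) (x : List ℤ) :
    x ∈ R ++ R.map ng ↔ ∃ b, cv C v b = x := by
  have h1 : ∀ b, C1.Pos C b → cv C v b ∈ R :=
    C1.pos_ind C _ ((all_iff h).2 fun j => cv_un h j ▸ H.1 j) ((all_iff h).2 fun i b _ _ hm hb =>
      cv_s h i b ▸ H.2.1 _ hb i (by rwa [cv_dot h]))
  have h2 : ∀ N : ℕ, ∀ x ∈ R, x.sum < N → ∃ b, cv C v b = x := fun N => by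
    induction N with
    | zero => exact fun x hx hN => absurd (H.2.2.1 x hx).1 (by simpa using hN)
    | succ N ih =>
      intro x hx hN
      rcases (H.2.2.1 x hx).2 with ⟨i, rfl⟩ | ⟨i, -, a, b, c⟩
      · exact ⟨_, cv_un h i⟩
      · obtain ⟨y, hy⟩ := ih _ a (by push_cast at hN; omega)
        exact ⟨C.s (v i) y, by rw [cv_s h, hy, c]⟩
  have h3 : ∀ x ∈ R, ∃ b, cv C v b = x := fun x hx => h2 (x.sum.toNat + 1) x hx (by omega)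
  rw [List.mem_append, List.mem_map]
  constructor
  · rintro (hx | ⟨y, hy, rfl⟩)
    · exact h3 x hx
    · obtain ⟨b, rfl⟩ := h3 y hy
      exact ⟨_, cv_neg h b⟩
  · rintro ⟨b, rfl⟩
    rcases C1.pos_or C b with p | p
    · exact Or.inl (h1 b p)
    · exact Or.inr ⟨_, h1 _ p, by rw [← cv_neg h, C1.neg_neg]⟩

theorem main (h : C1.Ty C M v) {R : List (List ℤ)} (H : Ok1 M R) {t t' : List ℤ} {k : Fin n}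
    (K : Ok2 (R ++ R.map ng) t t' k) : (∃ θ kk θ', Exc C θ kk θ') ∧
      ∀ q : ℕ, q.Prime → q ≠ 2 → GoodAll C q → q ∣ C.Δ.card + Fintype.card Φ → 7 ≤ q := by
  have hA := mem_iff h H
  have hN := H.2.2.2
  generalize R ++ R.map ng = A at hA K hN
  have mem : ∀ b, cv C v b ∈ A := fun b => (hA _).2 ⟨b, rfl⟩
  have sm : ∀ i b c, L0.IsSum C (v i) b c ↔ cv C v c = ad (un i) (cv C v b) := fun i b c => by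
    rw [cv_sum h, cv_un h]
  have nv : ∀ i, cv C v (C.neg (v i)) = ng (un i) := fun i => by rw [cv_neg h, cv_un h]
  obtain ⟨k1, k2, k3, k4, k5, k6, k7, k8, k9, ⟨j, k10⟩, k11⟩ := K
  obtain ⟨θ, rfl⟩ := (hA _).1 k1
  obtain ⟨θ', rfl⟩ := (hA _).1 k2
  rw [← cv_neg h] at k5 k6 k7 k8 k9
  refine ⟨⟨θ, v k, θ', fun b => (all_iff h).2 fun j => ?_, fun hθ => ?_, h.mem C k,
    (all_iff h).2 fun i hi δ hδ => ?_, ?_, fun δ hδ => ⟨?_, fun δ' hδ' => ?_⟩,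
    fun b a1 a2 a3 => ?_⟩, fun q hq h2 hg hd => ?_⟩
  · simpa only [cv_get] using k3 _ (mem b) j
  · obtain ⟨i, rfl⟩ := (h.2.1 θ).1 hθ
    exact k4 i (cv_un h i)
  · exact k5 i (fun e => hi (e ▸ rfl)) ((sm _ _ _).1 hδ ▸ mem δ)
  · obtain ⟨δ, hδ⟩ := (hA _).1 k6
    exact ⟨δ, (sm _ _ _).2 hδ⟩
  · rintro rfl
    exact k7 (((sm _ _ _).1 hδ).symm.trans (nv k))
  · rw [sm] at hδ hδ'
    exact k8 (hδ ▸ hδ' ▸ mem δ')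
  · rcases k9 _ (mem b) (fun i hi => by
        obtain ⟨b1, b2⟩ := a1 _ (h.mem C i) fun e => hi (h.1 e)
        refine ⟨fun e => b1 (cv_inj h (e.trans (nv i).symm)), fun e => ?_⟩
        obtain ⟨δ, hδ⟩ := (hA _).1 e
        exact b2 δ ((sm _ _ _).2 hδ)) (fun e => a2 (cv_inj h (e.trans (nv k).symm)))
      (fun e e' => by
        obtain ⟨δ, hδ⟩ := (hA _).1 e
        obtain ⟨δ', hδ'⟩ := (hA _).1 e'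
        exact a3 δ δ' ((sm _ _ _).2 hδ) ((sm _ _ _).2 (by rw [hδ', hδ]))) with e | e | e | e
    exacts [Or.inl (cv_inj h e), Or.inr (Or.inl (cv_inj h e)), Or.inr (Or.inr (Or.inl (cv_inj h e))),
      Or.inr (Or.inr (Or.inr ((sm _ _ _).2 e)))]
  · have hc : Fintype.card Φ = A.length := by
      rw [← List.toFinset_card_of_nodup hN, ← Finset.card_univ,
        ← Finset.card_image_of_injective _ (cv_inj h)]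
      congr 1
      ext x
      simp [hA]
    rw [hc, h.card C] at hd
    rw [cv_get] at k10
    have h3 : q ≠ 3 := by
      rintro rfl
      exact hg θ _ (h.mem C j) (by omega) (by rw [k10]; rfl)
    have h5 : q ≠ 5 := by
      rintro rfl
      exact k11 hd
    have := hq.two_le
    by_contra hlt
    have : q = 4 ∨ q = 6 := by omega
    rcases this with rfl | rfl <;> exact absurd hq (by decide)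

def rE6 : List (List ℤ) :=
  [[0, 0, 0, 0, 0, 1], [0, 0, 0, 0, 1, 0], [0, 0, 0, 1, 0, 0], [0, 0, 1, 0, 0, 0],
   [0, 1, 0, 0, 0, 0], [1, 0, 0, 0, 0, 0], [0, 0, 0, 0, 1, 1], [0, 0, 0, 1, 1, 0],
   [0, 0, 1, 1, 0, 0], [0, 1, 0, 1, 0, 0], [1, 0, 1, 0, 0, 0], [0, 0, 0, 1, 1, 1],
   [0, 0, 1, 1, 1, 0], [0, 1, 0, 1, 1, 0], [0, 1, 1, 1, 0, 0], [1, 0, 1, 1, 0, 0],
   [0, 0, 1, 1, 1, 1], [0, 1, 0, 1, 1, 1], [0, 1, 1, 1, 1, 0], [1, 0, 1, 1, 1, 0],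
   [1, 1, 1, 1, 0, 0], [0, 1, 1, 1, 1, 1], [0, 1, 1, 2, 1, 0], [1, 0, 1, 1, 1, 1],
   [1, 1, 1, 1, 1, 0], [0, 1, 1, 2, 1, 1], [1, 1, 1, 1, 1, 1], [1, 1, 1, 2, 1, 0],
   [0, 1, 1, 2, 2, 1], [1, 1, 1, 2, 1, 1], [1, 1, 2, 2, 1, 0], [1, 1, 1, 2, 2, 1],
   [1, 1, 2, 2, 1, 1], [1, 1, 2, 2, 2, 1], [1, 1, 2, 3, 2, 1], [1, 2, 2, 3, 2, 1]]

def rE7 : List (List ℤ) :=
  [[0, 0, 0, 0, 0, 0, 1], [0, 0, 0, 0, 0, 1, 0], [0, 0, 0, 0, 1, 0, 0], [0, 0, 0, 1, 0, 0, 0],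
   [0, 0, 1, 0, 0, 0, 0], [0, 1, 0, 0, 0, 0, 0], [1, 0, 0, 0, 0, 0, 0], [0, 0, 0, 0, 0, 1, 1],
   [0, 0, 0, 0, 1, 1, 0], [0, 0, 0, 1, 1, 0, 0], [0, 0, 1, 1, 0, 0, 0], [0, 1, 0, 1, 0, 0, 0],
   [1, 0, 1, 0, 0, 0, 0], [0, 0, 0, 0, 1, 1, 1], [0, 0, 0, 1, 1, 1, 0], [0, 0, 1, 1, 1, 0, 0],
   [0, 1, 0, 1, 1, 0, 0], [0, 1, 1, 1, 0, 0, 0], [1, 0, 1, 1, 0, 0, 0], [0, 0, 0, 1, 1, 1, 1],
   [0, 0, 1, 1, 1, 1, 0], [0, 1, 0, 1, 1, 1, 0], [0, 1, 1, 1, 1, 0, 0], [1, 0, 1, 1, 1, 0, 0],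
   [1, 1, 1, 1, 0, 0, 0], [0, 0, 1, 1, 1, 1, 1], [0, 1, 0, 1, 1, 1, 1], [0, 1, 1, 1, 1, 1, 0],
   [0, 1, 1, 2, 1, 0, 0], [1, 0, 1, 1, 1, 1, 0], [1, 1, 1, 1, 1, 0, 0], [0, 1, 1, 1, 1, 1, 1],
   [0, 1, 1, 2, 1, 1, 0], [1, 0, 1, 1, 1, 1, 1], [1, 1, 1, 1, 1, 1, 0], [1, 1, 1, 2, 1, 0, 0],
   [0, 1, 1, 2, 1, 1, 1], [0, 1, 1, 2, 2, 1, 0], [1, 1, 1, 1, 1, 1, 1], [1, 1, 1, 2, 1, 1, 0],
   [1, 1, 2, 2, 1, 0, 0], [0, 1, 1, 2, 2, 1, 1], [1, 1, 1, 2, 1, 1, 1], [1, 1, 1, 2, 2, 1, 0],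
   [1, 1, 2, 2, 1, 1, 0], [0, 1, 1, 2, 2, 2, 1], [1, 1, 1, 2, 2, 1, 1], [1, 1, 2, 2, 1, 1, 1],
   [1, 1, 2, 2, 2, 1, 0], [1, 1, 1, 2, 2, 2, 1], [1, 1, 2, 2, 2, 1, 1], [1, 1, 2, 3, 2, 1, 0],
   [1, 1, 2, 2, 2, 2, 1], [1, 1, 2, 3, 2, 1, 1], [1, 2, 2, 3, 2, 1, 0], [1, 1, 2, 3, 2, 2, 1],
   [1, 2, 2, 3, 2, 1, 1], [1, 1, 2, 3, 3, 2, 1], [1, 2, 2, 3, 2, 2, 1], [1, 2, 2, 3, 3, 2, 1],
   [1, 2, 2, 4, 3, 2, 1], [1, 2, 3, 4, 3, 2, 1], [2, 2, 3, 4, 3, 2, 1]]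

def rE8 : List (List ℤ) :=
  [[0, 0, 0, 0, 0, 0, 0, 1], [0, 0, 0, 0, 0, 0, 1, 0], [0, 0, 0, 0, 0, 1, 0, 0],
   [0, 0, 0, 0, 1, 0, 0, 0], [0, 0, 0, 1, 0, 0, 0, 0], [0, 0, 1, 0, 0, 0, 0, 0],
   [0, 1, 0, 0, 0, 0, 0, 0], [1, 0, 0, 0, 0, 0, 0, 0], [0, 0, 0, 0, 0, 0, 1, 1],
   [0, 0, 0, 0, 0, 1, 1, 0], [0, 0, 0, 0, 1, 1, 0, 0], [0, 0, 0, 1, 1, 0, 0, 0],
   [0, 0, 1, 1, 0, 0, 0, 0], [0, 1, 0, 1, 0, 0, 0, 0], [1, 0, 1, 0, 0, 0, 0, 0],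
   [0, 0, 0, 0, 0, 1, 1, 1], [0, 0, 0, 0, 1, 1, 1, 0], [0, 0, 0, 1, 1, 1, 0, 0],
   [0, 0, 1, 1, 1, 0, 0, 0], [0, 1, 0, 1, 1, 0, 0, 0], [0, 1, 1, 1, 0, 0, 0, 0],
   [1, 0, 1, 1, 0, 0, 0, 0], [0, 0, 0, 0, 1, 1, 1, 1], [0, 0, 0, 1, 1, 1, 1, 0],
   [0, 0, 1, 1, 1, 1, 0, 0], [0, 1, 0, 1, 1, 1, 0, 0], [0, 1, 1, 1, 1, 0, 0, 0],
   [1, 0, 1, 1, 1, 0, 0, 0], [1, 1, 1, 1, 0, 0, 0, 0], [0, 0, 0, 1, 1, 1, 1, 1],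
   [0, 0, 1, 1, 1, 1, 1, 0], [0, 1, 0, 1, 1, 1, 1, 0], [0, 1, 1, 1, 1, 1, 0, 0],
   [0, 1, 1, 2, 1, 0, 0, 0], [1, 0, 1, 1, 1, 1, 0, 0], [1, 1, 1, 1, 1, 0, 0, 0],
   [0, 0, 1, 1, 1, 1, 1, 1], [0, 1, 0, 1, 1, 1, 1, 1], [0, 1, 1, 1, 1, 1, 1, 0],
   [0, 1, 1, 2, 1, 1, 0, 0], [1, 0, 1, 1, 1, 1, 1, 0], [1, 1, 1, 1, 1, 1, 0, 0],
   [1, 1, 1, 2, 1, 0, 0, 0], [0, 1, 1, 1, 1, 1, 1, 1], [0, 1, 1, 2, 1, 1, 1, 0],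
   [0, 1, 1, 2, 2, 1, 0, 0], [1, 0, 1, 1, 1, 1, 1, 1], [1, 1, 1, 1, 1, 1, 1, 0],
   [1, 1, 1, 2, 1, 1, 0, 0], [1, 1, 2, 2, 1, 0, 0, 0], [0, 1, 1, 2, 1, 1, 1, 1],
   [0, 1, 1, 2, 2, 1, 1, 0], [1, 1, 1, 1, 1, 1, 1, 1], [1, 1, 1, 2, 1, 1, 1, 0],
   [1, 1, 1, 2, 2, 1, 0, 0], [1, 1, 2, 2, 1, 1, 0, 0], [0, 1, 1, 2, 2, 1, 1, 1],
   [0, 1, 1, 2, 2, 2, 1, 0], [1, 1, 1, 2, 1, 1, 1, 1], [1, 1, 1, 2, 2, 1, 1, 0],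
   [1, 1, 2, 2, 1, 1, 1, 0], [1, 1, 2, 2, 2, 1, 0, 0], [0, 1, 1, 2, 2, 2, 1, 1],
   [1, 1, 1, 2, 2, 1, 1, 1], [1, 1, 1, 2, 2, 2, 1, 0], [1, 1, 2, 2, 1, 1, 1, 1],
   [1, 1, 2, 2, 2, 1, 1, 0], [1, 1, 2, 3, 2, 1, 0, 0], [0, 1, 1, 2, 2, 2, 2, 1],
   [1, 1, 1, 2, 2, 2, 1, 1], [1, 1, 2, 2, 2, 1, 1, 1], [1, 1, 2, 2, 2, 2, 1, 0],
   [1, 1, 2, 3, 2, 1, 1, 0], [1, 2, 2, 3, 2, 1, 0, 0], [1, 1, 1, 2, 2, 2, 2, 1],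
   [1, 1, 2, 2, 2, 2, 1, 1], [1, 1, 2, 3, 2, 1, 1, 1], [1, 1, 2, 3, 2, 2, 1, 0],
   [1, 2, 2, 3, 2, 1, 1, 0], [1, 1, 2, 2, 2, 2, 2, 1], [1, 1, 2, 3, 2, 2, 1, 1],
   [1, 1, 2, 3, 3, 2, 1, 0], [1, 2, 2, 3, 2, 1, 1, 1], [1, 2, 2, 3, 2, 2, 1, 0],
   [1, 1, 2, 3, 2, 2, 2, 1], [1, 1, 2, 3, 3, 2, 1, 1], [1, 2, 2, 3, 2, 2, 1, 1],
   [1, 2, 2, 3, 3, 2, 1, 0], [1, 1, 2, 3, 3, 2, 2, 1], [1, 2, 2, 3, 2, 2, 2, 1],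
   [1, 2, 2, 3, 3, 2, 1, 1], [1, 2, 2, 4, 3, 2, 1, 0], [1, 1, 2, 3, 3, 3, 2, 1],
   [1, 2, 2, 3, 3, 2, 2, 1], [1, 2, 2, 4, 3, 2, 1, 1], [1, 2, 3, 4, 3, 2, 1, 0],
   [1, 2, 2, 3, 3, 3, 2, 1], [1, 2, 2, 4, 3, 2, 2, 1], [1, 2, 3, 4, 3, 2, 1, 1],
   [2, 2, 3, 4, 3, 2, 1, 0], [1, 2, 2, 4, 3, 3, 2, 1], [1, 2, 3, 4, 3, 2, 2, 1],
   [2, 2, 3, 4, 3, 2, 1, 1], [1, 2, 2, 4, 4, 3, 2, 1], [1, 2, 3, 4, 3, 3, 2, 1],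
   [2, 2, 3, 4, 3, 2, 2, 1], [1, 2, 3, 4, 4, 3, 2, 1], [2, 2, 3, 4, 3, 3, 2, 1],
   [1, 2, 3, 5, 4, 3, 2, 1], [2, 2, 3, 4, 4, 3, 2, 1], [1, 3, 3, 5, 4, 3, 2, 1],
   [2, 2, 3, 5, 4, 3, 2, 1], [2, 2, 4, 5, 4, 3, 2, 1], [2, 3, 3, 5, 4, 3, 2, 1],
   [2, 3, 4, 5, 4, 3, 2, 1], [2, 3, 4, 6, 4, 3, 2, 1], [2, 3, 4, 6, 5, 3, 2, 1],
   [2, 3, 4, 6, 5, 4, 2, 1], [2, 3, 4, 6, 5, 4, 3, 1], [2, 3, 4, 6, 5, 4, 3, 2]]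

def rF4 : List (List ℤ) :=
  [[0, 0, 0, 1], [0, 0, 1, 0], [0, 1, 0, 0], [1, 0, 0, 0], [0, 0, 1, 1], [0, 1, 1, 0],
   [1, 1, 0, 0], [0, 1, 1, 1], [0, 2, 1, 0], [1, 1, 1, 0], [0, 2, 1, 1], [1, 1, 1, 1],
   [1, 2, 1, 0], [0, 2, 2, 1], [1, 2, 1, 1], [2, 2, 1, 0], [1, 2, 2, 1], [2, 2, 1, 1],
   [1, 3, 2, 1], [2, 2, 2, 1], [2, 3, 2, 1], [2, 4, 2, 1], [2, 4, 3, 1], [2, 4, 3, 2]]

def rG2 : List (List ℤ) :=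
  [[0, 1], [1, 0], [1, 1], [2, 1], [3, 1], [3, 2]]

theorem a6 : Ok1 CartanMatrix.E₆ rE6 := by unfold Ok1; decide +kernel
theorem a7 : Ok1 CartanMatrix.E₇ rE7 := by unfold Ok1; decide +kernel
theorem a8 : Ok1 CartanMatrix.E₈ rE8 := by unfold Ok1; decide +kernel
theorem a4 : Ok1 CartanMatrix.F₄ rF4 := by unfold Ok1; decide +kernel
theorem a2 : Ok1 CartanMatrix.G₂ rG2 := by unfold Ok1; decide +kernel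
theorem b6 : Ok2 (rE6 ++ rE6.map ng) [1, 2, 2, 3, 2, 1] [1, 0, 1, 1, 1, 1] (1 : Fin 6) := by
  refine ⟨?_, ?_, ?_, ?_, ?_, ?_, ?_, ?_, ?_, ?_, ?_⟩ <;> decide +kernel
theorem b7 : Ok2 (rE7 ++ rE7.map ng) [2, 2, 3, 4, 3, 2, 1] [0, 1, 1, 2, 2, 2, 1] (0 : Fin 7) := by
  refine ⟨?_, ?_, ?_, ?_, ?_, ?_, ?_, ?_, ?_, ?_, ?_⟩ <;> decide +kernel
theorem b8 : Ok2 (rE8 ++ rE8.map ng) [2, 3, 4, 6, 5, 4, 3, 2] [2, 2, 3, 4, 3, 2, 1, 0]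
    (7 : Fin 8) := by
  refine ⟨?_, ?_, ?_, ?_, ?_, ?_, ?_, ?_, ?_, ?_, ?_⟩ <;> decide +kernel
theorem b4 : Ok2 (rF4 ++ rF4.map ng) [2, 4, 3, 2] [2, 2, 1, 0] (3 : Fin 4) := by
  refine ⟨?_, ?_, ?_, ?_, ?_, ?_, ?_, ?_, ?_, ?_, ?_⟩ <;> decide +kernel
theorem b2 : Ok2 (rG2 ++ rG2.map ng) [3, 2] [1, 0] (1 : Fin 2) := by
  refine ⟨?_, ?_, ?_, ?_, ?_, ?_, ?_, ?_, ?_, ?_, ?_⟩ <;> decide +kernel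

end ROOTS

open ROOTS in
theorem st_roots : S_roots.{u} := by
  rintro Φ _ C (⟨v, h⟩ | ⟨v, h⟩ | ⟨v, h⟩ | ⟨v, h⟩ | ⟨v, h⟩)
  exacts [main h a6 b6, main h a7 b7, main h a8 b8, main h a4 b4, main h a2 b2]

end Pool.Agent.Lib.PRC
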