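import Pool.Agent.Lib.PRC.Api

namespace Pool.Agent.Lib.PRC

open Matrix Pool.Agent.Lib.MP_3a0263_al Pool.Agent.Lib.MP_3a0263_al.R Pool.Agent.Lib.MP_3a0263_al.Q

attribute [local instance 100] LieRing.ofAssociativeRing

universe u

namespace STRONG

theorem row_A {k : Type u} [Field k] (l : ℕ) (j : Fin l) :
    ∑ i : Fin l, ((i.val : k) + 1) * (CartanMatrix.A l i j : k) =
      if j.val + 1 = l then (l : k) + 1 else 0 := by
  have h : ∀ i : Fin l, ((i.val : k) + 1) * (CartanMatrix.A l i j : k) =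
      (if i.val = j.val then 2 * ((j.val : k) + 1) else 0) -
        (if i.val + 1 = j.val then (j.val : k) else 0) -
        (if i.val = j.val + 1 then (j.val : k) + 2 else 0) := by
    intro i
    simp only [CartanMatrix.A, Matrix.of_apply, Fin.ext_iff]
    by_cases h1 : i.val = j.val
    · simp [h1]; ring
    · by_cases h2 : i.val + 1 = j.val
      · have h3 : i.val ≠ i.val + 1 + 1 := by omega
        simp [h3, ← h2]
      · by_cases h3 : i.val = j.val + 1
        · have h4 : j.val + 1 + 1 ≠ j.val := by omega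
          simp [h3, h4]; ring
        · have h4 : ¬ j.val + 1 = i.val := fun e => h3 e.symm
          simp [h1, h2, h3, h4]
  have s : ∀ (a : ℕ) (c : k), ∑ i : Fin l, (if i.val = a then c else 0) =
      if a < l then c else 0 := fun a c => by
    split_ifs with ha
    · rw [Finset.sum_eq_single ⟨a, ha⟩] <;> simp +contextual [Fin.ext_iff]
    · exact Finset.sum_eq_zero fun i _ => if_neg (by have := i.2; omega)
  have s2 : ∑ i : Fin l, (if i.val + 1 = j.val then (j.val : k) else 0) = j.val := by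
    rcases Nat.eq_zero_or_pos j.val with h0 | h0
    · simp [h0]
    · have := s (j.val - 1) j.val
      rw [if_pos (by have := j.2; omega)] at this
      exact (Finset.sum_congr rfl fun i _ => if_congr (by omega) rfl rfl).trans this
  simp only [h, Finset.sum_sub_distrib, s, s2, if_pos j.2]
  have := j.2
  by_cases h1 : j.val + 1 = l
  · have h2 : (l : k) = (j.val : k) + 1 := by exact_mod_cast congrArg (Nat.cast : ℕ → k) h1.symm
    rw [if_neg (by omega), if_pos h1, h2]; ring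
  · rw [if_pos (by omega), if_neg h1]; ring

theorem ns_A {k : Type u} [Field k] {Φ : Type u} [Fintype Φ] {C : Comb Φ} {l : ℕ} (hl : 1 ≤ l)
    {v : Fin l → Φ} (h : C1.Ty C (CartanMatrix.A l) v) (hns : NS k C) : (l : k) + 1 ≠ 0 := by
  classical
  intro h0
  have key : ∀ (f : Φ → k), ∑ a ∈ C.Δ, f a = ∑ j, f (v j) := fun f => by
    symm
    refine Finset.sum_bij (fun j _ => v j) (fun j _ => h.mem C j) (fun _ _ _ _ e => h.1 e)
      (fun a ha => ?_) fun _ _ => rfl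
    obtain ⟨i, e⟩ := (h.2.1 a).1 ha
    exact ⟨i, Finset.mem_univ _, e⟩
  have := hns (Function.extend v (fun i => (i.val : k) + 1) 0) (fun j hj => by
    obtain ⟨j, rfl⟩ := (h.2.1 j).1 hj
    rw [key]
    simp only [h.1.extend_apply, h.2.2]
    rw [row_A, h0, ite_self]) (v ⟨0, hl⟩) (h.mem C _)
  simp [h.1.extend_apply] at this

end STRONG

open STRONG in
theorem st_strong (k : Type u) [Field k] [IsAlgClosed k] (p : ℕ) [hq : Fact p.Prime] [CharP k p]
    (hp : p ≠ 2) (hchev : S_chev k p) (hmin1 : S_min1 k) (hkmin : S_kmin k) (hta : S_ta)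
    (htb : S_tb) (htd : S_td) (hkil : S_kil k p) : S_strong k p := by
  intro n _ _ L Φ _ R hs
  obtain ⟨-, hns, hca⟩ := hchev n L Φ R hs
  have h2 := two_ne k p hp
  have hc := L0.conn_delta R.toCRoot hs
  have hg := R.goodAll.good
  have four : ((4 : ℤ) : k) ≠ 0 := by
    have : ((4 : ℤ) : k) = 2 * 2 := by norm_num
    rw [this]; exact mul_ne_zero h2 h2
  rcases C1.classOn R.toComb hc (L0.delta_nonempty R.toCRoot hs) with
    ⟨l, hl, v, h⟩ | ⟨l, hl, v, h⟩ | ⟨l, hl, v, h⟩ | ⟨l, hl, v, h⟩ |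
    ⟨v, h⟩ | ⟨v, h⟩ | ⟨v, h⟩ | ⟨v, h⟩ | ⟨v, h⟩
  · obtain ⟨X, _, w, r, x0, m1, m2, i, m3⟩ := hta.1 l hl
    refine hmin1 L l _ _ _ _ (hca l _ v h) X w r x0 m1 ?_ ⟨i, ?_⟩
    · rw [m2]; push_cast; exact ns_A hl h hns
    · rw [m3]; exact_mod_cast h2
  · obtain ⟨X, _, w, r, x0, ng, s, ε, z, m1, m2, -, i, m3⟩ := htb l hl
    by_cases h0 : (Fintype.card X : k) = 0
    · exact hkmin L l _ _ _ _ (hca l _ v h) X w r x0 m1 ng s ε z m2 h0 ⟨i, m3 ▸ four⟩
    · exact hmin1 L l _ _ _ _ (hca l _ v h) X w r x0 m1 h0 ⟨i, m3 ▸ four⟩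
  · obtain ⟨X, _, w, r, x0, m1, m2, i, m3⟩ := hta.2 l hl
    refine hmin1 L l _ _ _ _ (hca l _ v h) X w r x0 m1 ?_ ⟨i, ?_⟩
    · rw [m2]; push_cast; exact pow_ne_zero _ h2
    · rw [m3]; push_cast; exact pow_ne_zero _ h2
  · obtain ⟨X, _, w, r, x0, ng, s, ε, z, m1, m2, -, i, m3⟩ := htd l hl
    by_cases h0 : (Fintype.card X : k) = 0
    · exact hkmin L l _ _ _ _ (hca l _ v h) X w r x0 m1 ng s ε z m2 h0 ⟨i, m3 ▸ four⟩
    · exact hmin1 L l _ _ _ _ (hca l _ v h) X w r x0 m1 h0 ⟨i, m3 ▸ four⟩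
  · exact hkil n L Φ R hs (Or.inl ⟨v, h⟩) (C1.caseK_E6 _ h hc hq.out hg)
  · exact hkil n L Φ R hs (Or.inr (Or.inl ⟨v, h⟩)) (C1.caseK_E7 _ h hc hq.out hg)
  · exact hkil n L Φ R hs (Or.inr (Or.inr (Or.inl ⟨v, h⟩))) (C1.caseK_E8 _ h hc hq.out hg)
  · exact hkil n L Φ R hs (Or.inr (Or.inr (Or.inr (Or.inl ⟨v, h⟩))))
      (C1.caseK_F4 _ h hc hq.out hg)
  · exact hkil n L Φ R hs (Or.inr (Or.inr (Or.inr (Or.inr ⟨v, h⟩))))
      (C1.caseK_G2 _ h hc hq.out hg)

end Pool.Agent.Lib.PRC
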