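import Pool.Agent.Lib.PRC.Api
import Pool.Agent.Lib.MP_3a0263_al.Q.T_SA
import Pool.Agent.Lib.MP_3a0263_al.Q.T_SC

/-! Row TA of the project rc71: natural weights in type A and spin weights. -/

namespace Pool.Agent.Lib.PRC

open Finset Pool.Agent.Lib.MP_3a0263_al Pool.Agent.Lib.MP_3a0263_al.Q

namespace TA

/-- a minuscule set with a single dominant member, as a type -/
theorem pack {l : ℕ} (M : Matrix (Fin l) (Fin l) ℤ) (h2 : ∀ i, M i i = 2)
    (hle : ∀ i j, i ≠ j → M i j ≤ 0) (hs : ∀ i j, M i j = 0 → M j i = 0)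
    (S : Finset (Fin l → ℤ)) (hS : MinS M S) (μ0 : Fin l → ℤ) (h0 : μ0 ∈ S) (hd : ∀ i, 0 ≤ μ0 i)
    (hu : ∀ μ ∈ S, (∀ i, 0 ≤ μ i) → μ = μ0) (N : ℕ) (hN : S.card = N) (c : ℤ) (i0 : Fin l)
    (hc : ∑ μ ∈ S, μ i0 * μ i0 = c) :
    ∃ (X : Type) (_ : Fintype X) (w : X → Fin l → ℤ) (r : Fin l → X → X) (x0 : X),
      MD M w r x0 ∧ Fintype.card X = N ∧ ∃ i, ∑ x, w x i * w x i = c := by
  refine ⟨S, inferInstance, fun x => x.1, fun i x => ⟨_, hS.2 x.1 x.2 i⟩, ⟨μ0, h0⟩,
    ⟨⟨h2, hle, hs, fun x i => hS.1 x.1 x.2 i, fun i x j => rfl,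
      fun x y h => Subtype.ext (funext h)⟩, hd, fun x hx => Subtype.ext (hu x.1 x.2 hx)⟩,
    by rw [Fintype.card_coe, hN], i0, ?_⟩
  rw [← hc]
  exact sum_coe_sort S (fun μ => μ i0 * μ i0)

theorem minA (n : ℕ) : MinS (CartanMatrix.A n) ((range (n + 1)).image (SA.w n)) := by
  refine ⟨fun μ hμ i => ?_, fun μ hμ i => ?_⟩
  · obtain ⟨a, -, rfl⟩ := mem_image.1 hμ
    exact SA.w_val n a i
  · obtain ⟨a, ha, rfl⟩ := mem_image.1 hμ
    rw [SA.w_refl]
    refine mem_image_of_mem _ (mem_range.2 ?_)
    have := mem_range.1 ha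
    have := i.2
    split_ifs <;> omega

open SC in
theorem minC (n : ℕ) :
    MinS (CartanMatrix.C n) ((powerset (range n)).image fun T => u n (ch T)) := by
  refine ⟨fun μ hμ i => ?_, fun μ hμ i => ?_⟩
  · obtain ⟨T, -, rfl⟩ := mem_image.1 hμ
    have h1 := ch_val T i
    have h2 := ch_val T (i + 1)
    unfold u
    split_ifs <;> omega
  · obtain ⟨T, hT, rfl⟩ := mem_image.1 hμ
    have hT' := mem_powerset.1 hT
    have hi := i.2
    by_cases h : i.val + 1 = n
    · refine mem_image.2 ⟨(range n).filter fun a => if a = i.val then a ∉ T else a ∈ T,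
        mem_powerset.2 (filter_subset _ _), (refl_last _ _ i h ?_ fun a ha => ?_).symm⟩
      · by_cases e : i.val ∈ T <;> simp [ch, e]
      · by_cases e : a ∈ T
        · simp [ch, e, ha, mem_range.1 (hT' e)]
        · simp [ch, e, ha]
    · refine mem_image.2 ⟨(range n).filter fun a =>
        if a = i.val then i.val + 1 ∈ T else if a = i.val + 1 then i.val ∈ T else a ∈ T,
        mem_powerset.2 (filter_subset _ _), (refl_mid _ _ i h ?_ ?_ fun a ha hb => ?_).symm⟩
      · simp [ch]
      · have : i.val + 1 < n := by omega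
        simp [ch, this]
      · by_cases e : a ∈ T
        · simp [ch, e, ha, hb, mem_range.1 (hT' e)]
        · simp [ch, e, ha, hb]

open SC in
theorem domC (n : ℕ) (T : Finset ℕ) (hT : T ⊆ range n) (h : ∀ i, 0 ≤ u n (ch T) i) :
    T = range n := by
  have H : ∀ d a, a + d + 1 = n → ch T a = 1 := by
    intro d
    induction d with
    | zero =>
      intro a ha
      have h1 := h ⟨a, by omega⟩
      have h2 := ch_val T a
      simp only [u] at h1
      split_ifs at h1 <;> omega
    | succ d ih =>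
      intro a ha
      have h1 := h ⟨a, by omega⟩
      have h2 := ch_val T a
      have h3 := ih (a + 1) (by omega)
      simp only [u] at h1
      split_ifs at h1 <;> omega
  refine Subset.antisymm hT fun a ha => ?_
  have h1 := mem_range.1 ha
  have h2 := H (n - a - 1) a (by omega)
  by_contra hn
  simp [ch, hn] at h2

end TA

open TA in
theorem st_ta : S_ta := by
  refine ⟨fun n hn => ?_, fun n hn => ?_⟩
  · refine pack (CartanMatrix.A n) (fun i => by simp [CartanMatrix.A]) (fun i j h => ?_)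
      (fun i j => ?_) _ (minA n) (SA.w n 0) (mem_image_of_mem _ (mem_range.2 (by omega)))
      (fun i => ?_) (fun μ hμ h => ?_) _ ?_ 2 ⟨0, hn⟩ ?_
    · simp only [CartanMatrix.A, Matrix.of_apply, if_neg h]
      split_ifs <;> omega
    · simp only [CartanMatrix.A, Matrix.of_apply, Fin.ext_iff]
      intro h
      split_ifs at h ⊢ <;> omega
    · simp only [SA.w]
      split_ifs <;> first | omega | contradiction
    · obtain ⟨a, ha, rfl⟩ := mem_image.1 hμ
      have h1 := mem_range.1 ha
      by_cases e : a = 0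
      · rw [e]
      · have h2 := h ⟨a - 1, by omega⟩
        simp only [SA.w] at h2
        split_ifs at h2 <;> omega
    · rw [card_image_of_injOn (SA.w_inj n), card_range]
    · obtain ⟨m, rfl⟩ : ∃ m, n = m + 1 := ⟨n - 1, by omega⟩
      rw [sum_image (SA.w_inj _), sum_range_succ', sum_range_succ']
      simp [SA.w]
  · refine pack (CartanMatrix.C n) (fun i => by simp [CartanMatrix.C]) (fun i j h => ?_)
      (fun i j => ?_) _ (minC n) (SC.u n (SC.ch (range n)))
      (mem_image.2 ⟨range n, mem_powerset_self _, rfl⟩)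
      (fun i => ?_) (fun μ hμ h => ?_) _ ?_ (2 ^ n) ⟨n - 1, by omega⟩ ?_
    · simp only [CartanMatrix.C, Matrix.of_apply, if_neg h]
      split_ifs <;> omega
    · simp only [CartanMatrix.C, Matrix.of_apply, Fin.ext_iff]
      intro h
      split_ifs at h ⊢ <;> omega
    · have := i.2
      simp only [SC.u, SC.ch, mem_range]
      split_ifs <;> omega
    · obtain ⟨T, hT, rfl⟩ := mem_image.1 hμ
      rw [domC n T (mem_powerset.1 hT) h]
    · rw [card_image_of_injOn (SC.u_inj n), card_powerset, card_range]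
    · rw [sum_image (SC.u_inj n)]
      have : ∀ T ∈ powerset (range n), SC.u n (SC.ch T) ⟨n - 1, by omega⟩ *
          SC.u n (SC.ch T) ⟨n - 1, by omega⟩ = 1 := by
        intro T _
        have e : n - 1 + 1 = n := by omega
        simp only [SC.u, e, if_true]
        rcases SC.ch_val T (n - 1) with h | h <;> rw [h] <;> norm_num
      rw [sum_congr rfl this]
      simp

end Pool.Agent.Lib.PRC
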