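import Pool.Agent.Lib.PRC.Api
import Pool.Agent.Lib.MP_3a0263_al.Q.T_SB

/-! Row TB of the project rc71: the weights plus or minus `ε_a` for the matrix `B l`. -/

namespace Pool.Agent.Lib.PRC

open Finset Pool.Agent.Lib.MP_3a0263_al Pool.Agent.Lib.MP_3a0263_al.Q

namespace TB

open SA SB

/-- the reflections on indices -/
def rf (n i : ℕ) (x : ℕ × ℤ) : ℕ × ℤ :=
  if x.1 = i then (if x.1 + 1 = n then (x.1, -x.2) else (x.1 + 1, x.2))
    else if x.1 = i + 1 then (i, x.2) else x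

theorem rf_mem {n : ℕ} (i : Fin n) {x : ℕ × ℤ} (h : x ∈ ix n) : rf n i x ∈ ix n := by
  obtain ⟨a1, a2⟩ := mem_ix.1 h
  have := i.2
  refine mem_ix.2 ?_
  unfold rf
  split_ifs <;> (try dsimp only) <;> omega

theorem ng_mem {n : ℕ} {x : ℕ × ℤ} (h : x ∈ ix n) : (x.1, -x.2) ∈ ix n := by
  obtain ⟨a1, a2⟩ := mem_ix.1 h
  refine mem_ix.2 ⟨a1, ?_⟩
  dsimp only
  omega

/-- the sign -/
def sg (x : ℕ × ℤ) : ℤ := if x.1 % 2 = 0 then x.2 else -x.2

theorem sg_rf {n : ℕ} (i : Fin n) (x : ℕ × ℤ) (h : v n x i ≠ 0) : sg (rf n i x) = - sg x := by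
  have h1 : x.1 = i ∨ x.1 = i + 1 := by
    by_contra c
    refine h ?_
    simp only [v, w]
    rw [if_neg (by omega), if_neg (by omega)]
    simp
  unfold rf
  by_cases e1 : x.1 = i
  · rw [if_pos e1]
    by_cases e2 : x.1 + 1 = n
    · rw [if_pos e2]
      unfold sg
      dsimp only
      split_ifs <;> omega
    · rw [if_neg e2]
      unfold sg
      dsimp only
      split_ifs <;> omega
  · rw [if_neg e1, if_pos (by omega)]
    unfold sg
    dsimp only
    split_ifs <;> omega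

theorem neg_at {n a : ℕ} (ha : a < n) : v n (a, -1) ⟨a, ha⟩ < 0 := by
  simp [v, w]

theorem neg_pred {n a : ℕ} (ha : a < n) : v n (a + 1, 1) ⟨a, ha⟩ < 0 := by
  simp [v, w]

theorem zero_at {n a : ℕ} (ha : a + 1 < n) : v n (0, 1) ⟨a + 1, ha⟩ = 0 := by
  simp [v, w]

end TB

open SA SB TB in
theorem st_tb : S_tb := by
  intro l hl
  refine ⟨{x // x ∈ ix l}, inferInstance, fun x => v l x.1, fun i x => ⟨rf l i x.1, rf_mem i x.2⟩,
    ⟨(0, 1), mem_ix.2 ⟨by omega, Or.inl rfl⟩⟩, fun x => ⟨(x.1.1, -x.1.2), ng_mem x.2⟩,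
    fun x => sg x.1, -1, ⟨(1, 1), mem_ix.2 ⟨by omega, Or.inl rfl⟩⟩,
    ⟨⟨fun i => ?_, fun i j h => ?_, fun i j h => ?_, fun x i => ?_, fun i x j => ?_,
      fun x y h => Subtype.ext (v_inj l x.2 y.2 (funext h))⟩, fun i => ?_, fun x h => ?_⟩,
    ⟨fun x i => ?_, fun x => ?_, fun i x h => sg_rf i x.1 h, fun x => ?_, fun y h => ?_,
      Or.inl rfl⟩, ?_, ⟨0, by omega⟩, ?_⟩
  · simp [CartanMatrix.B]
  · simp only [CartanMatrix.B, Matrix.of_apply, if_neg h]
    split_ifs <;> omega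
  · simp only [CartanMatrix.B, Matrix.of_apply, Fin.ext_iff] at h ⊢
    split_ifs at h ⊢ <;> omega
  · have := w_val l x.1.1 i
    rcases (mem_ix.1 x.2).2 with h | h <;> rw [v, h] <;> omega
  · exact (congrFun (v_refl l x.1.1 x.1.2 (mem_ix.1 x.2).1 i) j).symm
  · simp only [v, w, Nat.succ_ne_zero, if_false]
    split_ifs <;> decide
  · obtain ⟨⟨a, t⟩, hx⟩ := x
    obtain ⟨a1, rfl | rfl⟩ := mem_ix.1 hx
    · cases a with
      | zero => rfl
      | succ a => exact absurd (h ⟨a, by omega⟩) (not_le.2 (neg_pred _))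
    · exact absurd (h ⟨a, a1⟩) (not_le.2 (neg_at _))
  · simp [v]
  · have := (mem_ix.1 x.2).2
    unfold sg
    split_ifs <;> omega
  · unfold sg
    dsimp only
    split_ifs <;> omega
  · obtain ⟨⟨a, t⟩, hy⟩ := y
    obtain ⟨a1, rfl | rfl⟩ := mem_ix.1 hy
    · rcases a with _ | _ | a
      · exact Or.inl rfl
      · exact Or.inr (Or.inr rfl)
      · exact absurd (h ⟨a + 1, by omega⟩ (zero_at _)) (not_le.2 (neg_pred _))
    · cases a with
      | zero => exact Or.inr (Or.inl rfl)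
      | succ a => exact absurd (h ⟨a + 1, a1⟩ (zero_at _)) (not_le.2 (neg_at _))
  · rw [Fintype.card_coe, ix, card_product, card_range, card_pair (by decide), mul_comm]
  · rw [sum_coe_sort (ix l) fun x => v l x ⟨0, by omega⟩ * v l x ⟨0, by omega⟩]
    obtain ⟨m, rfl⟩ : ∃ m, l = m + 2 := ⟨l - 2, by omega⟩
    rw [ix, sum_product, sum_range_succ', sum_range_succ']
    simp [v, w]

end Pool.Agent.Lib.PRC
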