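import Pool.Agent.Lib.PRC.Api
import Pool.Agent.Lib.MP_3a0263_al.Q.T_SD2

namespace Pool.Agent.Lib.PRC

open Finset Pool.Agent.Lib.MP_3a0263_al.Q Pool.Agent.Lib.MP_3a0263_al.Q.SB
  Pool.Agent.Lib.MP_3a0263_al.Q.SD2

namespace TD

/-- the simple reflections on the index pairs -/
def rf (m i : ℕ) (x : ℕ × ℤ) : ℕ × ℤ :=
  if i = m + 3 then
    (if x.1 = m + 2 then (m + 3, -x.2) else if x.1 = m + 3 then (m + 2, -x.2) else x)
  else (if x.1 = i then (i + 1, x.2) else if x.1 = i + 1 then (i, x.2) else x)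

lemma rf_mem {m : ℕ} (i : Fin (m + 4)) {x : ℕ × ℤ} (hx : x ∈ ix (m + 4)) :
    rf m i x ∈ ix (m + 4) := by
  have := i.2
  rw [mem_ix] at hx ⊢
  unfold rf
  split_ifs <;> (try dsimp only) <;> omega

lemma rf_refl {m : ℕ} (i : Fin (m + 4)) (x : ℕ × ℤ) :
    (fun j => u m (dl x) j - u m (dl x) i * CartanMatrix.D (m + 4) j i) =
      u m (dl (rf m i x)) := by
  obtain ⟨a, s⟩ := x
  by_cases h : i.val = m + 3
  · refine refl_last _ _ i h ?_ ?_ fun b h1 h2 => ?_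
    all_goals
      simp only [rf, if_pos h]
      split_ifs <;> simp only [dl] <;> split_ifs <;> omega
  · refine refl_mid _ _ i h ?_ ?_ fun b h1 h2 => ?_
    all_goals
      simp only [rf, if_neg h]
      split_ifs <;> simp only [dl] <;> split_ifs <;> omega

lemma neg_mem {n : ℕ} {x : ℕ × ℤ} (hx : x ∈ ix n) : (x.1, -x.2) ∈ ix n := by
  rw [mem_ix] at hx ⊢
  dsimp only
  omega

lemma low {m : ℕ} {x : ℕ × ℤ} (hx : x ∈ ix (m + 4)) (j : ℕ) (hj : j < m + 4)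
    (h : 0 ≤ u m (dl x) ⟨j, hj⟩) : ¬ (x.2 = 1 ∧ x.1 = j + 1) ∧ ¬ (x.2 = -1 ∧ x.1 = j) := by
  rw [mem_ix] at hx
  simp only [u, dl] at h
  split_ifs at h <;> omega

end TD

open TD in
theorem st_td : S_td := by
  intro l hl
  obtain ⟨m, rfl⟩ : ∃ m, l = m + 4 := ⟨l - 4, by omega⟩
  have m0 : ((0, 1) : ℕ × ℤ) ∈ ix (m + 4) := mem_ix.2 ⟨by omega, .inl rfl⟩
  have m1 : ((1, 1) : ℕ × ℤ) ∈ ix (m + 4) := mem_ix.2 ⟨by omega, .inl rfl⟩
  refine ⟨ix (m + 4), inferInstance, fun x => u m (dl x.1), fun i x => ⟨_, rf_mem i x.2⟩, ⟨_, m0⟩,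
    fun x => ⟨_, neg_mem x.2⟩, fun x => if x.1.1 % 2 = 0 then 1 else -1, 1, ⟨_, m1⟩,
    ⟨⟨fun i => ?_, fun i j h => ?_, fun i j h => ?_, fun x i => ?_, fun i x j => ?_,
      fun x y h => ?_⟩, fun i => ?_, fun x h => ?_⟩,
    ⟨fun x i => ?_, fun x => ?_, fun i x h => ?_, fun x => ?_, fun y h => ?_,
      .inr ⟨rfl, ⟨0, by omega⟩, ?_, ?_⟩⟩, ?_, ⟨0, by omega⟩, ?_⟩
  · rw [D_eq, if_pos rfl]
  · rw [D_eq, if_neg (Fin.val_ne_of_ne h)]
    split_ifs <;> omega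
  · rw [D_eq] at h ⊢
    split_ifs at h ⊢ <;> omega
  · have := (mem_ix.1 x.2).2
    simp only [u, dl]
    split_ifs <;> omega
  · exact (congrFun (rf_refl i x.1) j).symm
  · exact Subtype.ext (SD2.v_inj m x.2 y.2 (funext h))
  · simp only [u, dl]
    split_ifs <;> first | omega | contradiction
  · obtain ⟨⟨a, s⟩, hx⟩ := x
    obtain ⟨a1, a2⟩ := mem_ix.1 hx
    have h1 := (low hx a a1 (h _)).2
    have h2 := (low hx (a - 1) (by omega) (h _)).1
    dsimp only at a1 a2 h1 h2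
    exact Subtype.ext (Prod.ext (by dsimp only; omega) (by dsimp only; omega))
  · simp only [u, dl]
    split_ifs <;> omega
  · split_ifs <;> simp
  · have := i.2
    simp only [u, dl] at h
    simp only [rf]
    split_ifs at h ⊢ <;> (try dsimp only at *) <;> omega
  · rw [one_mul]
  · obtain ⟨⟨a, s⟩, hx⟩ := y
    obtain ⟨a1, a2⟩ := mem_ix.1 hx
    have h0 : ∀ j (hj : j < m + 4), j ≠ 0 → u m (dl (0, 1)) ⟨j, hj⟩ = 0 := fun j hj h => by
      simp only [u, dl]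
      split_ifs <;> first | omega | contradiction
    have h1 := fun e => (low hx a a1 (h _ (h0 _ _ e))).2
    have h2 := fun e => (low hx (a - 1) (by omega) (h _ (h0 _ _ e))).1
    simp only [Subtype.ext_iff, Prod.ext_iff]
    dsimp only at a1 a2 h1 h2
    omega
  · simp [u, dl]
  · exact Subtype.ext (by simp [rf])
  · rw [Fintype.card_coe, ix, card_product, card_range, card_pair (by norm_num), mul_comm]
  · rw [sum_coe_sort (ix (m + 4)) fun x => u m (dl x) ⟨0, by omega⟩ * u m (dl x) ⟨0, by omega⟩,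
      ix, sum_product, sum_range_succ', sum_range_succ']
    simp [u, dl]

end Pool.Agent.Lib.PRC
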