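import Pool.Agent.Lib.PRC.Api

namespace Pool.Agent.Lib.PRC

open LinearMap

attribute [local instance 100] LieRing.ofAssociativeRing

universe u

namespace TR

variable {k : Type u} [Field k] {L : Type u} [LieRing L] [LieAlgebra k L]

variable (k) in
/-- adjoint operators as a linear map -/
abbrev ad : L →ₗ[k] Module.End k L := (LieModule.toEnd k L L : L →ₗ[k] Module.End k L)

theorem ad_apply (a u : L) : ad k a u = ⁅a, u⁆ := rfl

theorem ad_lie (a b : L) : ad k ⁅a, b⁆ = ad k a * ad k b - ad k b * ad k a := by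
  ext u; simp [ad_apply]

/-- two-sided multiplication -/
abbrev lr (A B : Module.End k L) : Module.End k (L →ₗ[k] L) := mulLeftRight k (A, B)

theorem lr_mul (A B A' B' : Module.End k L) : lr A B * lr A' B' = lr (A * A') (B' * B) := by
  ext1 φ
  change A * (A' * φ * B') * B = A * A' * φ * (B' * B)
  simp only [mul_assoc]

theorem toEnd_eq (a : L) :
    LieModule.toEnd k L (L →ₗ[k] L) a = lr (ad k a) 1 - lr 1 (ad k a) := by
  ext φ u
  simp [ad_apply]

theorem kap_eq (a b : L) : killingForm k L a b = trace k L (ad k a * ad k b) := rfl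

theorem kap_symm (a b : L) : killingForm k L a b = killingForm k L b a :=
  LieModule.traceForm_comm k L L a b

variable {ι : Type} [Fintype ι] {x y : ι → L}

/-- adjointness for the Killing form -/
def Adj (B B' : Module.End k L) : Prop :=
  ∀ u w, killingForm k L (B u) w = killingForm k L u (B' w)

theorem Adj.mul {A A' B B' : Module.End k L} (h : Adj A A') (h' : Adj B B') :
    Adj (A * B) (B' * A') := fun u w => by
  rw [Module.End.mul_apply, h, h', Module.End.mul_apply]

theorem adj_one : Adj (1 : Module.End k L) 1 := fun _ _ => rfl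

theorem adj_ad (H : IF L (killingForm k L) 1) (a : L) : Adj (ad k a) (- ad k a) := fun u w => by
  rw [ad_apply, H.inv, LinearMap.neg_apply, map_neg, ad_apply]

theorem Adj.trace (D : DB (killingForm k L) x y) {A A' : Module.End k L} (h : Adj A A') :
    trace k L A = trace k L A' := by
  rw [D.trace, D.symm.trace]
  exact Finset.sum_congr rfl fun a _ => by rw [h, kap_symm]

theorem tr_ad (H : IF L (killingForm k L) 1) (D : DB (killingForm k L) x y) (h2 : (2 : k) ≠ 0)
    (a : L) : trace k L (ad k a) = 0 := by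
  have := (adj_ad H a).trace D
  rw [map_neg] at this
  exact (mul_eq_zero.1 (by linear_combination this : 2 * trace k L (ad k a) = 0)).resolve_left h2

theorem tr_three (H : IF L (killingForm k L) 1) (D : DB (killingForm k L) x y) (a b c : L) :
    2 * trace k L (ad k a * ad k b * ad k c) = killingForm k L ⁅a, b⁆ c := by
  have := (((adj_ad H a).mul (adj_ad H b)).mul (adj_ad H c)).trace D
  rw [kap_eq, ad_lie, sub_mul, map_sub]
  simp only [neg_mul, mul_neg, neg_neg, map_neg] at this
  rw [trace_mul_comm k (ad k c)] at this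
  linear_combination this

theorem R1 (H : IF L (killingForm k L) 1) (D : DB (killingForm k L) x y) (z : L) :
    ∑ a, ⁅x a, ⁅y a, z⁆⁆ = z := by
  rw [← sub_eq_zero]
  refine H.nd _ fun w => ?_
  rw [map_sub, LinearMap.sub_apply, sub_eq_zero, map_sum, LinearMap.sum_apply, kap_eq z w, D.trace]
  refine Finset.sum_congr rfl fun a _ => ?_
  rw [Module.End.mul_apply, ad_apply, ad_apply, H.inv (x a), H.inv z, kap_symm ⁅y a, z⁆,
    ← lie_skew w (x a), ← lie_skew (y a) z]
  simp only [map_neg, LinearMap.neg_apply, neg_neg]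

theorem R1' (H : IF L (killingForm k L) 1) (D : DB (killingForm k L) x y) :
    ∑ a, ad k (x a) * ad k (y a) = 1 := by
  ext z
  rw [LinearMap.sum_apply]
  exact R1 H D z

variable {U : Type*} [AddCommGroup U] [Module k U]

theorem G1 (H : IF L (killingForm k L) 1) (D : DB (killingForm k L) x y) (f : L →ₗ[k] L →ₗ[k] U)
    (z : L) : ∑ a, f ⁅z, x a⁆ (y a) = - ∑ a, f (x a) ⁅z, y a⁆ := by
  have := D.transfer kap_symm f _ _ (adj_ad H z)
  simpa only [ad_apply, LinearMap.neg_apply, map_neg, Finset.sum_neg_distrib] using this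

theorem R3 (H : IF L (killingForm k L) 1) (D : DB (killingForm k L) x y) (f : L →ₗ[k] L →ₗ[k] U) :
    ∑ a, ∑ b, f ⁅x a, x b⁆ ⁅y a, y b⁆ = - ∑ c, f (x c) (y c) := by
  have h : ∀ a, ∑ b, f ⁅x a, x b⁆ ⁅y a, y b⁆ = - ∑ b, f (x b) ⁅y a, ⁅x a, y b⁆⁆ := fun a =>
    G1 H D (f.compl₂ (ad k (y a))) (x a)
  simp only [h, Finset.sum_neg_distrib]
  rw [Finset.sum_comm]
  congr 1
  exact Finset.sum_congr rfl fun b _ => by rw [← map_sum, R1 H D.symm]

variable (k) in
/-- the bilinear map `(u, w) ↦ ad u * φ * ad w` -/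
def sw (φ : Module.End k L) : L →ₗ[k] L →ₗ[k] Module.End k L :=
  LinearMap.mk₂ k (fun u w => ad k u * φ * ad k w) (fun _ _ _ => by simp [add_mul])
    (fun _ _ _ => by simp) (fun _ _ _ => by simp [mul_add]) (fun _ _ _ => by simp)

theorem sw_apply (φ : Module.End k L) (u w : L) : sw k φ u w = ad k u * φ * ad k w := rfl

theorem R2 (H : IF L (killingForm k L) 1) (D : DB (killingForm k L) x y) (z : L) :
    (2 : k) • ∑ a, ad k (x a) * ad k z * ad k (y a) = ad k z := by
  have h1 := G1 H D.symm (sw k 1) z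
  have h2 := D.swap kap_symm ((sw k 1).compl₂ (ad k z))
  simp only [sw_apply, mul_one, compl₂_apply, ad_apply] at h1 h2
  have h3 : ∑ a, ad k (x a) * ad k ⁅z, y a⁆ - ∑ a, ad k ⁅z, y a⁆ * ad k (x a) = - ad k z := by
    rw [← Finset.sum_sub_distrib]
    simp only [← ad_lie]
    rw [← map_sum, ← map_neg]
    congr 1
    conv_rhs => rw [← R1 H D z, ← Finset.sum_neg_distrib]
    exact Finset.sum_congr rfl fun a _ => by rw [← lie_skew z, lie_neg]
  have h4 : ∑ a, ad k (x a) * ad k z * ad k (y a) =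
      ad k z + ∑ a, ad k (x a) * ad k ⁅z, y a⁆ := by
    conv_rhs => rw [← one_mul (ad k z), ← R1' H D, Finset.sum_mul, ← Finset.sum_add_distrib]
    exact Finset.sum_congr rfl fun a _ => by rw [ad_lie]; noncomm_ring
  rw [h4, two_smul]
  rw [h1, ← h2] at h3
  linear_combination (norm := abel) h3

theorem R4 (H : IF L (killingForm k L) 1) (D : DB (killingForm k L) x y) (φ : Module.End k L) :
    (2 : k) • ∑ a, ∑ b, ad k (x a) * ad k (x b) * φ * ad k (y a) * ad k (y b) =
      (2 : k) • ∑ a, ad k (x a) * (∑ b, ad k (x b) * φ * ad k (y b)) * ad k (y a) -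
        ∑ a, ad k (x a) * φ * ad k (y a) := by
  have h1 := R3 H D (sw k φ)
  simp only [sw_apply] at h1
  have h2 : ∑ a, ∑ b, ad k (x a) * ad k (x b) * φ * ad k ⁅y a, y b⁆ =
      - ∑ a, ∑ b, ad k (x b) * ad k (x a) * φ * ad k ⁅y a, y b⁆ := by
    rw [Finset.sum_comm, ← Finset.sum_neg_distrib]
    refine Finset.sum_congr rfl fun a _ => ?_
    rw [← Finset.sum_neg_distrib]
    exact Finset.sum_congr rfl fun b _ => by rw [← lie_skew, map_neg, mul_neg]
  have h3 : ∑ a, ∑ b, ad k ⁅x a, x b⁆ * φ * ad k ⁅y a, y b⁆ =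
      ∑ a, ∑ b, ad k (x a) * ad k (x b) * φ * ad k ⁅y a, y b⁆ -
        ∑ a, ∑ b, ad k (x b) * ad k (x a) * φ * ad k ⁅y a, y b⁆ := by
    simp only [← Finset.sum_sub_distrib, ad_lie (x _), sub_mul]
  have h4 : ∑ a, ∑ b, ad k (x a) * ad k (x b) * φ * ad k (y a) * ad k (y b) =
      ∑ a, ad k (x a) * (∑ b, ad k (x b) * φ * ad k (y b)) * ad k (y a) +
        ∑ a, ∑ b, ad k (x a) * ad k (x b) * φ * ad k ⁅y a, y b⁆ := by
    simp only [Finset.mul_sum, Finset.sum_mul, ← Finset.sum_add_distrib]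
    exact Finset.sum_congr rfl fun a _ => Finset.sum_congr rfl fun b _ => by
      rw [ad_lie]; noncomm_ring
  rw [h4, two_smul, two_smul]
  rw [h3] at h1
  linear_combination (norm := abel) h1 + h2

theorem R5 (H : IF L (killingForm k L) 1) (D : DB (killingForm k L) x y) :
    (2 : k) • ∑ a, ∑ b, ad k (x a) * ad k (x b) * ad k (y a) * ad k (y b) = 1 := by
  have := R4 H D 1
  simp only [mul_one, R1' H D] at this
  rw [this, two_smul, add_sub_cancel_right]

theorem R6 (H : IF L (killingForm k L) 1) (D : DB (killingForm k L) x y) (h2 : (2 : k) ≠ 0)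
    (z : L) : ∑ a, ∑ b, ad k (x a) * ad k (x b) * ad k z * ad k (y a) * ad k (y b) = 0 := by
  have h1 := R4 H D (ad k z)
  have h3 : (2 : k) • ∑ a, ad k (x a) * (∑ b, ad k (x b) * ad k z * ad k (y b)) * ad k (y a) =
      ∑ a, ad k (x a) * ad k z * ad k (y a) := by
    rw [Finset.smul_sum]
    exact Finset.sum_congr rfl fun a _ => by rw [← smul_mul_assoc, ← mul_smul_comm, R2 H D z]
  rw [h3, sub_self] at h1
  exact (smul_eq_zero.1 h1).resolve_left h2

theorem cas_eq (H : IF L (killingForm k L) 1) (D : DB (killingForm k L) x y) :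
    cas k (L →ₗ[k] L) x y = (2 : k) • (1 - ∑ a, lr (ad k (x a)) (ad k (y a))) := by
  have h1 : ∑ a, lr (ad k (x a) * ad k (y a)) 1 = 1 := by
    ext1 φ
    rw [LinearMap.sum_apply]
    change ∑ a, ad k (x a) * ad k (y a) * φ * 1 = φ
    rw [← Finset.sum_mul, ← Finset.sum_mul, R1' H D, one_mul, mul_one]
  have h2 : ∑ a, lr 1 (ad k (y a) * ad k (x a)) = 1 := by
    ext1 φ
    rw [LinearMap.sum_apply]
    change ∑ a, 1 * φ * (ad k (y a) * ad k (x a)) = φ
    rw [← Finset.mul_sum, R1' H D.symm, one_mul, mul_one]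
  have h3 : ∑ a, lr (ad k (y a)) (ad k (x a)) = ∑ a, lr (ad k (x a)) (ad k (y a)) := by
    ext1 φ
    rw [LinearMap.sum_apply, LinearMap.sum_apply]
    exact (D.swap kap_symm (sw k φ)).symm
  simp only [cas, toEnd_eq, sub_mul, mul_sub, lr_mul, mul_one, one_mul, Finset.sum_sub_distrib,
    h1, h2, h3]
  rw [two_smul]; abel

variable {Λ : Module.End k (L →ₗ[k] L) →ₗ[k] k}

theorem lam1 (H : IF L (killingForm k L) 1) (hΛ : LamA (killingForm k L) 1 Λ)
    {A B B' : Module.End k L} (h : Adj B B') :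
    Λ ((∑ a, lr (ad k (x a)) (ad k (y a))) * lr A B) =
      ∑ a, trace k L (ad k (x a) * A) * trace k L (B * ad k (y a)) -
        trace k L ((∑ a, ad k (x a) * A * ad k (y a)) * B') := by
  rw [Finset.sum_mul, Finset.sum_mul, map_sum, map_sum, ← Finset.sum_sub_distrib]
  refine Finset.sum_congr rfl fun a _ => ?_
  rw [lr_mul, hΛ _ _ _ (h.mul (adj_ad H (y a))), neg_mul, mul_neg, map_neg, one_mul,
    ← mul_assoc, sub_eq_add_neg]

theorem lam2 (H : IF L (killingForm k L) 1) (hΛ : LamA (killingForm k L) 1 Λ)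
    {A B B' : Module.End k L} (h : Adj B B') :
    Λ ((∑ a, lr (ad k (x a)) (ad k (y a))) * ((∑ a, lr (ad k (x a)) (ad k (y a))) * lr A B)) =
      ∑ a, ∑ b, trace k L (ad k (x a) * ad k (x b) * A) *
          trace k L (B * ad k (y b) * ad k (y a)) +
        trace k L ((∑ a, ∑ b, ad k (x a) * ad k (x b) * A * ad k (y a) * ad k (y b)) * B') := by
  simp only [Finset.sum_mul, Finset.mul_sum, map_sum]
  rw [Finset.sum_comm]
  simp only [← Finset.sum_add_distrib]
  refine Finset.sum_congr rfl fun a _ => Finset.sum_congr rfl fun b _ => ?_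
  rw [lr_mul, lr_mul, hΛ _ _ _ ((h.mul (adj_ad H (y b))).mul (adj_ad H (y a)))]
  simp only [neg_mul, mul_neg, neg_neg, one_mul, mul_assoc]

theorem kk1 (D : DB (killingForm k L) x y) (z : L) :
    ∑ a, killingForm k L (x a) z * killingForm k L z (y a) = killingForm k L z z := by
  conv_rhs => rw [← D.hx z]
  conv_rhs => enter [2]; rw [D.hx z]
  rw [map_sum, LinearMap.sum_apply]
  exact Finset.sum_congr rfl fun a _ => by
    rw [map_smul, LinearMap.smul_apply, smul_eq_mul, mul_comm]

theorem kk2 (D : DB (killingForm k L) x y) (f : L →ₗ[k] k) (u : L) :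
    ∑ b, f (x b) * killingForm k L (y b) u = f u := by
  conv_rhs => rw [← D.hx u, map_sum]
  exact Finset.sum_congr rfl fun a _ => by rw [map_smul, smul_eq_mul, mul_comm, kap_symm]

end TR

open TR in
theorem st_tr (k : Type u) [Field k] [IsAlgClosed k] (p : ℕ) [Fact p.Prime] [CharP k p]
    (hp : p ≠ 2) : S_tr k := by
  intro L _ _ _ H hd ι _ x y D Λ hΛ z
  have h2 := two_ne k p hp
  set Z := ad k z with hZ
  set S := ∑ a, lr (ad k (x a)) (ad k (y a)) with hS
  set t := killingForm k L z z with ht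
  have hzz : trace k L (Z * Z) = t := rfl
  have h1 : trace k L 1 = 0 := by rw [trace_one, hd]
  have a1 : Adj Z (-Z) := adj_ad H z
  have a2 : Adj (Z * Z) (Z * Z) := by simpa only [neg_mul_neg] using a1.mul a1
  have hT : LieModule.toEnd k L (L →ₗ[k] L) z * LieModule.toEnd k L (L →ₗ[k] L) z =
      lr (Z * Z) 1 - lr Z Z - lr Z Z + lr 1 (Z * Z) := by
    simp only [toEnd_eq, sub_mul, mul_sub, lr_mul, mul_one, one_mul, ← hZ]; abel
  have b1 : Λ (lr (Z * Z) 1) = t := by
    rw [hΛ _ _ _ adj_one, h1, mul_one, hzz]; ring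
  have b2 : Λ (lr Z Z) = - t := by
    rw [hΛ _ _ _ a1, tr_ad H D h2, mul_neg, map_neg, hzz]; ring
  have b3 : Λ (lr 1 (Z * Z)) = t := by
    rw [hΛ _ _ _ a2, h1, one_mul, one_mul, hzz]; ring
  have c1 : Λ (S * lr (Z * Z) 1) = - t := by
    rw [lam1 H hΛ adj_one]
    simp only [one_mul, mul_one, tr_ad H D h2, mul_zero, Finset.sum_const_zero, map_sum, zero_sub]
    congr 1
    rw [← hzz]
    conv_rhs => rw [← mul_one (Z * Z), ← R1' H D.symm, Finset.mul_sum, map_sum]
    exact Finset.sum_congr rfl fun a _ => by rw [mul_assoc, trace_mul_comm, mul_assoc]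
  have c2 : 2 * Λ (S * lr Z Z) = 3 * t := by
    rw [lam1 H hΛ a1, mul_neg, map_neg]
    have e := congrArg (fun φ => trace k L (φ * Z)) (R2 H D z)
    simp only [smul_mul_assoc, map_smul, smul_eq_mul] at e
    have e' := kk1 D z
    simp only [kap_eq (x _), kap_eq z (y _)] at e'
    rw [e']
    linear_combination e + hzz
  have c3 : Λ (S * lr 1 (Z * Z)) = - t := by
    rw [lam1 H hΛ a2]
    simp only [mul_one, tr_ad H D h2, zero_mul, Finset.sum_const_zero, R1' H D, one_mul, hzz,
      zero_sub]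
  have d1 : 2 * Λ (S * (S * lr (Z * Z) 1)) = 3 * t := by
    rw [lam2 H hΛ adj_one]
    have e := congrArg (fun φ => trace k L (Z * Z * φ)) (R5 H D.symm)
    simp only [mul_smul_comm, map_smul, smul_eq_mul, mul_one, hzz] at e
    have e1 : ∑ a, ∑ b, trace k L (ad k (x a) * ad k (x b) * (Z * Z)) *
        trace k L (1 * ad k (y b) * ad k (y a)) = t := by
      rw [← hzz]
      conv_rhs => rw [← one_mul (Z * Z), ← R1' H D, Finset.sum_mul, map_sum]
      refine Finset.sum_congr rfl fun a _ => ?_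
      have := kk2 D (trace k L ∘ₗ mulRight k (Z * Z) ∘ₗ sw k 1 (x a)) (y a)
      simpa only [comp_apply, sw_apply, mul_one, one_mul, mulRight_apply, kap_eq] using this
    have e2 : trace k L ((∑ a, ∑ b, ad k (x a) * ad k (x b) * (Z * Z) * ad k (y a) *
        ad k (y b)) * 1) = trace k L (Z * Z * ∑ a, ∑ b, ad k (y a) * ad k (y b) * ad k (x a) *
          ad k (x b)) := by
      simp only [mul_one, Finset.mul_sum, map_sum]
      refine Finset.sum_congr rfl fun a _ => Finset.sum_congr rfl fun b _ => ?_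
      rw [mul_assoc _ (ad k (y a)), mul_assoc _ (Z * Z), trace_mul_comm]
      simp only [mul_assoc]
    rw [e1, e2]
    linear_combination e
  have d2 : 4 * Λ (S * (S * lr Z Z)) = t := by
    rw [lam2 H hΛ a1, R6 H D h2, zero_mul, map_zero, add_zero]
    have e := R3 H D ((LinearMap.mul k k).compl₁₂ ((killingForm k L).flip z) (killingForm k L z))
    change ∑ a, ∑ b, killingForm k L ⁅x a, x b⁆ z * killingForm k L z ⁅y a, y b⁆ =
      - ∑ c, killingForm k L (x c) z * killingForm k L z (y c) at e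
    rw [kk1 D z] at e
    rw [← neg_neg t, ht, ← e, Finset.mul_sum, ← Finset.sum_neg_distrib]
    refine Finset.sum_congr rfl fun a _ => ?_
    rw [Finset.mul_sum, ← Finset.sum_neg_distrib]
    refine Finset.sum_congr rfl fun b _ => ?_
    rw [mul_assoc Z, trace_mul_comm k Z, ← tr_three H D, kap_symm z, ← lie_skew (y a), map_neg,
      LinearMap.neg_apply, ← tr_three H D]
    ring
  have d3 : 2 * Λ (S * (S * lr 1 (Z * Z))) = 3 * t := by
    rw [lam2 H hΛ a2]
    have e := congrArg (fun φ => trace k L (φ * (Z * Z))) (R5 H D)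
    simp only [smul_mul_assoc, map_smul, smul_eq_mul, one_mul, hzz] at e
    have e1 : ∑ a, ∑ b, trace k L (ad k (x a) * ad k (x b) * 1) *
        trace k L (Z * Z * ad k (y b) * ad k (y a)) = t := by
      rw [← hzz]
      conv_rhs => rw [← mul_one (Z * Z), ← R1' H D, Finset.mul_sum, map_sum]
      rw [Finset.sum_comm]
      have h3 := D.swap kap_symm ((sw k 1).compr₂ (trace k L ∘ₗ mulLeft k (Z * Z)))
      simp only [compr₂_apply, comp_apply, sw_apply, mul_one, mulLeft_apply] at h3
      rw [h3]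
      refine Finset.sum_congr rfl fun b _ => ?_
      have := kk2 D.symm (trace k L ∘ₗ mulLeft k (Z * Z) ∘ₗ sw k 1 (y b)) (x b)
      simp only [comp_apply, sw_apply, mul_one, mulLeft_apply, kap_eq] at this
      rw [← this]
      exact Finset.sum_congr rfl fun a _ => by rw [mul_one, mul_comm, mul_assoc]
    simp only [mul_one] at e1 ⊢
    rw [e1]
    linear_combination e
  have f0 : Λ (lr (Z * Z) 1 - lr Z Z - lr Z Z + lr 1 (Z * Z)) = 4 * t := by
    simp only [map_add, map_sub, b1, b2, b3]; ring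
  have f1 : Λ (S * (lr (Z * Z) 1 - lr Z Z - lr Z Z + lr 1 (Z * Z))) = - 5 * t := by
    simp only [mul_add, mul_sub, map_add, map_sub, c1, c3]; linear_combination - c2
  have f2 : 2 * Λ (S * (S * (lr (Z * Z) 1 - lr Z Z - lr Z Z + lr 1 (Z * Z)))) = 5 * t := by
    simp only [mul_add, mul_sub, map_add, map_sub]; linear_combination d1 + d3 - d2
  rw [op, op, hT, cas_eq H D, ← hS, pow_one, sq]
  generalize lr (Z * Z) 1 - lr Z Z - lr Z Z + lr 1 (Z * Z) = T at f0 f1 f2
  simp only [smul_mul_assoc, mul_smul_comm, sub_mul, mul_sub, one_mul, mul_one, mul_assoc, map_smul,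
    map_sub, smul_eq_mul, f0, f1]
  exact ⟨by ring, by linear_combination 2 * f2⟩

end Pool.Agent.Lib.PRC
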