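import Pool.Agent.Lib.PRC.Api
import Pool.Agent.Lib.MP_3a0263_al.Q.Conv

namespace Pool.Agent.Lib.PRC

open Matrix Pool.Agent.Lib.MP_3a0263_al Pool.Agent.Lib.MP_3a0263_al.R Pool.Agent.Lib.MP_3a0263_al.Q

attribute [local instance 100] LieRing.ofAssociativeRing

universe u

variable {k : Type u} [Field k] {p : ℕ}

theorem Strong.of_equiv {g g' : Type u} [LieRing g] [LieAlgebra k g] [LieRing g'] [LieAlgebra k g']
    (e : g ≃ₗ⁅k⁆ g') (h : Strong k g') : Strong k g := by
  obtain ⟨Y, _, _, _, _, hfd, hi, hd, x, y, hxy⟩ := h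
  let _ : LieRingModule g Y := LieRingModule.compLieHom Y e.toLieHom
  have : LieModule k g Y := LieModule.compLieHom Y e.toLieHom
  have he : ∀ x : g, LieModule.toEnd k g Y x = LieModule.toEnd k g' Y (e x) := fun x => rfl
  refine ⟨Y, inferInstance, inferInstance, inferInstance, inferInstance, hfd, ?_, hd,
    e.symm x, e.symm y, ?_⟩
  · have := LieModule.nontrivial_of_isIrreducible k g' Y
    refine LieModule.IsIrreducible.mk fun N hN => ?_
    let N' : LieSubmodule k g' Y :=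
      { N.toSubmodule with
        lie_mem := fun {x m} hm => by
          obtain ⟨y, rfl⟩ := e.surjective x
          exact N.lie_mem (x := y) hm }
    rcases hi.eq_bot_or_eq_top N' with h1 | h1
    · exact absurd (LieSubmodule.ext N ⊥ fun m => SetLike.ext_iff.1 h1 m) hN
    · exact LieSubmodule.ext N ⊤ fun m => SetLike.ext_iff.1 h1 m
  · rw [LieModule.traceForm_apply_apply, he, he, e.apply_symm_apply, e.apply_symm_apply]
    exact hxy

theorem rich_gl (m : ℕ) (hm : 0 < m) : HasRichardson k (Matrix (Fin m) (Fin m) k) := by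
  let ρ : Matrix (Fin m) (Fin m) k →ₗ⁅k⁆ Module.End k (Fin m → k) :=
    (Matrix.toLinAlgEquiv' (R := k) (n := Fin m)).toAlgHom.toLieHom
  let _ : LieRingModule (Matrix (Fin m) (Fin m) k) (Fin m → k) :=
    LieRingModule.compLieHom (Fin m → k) ρ
  have : LieModule k (Matrix (Fin m) (Fin m) k) (Fin m → k) := LieModule.compLieHom (Fin m → k) ρ
  have he : ∀ x, LieModule.toEnd k (Matrix (Fin m) (Fin m) k) (Fin m → k) x =
      Matrix.toLinAlgEquiv' x := fun x => rfl
  have hs : Function.Surjective (LieModule.toEnd k (Matrix (Fin m) (Fin m) k) (Fin m → k)) :=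
    (Matrix.toLinAlgEquiv' (R := k) (n := Fin m)).surjective
  have : Nonempty (Fin m) := ⟨⟨0, hm⟩⟩
  refine ⟨Fin m → k, inferInstance, inferInstance, inferInstance, inferInstance, inferInstance,
    ⟨(Matrix.toLinAlgEquiv' (R := k) (n := Fin m)).injective⟩, ?_, ⊥, ?_, fun x r hr => ?_⟩
  · refine LieModule.IsIrreducible.mk fun N hN => ?_
    obtain ⟨v, hv, h0⟩ := (LieSubmodule.eq_bot_iff N).not.1 hN |> not_forall₂.1
    rw [eq_top_iff]
    intro w _
    obtain ⟨f, hf⟩ : ∃ f : Module.End k (Fin m → k), f v = w := by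
      obtain ⟨l, hl⟩ := Module.Projective.exists_dual_ne_zero k h0
      exact ⟨((l v)⁻¹ • l).smulRight w, by simp [hl]⟩
    obtain ⟨x, rfl⟩ := hs f
    rw [← hf]
    exact N.lie_mem hv
  · rw [LinearMap.range_eq_top.2 hs]
    exact isCompl_top_bot
  · rw [(Submodule.mem_bot k).1 hr, lie_zero]
    exact Submodule.zero_mem _

section ideals

variable {g : Type u} [LieRing g] [LieAlgebra k g]

theorem compl_of_indep {S : Set (LieIdeal k g)} (h1 : sSupIndep S)
    (h2 : IsCompl (LieAlgebra.center k g) (sSup S)) {I : LieIdeal k g} (hI : I ∈ S)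
    (hs : LieAlgebra.IsSimple k I) :
    IsCompl I (LieAlgebra.center k g ⊔ sSup (S \ {I})) := by
  constructor
  · rw [disjoint_iff, eq_bot_iff]
    rintro x ⟨hx, hx'⟩
    obtain ⟨z, hz, y, hy, rfl⟩ := (LieSubmodule.mem_sup _ _ _).1 hx'
    have : (⟨z + y, hx⟩ : I) ∈ LieAlgebra.center k I := fun a => Subtype.ext (by
      change ⁅a.1, z + y⁆ = 0
      have h3 : ⁅a.1, y⁆ ∈ I ⊓ sSup (S \ {I}) :=
        ⟨lie_mem_left k g I _ _ a.2, LieSubmodule.lie_mem _ hy⟩
      rw [(h1 hI).eq_bot] at h3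
      rw [lie_add, hz a.1, (LieSubmodule.mem_bot _).1 h3, add_zero])
    rw [LieAlgebra.center_eq_bot] at this
    exact congrArg Subtype.val ((LieSubmodule.mem_bot _).1 this)
  · rw [codisjoint_iff, ← sup_assoc, sup_comm I, sup_assoc, ← sSup_insert,
      Set.insert_sdiff_singleton, Set.insert_eq_of_mem hI]
    exact h2.sup_eq_top

variable {g' : Type u} [LieRing g'] [LieAlgebra k g']

/-- the order isomorphism of ideals along an equivalence -/
def idealIso (e : g ≃ₗ⁅k⁆ g') : LieIdeal k g' ≃o LieIdeal k g where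
  toFun I := I.comap e.toLieHom
  invFun I := I.comap e.symm.toLieHom
  left_inv I := by ext x; simp [LieIdeal.mem_comap]
  right_inv I := by ext x; simp [LieIdeal.mem_comap]
  map_rel_iff' := fun {I J} => ⟨fun h x hx => by
    obtain ⟨y, rfl⟩ := e.surjective x
    exact h (show y ∈ I.comap e.toLieHom from hx), fun h x hx => h hx⟩

/-- an ideal and its preimage are isomorphic -/
def idealEquiv (e : g ≃ₗ⁅k⁆ g') (I : LieIdeal k g') : idealIso e I ≃ₗ⁅k⁆ I where
  toFun x := ⟨e x.1, x.2⟩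
  map_add' x y := Subtype.ext (map_add e x.1 y.1)
  map_smul' c x := Subtype.ext (map_smul e c x.1)
  map_lie' := fun {x y} => Subtype.ext (e.map_lie x.1 y.1)
  invFun y := ⟨e.symm y.1, by
    change e (e.symm y.1) ∈ I
    rw [e.apply_symm_apply]; exact y.2⟩
  left_inv x := Subtype.ext (e.symm_apply_apply x.1)
  right_inv y := Subtype.ext (e.apply_symm_apply y.1)

theorem idealIso_center (e : g ≃ₗ⁅k⁆ g') :
    idealIso e (LieAlgebra.center k g') = LieAlgebra.center k g := by
  ext x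
  refine ⟨fun h a => e.injective ?_, fun h a => ?_⟩
  · rw [LieHom.map_lie, map_zero]; exact h (e a)
  · obtain ⟨a, rfl⟩ := e.surjective a
    exact (e.map_lie a x).symm.trans (by rw [h a, map_zero])

end ideals

theorem center_le_one {g : Type u} [LieRing g] [LieAlgebra k g] {n : Type} [Fintype n]
    [DecidableEq n] {L : LieSubalgebra k (Matrix n n k)} {π : Matrix n n k →ₗ[k] Matrix n n k}
    (e : g ≃ₗ⁅k⁆ L) (hR : Rich L π) : Module.finrank k (LieAlgebra.center k g) ≤ 1 := by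
  let f : LieAlgebra.center k g →ₗ[k] Matrix n n k :=
    L.toSubmodule.subtype ∘ₗ e.toLieHom.toLinearMap ∘ₗ
      (LieAlgebra.center k g).toSubmodule.subtype
  have hf : Function.Injective f := fun x y h =>
    Subtype.ext (e.injective (Subtype.ext h))
  have h1 : LinearMap.range f ≤ Submodule.span k {1} := by
    rintro _ ⟨x, rfl⟩
    obtain ⟨c, hc⟩ := hR.cent (z := f x) fun y hy => by
      obtain ⟨a, ha⟩ := e.surjective ⟨y, hy⟩
      have h2 : ⁅e.toLieHom a, e.toLieHom x.1⁆ = 0 := by rw [← LieHom.map_lie, x.2 a, map_zero]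
      rw [ha] at h2
      exact congrArg Subtype.val h2
    exact Submodule.mem_span_singleton.2 ⟨c, hc.symm⟩
  rw [← LinearMap.finrank_range_of_inj hf]
  exact (Submodule.finrank_mono h1).trans ((finrank_span_le_card _).trans (by simp))

/-- the classification -/
theorem main (h0 : S_n0 k p) (h1 : S_n1 k p) (h2 : S_n2 k p) (h3a : S_n3a k p) (h3b : S_n3b k p)
    (h4 : S_n4 k p) (hres : S_res k) (hprod : S_prod k) (hst : S_strong k p)
    (hsi : ∀ (g : Type u) [LieRing g] [LieAlgebra k g], LieAlgebra.IsSimple k g →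
      (HasRichardson k g ↔ InClassC k p g))
    [hp : Fact p.Prime] (g : Type u) [LieRing g] [LieAlgebra k g] [FiniteDimensional k g] :
    HasRichardson k g ↔
      (∃ r : ℕ, 1 ≤ r ∧ Nonempty (g ≃ₗ⁅k⁆ Matrix (Fin (r * p)) (Fin (r * p)) k)) ∨
      (Module.finrank k (LieAlgebra.center k g) ≤ 1 ∧ ∃ S : Set (LieIdeal k g), sSupIndep S ∧
        IsCompl (LieAlgebra.center k g) (sSup S) ∧
        ∀ I ∈ S, LieAlgebra.IsSimple k I ∧ InClassC k p I) := by
  constructor
  · intro h
    obtain ⟨n, _, _, L, π, Φ, _, ⟨e⟩, hR, ⟨R⟩⟩ := h0 g h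
    by_cases hns : NS k R.toComb
    · obtain ⟨S, s1, s2, s3⟩ := h1 n L Φ R hns
      have t0 : ∀ T, idealIso e (sSup T) = sSup (idealIso e '' T) := fun T => by
        rw [OrderIso.map_sSup, sSup_image]
      have t1 : sSupIndep (idealIso e '' S) := by
        rintro _ ⟨I, hI, rfl⟩
        rw [← Set.image_singleton, ← Set.image_sdiff (idealIso e).injective, ← t0]
        exact (s1 hI).map_orderIso _
      have t2 : IsCompl (LieAlgebra.center k g) (sSup (idealIso e '' S)) := by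
        rw [← idealIso_center e, ← t0]
        exact (idealIso e).isCompl s2
      refine Or.inr ⟨center_le_one e hR, idealIso e '' S, t1, t2, ?_⟩
      rintro _ ⟨I, hI, rfl⟩
      have hs := isSimple_of_equiv (idealEquiv e I).symm (s3 I hI)
      exact ⟨hs, (hsi _ hs).1 (hres g h _ _ (compl_of_indep t1 t2 ⟨I, hI, rfl⟩ hs))⟩
    · obtain ⟨N, v, hv, r, hr⟩ := h2 Φ R.toComb R.goodAll hns
      obtain ⟨d, d1, d2⟩ := R.cow (v 0) (hv.mem 0)
      obtain ⟨φ, f1, f2, f3⟩ := h3a n L Φ R N v hv d d1 d2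
      obtain ⟨e'⟩ := h4 n L π hR (N + 2) (by omega) ⟨r, hr⟩ φ
        (h3b n L Φ R N v hv d d1 d2 φ f1 f2 f3)
      refine Or.inl ⟨r, Nat.pos_of_ne_zero (by rintro rfl; simp at hr), ?_⟩
      rw [mul_comm, ← hr]
      exact ⟨e.trans e'⟩
  · rintro (⟨r, hr, ⟨e⟩⟩ | ⟨hc, S, s1, s2, s3⟩)
    · exact rich_of_equiv e (rich_gl _ (Nat.mul_pos hr hp.out.pos))
    · refine hprod g hc S s1 s2 fun I hI => ⟨(s3 I hI).1, ?_⟩
      obtain ⟨n, _, _, L, π, Φ, _, ⟨e⟩, -, ⟨R⟩⟩ := h0 I ((hsi I (s3 I hI).1).2 (s3 I hI).2)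
      exact (hst n L Φ R (isSimple_of_equiv e (s3 I hI).1)).of_equiv e

end Pool.Agent.Lib.PRC
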