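import Pool.Agent.Lib.MP_3a0263_al.R.Final
import Pool.Agent.Lib.MP_3a0263_al.R.B_BASE
import Pool.Agent.Lib.MP_3a0263_al.R.B_DIAG
import Pool.Agent.Lib.MP_3a0263_al.R.B_EIG
import Pool.Agent.Lib.MP_3a0263_al.R.B_FAM
import Pool.Agent.Lib.MP_3a0263_al.R.B_GOOD
import Pool.Agent.Lib.MP_3a0263_al.R.B_GRP
import Pool.Agent.Lib.MP_3a0263_al.R.B_JM
import Pool.Agent.Lib.MP_3a0263_al.R.B_KOL
import Pool.Agent.Lib.MP_3a0263_al.R.B_MOD1
import Pool.Agent.Lib.MP_3a0263_al.R.B_MOD2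
import Pool.Agent.Lib.MP_3a0263_al.R.B_NIL
import Pool.Agent.Lib.MP_3a0263_al.R.B_ODD1
import Pool.Agent.Lib.MP_3a0263_al.R.B_ODD2
import Pool.Agent.Lib.MP_3a0263_al.R.B_ODD3
import Pool.Agent.Lib.MP_3a0263_al.R.B_P3
import Pool.Agent.Lib.MP_3a0263_al.R.B_REFL
import Pool.Agent.Lib.MP_3a0263_al.R.B_SETUP
import Pool.Agent.Lib.MP_3a0263_al.R.B_SL2
import Pool.Agent.Lib.MP_3a0263_al.R.B_SL3
import Pool.Agent.Lib.MP_3a0263_al.R.B_THETA
import Pool.Agent.Lib.MP_3a0263_al.R.B_TOR1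
import Pool.Agent.Lib.MP_3a0263_al.R.B_TOR2
import Pool.Agent.Lib.MP_3a0263_al.R.B_TWO1
import Pool.Agent.Lib.MP_3a0263_al.R.B_TWO2
import Pool.Agent.Lib.MP_3a0263_al.R.B_ZAR
import Pool.Agent.Lib.MP_3a0263_al.Q.ClassC
import Pool.Agent.Lib.MP_3a0263_al.Q.Conv
import Pool.Agent.Lib.MP_3a0263_al.Q.GFinal
import Pool.Agent.Lib.MP_3a0263_al.Q.TraceFinal
import Pool.Agent.Lib.PRC.Final
import Pool.Agent.Lib.PRC.B_BR
import Pool.Agent.Lib.PRC.B_CAS
import Pool.Agent.Lib.PRC.B_CHEV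
import Pool.Agent.Lib.PRC.B_FIT
import Pool.Agent.Lib.PRC.B_FR1
import Pool.Agent.Lib.PRC.B_FR2
import Pool.Agent.Lib.PRC.B_FR3S
import Pool.Agent.Lib.PRC.B_GLG
import Pool.Agent.Lib.PRC.B_GRL
import Pool.Agent.Lib.PRC.B_KIL
import Pool.Agent.Lib.PRC.B_KK
import Pool.Agent.Lib.PRC.B_KMIN
import Pool.Agent.Lib.PRC.B_MINU
import Pool.Agent.Lib.PRC.B_N0
import Pool.Agent.Lib.PRC.B_N1
import Pool.Agent.Lib.PRC.B_N2
import Pool.Agent.Lib.PRC.B_N3A
import Pool.Agent.Lib.PRC.B_N3B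
import Pool.Agent.Lib.PRC.B_N4
import Pool.Agent.Lib.PRC.B_PROD
import Pool.Agent.Lib.PRC.B_RES
import Pool.Agent.Lib.PRC.B_ROOTS
import Pool.Agent.Lib.PRC.B_STRONG
import Pool.Agent.Lib.PRC.B_TA
import Pool.Agent.Lib.PRC.B_TB
import Pool.Agent.Lib.PRC.B_TD
import Pool.Agent.Lib.PRC.B_TR

namespace Pool.Agent.Lib.PRC

open Pool.Agent.Lib.MP_3a0263_al Pool.Agent.Lib.MP_3a0263_al.R Pool.Agent.Lib.MP_3a0263_al.Q

attribute [local instance 100] LieRing.ofAssociativeRing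

universe u

variable (k : Type u) [Field k] [IsAlgClosed k] (p : ℕ) [Fact p.Prime] [CharP k p]

/-- the Richardson property implies membership in the class -/
theorem only_if (g : Type u) [LieRing g] [LieAlgebra k g] (hp : p ≠ 2 ∨ LieAlgebra.IsSimple k g)
    (h : HasRichardson k g) : InClassC k p g :=
  have he := st_eig k p (st_p3 k p)
  ⟨concl_of_richardson
    ⟨st_setup k, st_diag k p, st_odd1 k p he (st_jm k), st_odd2 k p, st_odd3 k p,
      st_two1 k p he, st_two2 k p, st_refl k p, st_base k, st_nil k p, st_sl2 k p, st_sl3 k p,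
      R.st_theta k p (st_fam k), st_good k p, st_mod1 k, st_mod2 k p,
      st_grp k p (st_zar k) (st_kol k), st_tor1 k p (st_zar k), st_tor2 k p⟩ g h hp,
    not_psl g h hp⟩

/-- the simple case -/
theorem simple_iff (g : Type u) [LieRing g] [LieAlgebra k g] (hs : LieAlgebra.IsSimple k g) :
    HasRichardson k g ↔ InClassC k p g :=
  ⟨only_if k p g (Or.inr hs), fun ⟨⟨_, _, _, _, r, h1, h2, h3, h4, _⟩, _⟩ =>
    rich_of_lie (st_group k p) (st_trace k p) hs r h1 h2 h3 h4⟩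

/-- every simple algebra with root data has a simple module of dimension prime to `p` with
nonzero trace form -/
theorem strong_all (hp : p ≠ 2) : S_strong k p :=
  have hbr := st_br k p hp
  have hgen := st_gen k p hp hbr
  have hchev := st_chev k p hp hgen
  have hdet := st_det k p hp
  have hminu := st_minu k p hp
  have h1 := st_fr1 k p hp
  have h2 := st_fr2 k p hp
  have h3 := st_fr3 k p hp
  have hs := st_simple k p hp
  st_strong k p hp hchev (st_min1 k p hp hminu) (st_kmin k p hp hdet hminu h1 h2 h3 hs)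
    st_ta st_tb st_td (st_kil k p hp hchev h1 h2 h3 (st_cas k p hp) (st_tr k p hp) (st_grl k p hp)
      (st_kk k p hp hbr hgen hchev hdet) st_roots (st_fit k p hp hs))

/-- the classification for odd `p` -/
theorem classification (hp : p ≠ 2) (g : Type u) [LieRing g] [LieAlgebra k g]
    [FiniteDimensional k g] :
    HasRichardson k g ↔
      (∃ r : ℕ, 1 ≤ r ∧ Nonempty (g ≃ₗ⁅k⁆ Matrix (Fin (r * p)) (Fin (r * p)) k)) ∨
      (Module.finrank k (LieAlgebra.center k g) ≤ 1 ∧ ∃ S : Set (LieIdeal k g), sSupIndep S ∧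
        IsCompl (LieAlgebra.center k g) (sSup S) ∧
        ∀ I ∈ S, LieAlgebra.IsSimple k I ∧ InClassC k p I) :=
  have hbr := st_br k p hp
  have hglg := st_glg k p hp
  main (st_n0 k p hp) (st_n1 k p hp hbr) (st_n2 k p hp) (st_n3a k p hp hbr hglg)
    (st_n3b k p hp (st_gen k p hp hbr) hglg) (st_n4 k p hp) (st_res k p hp) (st_prod k p hp)
    (strong_all k p hp) (simple_iff k p) g

end Pool.Agent.Lib.PRC
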