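import Pool.Agent.Lib.PRC.Blue

namespace Pool.Agent.Lib.PRC

open Matrix Pool.Agent.Lib.MP_3a0263_al Pool.Agent.Lib.MP_3a0263_al.R Pool.Agent.Lib.MP_3a0263_al.Q

attribute [local instance 100] LieRing.ofAssociativeRing

universe u

theorem two_ne (k : Type u) [Field k] (p : ℕ) [h : Fact p.Prime] [CharP k p] (hp : p ≠ 2) :
    (2 : k) ≠ 0 := fun h2 =>
  hp ((Nat.prime_dvd_prime_iff_eq h.out Nat.prime_two).1
    ((CharP.cast_eq_zero_iff k p 2).1 (by exact_mod_cast h2)))

section roots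

variable {k : Type u} [Field k] {n : Type} [Fintype n] [DecidableEq n] {p : ℕ}
  {L : LieSubalgebra k (Matrix n n k)} {Φ : Type u} [Fintype Φ]

/-- the same data with every root vector replaced by the opposite one -/
def XR.opp (R : XR p L Φ) : XR p L Φ where
  toComb := R.toComb
  t := R.t
  e β := R.e (R.neg β)
  wt β := R.wt (R.neg β)
  tp := R.tp
  cf β := R.cf (R.neg β)
  h β := R.h (R.neg β)
  t_mem := R.t_mem
  e_mem β := R.e_mem _
  lie_e d β := R.lie_e d _
  decomp x hx := by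
    conv_lhs => rw [R.decomp x hx]
    rw [C1.sum_neg R.toComb fun β => R.cf β x • R.e β]
  tp_t := R.tp_t
  tp_e β := R.tp_e _
  cf_t β d := R.cf_t _ d
  cf_self β := R.cf_self _
  cf_ne β γ h := R.cf_ne _ _ fun e => h (by
    rw [← C1.neg_neg R.toComb β, e, C1.neg_neg])
  wt_lin β d := by
    rw [L0.wt_neg R.toCRoot, R.wt_lin, ← Finset.sum_neg_distrib]
    exact Finset.sum_congr rfl fun i _ => by rw [L0.wt_neg R.toCRoot, mul_neg]
  dim := R.dim
  br_cf β γ δ h i hi := by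
    have := R.br_cf _ _ _ h i hi
    rw [R.co_neg _ i hi, R.co_neg _ i hi, R.co_neg _ i hi] at this
    omega
  br_tp β γ h := R.br_tp _ _ fun e => h (by
    rw [← C1.neg_neg R.toComb γ, e, C1.neg_neg])
  h_mem α := R.h_mem _
  wt_h α _ β := by rw [R.wt_hh, C1.m_neg, C1.m_neg_left, neg_neg]
  sq α := R.sq _
  gen α β h1 h2 h3 := absurd (h3 β β 0 h1 h2 fun i _ => by simp) (by simp)
  br_h α := R.br_h _
  wt_hh α β := by rw [R.wt_hh, C1.m_neg, C1.m_neg_left, neg_neg]
  wt_inj β γ h := by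
    have := R.wt_inj _ _ h
    rw [← C1.neg_neg R.toComb β, this, C1.neg_neg]
  good := R.good
  cow i hi := by
    obtain ⟨d, h1, h2⟩ := R.cow i hi
    refine ⟨-d, ?_, fun j hj hji => ?_⟩
    · rw [L0.wt_neg R.toCRoot, map_neg, neg_neg, h1]
    · rw [L0.wt_neg R.toCRoot, map_neg, neg_neg, h2 j hj hji]
  h_nc β := by
    obtain ⟨j, hj, h⟩ := R.h_nc (R.neg β)
    exact ⟨j, hj, by rwa [L0.wt_neg R.toCRoot, neg_ne_zero]⟩

theorem XR.opp_e (R : XR p L Φ) (β : Φ) : R.opp.e β = R.e (R.neg β) := rfl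

theorem XR.opp_comb (R : XR p L Φ) : R.opp.toComb = R.toComb := rfl

theorem XR.opp_xe (R : XR p L Φ) {ι : Type} (v : ι → Φ) : R.opp.xe v = R.xf v := rfl

theorem XR.goodAll (R : XR p L Φ) : GoodAll R.toComb p := R.good

theorem GoodAll.good {C : Comb Φ} (h : GoodAll C p) : C.Good p :=
  fun θ _ _ i hi h0 => h θ i hi h0

theorem XR.wt_self (R : XR p L Φ) (β : Φ) : R.wt β (R.h β) = 2 := by
  rw [R.wt_hh, R.two]; norm_num

theorem XR.wt_ne (R : XR p L Φ) (h2 : (2 : k) ≠ 0) (β : Φ) : R.wt β ≠ 0 := fun h =>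
  h2 (by rw [← R.wt_self β, h, LinearMap.zero_apply])

theorem XR.h_ne (R : XR p L Φ) (h2 : (2 : k) ≠ 0) (β : Φ) : R.h β ≠ 0 := fun h =>
  h2 (by rw [← R.wt_self β, h, map_zero])

end roots

theorem CA.symm {k : Type u} [Field k] {L : Type u} [LieRing L] [LieAlgebra k L] {l : ℕ}
    {A : Fin l → Fin l → ℤ} {e f h : Fin l → L} (c : CA k A e f h) :
    CA k A f e (fun i => - h i) where
  chev := c.chev.symm
  gen x := by rw [DG.Dd_symm]; exact c.gen x
  ind := by
    obtain ⟨N₁, N₂, h1, h2, h3⟩ := c.ind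
    refine ⟨N₂, N₁, h2, h1, fun a ha b hb t h0 => ?_⟩
    obtain ⟨g1, g2, g3⟩ := h3 b hb a ha (-t) (by
      rw [← h0]; simp only [Pi.neg_apply, neg_smul, smul_neg]; abel)
    exact ⟨g3, neg_eq_zero.1 g2, g1⟩
  det := c.det

section frame

variable {k : Type u} [Field k] {W : Type u} [AddCommGroup W] [Module k W]

theorem Gr.out (G : Gr k W) {a : ℤ} (h : a ∉ Finset.Icc (-(G.N : ℤ)) G.N) (w : W) :
    G.P a w = 0 := by
  rw [← G.sum w, map_sum]
  exact Finset.sum_eq_zero fun c hc => G.orth a c (fun e => h (by rw [e]; exact hc)) w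

theorem Gr.eq_zero (G : Gr k W) {w : W} (h : ∀ a, G.P a w = 0) : w = 0 := by
  rw [← G.sum w]; simp [h]

theorem mem_Fix {L : Type u} [LieRing L] [LieAlgebra k L] [LieRingModule L W] [LieModule k L W]
    {ι : Type} {e : ι → L} {w : W} : w ∈ Fix k e W ↔ ∀ i, ⁅e i, w⁆ = 0 := by
  simp [Fix]

theorem mem_symN {L : Type u} [LieRing L] [LieAlgebra k L] [LieRingModule L W] [LieModule k L W]
    {b : W →ₗ[k] W →ₗ[k] k} {ε : k} (H : IF L b ε) {φ : W →ₗ[k] W} :
    φ ∈ symN H ↔ (∀ u w, b (φ u) w = b u (φ w)) ∧ LinearMap.trace k W φ = 0 := Iff.rfl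

theorem mem_scal {L : Type u} [LieRing L] [LieAlgebra k L] [LieRingModule L W] [LieModule k L W]
    {b : W →ₗ[k] W →ₗ[k] k} {ε : k} (H : IF L b ε) {φ : symN H} :
    φ ∈ scal H ↔ ∃ c : k, φ.1 = c • LinearMap.id := Iff.rfl

variable {κ : W →ₗ[k] W →ₗ[k] k} {ι : Type} [Fintype ι] {x y : ι → W}
  {U : Type*} [AddCommGroup U] [Module k U]

theorem DB.symm (D : DB κ x y) : DB κ y x := ⟨D.hy, D.hx⟩

/-- move an operator from the first slot to the second -/
theorem DB.transfer (D : DB κ x y) (hs : ∀ u w, κ u w = κ w u) (f : W →ₗ[k] W →ₗ[k] U)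
    (s s' : W →ₗ[k] W) (h : ∀ u w, κ (s u) w = κ u (s' w)) :
    ∑ a, f (s (x a)) (y a) = ∑ a, f (x a) (s' (y a)) := by
  have e1 : ∀ a, f (s (x a)) (y a) = ∑ c, κ (s (x a)) (y c) • f (x c) (y a) := fun a => by
    conv_lhs => rw [← D.hx (s (x a))]
    simp [map_sum, LinearMap.sum_apply]
  have e2 : ∀ c, f (x c) (s' (y c)) = ∑ a, κ (s (x a)) (y c) • f (x c) (y a) := fun c => by
    conv_lhs => rw [← D.hy (s' (y c))]
    simp only [map_sum, map_smul]
    exact Finset.sum_congr rfl fun a _ => by rw [h, hs]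
  simp only [e1, e2]
  exact Finset.sum_comm

/-- the two families can be exchanged -/
theorem DB.swap (D : DB κ x y) (hs : ∀ u w, κ u w = κ w u) (f : W →ₗ[k] W →ₗ[k] U) :
    ∑ a, f (x a) (y a) = ∑ a, f (y a) (x a) := by
  have e1 : ∀ a, f (x a) (y a) = ∑ c, ∑ d, (κ (x a) (x c) * κ (y a) (y d)) • f (y c) (x d) :=
    fun a => by
      conv_lhs => rw [← D.hy (x a), ← D.hx (y a)]
      simp only [map_sum, map_smul, LinearMap.sum_apply, LinearMap.smul_apply, Finset.smul_sum,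
        smul_smul]
      rw [Finset.sum_comm]
      exact Finset.sum_congr rfl fun c _ => Finset.sum_congr rfl fun d _ => by rw [mul_comm]
  have e2 : ∀ c d, ∑ a, κ (x a) (x c) * κ (y a) (y d) = κ (x c) (y d) := fun c d => by
    conv_rhs => rw [← D.hy (x c)]
    simp only [map_sum, map_smul, LinearMap.sum_apply, LinearMap.smul_apply, smul_eq_mul]
    exact Finset.sum_congr rfl fun a _ => by rw [hs (x a)]
  simp only [e1]
  rw [Finset.sum_comm]
  refine Finset.sum_congr rfl fun c _ => ?_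
  rw [Finset.sum_comm]
  simp only [← Finset.sum_smul, e2]
  conv_rhs => rw [← D.hx (x c)]
  simp [map_sum]

/-- the trace in terms of dual bases -/
theorem DB.trace (D : DB κ x y) (T : W →ₗ[k] W) :
    LinearMap.trace k W T = ∑ a, κ (T (x a)) (y a) := by
  classical
  have hfin : Module.Finite k W := ⟨⟨Finset.univ.image x, by
    rw [eq_top_iff]
    intro v _
    rw [← D.hx v]
    exact Submodule.sum_mem _ fun a _ => Submodule.smul_mem _ _
      (Submodule.subset_span (by simp))⟩⟩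
  have : T = ∑ a, (κ.flip (y a) ∘ₗ T).smulRight (x a) := by
    ext v
    simp only [LinearMap.sum_apply, LinearMap.smulRight_apply, LinearMap.comp_apply,
      LinearMap.flip_apply]
    exact (D.hx _).symm
  conv_lhs => rw [this]
  rw [map_sum]
  exact Finset.sum_congr rfl fun a _ => by rw [LinearMap.trace_smulRight]; rfl

end frame

end Pool.Agent.Lib.PRC
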