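import Pool.Agent.Lib.PRC.Api

namespace Pool.Agent.Lib.PRC

open Matrix Pool.Agent.Lib.MP_3a0263_al Pool.Agent.Lib.MP_3a0263_al.R Pool.Agent.Lib.MP_3a0263_al.Q

attribute [local instance 100] LieRing.ofAssociativeRing

universe u

namespace CHEV

open DG

variable {k : Type u} [Field k] {n : Type} [Fintype n] [DecidableEq n] {p : ℕ}
  {L : LieSubalgebra k (Matrix n n k)} {Φ : Type u} [Fintype Φ] (R : XR p L Φ)

theorem finrank_eq (hs : LieAlgebra.IsSimple k L) :
    Module.finrank k L = R.Δ.card + Fintype.card Φ := by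
  classical
  let f : L →ₗ[k] R.t × (Φ → k) := (R.tp ∘ₗ L.toSubmodule.subtype).prod
    (LinearMap.pi fun β => R.cf β ∘ₗ L.toSubmodule.subtype)
  have h1 : Function.Injective f := (injective_iff_map_eq_zero _).2 fun x hx =>
    Subtype.ext (L0.eq_zero R.toCRoot x.2 (congrArg Prod.fst hx)
      fun β => congrFun (congrArg Prod.snd hx) β)
  have h2 : Function.Surjective f := fun y => by
    refine ⟨⟨diagonal y.1.1 + ∑ β, y.2 β • R.e β, L.add_mem (R.t_mem _)
      (L.toSubmodule.sum_mem fun β _ => L.smul_mem _ (R.e_mem β))⟩, Prod.ext ?_ (funext fun γ => ?_)⟩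
    · change R.tp (diagonal y.1.1 + ∑ β, y.2 β • R.e β) = y.1
      rw [map_add, map_sum, R.tp_t]
      simp [R.tp_e]
    · change R.cf γ (diagonal y.1.1 + ∑ β, y.2 β • R.e β) = y.2 γ
      rw [map_add, map_sum, R.cf_t, zero_add, Finset.sum_eq_single γ]
      · rw [map_smul, R.cf_self, smul_eq_mul, mul_one]
      · intro β _ h
        rw [map_smul, R.cf_ne _ _ h.symm, smul_zero]
      · simp
  rw [(LinearEquiv.ofBijective f ⟨h1, h2⟩).finrank_eq, Module.finrank_prod,
    L0.finrank_t R.toCRoot hs, Module.finrank_fintype_fun_eq_card]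

variable {l : ℕ} {v : Fin l → Φ} {M : Matrix (Fin l) (Fin l) ℤ}

theorem chev (h : C1.Ty R.toComb M v) : Chev M (R.xe v) (R.xf v) (R.xh v) := by
  refine ⟨fun i j => Subtype.ext (L0.diag_lie R.toCRoot _ _), fun i j => Subtype.ext ?_,
    fun i j => Subtype.ext ?_, fun i j => Subtype.ext ?_⟩
  · change ⁅diagonal (R.h (v i)).1, R.e (v j)⁆ = M i j • R.e (v j)
    rw [R.lie_e, R.wt_hh, h.2.2, Int.cast_smul_eq_zsmul]
  · change ⁅diagonal (R.h (v i)).1, R.e (R.neg (v j))⁆ = (- M i j) • R.e (R.neg (v j))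
    rw [R.lie_e, R.wt_hh, C1.m_neg, h.2.2, Int.cast_smul_eq_zsmul]
  · change ⁅R.e (v i), R.e (R.neg (v j))⁆ = _
    split_ifs with hij
    · subst hij; exact R.br_h _
    · have hij' : v i ≠ v j := fun e => hij (h.1 e)
      have hi := h.mem _ i
      have hj := h.mem _ j
      rw [L0.br_zero R.toCRoot (β := v i) (γ := R.neg (v j)) (fun e => hij' ?_) fun δ hδ => ?_]
      · rfl
      · rw [← C1.neg_neg R.toComb (v j), e, C1.neg_neg]
      · have a1 := hδ _ hi
        have a2 := hδ _ hj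
        rw [R.co_neg _ _ hi, R.self _ hi, R.ne _ hj _ hi hij'.symm] at a1
        rw [R.co_neg _ _ hj, R.self _ hj, R.ne _ hi _ hj hij'] at a2
        rcases R.sign δ with g | g
        · have := g _ hj; omega
        · have := g _ hi; omega

theorem gen (hgen : S_gen k p) (hs : LieAlgebra.IsSimple k L) (h : C1.Ty R.toComb M v) (x : L) :
    x ∈ Dd k (R.xe v) (R.xf v) := by
  have h1 : L ≤ (Dd k (R.xe v) (R.xf v)).map L.incl := by
    refine L0.le_of_e R.toCRoot hs _ fun β => ?_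
    rcases C1.pos_or R.toComb β with g | g
    · refine hgen n L Φ R Set.univ _ (fun i hi _ => ?_) β g fun j _ hj => absurd trivial hj
      obtain ⟨a, rfl⟩ := (h.2.1 i).1 hi
      exact ⟨R.xe v a, Np_le (mem_Np _ _), rfl⟩
    · have := hgen n L Φ R.opp Set.univ ((Dd k (R.xe v) (R.xf v)).map L.incl)
        (fun i hi _ => ?_) _ g fun j _ hj => absurd trivial hj
      · rwa [XR.opp_e, C1.neg_neg] at this
      · obtain ⟨a, rfl⟩ := (h.2.1 i).1 hi
        exact ⟨R.xf v a, Np_le' (mem_Np _ _), rfl⟩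
  obtain ⟨z, hz, e1⟩ := h1 x.2
  have : z = x := Subtype.ext e1
  exact this ▸ hz

theorem mem_pos (h : C1.Ty R.toComb M v) (i : Fin l) : R.xe v i ∈ Npos R.toCRoot :=
  ⟨R.tp_e _, fun _ hβ => R.cf_ne _ _ fun e => hβ (e ▸ C1.pos_simple R.toComb (h.mem _ i))⟩

theorem mem_neg (h : C1.Ty R.toComb M v) (i : Fin l) : R.xf v i ∈ Nneg R.toCRoot :=
  ⟨R.tp_e _, fun β hβ => R.cf_ne _ _ fun e => hβ (by
    change C1.Pos R.toComb (R.neg β)
    rw [e, C1.neg_neg]; exact C1.pos_simple R.toComb (h.mem _ i))⟩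

theorem hsum (t : Fin l → k) :
    (∑ i, t i • R.xh v i : L).1 = diagonal (∑ i, t i • R.h (v i) : R.t).1 := by
  ext a b
  simp [XR.xh, Matrix.sum_apply, diagonal_apply]

/-- the enumeration as an equivalence -/
noncomputable def eqv (h : C1.Ty R.toComb M v) : Fin l ≃ R.Δ :=
  Equiv.ofBijective (fun i => ⟨v i, h.mem _ i⟩) ⟨fun _ _ e => h.1 (congrArg Subtype.val e),
    fun a => ((h.2.1 a).1 a.2).imp fun _ e => Subtype.ext e⟩

theorem indep (hgen : S_gen k p) (hs : LieAlgebra.IsSimple k L) (h : C1.Ty R.toComb M v) :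
    LinearIndependent k fun i => R.h (v i) := by
  refine linearIndependent_of_top_le_span_of_card_eq_finrank (fun d _ => ?_)
    (by rw [L0.finrank_t R.toCRoot hs, Fintype.card_congr (eqv R h)]; simp)
  obtain ⟨a, ha, y, hy, b, hb, e1⟩ := mem_Tri.1 ((chev R h).Dd_Tri
    (gen R hgen hs h ⟨diagonal d.1, R.t_mem d⟩))
  obtain ⟨t, rfl⟩ := (Submodule.mem_span_range_iff_exists_fun k).1 hy
  have a1 := (map_Np LieHom.id (Npos R.toCRoot) (mem_pos R h) ha).1
  have a2 := (map_Np LieHom.id (Nneg R.toCRoot) (mem_neg R h) hb).1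
  have e2 : diagonal d.1 = a.1 + (∑ i, t i • R.xh v i : L).1 + b.1 := congrArg Subtype.val e1
  have e3 := congrArg R.tp e2
  rw [R.tp_t, map_add, map_add, hsum, R.tp_t] at e3
  refine (Submodule.mem_span_range_iff_exists_fun k).2 ⟨t, ?_⟩
  rw [e3]
  rw [show R.tp a.1 = 0 from a1, show R.tp b.1 = 0 from a2, zero_add, add_zero]

theorem ca (hgen : S_gen k p) (hs : LieAlgebra.IsSimple k L) (h : C1.Ty R.toComb M v) :
    CA k M (R.xe v) (R.xf v) (R.xh v) := by
  classical
  refine ⟨chev R h, gen R hgen hs h, ⟨Npos R.toCRoot, Nneg R.toCRoot, mem_pos R h, mem_neg R h,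
    fun a ha b hb t h0 => ?_⟩, ?_⟩
  · have e2 : a.1 + (∑ i, t i • R.xh v i : L).1 + b.1 = 0 := congrArg Subtype.val h0
    rw [hsum] at e2
    have e3 := congrArg R.tp e2
    rw [map_add, map_add, ha.1, hb.1, R.tp_t, zero_add, add_zero, map_zero] at e3
    have e4 : ∀ β, R.cf β a.1 + R.cf β b.1 = 0 := fun β => by
      have := congrArg (R.cf β) e2
      rwa [map_add, map_add, R.cf_t, add_zero, map_zero] at this
    refine ⟨Subtype.ext (L0.eq_zero R.toCRoot a.2 ha.1 fun β => ?_),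
      funext (Fintype.linearIndependent_iff.1 (indep R hgen hs h) t e3),
      Subtype.ext (L0.eq_zero R.toCRoot b.2 hb.1 fun β => ?_)⟩
    · by_cases hβ : C1.Pos R.toComb β
      · have := e4 β
        rwa [hb.2 β (C1.not_pos_neg R.toComb hβ), add_zero] at this
      · exact ha.2 β hβ
    · by_cases hβ : C1.Pos R.toComb β
      · exact hb.2 β (C1.not_pos_neg R.toComb hβ)
      · have := e4 β
        rwa [ha.2 β hβ, zero_add] at this
  · have e1 : Matrix.of M = (Matrix.of fun i j : R.Δ => R.m i j).submatrix (eqv R h) (eqv R h) := by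
      ext i j
      exact (h.2.2 i j).symm
    rw [e1, Matrix.det_submatrix_equiv_self]
    exact det_ne R.toComb

theorem ns (hgen : S_gen k p) (hs : LieAlgebra.IsSimple k L) : NS k R.toComb := by
  intro x hx i hi
  let v : Fin R.Δ.card → Φ := fun a => R.Δ.equivFin.symm a
  have h : C1.Ty R.toComb (Matrix.of fun a b => R.m (v a) (v b)) v :=
    ⟨Subtype.val_injective.comp R.Δ.equivFin.symm.injective, fun a => ⟨fun ha =>
      ⟨R.Δ.equivFin ⟨a, ha⟩, by simp [v]⟩, by rintro ⟨b, rfl⟩; exact (R.Δ.equivFin.symm b).2⟩,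
      fun _ _ => rfl⟩
  have h1 : ∑ a, x (v a) • R.h (v a) = 0 := by
    refine L0.wt_sep R.toCRoot hs fun j hj => ?_
    rw [← hx j hj, ← Finset.sum_coe_sort R.Δ, ← R.Δ.equivFin.symm.sum_comp, map_sum]
    exact Finset.sum_congr rfl fun a _ => by rw [map_smul, R.wt_hh, smul_eq_mul]
  obtain ⟨a, rfl⟩ := (h.2.1 i).1 hi
  exact Fintype.linearIndependent_iff.1 (indep R hgen hs h) _ h1 a

end CHEV

theorem st_chev (k : Type u) [Field k] [IsAlgClosed k] (p : ℕ) [Fact p.Prime] [CharP k p]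
    (hp : p ≠ 2) (hgen : S_gen k p) : S_chev k p :=
  fun _ _ _ _ _ _ R hs => ⟨CHEV.finrank_eq R hs, CHEV.ns R hgen hs,
    fun _ _ _ h => CHEV.ca R hgen hs h⟩

end Pool.Agent.Lib.PRC
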