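import Pool.Agent.Lib.PRC.Api

/-! Row N3B: the image of `gl` and its centraliser span the Lie algebra. -/

namespace Pool.Agent.Lib.PRC

open Matrix Pool.Agent.Lib.MP_3a0263_al Pool.Agent.Lib.MP_3a0263_al.R Pool.Agent.Lib.MP_3a0263_al.Q

attribute [local instance 100] LieRing.ofAssociativeRing

universe u

namespace N3B

variable {k : Type u} [Field k] {n : Type} [Fintype n] [DecidableEq n]

theorem lie_single {m : Type} [Fintype m] [DecidableEq m] (a : m → k) (i j : m) :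
    ⁅diagonal a, single i j (1 : k)⁆ = (a i - a j) • single i j (1 : k) := by
  ext r s
  simp only [Ring.lie_def, Matrix.sub_apply, diagonal_mul, mul_diagonal, Matrix.smul_apply,
    single_apply, smul_eq_mul]
  split_ifs with h
  · obtain ⟨rfl, rfl⟩ := h
    ring
  · ring

/-- the elements whose image commutes with `c` -/
def cm {m : Type} [Fintype m] [DecidableEq m] (φ : Matrix m m k →ₗ⁅k⁆ Matrix n n k)
    (c : Matrix n n k) : LieSubalgebra k (Matrix m m k) where
  carrier := {b | ⁅φ b, c⁆ = 0}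
  zero_mem' := by simp
  add_mem' := fun {a b} (h : ⁅φ a, c⁆ = 0) (h' : ⁅φ b, c⁆ = 0) =>
    show ⁅φ (a + b), c⁆ = 0 by rw [map_add, add_lie, h, h', add_zero]
  smul_mem' := fun t a (h : ⁅φ a, c⁆ = 0) =>
    show ⁅φ (t • a), c⁆ = 0 by rw [map_smul, smul_lie, h, smul_zero]
  lie_mem' := fun {a b} (h : ⁅φ a, c⁆ = 0) (h' : ⁅φ b, c⁆ = 0) =>
    show ⁅φ ⁅a, b⁆, c⁆ = 0 by rw [LieHom.map_lie, lie_lie, h, h', lie_zero, lie_zero, sub_zero]

/-- the elements that split as image plus centraliser -/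
def sp (L : LieSubalgebra k (Matrix n n k)) {m : Type} [Fintype m] [DecidableEq m]
    (φ : Matrix m m k →ₗ⁅k⁆ Matrix n n k) : Submodule k (Matrix n n k) where
  carrier := {x | ∃ a, ∃ c ∈ L, x = φ a + c ∧ ∀ b, ⁅φ b, c⁆ = 0}
  zero_mem' := ⟨0, 0, L.zero_mem, by simp, by simp⟩
  add_mem' := by
    rintro _ _ ⟨a, c, hc, rfl, h⟩ ⟨a', c', hc', rfl, h'⟩
    exact ⟨a + a', c + c', L.add_mem hc hc', by rw [map_add]; abel,
      fun b => by rw [lie_add, h, h', add_zero]⟩
  smul_mem' := by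
    rintro t _ ⟨a, c, hc, rfl, h⟩
    exact ⟨t • a, t • c, L.smul_mem t hc, by rw [map_smul, smul_add],
      fun b => by rw [lie_smul, h, smul_zero]⟩

variable {p : ℕ} {L : LieSubalgebra k (Matrix n n k)} {Φ : Type u} [Fintype Φ]

/-- roots on different sides commute -/
theorem br_side (R : XR p L Φ) (D : Set Φ)
    (hD : ∀ i ∈ R.Δ, ∀ j ∈ R.Δ, i ∈ D → j ∉ D → R.m i j = 0) {γ β : Φ}
    (hγ : ∀ j ∈ R.Δ, j ∉ D → R.co γ j = 0) (hβ : ∀ j ∈ R.Δ, j ∈ D → R.co β j = 0) :
    ⁅R.e γ, R.e β⁆ = 0 := by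
  obtain ⟨i, hi, h1⟩ := L0.co_ne R.toComb γ
  obtain ⟨j, hj, h2⟩ := L0.co_ne R.toComb β
  have hiD : i ∈ D := by_contra fun c => h1 (hγ i hi c)
  have hjD : j ∉ D := fun c => h2 (hβ j hj c)
  refine L0.br_zero R.toCRoot (fun e => h2 ?_) fun δ h => ?_
  · rw [e, R.co_neg _ j hj, hγ j hj hjD, neg_zero]
  · rcases C1.supp_side R.toComb D hD δ with h3 | h3
    · have := h j hj
      rw [h3 j hj hjD, hγ j hj hjD] at this
      omega
    · have := h i hi
      rw [h3 i hi hiD, hβ i hi hiD] at this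
      omega

end N3B

open N3B

theorem st_n3b (k : Type u) [Field k] [IsAlgClosed k] (p : ℕ) [Fact p.Prime] [CharP k p]
    (hp : p ≠ 2) (hgen : S_gen k p) (hglg : S_glg k) : S_n3b k p := by
  intro n _ _ L Φ _ R N v T d d0 d1 φ he hf hd
  have top : ∀ M : LieSubalgebra k (Matrix (Fin (N + 2)) (Fin (N + 2)) k),
      (∀ i : Fin (N + 1), single i.castSucc i.succ (1 : k) ∈ M) →
      (∀ i : Fin (N + 1), single i.succ i.castSucc (1 : k) ∈ M) → single 0 0 (1 : k) ∈ M →
      ∀ a, a ∈ M := fun M h1 h2 h3 a => by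
    rw [(hglg.1 (N + 1) M h1 h2).2 h3]
    trivial
  have mem : ∀ a, φ a ∈ L := top (L.comap φ)
    (fun i => show φ _ ∈ L from he i ▸ R.e_mem _) (fun i => show φ _ ∈ L from hf i ▸ R.e_mem _)
    (show φ _ ∈ L from hd ▸ R.t_mem d)
  have com : ∀ c : Matrix n n k, (∀ i, ⁅R.e (v i), c⁆ = 0) →
      (∀ i, ⁅R.e (R.neg (v i)), c⁆ = 0) →
      ⁅diagonal d.1, c⁆ = 0 → ∀ b, ⁅φ b, c⁆ = 0 := fun c h1 h2 h3 => top (cm φ c)
    (fun i => show ⁅φ _, c⁆ = 0 from he i ▸ h1 i) (fun i => show ⁅φ _, c⁆ = 0 from hf i ▸ h2 i)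
    (show ⁅φ _, c⁆ = 0 from hd ▸ h3)
  have hD : ∀ i ∈ R.Δ, ∀ j ∈ R.Δ, i ∈ Set.range v → j ∉ Set.range v → R.m i j = 0 := by
    rintro _ - j hj ⟨i, rfl⟩ h
    exact T.out j hj h i
  have hv : ∀ i, ∀ j ∈ R.Δ, j ∉ Set.range v → R.co (v i) j = 0 := fun i j hj h =>
    R.ne _ (T.mem i) j hj fun e => h ⟨i, e⟩
  have hE : ∀ β, R.e β ∈ sp L φ := fun β => by
    rcases C1.supp_side R.toComb (Set.range v) hD β with h | h
    · have : R.e β ∈ φ.range := by
        rcases C1.pos_or R.toComb β with h' | h'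
        · refine hgen n L Φ R (Set.range v) φ.range ?_ β h' h
          rintro _ - ⟨i, rfl⟩
          exact ⟨_, he i⟩
        · have := hgen n L Φ R.opp (Set.range v) φ.range (by
            rintro _ - ⟨i, rfl⟩
            exact ⟨_, hf i⟩) (R.neg β) h' fun j hj c => by
              have := R.co_neg β j hj
              rw [h j hj c, neg_zero] at this
              exact this
          rwa [XR.opp_e, C1.neg_neg R.toComb] at this
      obtain ⟨a, ha⟩ := this
      exact ⟨a, 0, L.zero_mem, by rw [add_zero]; exact ha.symm, fun b => lie_zero _⟩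
    · refine ⟨0, R.e β, R.e_mem β, by simp, com _ (fun i => br_side R _ hD (hv i) h)
        (fun i => br_side R _ hD (fun j hj c => by rw [R.co_neg _ j hj, hv i j hj c, neg_zero]) h) ?_⟩
      rw [R.lie_e, R.wt_lin, Finset.sum_eq_zero, zero_smul]
      intro j hj
      by_cases c : j = v 0
      · rw [h j hj ⟨0, c.symm⟩, Int.cast_zero, zero_mul]
      · rw [d1 j hj c, mul_zero]
  have hT : ∀ d' : R.t, diagonal d'.1 ∈ sp L φ := fun d' => by
    let a : Fin (N + 2) → k :=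
      Fin.induction (motive := fun _ => k) 0 fun i x => x - R.wt (v i) d'
    have ha : ∀ i : Fin (N + 1), a i.castSucc - a i.succ = R.wt (v i) d' := fun i => by
      simp only [a, Fin.induction_succ]
      ring
    refine ⟨diagonal a, diagonal d'.1 - φ (diagonal a), L.sub_mem (R.t_mem d') (mem _), by abel,
      com _ (fun i => ?_) (fun i => ?_) ?_⟩
    · rw [← lie_skew, sub_lie, R.lie_e, ← he, ← LieHom.map_lie, lie_single, map_smul, ha, sub_self,
        neg_zero]
    · rw [← lie_skew, sub_lie, R.lie_e, ← hf, ← LieHom.map_lie, lie_single, map_smul,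
        L0.wt_neg R.toCRoot, ← ha, neg_sub (a i.castSucc), sub_self, neg_zero]
    · rw [lie_sub, L0.diag_lie R.toCRoot, ← hd, ← LieHom.map_lie, ← lie_skew, lie_single, sub_self,
        zero_smul, neg_zero, map_zero, sub_zero]
  refine ⟨mem, fun a h => hglg.2 N φ.ker (fun c => ?_) a (LieHom.mem_ker.2 h), fun x hx => ?_⟩
  · exact L0.e_ne R.toCRoot (v 0) ((he 0).symm.trans (LieHom.mem_ker.1 c))
  · have : x ∈ sp L φ := by
      rw [R.decomp x hx]
      exact Submodule.add_mem _ (hT _) (Submodule.sum_mem _ fun β _ => Submodule.smul_mem _ _ (hE β))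
    exact this

end Pool.Agent.Lib.PRC
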