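import Pool.Agent.Lib.PRC.Defs

namespace Pool.Agent.Lib.PRC

open Matrix Pool.Agent.Lib.MP_3a0263_al Pool.Agent.Lib.MP_3a0263_al.R Pool.Agent.Lib.MP_3a0263_al.Q

attribute [local instance 100] LieRing.ofAssociativeRing

universe u

variable (k : Type u) [Field k] (p : ℕ)

/-- BR: brackets of root vectors do not vanish -/
def S_br : Prop :=
  ∀ (n : Type) [Fintype n] [DecidableEq n] (L : LieSubalgebra k (Matrix n n k))
    (Φ : Type u) [Fintype Φ] (R : XR p L Φ) (a b c : Φ), L0.IsSum R.toComb a b c →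
    ⁅R.e a, R.e b⁆ ≠ 0

/-- GEN: positive root vectors are generated by the simple ones -/
def S_gen : Prop :=
  ∀ (n : Type) [Fintype n] [DecidableEq n] (L : LieSubalgebra k (Matrix n n k))
    (Φ : Type u) [Fintype Φ] (R : XR p L Φ) (D : Set Φ) (M : LieSubalgebra k (Matrix n n k)),
    (∀ i ∈ R.Δ, i ∈ D → R.e i ∈ M) →
    ∀ β, C1.Pos R.toComb β → (∀ j ∈ R.Δ, j ∉ D → R.co β j = 0) → R.e β ∈ M

/-- N0: the root data -/
def S_n0 : Prop :=
  ∀ (g : Type u) [LieRing g] [LieAlgebra k g], HasRichardson k g →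
    ∃ (n : Type) (_ : Fintype n) (_ : DecidableEq n) (L : LieSubalgebra k (Matrix n n k))
      (π : Matrix n n k →ₗ[k] Matrix n n k) (Φ : Type u) (_ : Fintype Φ),
      Nonempty (g ≃ₗ⁅k⁆ L) ∧ Rich L π ∧ Nonempty (XR p L Φ)

/-- N1: the nonsingular case -/
def S_n1 : Prop :=
  ∀ (n : Type) [Fintype n] [DecidableEq n] (L : LieSubalgebra k (Matrix n n k))
    (Φ : Type u) [Fintype Φ] (R : XR p L Φ), NS k R.toComb →
    ∃ S : Set (LieIdeal k L), sSupIndep S ∧ IsCompl (LieAlgebra.center k L) (sSup S) ∧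
      ∀ I ∈ S, LieAlgebra.IsSimple k I

/-- N2: the singular case has a component of type `A (rp - 1)` -/
def S_n2 : Prop :=
  ∀ (Φ : Type u) [Fintype Φ] (C : Comb Φ), GoodAll C p → ¬ NS k C →
    ∃ (N : ℕ) (v : Fin (N + 1) → Φ), TyA C (N + 1) v ∧ p ∣ N + 2

/-- GLG: generators and small ideals of `gl` -/
def S_glg : Prop :=
  (∀ (N : ℕ) (M : LieSubalgebra k (Matrix (Fin (N + 1)) (Fin (N + 1)) k)),
    (∀ i : Fin N, single i.castSucc i.succ (1 : k) ∈ M) →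
    (∀ i : Fin N, single i.succ i.castSucc (1 : k) ∈ M) →
    (∀ a : Matrix (Fin (N + 1)) (Fin (N + 1)) k, a.trace = 0 → a ∈ M) ∧
      (single 0 0 (1 : k) ∈ M → M = ⊤)) ∧
  ∀ (N : ℕ) (J : LieIdeal k (Matrix (Fin (N + 2)) (Fin (N + 2)) k)),
    single 0 1 (1 : k) ∉ J → ∀ a ∈ J, ∃ c : k, a = c • 1

/-- N3A: the homomorphism from `gl` -/
def S_n3a : Prop :=
  ∀ (n : Type) [Fintype n] [DecidableEq n] (L : LieSubalgebra k (Matrix n n k))
    (Φ : Type u) [Fintype Φ] (R : XR p L Φ) (N : ℕ) (v : Fin (N + 1) → Φ),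
    TyA R.toComb (N + 1) v → ∀ d : R.t, R.wt (v 0) d = 1 → (∀ j ∈ R.Δ, j ≠ v 0 → R.wt j d = 0) →
    ∃ φ : Matrix (Fin (N + 2)) (Fin (N + 2)) k →ₗ⁅k⁆ Matrix n n k,
      (∀ i : Fin (N + 1), φ (single i.castSucc i.succ 1) = R.e (v i)) ∧
      (∀ i : Fin (N + 1), φ (single i.succ i.castSucc 1) = R.e (R.neg (v i))) ∧
      φ (single 0 0 1) = diagonal d.1

/-- N3B: its image and the centraliser span -/
def S_n3b : Prop :=
  ∀ (n : Type) [Fintype n] [DecidableEq n] (L : LieSubalgebra k (Matrix n n k))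
    (Φ : Type u) [Fintype Φ] (R : XR p L Φ) (N : ℕ) (v : Fin (N + 1) → Φ),
    TyA R.toComb (N + 1) v → ∀ d : R.t, R.wt (v 0) d = 1 → (∀ j ∈ R.Δ, j ≠ v 0 → R.wt j d = 0) →
    ∀ φ : Matrix (Fin (N + 2)) (Fin (N + 2)) k →ₗ⁅k⁆ Matrix n n k,
      (∀ i : Fin (N + 1), φ (single i.castSucc i.succ 1) = R.e (v i)) →
      (∀ i : Fin (N + 1), φ (single i.succ i.castSucc 1) = R.e (R.neg (v i))) →
      φ (single 0 0 1) = diagonal d.1 → GlIn L φ

/-- N4: then `L` is `gl` -/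
def S_n4 : Prop :=
  ∀ (n : Type) [Fintype n] [DecidableEq n] (L : LieSubalgebra k (Matrix n n k))
    (π : Matrix n n k →ₗ[k] Matrix n n k), Rich L π → ∀ (m : ℕ), 0 < m → p ∣ m →
    ∀ φ : Matrix (Fin m) (Fin m) k →ₗ⁅k⁆ Matrix n n k, GlIn L φ →
      Nonempty (L ≃ₗ⁅k⁆ Matrix (Fin m) (Fin m) k)

/-- RES: direct factors inherit the property -/
def S_res : Prop :=
  ∀ (g : Type u) [LieRing g] [LieAlgebra k g], HasRichardson k g →
    ∀ I I' : LieIdeal k g, IsCompl I I' → HasRichardson k I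

/-- PROD: tensor products -/
def S_prod : Prop :=
  ∀ (g : Type u) [LieRing g] [LieAlgebra k g] [FiniteDimensional k g],
    Module.finrank k (LieAlgebra.center k g) ≤ 1 → ∀ S : Set (LieIdeal k g), sSupIndep S →
    IsCompl (LieAlgebra.center k g) (sSup S) →
    (∀ I ∈ S, LieAlgebra.IsSimple k I ∧ Strong k I) → HasRichardson k g

/-- CHEV: Chevalley generators of a simple algebra -/
def S_chev : Prop :=
  ∀ (n : Type) [Fintype n] [DecidableEq n] (L : LieSubalgebra k (Matrix n n k))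
    (Φ : Type u) [Fintype Φ] (R : XR p L Φ), LieAlgebra.IsSimple k L →
    Module.finrank k L = R.Δ.card + Fintype.card Φ ∧ NS k R.toComb ∧
    ∀ (l : ℕ) (M : Matrix (Fin l) (Fin l) ℤ) (v : Fin l → Φ), C1.Ty R.toComb M v →
      CA k M (R.xe v) (R.xf v) (R.xh v)

/-- DET: an operator commuting with the `e i` is determined by its value on a lowest vector -/
def S_det : Prop :=
  ∀ (L : Type u) [LieRing L] [LieAlgebra k L] (l : ℕ) (A : Fin l → Fin l → ℤ) (e f h : Fin l → L),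
    CA k A e f h → ∀ (V : Type u) [AddCommGroup V] [Module k V] [LieRingModule L V]
      [LieModule k L V], LieModule.IsIrreducible k L V → ∀ v : V, v ≠ 0 → (∀ i, ⁅f i, v⁆ = 0) →
      (∀ i, ∃ c : k, ⁅h i, v⁆ = c • v) →
      ∀ φ : V →ₗ[k] V, (∀ i u, φ ⁅e i, u⁆ = ⁅e i, φ u⁆) → φ v = 0 → φ = 0

/-- MINU: minuscule modules -/
def S_minu : Prop :=
  ∀ (L : Type u) [LieRing L] [LieAlgebra k L] (l : ℕ) (A : Fin l → Fin l → ℤ) (e f h : Fin l → L),
    CA k A e f h → ∀ (X : Type) [Fintype X] (w : X → Fin l → ℤ) (r : Fin l → X → X) (x0 : X),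
    MD A w r x0 → ∃ ρ : L →ₗ⁅k⁆ Module.End k (X → k),
      (∀ i, ρ (e i) = DG.opE k w r 1 i) ∧ (∀ i, ρ (f i) = DG.opE k w r (-1) i) ∧
      (∀ i, ρ (h i) = DG.opH k w i) ∧
      ∀ U : Submodule k (X → k), (∀ x, ∀ u ∈ U, ρ x u ∈ U) → U = ⊥ ∨ U = ⊤

/-- MIN1: minuscule modules of dimension prime to `p` -/
def S_min1 : Prop :=
  ∀ (L : Type u) [LieRing L] [LieAlgebra k L] (l : ℕ) (A : Fin l → Fin l → ℤ) (e f h : Fin l → L),
    CA k A e f h → ∀ (X : Type) [Fintype X] (w : X → Fin l → ℤ) (r : Fin l → X → X) (x0 : X),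
    MD A w r x0 → (Fintype.card X : k) ≠ 0 → (∃ i, ((∑ x, w x i * w x i : ℤ) : k) ≠ 0) →
    Strong k L

/-- KMIN: self-dual minuscule modules of dimension divisible by `p` -/
def S_kmin : Prop :=
  ∀ (L : Type u) [LieRing L] [LieAlgebra k L] (l : ℕ) (A : Fin l → Fin l → ℤ) (e f h : Fin l → L),
    CA k A e f h → ∀ (X : Type) [Fintype X] (w : X → Fin l → ℤ) (r : Fin l → X → X) (x0 : X),
    MD A w r x0 → ∀ (ng : X → X) (s : X → ℤ) (ε : ℤ) (z : X), SD w r x0 ng s ε z →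
    (Fintype.card X : k) = 0 → (∃ i, ((∑ x, w x i * w x i : ℤ) : k) ≠ 0) → Strong k L

/-- TA: natural weights in type A and spin weights -/
def S_ta : Prop :=
  (∀ l : ℕ, 1 ≤ l → ∃ (X : Type) (_ : Fintype X) (w : X → Fin l → ℤ) (r : Fin l → X → X) (x0 : X),
    MD (CartanMatrix.A l) w r x0 ∧ Fintype.card X = l + 1 ∧ ∃ i, ∑ x, w x i * w x i = 2) ∧
  ∀ l : ℕ, 3 ≤ l → ∃ (X : Type) (_ : Fintype X) (w : X → Fin l → ℤ) (r : Fin l → X → X) (x0 : X),
    MD (CartanMatrix.C l) w r x0 ∧ Fintype.card X = 2 ^ l ∧ ∃ i, ∑ x, w x i * w x i = 2 ^ l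

/-- TB: the weights plus or minus `ε_a` for the matrix `B l` -/
def S_tb : Prop :=
  ∀ l : ℕ, 2 ≤ l → ∃ (X : Type) (_ : Fintype X) (w : X → Fin l → ℤ) (r : Fin l → X → X) (x0 : X)
    (ng : X → X) (s : X → ℤ) (ε : ℤ) (z : X), MD (CartanMatrix.B l) w r x0 ∧
      SD w r x0 ng s ε z ∧ Fintype.card X = 2 * l ∧ ∃ i, ∑ x, w x i * w x i = 4

/-- TD: the weights plus or minus `ε_a` for the matrix `D l` -/
def S_td : Prop :=
  ∀ l : ℕ, 4 ≤ l → ∃ (X : Type) (_ : Fintype X) (w : X → Fin l → ℤ) (r : Fin l → X → X) (x0 : X)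
    (ng : X → X) (s : X → ℤ) (ε : ℤ) (z : X), MD (CartanMatrix.D l) w r x0 ∧
      SD w r x0 ng s ε z ∧ Fintype.card X = 2 * l ∧ ∃ i, ∑ x, w x i * w x i = 4

/-- FR1: dimension and traces on `MM` -/
def S_fr1 : Prop :=
  ∀ (L : Type u) [LieRing L] [LieAlgebra k L] (V : Type u) [AddCommGroup V] [Module k V]
    [LieRingModule L V] [LieModule k L V] [FiniteDimensional k V] [Nontrivial V]
    (b : V →ₗ[k] V →ₗ[k] k) (ε : k) (H : IF L b ε), (Module.finrank k V : k) = 0 →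
    (Module.finrank k (MM H) : k) = -2 ∧
    (∀ a a' : L, LieModule.traceForm k L (MM H) a a' = 2 * ε * LieModule.traceForm k L V a a') ∧
    ∃ Λ : Module.End k (V →ₗ[k] V) →ₗ[k] k, LamA b ε Λ ∧
      ∀ (ι : Type) [Fintype ι] (x y : ι → L) (j : ℕ) (a a' : L),
        Λ (op k (V →ₗ[k] V) x y j a a') = 2 * LinearMap.trace k (MM H) (op k (MM H) x y j a a')

/-- FR2: grading and form on `MM` -/
def S_fr2 : Prop :=
  ∀ (L : Type u) [LieRing L] [LieAlgebra k L] (V : Type u) [AddCommGroup V] [Module k V]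
    [LieRingModule L V] [LieModule k L V] [FiniteDimensional k V] [Nontrivial V]
    (b : V →ₗ[k] V →ₗ[k] k) (ε : k) (H : IF L b ε), (Module.finrank k V : k) = 0 →
    ∀ G : Gr k V, G.Pair b → ∃ (G' : Gr k (MM H)) (β : MM H →ₗ[k] MM H →ₗ[k] k),
      IF L β 1 ∧ G'.Pair β ∧ ∀ (x : L) (j : ℤ), G.Deg (LieModule.toEnd k L V x) j →
        G'.Deg (LieModule.toEnd k L (MM H) x) j

/-- FR3: fixed vectors lift -/
def S_fr3 : Prop :=
  ∀ (L : Type u) [LieRing L] [LieAlgebra k L] (V : Type u) [AddCommGroup V] [Module k V]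
    [LieRingModule L V] [LieModule k L V] [FiniteDimensional k V] [Nontrivial V]
    (b : V →ₗ[k] V →ₗ[k] k) (ε : k) (H : IF L b ε), (Module.finrank k V : k) = 0 →
    ∀ (l : ℕ) (e : Fin l → L), (∀ i, ∃ m : ℕ, m < p ∧ LieModule.toEnd k L V (e i) ^ m = 0) →
      Module.finrank k (Fix k e (MM H)) + 1 ≤ Module.finrank k (Fix k e (symN H))

/-- SIMPLE: a graded self-dual module with one highest and one lowest line is simple -/
def S_simple : Prop :=
  ∀ (L : Type u) [LieRing L] [LieAlgebra k L] (W : Type u) [AddCommGroup W] [Module k W]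
    [LieRingModule L W] [LieModule k L W] [FiniteDimensional k W]
    (β : W →ₗ[k] W →ₗ[k] k), IF L β 1 → ∀ G : Gr k W, G.Pair β →
    ∀ (l : ℕ) (e f : Fin l → L) (d : Fin l → ℤ), (∀ i, 0 < d i) →
    (∀ i, G.Deg (LieModule.toEnd k L W (e i)) (d i)) →
    (∀ i, G.Deg (LieModule.toEnd k L W (f i)) (- d i)) →
    (∀ U : LieSubmodule k L W, U ≠ ⊥ →
      U.toSubmodule ⊓ Fix k e W ≠ ⊥ ∧ U.toSubmodule ⊓ Fix k f W ≠ ⊥) ∧
    ∀ U : LieSubmodule k L W, U ≠ ⊥ → (∀ a, ∀ u ∈ U, G.P a u ∈ U) →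
      (∀ u ∈ U, (∀ u' ∈ U, β u u' = 0) → u = 0) →
      Module.finrank k (U.toSubmodule ⊓ Fix k e W :) ≤ 1 →
      Module.finrank k (U.toSubmodule ⊓ Fix k f W :) ≤ 1 → LieModule.IsIrreducible k L U

/-- CAS: Casimir operators -/
def S_cas : Prop :=
  ∀ (L : Type u) [LieRing L] [LieAlgebra k L] [FiniteDimensional k L]
    (κ : L →ₗ[k] L →ₗ[k] k), IF L κ 1 →
    (∃ (m : ℕ) (x y : Fin m → L), DB κ x y) ∧
    ∀ (ι : Type) [Fintype ι] (x y : ι → L), DB κ x y →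
      (LieAlgebra.IsSimple k L → (Module.finrank k L : k) = 0 → ∀ B : L →ₗ[k] L →ₗ[k] k,
        (∀ z a a' : L, B ⁅z, a⁆ a' = - B a ⁅z, a'⁆) → ∑ c, B (x c) (y c) = 0) ∧
      ∀ (W : Type u) [AddCommGroup W] [Module k W] [LieRingModule L W] [LieModule k L W],
        (∀ z : L, Commute (cas k W x y) (LieModule.toEnd k L W z)) ∧
        (∀ β : W →ₗ[k] W →ₗ[k] k, IF L β 1 → ∀ u w, β (cas k W x y u) w = β u (cas k W x y w)) ∧
        ∀ (Q : Gr k L) (G : Gr k W), Q.Pair κ →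
          (∀ j z, G.Deg (LieModule.toEnd k L W (Q.P j z)) j) → G.Deg (cas k W x y) 0

/-- TR: the universal trace identities -/
def S_tr : Prop :=
  ∀ (L : Type u) [LieRing L] [LieAlgebra k L] [FiniteDimensional k L],
    IF L (killingForm k L) 1 → (Module.finrank k L : k) = 0 →
    ∀ (ι : Type) [Fintype ι] (x y : ι → L), DB (killingForm k L) x y →
    ∀ Λ : Module.End k (L →ₗ[k] L) →ₗ[k] k, LamA (killingForm k L) 1 Λ → ∀ a : L,
      Λ (op k (L →ₗ[k] L) x y 1 a a) = 18 * killingForm k L a a ∧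
      Λ (op k (L →ₗ[k] L) x y 2 a a) = 66 * killingForm k L a a

/-- GRL: the height grading -/
def S_grl : Prop :=
  ∀ (n : Type) [Fintype n] [DecidableEq n] (L : LieSubalgebra k (Matrix n n k))
    (Φ : Type u) [Fintype Φ] (R : XR p L Φ), ∃ Q : Gr k L, Q.Pair (killingForm k L) ∧
      (∀ j z, Q.Deg (LieModule.toEnd k L L (Q.P j z)) j) ∧
      (∀ β, Q.P (C1.ht R.toComb β) ⟨R.e β, R.e_mem β⟩ = ⟨R.e β, R.e_mem β⟩) ∧
      ∀ β, LieModule.toEnd k L L ⟨R.e β, R.e_mem β⟩ ^ 4 = 0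

/-- KK: highest vectors in the Killing case -/
def S_kk : Prop :=
  ∀ (n : Type) [Fintype n] [DecidableEq n] (L : LieSubalgebra k (Matrix n n k))
    (Φ : Type u) [Fintype Φ] (R : XR p L Φ), LieAlgebra.IsSimple k L →
    ∀ (l : ℕ) (M : Matrix (Fin l) (Fin l) ℤ) (v : Fin l → Φ), C1.Ty R.toComb M v →
    ∀ θ kk θ', Exc R.toComb θ kk θ' → ∀ H : IF L (killingForm k L) 1,
      Module.finrank k (Fix k (R.xe v) (symN H)) ≤ 3

/-- ROOTS: the exceptional root systems -/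
def S_roots : Prop :=
  ∀ (Φ : Type u) [Fintype Φ] (C : Comb Φ), ExcT C →
    (∃ θ kk θ', Exc C θ kk θ') ∧
      ∀ q : ℕ, q.Prime → q ≠ 2 → GoodAll C q → q ∣ C.Δ.card + Fintype.card Φ → 7 ≤ q

/-- FIT: the Fitting decomposition for the Casimir operator -/
def S_fit : Prop :=
  ∀ (L : Type u) [LieRing L] [LieAlgebra k L] (W : Type u) [AddCommGroup W] [Module k W]
    [LieRingModule L W] [LieModule k L W] [FiniteDimensional k W]
    (β : W →ₗ[k] W →ₗ[k] k), IF L β 1 → ∀ G : Gr k W, G.Pair β →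
    ∀ (l : ℕ) (e f : Fin l → L), (∀ i, G.Deg (LieModule.toEnd k L W (e i)) 1) →
    (∀ i, G.Deg (LieModule.toEnd k L W (f i)) (-1)) →
    Module.finrank k (Fix k e W) ≤ 2 → Module.finrank k (Fix k f W) ≤ 2 →
    ∀ (ι : Type) [Fintype ι] (x y : ι → L),
    (∀ z : L, Commute (cas k W x y) (LieModule.toEnd k L W z)) →
    (∀ u w, β (cas k W x y u) w = β u (cas k W x y w)) → G.Deg (cas k W x y) 0 →
    (∀ B : L →ₗ[k] L →ₗ[k] k, (∀ z a a' : L, B ⁅z, a⁆ a' = - B a ⁅z, a'⁆) →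
      ∑ c, B (x c) (y c) = 0) →
    (Module.finrank k W : k) = -2 → (2 : k) ≠ 0 → (15 : k) ≠ 0 → ∀ (a : L) (t : k), t ≠ 0 →
    LinearMap.trace k W (op k W x y 0 a a) = 2 * t →
    LinearMap.trace k W (op k W x y 1 a a) = 9 * t →
    LinearMap.trace k W (op k W x y 2 a a) = 33 * t → Strong k L

/-- KIL: the exceptional types -/
def S_kil : Prop :=
  ∀ (n : Type) [Fintype n] [DecidableEq n] (L : LieSubalgebra k (Matrix n n k))
    (Φ : Type u) [Fintype Φ] (R : XR p L Φ), LieAlgebra.IsSimple k L → ExcT R.toComb →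
    C1.CaseK R.toComb p → Strong k L

/-- STRONG -/
def S_strong : Prop :=
  ∀ (n : Type) [Fintype n] [DecidableEq n] (L : LieSubalgebra k (Matrix n n k))
    (Φ : Type u) [Fintype Φ], XR p L Φ → LieAlgebra.IsSimple k L → Strong k L

end Pool.Agent.Lib.PRC
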