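import Pool.Agent.Lib.MP_3a0263_al.Q.T_DIAG
import Pool.Agent.Lib.MP_3a0263_al.Q.T_CLASS
import Pool.Agent.Lib.MP_3a0263_al.Q.ClassC

namespace Pool.Agent.Lib.PRC

open Matrix Pool.Agent.Lib.MP_3a0263_al Pool.Agent.Lib.MP_3a0263_al.R Pool.Agent.Lib.MP_3a0263_al.Q

attribute [local instance 100] LieRing.ofAssociativeRing

universe u

section roots

variable {k : Type u} [Field k] {n : Type} [Fintype n] [DecidableEq n]

/-- root data of a Lie algebra with the Richardson property, `p` odd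
(the parameter `0` makes the field `gen` vacuous) -/
structure XR (p : ℕ) (L : LieSubalgebra k (Matrix n n k)) (Φ : Type u) [Fintype Φ]
    extends CRoot 0 L Φ where
  br_h : ∀ α, ⁅e α, e (neg α)⁆ = diagonal (h α).1
  wt_hh : ∀ α β, wt β (h α) = (m α β : k)
  wt_inj : ∀ β γ, wt β = wt γ → β = γ
  good : ∀ β, ∀ i ∈ Δ, co β i ≠ 0 → ¬ (p : ℤ) ∣ co β i
  cow : ∀ i ∈ Δ, ∃ d : t, wt i d = 1 ∧ ∀ j ∈ Δ, j ≠ i → wt j d = 0
  h_nc : ∀ β, ∃ j ∈ Δ, wt j (h β) ≠ 0

variable {p : ℕ} {L : LieSubalgebra k (Matrix n n k)} {Φ : Type u} [Fintype Φ]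

/-- simple root vectors in an enumeration -/
def XR.xe (R : XR p L Φ) {ι : Type} (v : ι → Φ) (i : ι) : L := ⟨R.e (v i), R.e_mem _⟩

/-- their opposites -/
def XR.xf (R : XR p L Φ) {ι : Type} (v : ι → Φ) (i : ι) : L := ⟨R.e (R.neg (v i)), R.e_mem _⟩

/-- the coroots -/
def XR.xh (R : XR p L Φ) {ι : Type} (v : ι → Φ) (i : ι) : L :=
  ⟨diagonal (R.h (v i)).1, R.t_mem _⟩

/-- `p` divides no nonzero coefficient of any root -/
def GoodAll (C : Comb Φ) (p : ℕ) : Prop := ∀ β, ∀ i ∈ C.Δ, C.co β i ≠ 0 → ¬ (p : ℤ) ∣ C.co β i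

variable (k) in
/-- the Cartan matrix is invertible over `k` -/
def NS (C : Comb Φ) : Prop :=
  ∀ x : Φ → k, (∀ j ∈ C.Δ, ∑ i ∈ C.Δ, x i * (C.m i j : k) = 0) → ∀ i ∈ C.Δ, x i = 0

/-- an enumerated component of type `A N` -/
structure TyA (C : Comb Φ) (N : ℕ) (v : Fin N → Φ) : Prop where
  inj : Function.Injective v
  mem : ∀ i, v i ∈ C.Δ
  car : ∀ i j, C.m (v i) (v j) = CartanMatrix.A N i j
  out : ∀ j ∈ C.Δ, j ∉ Set.range v → ∀ i, C.m (v i) j = 0

/-- a copy of `gl` or `pgl` inside `L` that spans `L` together with its centraliser -/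
structure GlIn (L : LieSubalgebra k (Matrix n n k)) {m : ℕ}
    (φ : Matrix (Fin m) (Fin m) k →ₗ⁅k⁆ Matrix n n k) : Prop where
  mem : ∀ a, φ a ∈ L
  ker : ∀ a, φ a = 0 → ∃ c : k, a = c • 1
  span : ∀ x ∈ L, ∃ a, ∃ c ∈ L, x = φ a + c ∧ ∀ b, ⁅φ b, c⁆ = 0

/-- what is used about the exceptional root systems -/
structure Exc (C : Comb Φ) (θ kk θ' : Φ) : Prop where
  high : C1.IsHigh C θ
  nsimple : θ ∉ C.Δ
  kmem : kk ∈ C.Δ
  low : ∀ i ∈ C.Δ, i ≠ kk → ∀ δ, ¬ L0.IsSum C i (C.neg θ) δ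
  low1 : ∃ δ, L0.IsSum C kk (C.neg θ) δ
  low2 : ∀ δ, L0.IsSum C kk (C.neg θ) δ → δ ≠ C.neg kk ∧ ∀ δ', ¬ L0.IsSum C kk δ δ'
  cand : ∀ β, (∀ i ∈ C.Δ, i ≠ kk → β ≠ C.neg i ∧ ∀ δ, ¬ L0.IsSum C i β δ) → β ≠ C.neg kk →
    (∀ δ δ', L0.IsSum C kk β δ → ¬ L0.IsSum C kk δ δ') →
    β = θ ∨ β = C.neg θ ∨ β = θ' ∨ L0.IsSum C kk β θ

/-- the exceptional types -/
def ExcT (C : Comb Φ) : Prop :=
  (∃ v, C1.Ty C CartanMatrix.E₆ v) ∨ (∃ v, C1.Ty C CartanMatrix.E₇ v) ∨
    (∃ v, C1.Ty C CartanMatrix.E₈ v) ∨ (∃ v, C1.Ty C CartanMatrix.F₄ v) ∨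
    ∃ v, C1.Ty C CartanMatrix.G₂ v

end roots

/-- a simple module of dimension prime to the characteristic with nonzero trace form -/
def Strong (k : Type u) [Field k] (g : Type u) [LieRing g] [LieAlgebra k g] : Prop :=
  ∃ (Y : Type u) (_ : AddCommGroup Y) (_ : Module k Y) (_ : LieRingModule g Y)
    (_ : LieModule k g Y), FiniteDimensional k Y ∧ LieModule.IsIrreducible k g Y ∧
      (Module.finrank k Y : k) ≠ 0 ∧ ∃ x y : g, LieModule.traceForm k g Y x y ≠ 0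

section chev

variable (k : Type u) [Field k] {L : Type u} [LieRing L] [LieAlgebra k L]

/-- Chevalley generators with a triangular decomposition -/
structure CA {l : ℕ} (A : Fin l → Fin l → ℤ) (e f h : Fin l → L) : Prop where
  chev : DG.Chev A e f h
  gen : ∀ x, x ∈ DG.Dd k e f
  ind : ∃ N₁ N₂ : LieSubalgebra k L, (∀ i, e i ∈ N₁) ∧ (∀ i, f i ∈ N₂) ∧
    ∀ a ∈ N₁, ∀ b ∈ N₂, ∀ t : Fin l → k, a + ∑ i, t i • h i + b = 0 → a = 0 ∧ t = 0 ∧ b = 0
  det : (Matrix.of A).det ≠ 0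

/-- minuscule weights with a single dominant weight -/
structure MD {l : ℕ} (A : Fin l → Fin l → ℤ) {X : Type} (w : X → Fin l → ℤ) (r : Fin l → X → X)
    (x0 : X) : Prop where
  minu : DG.Minu A w r
  dom0 : ∀ i, 0 ≤ w x0 i
  dom : ∀ x, (∀ i, 0 ≤ w x i) → x = x0

/-- self-duality data for a minuscule set -/
structure SD {l : ℕ} {X : Type} (w : X → Fin l → ℤ) (r : Fin l → X → X) (x0 : X)
    (ng : X → X) (s : X → ℤ) (ε : ℤ) (z : X) : Prop where
  ng_w : ∀ x i, w (ng x) i = - w x i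
  s_sq : ∀ x, s x = 1 ∨ s x = -1
  s_r : ∀ i x, w x i ≠ 0 → s (r i x) = - s x
  s_ng : ∀ x, s (ng x) = ε * s x
  cand : ∀ y, (∀ i, w x0 i = 0 → 0 ≤ w y i) → y = x0 ∨ y = ng x0 ∨ y = z
  kill : ε = -1 ∨ (ε = 1 ∧ ∃ i, w x0 i = 1 ∧ z = r i x0)

end chev

section frame

variable {k : Type u} [Field k]

/-- a finite grading by projections -/
structure Gr (k : Type u) [Field k] (W : Type u) [AddCommGroup W] [Module k W] where
  P : ℤ → Module.End k W
  N : ℕ
  sum : ∀ w, ∑ a ∈ Finset.Icc (-(N : ℤ)) N, P a w = w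
  idem : ∀ a w, P a (P a w) = P a w
  orth : ∀ a a', a ≠ a' → ∀ w, P a (P a' w) = 0

variable {W : Type u} [AddCommGroup W] [Module k W]

/-- an operator of degree `j` -/
def Gr.Deg (G : Gr k W) (T : Module.End k W) (j : ℤ) : Prop :=
  ∀ a w, G.P (a + j) (T w) = T (G.P a w)

/-- the form pairs degree `a` with degree `-a` -/
def Gr.Pair (G : Gr k W) (b : W →ₗ[k] W →ₗ[k] k) : Prop :=
  ∀ a u w, b (G.P a u) w = b u (G.P (-a) w)

variable (L : Type u) [LieRing L] [LieAlgebra k L] [LieRingModule L W] [LieModule k L W]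

/-- a nondegenerate invariant form, symmetric or alternating -/
structure IF (b : W →ₗ[k] W →ₗ[k] k) (ε : k) : Prop where
  nd : ∀ u, (∀ w, b u w = 0) → u = 0
  sym : ∀ u w, b u w = ε * b w u
  inv : ∀ (x : L) u w, b ⁅x, u⁆ w = - b u ⁅x, w⁆
  eps : ε = 1 ∨ ε = -1

variable {L} {b : W →ₗ[k] W →ₗ[k] k} {ε : k}

/-- self-adjoint traceless operators -/
def symN (H : IF L b ε) : LieSubmodule k L (W →ₗ[k] W) where
  carrier := {φ | (∀ u w, b (φ u) w = b u (φ w)) ∧ LinearMap.trace k W φ = 0}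
  zero_mem' := ⟨fun u w => by simp, map_zero _⟩
  add_mem' := fun {φ ψ} h1 h2 => ⟨fun u w => by simp [h1.1, h2.1], by
    rw [map_add, h1.2, h2.2, add_zero]⟩
  smul_mem' := fun c φ h1 => ⟨fun u w => by simp [h1.1], by rw [map_smul, h1.2, smul_zero]⟩
  lie_mem := fun {x φ} h1 => ⟨fun u w => by
    simp only [LieHom.lie_apply, map_sub, LinearMap.sub_apply, H.inv, h1.1]
    ring, by
    have : ⁅x, φ⁆ = LieModule.toEnd k L W x * φ - φ * LieModule.toEnd k L W x := by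
      ext u; simp
    rw [this, map_sub, LinearMap.trace_mul_comm, sub_self]⟩

/-- the scalars among them -/
def scal (H : IF L b ε) : LieSubmodule k L (symN H) where
  carrier := {φ | ∃ c : k, φ.1 = c • LinearMap.id}
  zero_mem' := ⟨0, by simp⟩
  add_mem' := fun {φ ψ} ⟨c, h1⟩ ⟨d, h2⟩ => ⟨c + d, by
    rw [add_smul, ← h1, ← h2]; rfl⟩
  smul_mem' := fun a φ ⟨c, h1⟩ => ⟨a * c, by rw [mul_smul, ← h1]; rfl⟩
  lie_mem := fun {x φ} ⟨c, h1⟩ => ⟨0, by
    rw [LieSubmodule.coe_bracket, h1]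
    ext u; simp⟩

/-- the module `Ω^⊥ / k Ω` -/
abbrev MM (H : IF L b ε) : Type u := symN H ⧸ scal H

variable (k) in
/-- vectors killed by a family -/
def Fix {ι : Type} (e : ι → L) (W : Type u) [AddCommGroup W] [Module k W] [LieRingModule L W]
    [LieModule k L W] : Submodule k W := ⨅ i, LinearMap.ker (LieModule.toEnd k L W (e i))

variable (k) in
/-- the Casimir type operator of two families -/
def cas (W : Type u) [AddCommGroup W] [Module k W] [LieRingModule L W] [LieModule k L W]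
    {ι : Type} [Fintype ι] (x y : ι → L) : Module.End k W :=
  ∑ c, LieModule.toEnd k L W (x c) * LieModule.toEnd k L W (y c)

variable (k) in
/-- a power of the Casimir operator times a product of two elements -/
def op (W : Type u) [AddCommGroup W] [Module k W] [LieRingModule L W] [LieModule k L W]
    {ι : Type} [Fintype ι] (x y : ι → L) (j : ℕ) (a a' : L) : Module.End k W :=
  cas k W x y ^ j * (LieModule.toEnd k L W a * LieModule.toEnd k L W a')

/-- twice the trace on the self-adjoint operators, on two-sided multiplications -/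
def LamA (b : W →ₗ[k] W →ₗ[k] k) (ε : k) (Λ : Module.End k (W →ₗ[k] W) →ₗ[k] k) : Prop :=
  ∀ A B B' : Module.End k W, (∀ u w, b (B u) w = b u (B' w)) →
    Λ (LinearMap.mulLeftRight k (A, B)) =
      LinearMap.trace k W A * LinearMap.trace k W B + ε * LinearMap.trace k W (A * B')

/-- dual bases for a form -/
structure DB {V : Type u} [AddCommGroup V] [Module k V] (κ : V →ₗ[k] V →ₗ[k] k) {ι : Type}
    [Fintype ι] (x y : ι → V) : Prop where
  hx : ∀ v, ∑ a, κ v (y a) • x a = v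
  hy : ∀ v, ∑ a, κ v (x a) • y a = v

end frame

end Pool.Agent.Lib.PRC
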